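import Pool.Agent.Lib.MP_0d06d9_alR.HK

/-!
# MP_0d06d9_al, Rae's theorem: infinite abelian torsion groups

Theorem `abelian_types`: an infinite abelian torsion group contains an infinite group of prime
exponent, or a quasicyclic group, or elements of infinitely many prime orders.
-/

set_option autoImplicit false

namespace MP0d06d9R

open Subgroup MP0d06d9

section Ab

variable {A : Type*} [CommGroup A]

/-- the elements with `x ^ m = 1` -/
def tor (A : Type*) [CommGroup A] (m : ℕ) : Set A := {x | x ^ m = 1}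

theorem tor_finite_mul (m n : ℕ) (hm : (tor A m).Finite) (hn : (tor A n).Finite) :
    (tor A (m * n)).Finite := by
  classical
  have h1 : tor A (m * n) ⊆ ⋃ y ∈ tor A n, {x | x ^ m = y} := by
    intro x hx
    have hx' : x ^ (m * n) = 1 := hx
    simp only [Set.mem_iUnion]
    refine ⟨x ^ m, ?_, rfl⟩
    show (x ^ m) ^ n = 1
    rw [← pow_mul]
    exact hx'
  refine Set.Finite.subset (Set.Finite.biUnion hn ?_) h1
  intro y _
  by_cases h : ∃ x₀ : A, x₀ ^ m = y
  · obtain ⟨x₀, hx₀⟩ := h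
    refine Set.Finite.subset (Set.Finite.image (fun z => x₀ * z) hm) ?_
    intro x hx
    have hx' : x ^ m = y := hx
    refine ⟨x₀⁻¹ * x, ?_, by group⟩
    show (x₀⁻¹ * x) ^ m = 1
    rw [mul_pow, inv_pow, hx₀, hx', inv_mul_cancel]
  · have h2 : {x : A | x ^ m = y} = ∅ := by
      ext x
      simp only [Set.mem_ofPred_eq, Set.mem_empty_iff_false, iff_false]
      intro hx
      exact h ⟨x, hx⟩
    rw [h2]
    exact Set.finite_empty

theorem tor_finite (hp : ∀ p : ℕ, p.Prime → (tor A p).Finite) (m : ℕ) (hm : m ≠ 0) :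
    (tor A m).Finite := by
  induction m using Nat.recOnMul with
  | zero => exact absurd rfl hm
  | one =>
    have h : tor A 1 = {1} := by
      ext x
      show x ^ 1 = 1 ↔ x = 1
      rw [pow_one]
    rw [h]
    exact Set.finite_singleton 1
  | prime p h => exact hp p h
  | mul a b ha hb =>
    have ha' : a ≠ 0 := fun h => hm (by rw [h, zero_mul])
    have hb' : b ≠ 0 := fun h => hm (by rw [h, mul_zero])
    exact tor_finite_mul a b (ha ha') (hb hb')

/-- Koenig's lemma for roots -/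
theorem exists_seq (p : ℕ) (hp : p.Prime) (hf : ∀ n : ℕ, (tor A (p ^ n)).Finite)
    (he : ∀ n : ℕ, ∃ x : A, orderOf x = p ^ n) :
    ∃ x : ℕ → A, x 0 = 1 ∧ x 1 ≠ 1 ∧ ∀ n, x (n + 1) ^ p = x n := by
  classical
  have hfin : ∀ n, Finite {x : A // orderOf x = p ^ n} := by
    intro n
    have hfn : Finite (tor A (p ^ n)) := (hf n).to_subtype
    refine Finite.of_injective (β := tor A (p ^ n)) (fun x => ⟨x.1, ?_⟩) ?_
    · have h1 := pow_orderOf_eq_one x.1
      have h2 := x.2
      rw [h2] at h1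
      exact h1
    · intro a b hab
      exact Subtype.ext (congrArg (fun z : tor A (p ^ n) => (z : A)) hab)
  have hne : ∀ n, Nonempty {x : A // orderOf x = p ^ n} := fun n => by
    obtain ⟨x, hx⟩ := he n
    exact ⟨⟨x, hx⟩⟩
  -- the elements of order `p ^ n` which have a root of order `p ^ m` for all `m ≥ n`
  let R : ℕ → A → Prop := fun n x => orderOf x = p ^ n ∧
    ∀ k : ℕ, ∃ y : A, orderOf y = p ^ (n + k) ∧ y ^ (p ^ k) = x
  have h0 : R 0 1 := by
    refine ⟨by simp, ?_⟩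
    intro k
    obtain ⟨y, hy⟩ := he k
    refine ⟨y, by rw [hy, zero_add], ?_⟩
    rw [← hy]
    exact pow_orderOf_eq_one y
  have hstep : ∀ n x, R n x → ∃ y, R (n + 1) y ∧ y ^ p = x := by
    intro n x hx
    by_contra hcon
    push Not at hcon
    -- each candidate fails at some level
    have h1 : ∀ y : A, ∃ k : ℕ, orderOf y = p ^ (n + 1) → y ^ p = x →
        ∀ z : A, orderOf z = p ^ (n + 1 + k) → z ^ (p ^ k) ≠ y := by
      intro y
      by_cases hy : orderOf y = p ^ (n + 1) ∧ y ^ p = x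
      · have h2 : ¬ R (n + 1) y := fun h => hcon y h hy.2
        have h3 : ¬ ∀ k : ℕ, ∃ z : A, orderOf z = p ^ (n + 1 + k) ∧ z ^ (p ^ k) = y :=
          fun h => h2 ⟨hy.1, h⟩
        push Not at h3
        obtain ⟨k, hk⟩ := h3
        exact ⟨k, fun _ _ => hk⟩
      · exact ⟨0, fun h h' => absurd ⟨h, h'⟩ hy⟩
    choose k hk using h1
    obtain ⟨K, hK⟩ : ∃ K : ℕ, ∀ y : {x : A // orderOf x = p ^ (n + 1)}, k y.1 ≤ K := by
      have := hfin (n + 1)
      obtain ⟨K, hK⟩ := (Set.finite_range (fun y : {x : A // orderOf x = p ^ (n + 1)} =>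
        k y.1)).bddAbove
      exact ⟨K, fun y => hK ⟨y, rfl⟩⟩
    obtain ⟨z, hz, hzx⟩ := hx.2 (1 + K)
    -- the element `y = z ^ (p ^ K)`
    have hzo : orderOf (z ^ (p ^ K)) = p ^ (n + 1) := by
      rw [orderOf_pow' _ (pow_ne_zero _ hp.ne_zero), hz]
      have h2 : p ^ (n + (1 + K)) = p ^ K * p ^ (n + 1) := by
        rw [← pow_add]
        congr 1
        omega
      rw [h2, Nat.gcd_mul_right_left, Nat.mul_div_cancel_left _ (pow_pos hp.pos K)]
    have hzp : (z ^ (p ^ K)) ^ p = x := by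
      rw [← pow_mul, ← pow_succ, add_comm K 1]
      exact hzx
    have hkK := hK ⟨_, hzo⟩
    have h4 := hk (z ^ (p ^ K)) hzo hzp (z ^ (p ^ (K - k (z ^ (p ^ K))))) ?_
    · apply h4
      rw [← pow_mul, ← pow_add]
      congr 2
      have : k (z ^ (p ^ K)) ≤ K := hkK
      omega
    · rw [orderOf_pow' _ (pow_ne_zero _ hp.ne_zero), hz]
      have h5 : k (z ^ (p ^ K)) ≤ K := hkK
      have h2 : p ^ (n + (1 + K)) =
          p ^ (K - k (z ^ (p ^ K))) * p ^ (n + 1 + k (z ^ (p ^ K))) := by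
        rw [← pow_add]
        congr 1
        omega
      rw [h2, Nat.gcd_mul_right_left, Nat.mul_div_cancel_left _ (pow_pos hp.pos _)]
  choose! g hg using hstep
  let x : ℕ → A := fun n => Nat.rec 1 (fun n y => g n y) n
  have hx : ∀ n, R n (x n) := by
    intro n
    induction n with
    | zero => exact h0
    | succ n ih => exact (hg n (x n) ih).1
  refine ⟨x, rfl, ?_, ?_⟩
  · intro h
    have h1 := (hx 1).1
    rw [h, orderOf_one, pow_one] at h1
    exact hp.one_lt.ne h1
  · intro n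
    exact (hg n (x n) (hx n)).2

/-- the three types -/
theorem abelian_types' [Infinite A] (ht : ∀ x : A, 0 < orderOf x) :
    (∃ p : ℕ, p.Prime ∧ (tor A p).Infinite) ∨
    (∃ p : ℕ, p.Prime ∧ ∃ x : ℕ → A, x 0 = 1 ∧ x 1 ≠ 1 ∧ ∀ n, x (n + 1) ^ p = x n) ∨
    (∃ S : Set ℕ, S.Infinite ∧ ∀ p ∈ S, p.Prime ∧ ∃ a : A, orderOf a = p) := by
  classical
  by_cases h3 : {p : ℕ | p.Prime ∧ ∃ a : A, orderOf a = p}.Infinite
  · exact Or.inr (Or.inr ⟨_, h3, fun p hp => hp⟩)
  rw [Set.not_infinite] at h3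
  by_cases h1 : ∃ p : ℕ, p.Prime ∧ (tor A p).Infinite
  · exact Or.inl h1
  refine Or.inr (Or.inl ?_)
  push Not at h1
  have hpf : ∀ p : ℕ, p.Prime → (tor A p).Finite := h1
  have hf := tor_finite hpf
  -- the product of the primes
  let P : Finset ℕ := h3.toFinset
  have hP : ∀ q ∈ P, q.Prime := fun q hq => ((Set.Finite.mem_toFinset h3).1 hq).1
  have hpr : ∀ (x : A) (q : ℕ), q.Prime → q ∣ orderOf x → q ∈ P := by
    intro x q hq hqx
    refine (Set.Finite.mem_toFinset h3).2 ⟨hq, x ^ (orderOf x / q), ?_⟩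
    exact orderOf_pow_orderOf_div (ht x).ne' hqx
  -- unbounded `p`-part
  have hex : ∀ k : ℕ, ∃ q ∈ P, ∃ x : A, orderOf x = q ^ k := by
    intro k
    by_contra hcon
    push Not at hcon
    have h4 : ∀ x : A, x ^ (∏ q ∈ P, q ^ k) = 1 := by
      intro x
      rw [← orderOf_dvd_iff_pow_eq_one]
      have h5 : orderOf x = ∏ q ∈ P, q ^ (orderOf x).factorization q := by
        have h6 := Nat.prod_factorization_pow_eq_self (ht x).ne'
        rw [Finsupp.prod] at h6
        conv_lhs => rw [← h6]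
        refine Finset.prod_subset ?_ ?_
        · intro q hq
          exact hpr x q (Nat.prime_of_mem_primeFactors hq) (Nat.dvd_of_mem_primeFactors hq)
        · intro q _ hq
          rw [Finsupp.notMem_support_iff.1 hq, pow_zero]
      rw [h5]
      refine Finset.prod_dvd_prod_of_dvd _ _ ?_
      intro q hq
      refine pow_dvd_pow q ?_
      by_contra hlt
      rw [not_le] at hlt
      have h7 : q ^ k ∣ orderOf x :=
        (pow_dvd_pow q hlt.le).trans (Nat.ordProj_dvd _ _)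
      refine hcon q hq (x ^ (orderOf x / q ^ k)) ?_
      exact orderOf_pow_orderOf_div (ht x).ne' h7
    have h5 : (tor A (∏ q ∈ P, q ^ k)).Finite := by
      refine hf _ ?_
      exact Finset.prod_ne_zero_iff.2 fun q hq => pow_ne_zero _ (hP q hq).ne_zero
    have h6 : tor A (∏ q ∈ P, q ^ k) = Set.univ := by
      ext x
      simp only [Set.mem_univ, iff_true]
      exact h4 x
    rw [h6] at h5
    exact Set.infinite_univ h5
  -- pigeonhole
  obtain ⟨q, hq, hqe⟩ : ∃ q ∈ P, ∀ k : ℕ, ∃ x : A, orderOf x = q ^ k := by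
    by_contra hcon
    push Not at hcon
    have h4 : ∀ q : ℕ, ∃ k : ℕ, q ∈ P → ∀ x : A, orderOf x ≠ q ^ k := by
      intro q
      by_cases hq : q ∈ P
      · obtain ⟨k, hk⟩ := hcon q hq
        exact ⟨k, fun _ => hk⟩
      · exact ⟨0, fun h => absurd h hq⟩
    choose k hk using h4
    obtain ⟨q, hq, x, hx⟩ := hex (∑ q ∈ P, k q)
    have h5 : k q ≤ ∑ q ∈ P, k q := Finset.single_le_sum (fun _ _ => Nat.zero_le _) hq
    refine hk q hq (x ^ (q ^ (∑ q ∈ P, k q) / q ^ k q)) ?_
    rw [← hx]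
    refine orderOf_pow_orderOf_div (ht x).ne' ?_
    rw [hx]
    exact pow_dvd_pow q h5
  exact ⟨q, hP q hq, exists_seq q (hP q hq) (fun n => hf _ (pow_ne_zero n (hP q hq).ne_zero)) hqe⟩

end Ab

/-- the three types of infinite abelian torsion groups -/
theorem abelian_types {Q : Type*} [Group Q] (L : Subgroup Q) (hL : Infinite L)
    (hc : ∀ a ∈ L, ∀ b ∈ L, a * b = b * a) (ht : ∀ a ∈ L, 0 < orderOf a) :
    (∃ p : ℕ, p.Prime ∧ ∃ E : Subgroup Q, E ≤ L ∧ Infinite E ∧ ∀ e ∈ E, e ^ p = 1) ∨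
    (∃ p : ℕ, p.Prime ∧ ∃ x : ℕ → Q, (∀ n, x n ∈ L) ∧ x 0 = 1 ∧ x 1 ≠ 1 ∧
      ∀ n, x (n + 1) ^ p = x n) ∨
    (∃ S : Set ℕ, S.Infinite ∧ ∃ a : ℕ → Q, ∀ p ∈ S, p.Prime ∧ a p ∈ L ∧ orderOf (a p) = p) := by
  classical
  let _ : CommGroup L := { (inferInstance : Group L) with
    mul_comm := fun a b => Subtype.ext (hc a a.2 b b.2) }
  have ht' : ∀ x : L, 0 < orderOf x := by
    intro x
    rw [← Subgroup.orderOf_coe]
    exact ht x x.2
  rcases abelian_types' (A := L) ht' with ⟨p, hp, h⟩ | ⟨p, hp, x, h0, h1, h⟩ | ⟨S, hS, h⟩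
  · refine Or.inl ⟨p, hp, ((powMonoidHom p : L →* L).ker).map L.subtype, ?_, ?_, ?_⟩
    · rintro _ ⟨y, -, rfl⟩
      exact y.2
    · have : Infinite (tor L p) := h.to_subtype
      have hm : ∀ z : tor L p, ((z : L) : Q) ∈ ((powMonoidHom p : L →* L).ker).map L.subtype := by
        intro z
        exact ⟨(z : L), z.2, rfl⟩
      refine Infinite.of_injective (fun z : tor L p => (⟨((z : L) : Q), hm z⟩ :
        (((powMonoidHom p : L →* L).ker).map L.subtype : Subgroup Q))) ?_
      · intro a b hab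
        exact Subtype.ext (Subtype.ext (congrArg (fun z :
          (((powMonoidHom p : L →* L).ker).map L.subtype : Subgroup Q) => (z : Q)) hab))
    · rintro _ ⟨y, hy, rfl⟩
      have hy' : y ^ p = 1 := hy
      exact congrArg Subtype.val hy'
  · refine Or.inr (Or.inl ⟨p, hp, fun n => x n, fun n => (x n).2, ?_, ?_, ?_⟩)
    · show ((x 0 : L) : Q) = 1
      rw [h0]
      rfl
    · intro h2
      exact h1 (Subtype.ext h2)
    · intro n
      exact congrArg Subtype.val (h n)
  · refine Or.inr (Or.inr ⟨S, hS, ?_⟩)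
    have h2 : ∀ p : ℕ, ∃ a : Q, p ∈ S → (p.Prime ∧ a ∈ L ∧ orderOf a = p) := by
      intro p
      by_cases hp : p ∈ S
      · obtain ⟨h3, a, ha⟩ := h p hp
        refine ⟨a, fun _ => ⟨h3, a.2, ?_⟩⟩
        rw [Subgroup.orderOf_coe]
        exact ha
      · exact ⟨1, fun h => absurd h hp⟩
    choose a ha using h2
    exact ⟨a, ha⟩

end MP0d06d9R
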