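import Pool.Agent.Lib.MP_0d06d9_alR.HK
import Pool.Agent.Lib.MP_0d06d9_al.CLb

/-!
# MP_0d06d9_al, Rae's theorem: infinite elementary abelian groups

`gen_fin`: a finite soluble group with a coprime action of a group of type `(p, p)` generated by
`x` and `y` is generated by the centralisers of `x` and of the elements `x ^ i * y`.
`typeI`: an infinite group of exponent `p` cannot act sparsely and faithfully.
-/

set_option autoImplicit false

namespace MP0d06d9R

open Subgroup MP0d06d9 commutatorElement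

/-! ## generation, abelian case -/

section GenAb

/-- reindexing of the products over the lines of `(ZMod p)²` -/
theorem lines {A : Type*} [CommGroup A] (p : ℕ) [Fact p.Prime] (F : ZMod p → ZMod p → A) :
    (∏ i : ZMod p, ∏ j : ZMod p, F (i * j) j) * (∏ i : ZMod p, F i 0) =
      (F 0 0) ^ p * ∏ j : ZMod p, ∏ i : ZMod p, F i j := by
  classical
  rw [Finset.prod_comm]
  have h1 := Fintype.prod_eq_mul_prod_compl (0 : ZMod p) (fun j => ∏ i : ZMod p, F (i * j) j)
  have h2 := Fintype.prod_eq_mul_prod_compl (0 : ZMod p) (fun j => ∏ i : ZMod p, F i j)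
  rw [h1, h2]
  have h3 : (∏ j ∈ ({0} : Finset (ZMod p))ᶜ, ∏ i : ZMod p, F (i * j) j) =
      ∏ j ∈ ({0} : Finset (ZMod p))ᶜ, ∏ i : ZMod p, F i j := by
    refine Finset.prod_congr rfl ?_
    intro j hj
    have hj0 : j ≠ 0 := by simpa using hj
    exact Fintype.prod_equiv (Equiv.mulRight₀ j hj0) (fun i => F (i * j) j) (fun i => F i j)
      (fun i => rfl)
  rw [h3]
  have h4 : (∏ i : ZMod p, F (i * 0) 0) = (F 0 0) ^ p := by
    simp only [mul_zero, Finset.prod_const, Finset.card_univ, ZMod.card]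
  rw [h4, mul_assoc, mul_comm (∏ j ∈ ({0} : Finset (ZMod p))ᶜ, ∏ i : ZMod p, F i j)]

theorem pow_val_add {M : Type*} [Monoid M] (p : ℕ) [Fact p.Prime] (a : M) (ha : a ^ p = 1)
    (i j : ZMod p) : a ^ (i + j).val = a ^ i.val * a ^ j.val := by
  rw [ZMod.val_add, ← pow_add, ← pow_eq_pow_mod _ ha]

theorem pow_val_mul {M : Type*} [Monoid M] (p : ℕ) [Fact p.Prime] (a : M) (ha : a ^ p = 1)
    (i j : ZMod p) : a ^ (i * j).val = (a ^ i.val) ^ j.val := by
  rw [ZMod.val_mul, ← pow_mul, ← pow_eq_pow_mod _ ha]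

theorem pow_val_one {M : Type*} [Monoid M] (p : ℕ) [hp : Fact p.Prime] (a : M) :
    a ^ (1 : ZMod p).val = a := by
  have : Fact (1 < p) := ⟨hp.out.one_lt⟩
  rw [ZMod.val_one, pow_one]

variable {A : Type*} [CommGroup A]

/-- abelian case -/
theorem gen_ab [Finite A] (p : ℕ) [hp : Fact p.Prime] (hpA : ¬ p ∣ Nat.card A) (α β : MulAut A)
    (hc : α * β = β * α) (hα : α ^ p = 1) (hβ : β ^ p = 1) (S : Subgroup A)
    (h1 : ∀ a, α a = a → a ∈ S) (h2 : ∀ (i : ℕ) (a : A), (α ^ i * β) a = a → a ∈ S) (a : A) :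
    a ∈ S := by
  classical
  have hcm : Commute α β := hc
  let F : ZMod p → ZMod p → A := fun i j => (α ^ i.val * β ^ j.val) a
  have hF1 : ∀ i j, α (F i j) = F (1 + i) j := by
    intro i j
    show α ((α ^ i.val * β ^ j.val) a) = (α ^ (1 + i).val * β ^ j.val) a
    rw [pow_val_add p α hα, pow_val_one, mul_assoc, ← MulAut.mul_apply]
  have hF2 : ∀ i j, (α ^ i.val * β) (F (i * j) j) = F (i * (1 + j)) (1 + j) := by
    intro i j
    show (α ^ i.val * β) ((α ^ (i * j).val * β ^ j.val) a) =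
      (α ^ (i * (1 + j)).val * β ^ (1 + j).val) a
    rw [← MulAut.mul_apply]
    have h3 : α ^ i.val * β * (α ^ (i * j).val * β ^ j.val) =
        α ^ (i * (1 + j)).val * β ^ (1 + j).val := by
      rw [mul_add, mul_one, pow_val_add p α hα, pow_val_add p β hβ, pow_val_one]
      have h4 : β * α ^ (i * j).val = α ^ (i * j).val * β := (hcm.pow_left _).symm
      calc α ^ i.val * β * (α ^ (i * j).val * β ^ j.val)
          = α ^ i.val * (β * α ^ (i * j).val) * β ^ j.val := by group
        _ = α ^ i.val * (α ^ (i * j).val * β) * β ^ j.val := by rw [h4]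
        _ = _ := by group
    rw [h3]
  have hcol : ∀ j, (∏ i : ZMod p, F i j) ∈ S := by
    intro j
    apply h1
    rw [map_prod]
    simp only [hF1]
    exact Fintype.prod_equiv (Equiv.addLeft (1 : ZMod p)) _ _ (fun i => rfl)
  have hrow : ∀ i : ZMod p, (∏ j : ZMod p, F (i * j) j) ∈ S := by
    intro i
    apply h2 i.val
    rw [map_prod]
    simp only [hF2]
    exact Fintype.prod_equiv (Equiv.addLeft (1 : ZMod p)) _ _ (fun i => rfl)
  have hl := lines p F
  have hF0 : F 0 0 = a := by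
    show (α ^ (0 : ZMod p).val * β ^ (0 : ZMod p).val) a = a
    rw [ZMod.val_zero, pow_zero, pow_zero]
    rfl
  have h5 : a ^ p ∈ S := by
    have h6 : a ^ p = (∏ i : ZMod p, ∏ j : ZMod p, F (i * j) j) * (∏ i : ZMod p, F i 0) *
        (∏ j : ZMod p, ∏ i : ZMod p, F i j)⁻¹ := by
      rw [hl, hF0]
      group
    rw [h6]
    refine S.mul_mem (S.mul_mem (Subgroup.prod_mem S fun i _ => hrow i) (hcol 0)) (S.inv_mem ?_)
    exact Subgroup.prod_mem S fun j _ => hcol j
  have hco : (orderOf a).Coprime p := by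
    rw [Nat.coprime_comm, hp.out.coprime_iff_not_dvd]
    exact fun h => hpA (h.trans (orderOf_dvd_natCard a))
  obtain ⟨m, hm⟩ := exists_pow_eq_self_of_coprime hco.symm
  rw [← hm]
  exact S.pow_mem h5 m

end GenAb

/-! ## generation, soluble case -/

section GenFin

variable {G : Type*} [Group G]

/-- conjugation by `z` as an automorphism of `P` -/
def cjP (P : Subgroup G) (z : G) (hz : z ∈ normalizer (P : Set G)) : P ≃* P where
  toFun m := ⟨z * m * z⁻¹, (mem_normalizer_iff.1 hz m).1 m.2⟩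
  invFun m := ⟨z⁻¹ * m * z, (mem_normalizer_iff''.1 hz m).1 m.2⟩
  left_inv m := by
    apply Subtype.ext
    show z⁻¹ * (z * m * z⁻¹) * z = m
    group
  right_inv m := by
    apply Subtype.ext
    show z * (z⁻¹ * m * z) * z⁻¹ = m
    group
  map_mul' a b := by
    apply Subtype.ext
    show z * ((a : G) * b) * z⁻¹ = (z * a * z⁻¹) * (z * b * z⁻¹)
    group

/-- the induced automorphism of `P / N` -/
def cjQ (P N : Subgroup G) [(N.subgroupOf P).Normal] (z : G) (hz : z ∈ normalizer (P : Set G))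
    (hzN : z ∈ normalizer (N : Set G)) : MulAut (P ⧸ N.subgroupOf P) :=
  QuotientGroup.congr _ _ (cjP P z hz) (by
    ext m
    rw [Subgroup.mem_map]
    constructor
    · rintro ⟨n, hn, rfl⟩
      exact (mem_normalizer_iff.1 hzN n).1 hn
    · intro hm
      refine ⟨(cjP P z hz).symm m, ?_, ?_⟩
      · exact (mem_normalizer_iff''.1 hzN m).1 hm
      · exact (cjP P z hz).apply_symm_apply m)

theorem cjQ_mk (P N : Subgroup G) [(N.subgroupOf P).Normal] (z : G)
    (hz : z ∈ normalizer (P : Set G)) (hzN : z ∈ normalizer (N : Set G)) (m : P) :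
    cjQ P N z hz hzN (QuotientGroup.mk m) = QuotientGroup.mk (cjP P z hz m) := rfl

theorem cjQ_pow (P N : Subgroup G) [(N.subgroupOf P).Normal] (z : G)
    (hz : z ∈ normalizer (P : Set G)) (hzN : z ∈ normalizer (N : Set G)) (i : ℕ) (m : P) :
    ((cjQ P N z hz hzN) ^ i) (QuotientGroup.mk m) =
      QuotientGroup.mk (cjP P (z ^ i) (pow_mem hz i) m) := by
  induction i generalizing m with
  | zero =>
    rw [pow_zero]
    show (QuotientGroup.mk m : P ⧸ N.subgroupOf P) = _
    congr 1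
    apply Subtype.ext
    show (m : G) = z ^ 0 * m * (z ^ 0)⁻¹
    simp
  | succ i ih =>
    rw [pow_succ, MulAut.mul_apply, cjQ_mk, ih]
    congr 1
    apply Subtype.ext
    show z ^ i * (z * m * z⁻¹) * (z ^ i)⁻¹ = z ^ (i + 1) * m * (z ^ (i + 1))⁻¹
    rw [pow_succ]
    group

/-- an element which is fixed modulo `N` is a fixed element times an element of `N` -/
theorem fixC (P N C : Subgroup G) [Finite P] (hNP : N ≤ P) (hNC : N ≤ C) (p : ℕ)
    [hp : Fact p.Prime] (hpP : ¬ p ∣ Nat.card P) (z : G) (hz : z ^ p = 1)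
    (hzN : z ∈ normalizer (N : Set G)) (hC : ∀ m ∈ P, z * m = m * z → m ∈ C) (m : G)
    (hm : m ∈ P) (hmz : m⁻¹ * (z * m * z⁻¹) ∈ N) : m ∈ C := by
  have hN : Finite N := finite_of_le hNP inferInstance
  have hzo : orderOf z ∣ p := orderOf_dvd_of_pow_eq_one hz
  have hfo : IsOfFinOrder z := orderOf_pos_iff.1 (Nat.pos_of_dvd_of_pos hzo hp.out.pos)
  have hZ : Finite (zpowers z) := finite_zpowers.2 hfo
  have hpw : ∀ k : ℕ, m⁻¹ * (z ^ k * m * (z ^ k)⁻¹) ∈ N := by
    intro k
    induction k with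
    | zero =>
      have h1 : m⁻¹ * (z ^ 0 * m * (z ^ 0)⁻¹) = 1 := by simp
      rw [h1]
      exact N.one_mem
    | succ k ih =>
      have h1 : m⁻¹ * (z ^ (k + 1) * m * (z ^ (k + 1))⁻¹) =
          (m⁻¹ * (z * m * z⁻¹)) * (z * (m⁻¹ * (z ^ k * m * (z ^ k)⁻¹)) * z⁻¹) := by
        rw [pow_succ']
        group
      rw [h1]
      exact N.mul_mem hmz ((mem_normalizer_iff.1 hzN _).1 ih)
  have hsol : Group.IsSolvable (zpowers z) := by
    refine Group.isSolvable_of_comm ?_
    rintro ⟨a, ha⟩ ⟨b, hb⟩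
    obtain ⟨i, rfl⟩ := mem_zpowers_iff.1 ha
    obtain ⟨j, rfl⟩ := mem_zpowers_iff.1 hb
    apply Subtype.ext
    show z ^ i * z ^ j = z ^ j * z ^ i
    rw [← zpow_add, ← zpow_add, add_comm]
  obtain ⟨n, hn, hfix⟩ := cl (zpowers z) N hZ hsol hN (by rw [zpowers_le]; exact hzN) (by
    rw [Nat.card_zpowers]
    have h1 : Nat.Coprime p (Nat.card N) := by
      rw [hp.out.coprime_iff_not_dvd]
      intro h
      exact hpP (h.trans (Subgroup.card_dvd_of_le hNP))
    exact Nat.Coprime.coprime_dvd_left hzo h1) m (by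
    intro a ha
    obtain ⟨k, rfl⟩ := hfo.mem_powers_iff_mem_zpowers.2 ha
    exact hpw k)
  have h1 := hfix z (mem_zpowers z)
  have h2 : m * n ∈ C := by
    apply hC _ (P.mul_mem hm (hNP hn))
    calc z * (m * n) = (z * (m * n) * z⁻¹) * z := by group
      _ = _ := by rw [h1]
  have h3 := C.mul_mem h2 (C.inv_mem (hNC hn))
  rwa [mul_inv_cancel_right] at h3

/-- one step of the derived series -/
theorem gen_step (P N C : Subgroup G) [Finite P] (hNP : N ≤ P)
    (hcm : ∀ a ∈ P, ∀ b ∈ P, ⁅a, b⁆ ∈ N) (p : ℕ) [hp : Fact p.Prime]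
    (hpP : ¬ p ∣ Nat.card P) (x y : G) (hxy : x * y = y * x) (hx : x ^ p = 1) (hy : y ^ p = 1)
    (hxP : x ∈ normalizer (P : Set G)) (hyP : y ∈ normalizer (P : Set G))
    (hxN : x ∈ normalizer (N : Set G)) (hyN : y ∈ normalizer (N : Set G)) (hNC : N ≤ C)
    (h1 : ∀ m ∈ P, x * m = m * x → m ∈ C)
    (h2 : ∀ i : ℕ, ∀ m ∈ P, (x ^ i * y) * m = m * (x ^ i * y) → m ∈ C) : P ≤ C := by
  have hnor : (N.subgroupOf P).Normal := by
    constructor
    intro n hn g
    have h3 : (g : G) * n * (g : G)⁻¹ = ⁅(g : G), (n : G)⁆ * n := by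
      rw [commutatorElement_def]
      group
    show (g : G) * n * (g : G)⁻¹ ∈ N
    rw [h3]
    exact N.mul_mem (hcm g g.2 n n.2) hn
  let _ : CommGroup (P ⧸ N.subgroupOf P) := { (inferInstance : Group (P ⧸ N.subgroupOf P)) with
    mul_comm := by
      intro a b
      obtain ⟨a, rfl⟩ := QuotientGroup.mk_surjective a
      obtain ⟨b, rfl⟩ := QuotientGroup.mk_surjective b
      rw [← commutatorElement_eq_one_iff_mul_comm]
      have h3 : ⁅(QuotientGroup.mk a : P ⧸ N.subgroupOf P),
          (QuotientGroup.mk b : P ⧸ N.subgroupOf P)⁆ =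
          (QuotientGroup.mk (a * b * a⁻¹ * b⁻¹) : P ⧸ N.subgroupOf P) := by
        rw [commutatorElement_def]
        rfl
      rw [h3, QuotientGroup.eq_one_iff]
      have h4 := hcm a a.2 b b.2
      rw [commutatorElement_def] at h4
      exact h4 }
  have hfq : Finite (P ⧸ N.subgroupOf P) := inferInstance
  have hcq : ¬ p ∣ Nat.card (P ⧸ N.subgroupOf P) := fun h =>
    hpP (h.trans (Subgroup.card_quotient_dvd_card _))
  have hpow1 : ∀ (z : G) (hz : z ^ p = 1) (hzP : z ∈ normalizer (P : Set G))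
      (hzN : z ∈ normalizer (N : Set G)), (cjQ P N z hzP hzN) ^ p = 1 := by
    intro z hz hzP hzN
    ext a
    obtain ⟨m, rfl⟩ := QuotientGroup.mk_surjective a
    rw [cjQ_pow, MulAut.one_apply]
    congr 1
    apply Subtype.ext
    show z ^ p * m * (z ^ p)⁻¹ = m
    rw [hz]
    simp
  have hgen := gen_ab p hcq (cjQ P N x hxP hxN) (cjQ P N y hyP hyN) ?_ (hpow1 x hx hxP hxN)
    (hpow1 y hy hyP hyN) ((C.subgroupOf P).map (QuotientGroup.mk' (N.subgroupOf P))) ?_ ?_
  · intro m hm
    obtain ⟨c, hc, hcm'⟩ := hgen (QuotientGroup.mk ⟨m, hm⟩)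
    have h3 := QuotientGroup.eq.1 hcm'
    have h4 : (c : G)⁻¹ * m ∈ N := h3
    have hc' : (c : G) ∈ C := hc
    have h5 := C.mul_mem hc' (hNC h4)
    rwa [mul_inv_cancel_left] at h5
  · ext a
    obtain ⟨m, rfl⟩ := QuotientGroup.mk_surjective a
    rw [MulAut.mul_apply, MulAut.mul_apply, cjQ_mk, cjQ_mk, cjQ_mk, cjQ_mk]
    congr 1
    apply Subtype.ext
    show x * (y * m * y⁻¹) * x⁻¹ = y * (x * m * x⁻¹) * y⁻¹
    have h3 : x * (y * m * y⁻¹) * x⁻¹ = (x * y) * m * (x * y)⁻¹ := by group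
    rw [h3, hxy]
    group
  · intro a ha
    obtain ⟨m, rfl⟩ := QuotientGroup.mk_surjective a
    rw [cjQ_mk] at ha
    have h0 := QuotientGroup.eq.1 ha.symm
    have h3 : (m : G)⁻¹ * (x * m * x⁻¹) ∈ N := h0
    refine ⟨m, ?_, rfl⟩
    exact fixC P N C hNP hNC p hpP x hx hxN h1 m m.2 h3
  · intro i a ha
    obtain ⟨m, rfl⟩ := QuotientGroup.mk_surjective a
    rw [MulAut.mul_apply, cjQ_mk, cjQ_pow] at ha
    have h0 := QuotientGroup.eq.1 ha.symm
    have h3 : (m : G)⁻¹ * (x ^ i * (y * m * y⁻¹) * (x ^ i)⁻¹) ∈ N := h0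
    have h4 : x ^ i * (y * m * y⁻¹) * (x ^ i)⁻¹ = (x ^ i * y) * m * (x ^ i * y)⁻¹ := by group
    rw [h4] at h3
    refine ⟨m, ?_, rfl⟩
    refine fixC P N C hNP hNC p hpP (x ^ i * y) ?_ ?_ (h2 i) m m.2 h3
    · have hcm2 : Commute (x ^ i) y := (show Commute x y from hxy).pow_left i
      rw [hcm2.mul_pow, ← pow_mul, mul_comm i p, pow_mul, hx, hy, one_pow, one_mul]
    · exact (normalizer (N : Set G)).mul_mem (pow_mem hxN i) hyN

theorem normalizer_derived (M : Subgroup G) (z : G) (hz : z ∈ normalizer (M : Set G)) (j : ℕ) :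
    z ∈ normalizer (((derivedSeries M j).map M.subtype : Subgroup G) : Set G) := by
  have hch : ∀ (e : M ≃* M) (m : M), m ∈ derivedSeries M j → e m ∈ derivedSeries M j := by
    intro e m hm
    have h1 := (Subgroup.characteristic_iff_map_eq.1
      (inferInstance : (derivedSeries M j).Characteristic)) e
    rw [← h1]
    exact ⟨m, hm, rfl⟩
  rw [mem_normalizer_iff]
  intro h
  constructor
  · rintro ⟨m, hm, rfl⟩
    exact ⟨cjP M z hz m, hch _ m hm, rfl⟩
  · rintro ⟨m, hm, hmh⟩
    refine ⟨(cjP M z hz).symm m, hch _ m hm, ?_⟩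
    show z⁻¹ * (m : G) * z = h
    have h1 : (m : G) = z * h * z⁻¹ := hmh
    rw [h1]
    group

/-- a finite soluble group with a coprime action of a group of type `(p, p)` is generated by the
centralisers of the nontrivial elements -/
theorem gen_fin (M C : Subgroup G) [Finite M] (hs : Group.IsSolvable M) (p : ℕ)
    [hp : Fact p.Prime] (hpM : ¬ p ∣ Nat.card M) (x y : G) (hxy : x * y = y * x)
    (hx : x ^ p = 1) (hy : y ^ p = 1) (hxM : x ∈ normalizer (M : Set G))
    (hyM : y ∈ normalizer (M : Set G)) (h1 : ∀ m ∈ M, x * m = m * x → m ∈ C)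
    (h2 : ∀ i : ℕ, ∀ m ∈ M, (x ^ i * y) * m = m * (x ^ i * y) → m ∈ C) : M ≤ C := by
  obtain ⟨n, hn⟩ := hs.solvable
  have key : ∀ k : ℕ, k ≤ n → (derivedSeries M (n - k)).map M.subtype ≤ C := by
    intro k
    induction k with
    | zero =>
      intro _
      rw [Nat.sub_zero, hn, Subgroup.map_bot]
      exact bot_le
    | succ k ih =>
      intro hk
      have hM : ∀ j, (derivedSeries M j).map M.subtype ≤ M := by
        rintro j _ ⟨m, -, rfl⟩
        exact m.2
      have hj : n - k = n - (k + 1) + 1 := by omega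
      have ih' := ih (by omega)
      rw [hj] at ih'
      have hfin : Finite ((derivedSeries M (n - (k + 1))).map M.subtype) :=
        finite_of_le (hM _) inferInstance
      refine gen_step ((derivedSeries M (n - (k + 1))).map M.subtype)
        ((derivedSeries M (n - (k + 1) + 1)).map M.subtype) C ?_ ?_ p ?_ x y hxy hx hy
        (normalizer_derived M x hxM _) (normalizer_derived M y hyM _)
        (normalizer_derived M x hxM _) (normalizer_derived M y hyM _) ih' ?_ ?_
      · exact Subgroup.map_mono (derivedSeries_antitone M (Nat.le_succ _))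
      · rintro _ ⟨a, ha, rfl⟩ _ ⟨b, hb, rfl⟩
        refine ⟨⁅a, b⁆, ?_, rfl⟩
        rw [derivedSeries_succ]
        exact commutator_mem_commutator ha hb
      · intro h
        exact hpM (h.trans (Subgroup.card_dvd_of_le (hM _)))
      · intro m hm
        exact h1 m (hM _ hm)
      · intro i m hm
        exact h2 i m (hM _ hm)
  have h3 := key n le_rfl
  rw [Nat.sub_self, derivedSeries_zero] at h3
  intro m hm
  exact h3 ⟨⟨m, hm⟩, mem_top _, rfl⟩

end GenFin

/-! ## type (i) -/

section TypeI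

variable {G : Type*} [Group G]

/-- generation for locally finite groups: a subgroup `C` containing the fixed points of `x` and
`x ^ i * y` in `M` contains `M` -/
theorem gen_lf (lf : LocFin G) {π : Set ℕ} (M C : Subgroup G) (hM : IsPi πᶜ M) (ls : LocSol M)
    (p : ℕ) [hp : Fact p.Prime] (hpπ : p ∈ π) (x y : G) (hxy : x * y = y * x)
    (hx : x ^ p = 1) (hy : y ^ p = 1) (hxM : x ∈ normalizer (M : Set G))
    (hyM : y ∈ normalizer (M : Set G)) (h1 : ∀ m ∈ M, x * m = m * x → m ∈ C)
    (h2 : ∀ i : ℕ, ∀ m ∈ M, (x ^ i * y) * m = m * (x ^ i * y) → m ∈ C) : M ≤ C := by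
  classical
  intro m hm
  -- the finite invariant subgroup
  let S : Finset G := (Finset.range p ×ˢ Finset.range p).image
    (fun ij => (x ^ ij.1 * y ^ ij.2) * m * (x ^ ij.1 * y ^ ij.2)⁻¹)
  have hS : ∀ i j : ℕ, (x ^ i * y ^ j) * m * (x ^ i * y ^ j)⁻¹ ∈ S := by
    intro i j
    rw [Finset.mem_image]
    refine ⟨(i % p, j % p), ?_, ?_⟩
    · rw [Finset.mem_product, Finset.mem_range, Finset.mem_range]
      exact ⟨Nat.mod_lt _ hp.out.pos, Nat.mod_lt _ hp.out.pos⟩
    · show (x ^ (i % p) * y ^ (j % p)) * m * (x ^ (i % p) * y ^ (j % p))⁻¹ = _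
      rw [← pow_eq_pow_mod i hx, ← pow_eq_pow_mod j hy]
  have hSM : (S : Set G) ⊆ M := by
    intro s hs
    rw [Finset.mem_coe, Finset.mem_image] at hs
    obtain ⟨ij, -, rfl⟩ := hs
    have h3 : x ^ ij.1 * y ^ ij.2 ∈ normalizer (M : Set G) :=
      (normalizer (M : Set G)).mul_mem (pow_mem hxM _) (pow_mem hyM _)
    exact (mem_normalizer_iff.1 h3 m).1 hm
  have hcl : closure (S : Set G) ≤ M := (closure_le _).2 hSM
  have hfin : Finite (closure (S : Set G)) := lf S
  have hcm : Commute x y := hxy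
  have hxS : ∀ s ∈ (S : Set G), x * s * x⁻¹ ∈ closure (S : Set G) := by
    intro s hs
    rw [Finset.mem_coe, Finset.mem_image] at hs
    obtain ⟨ij, -, rfl⟩ := hs
    have h3 : x * ((x ^ ij.1 * y ^ ij.2) * m * (x ^ ij.1 * y ^ ij.2)⁻¹) * x⁻¹ =
        (x ^ (ij.1 + 1) * y ^ ij.2) * m * (x ^ (ij.1 + 1) * y ^ ij.2)⁻¹ := by
      rw [pow_succ']
      group
    rw [h3]
    exact subset_closure (hS _ _)
  have hyS : ∀ s ∈ (S : Set G), y * s * y⁻¹ ∈ closure (S : Set G) := by
    intro s hs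
    rw [Finset.mem_coe, Finset.mem_image] at hs
    obtain ⟨ij, -, rfl⟩ := hs
    have h4 : y * x ^ ij.1 = x ^ ij.1 * y := (hcm.pow_left ij.1).symm
    have h3 : y * ((x ^ ij.1 * y ^ ij.2) * m * (x ^ ij.1 * y ^ ij.2)⁻¹) * y⁻¹ =
        (x ^ ij.1 * y ^ (ij.2 + 1)) * m * (x ^ ij.1 * y ^ (ij.2 + 1))⁻¹ := by
      have h5 : y * (x ^ ij.1 * y ^ ij.2) = x ^ ij.1 * y ^ (ij.2 + 1) := by
        rw [pow_succ', ← mul_assoc, h4, mul_assoc]
      rw [← h5]
      group
    rw [h3]
    exact subset_closure (hS _ _)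
  have hnorm : ∀ z : G, z ^ p = 1 → (∀ s ∈ (S : Set G), z * s * z⁻¹ ∈ closure (S : Set G)) →
      z ∈ normalizer ((closure (S : Set G) : Subgroup G) : Set G) := by
    intro z hz hzS
    have h3 : ∀ w ∈ closure (S : Set G), z * w * z⁻¹ ∈ closure (S : Set G) := by
      intro w hw
      have h4 : closure (S : Set G) ≤
          (closure (S : Set G)).comap (MulAut.conj z).toMonoidHom := by
        rw [closure_le]
        exact hzS
      exact h4 hw
    have h5 : ∀ k : ℕ, ∀ w ∈ closure (S : Set G), z ^ k * w * (z ^ k)⁻¹ ∈ closure (S : Set G) := by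
      intro k
      induction k with
      | zero => intro w hw; simpa using hw
      | succ k ih =>
        intro w hw
        have h6 : z ^ (k + 1) * w * (z ^ (k + 1))⁻¹ = z * (z ^ k * w * (z ^ k)⁻¹) * z⁻¹ := by
          rw [pow_succ']
          group
        rw [h6]
        exact h3 _ (ih w hw)
    rw [mem_normalizer_iff]
    intro w
    refine ⟨h3 w, ?_⟩
    intro hw
    have h7 := h5 (p - 1) _ hw
    have h8 : z ^ (p - 1) * (z * w * z⁻¹) * (z ^ (p - 1))⁻¹ = w := by
      have h9 : z ^ (p - 1) * z = 1 := by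
        rw [← pow_succ, Nat.sub_add_cancel hp.out.one_lt.le, hz]
      calc z ^ (p - 1) * (z * w * z⁻¹) * (z ^ (p - 1))⁻¹
          = (z ^ (p - 1) * z) * w * (z ^ (p - 1) * z)⁻¹ := by group
        _ = w := by rw [h9]; simp
    rwa [h8] at h7
  have hcard : ¬ p ∣ Nat.card (closure (S : Set G)) := by
    intro h
    obtain ⟨g, hg⟩ := exists_prime_orderOf_dvd_card' p h
    have h3 : orderOf (g : G) = p := by rw [Subgroup.orderOf_coe]; exact hg
    exact hM g (hcl g.2) p hp.out (by rw [h3]) hpπ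
  have h3 := gen_fin (closure (S : Set G)) C (ls S hSM) p hcard x y hxy hx hy
    (hnorm x hx hxS) (hnorm y hy hyS) (fun w hw => h1 w (hcl hw)) (fun i w hw => h2 i w (hcl hw))
  apply h3
  apply Subgroup.subset_closure
  have h4 := hS 0 0
  simpa using h4

/-- the closed subgroup generated by `D` -/
def cC (H L D : Subgroup G) : Subgroup G :=
  L ⊓ centralizer ((H ⊓ centralizer (D : Set G) : Subgroup G) : Set G)

theorem le_cC (H L D : Subgroup G) (hD : D ≤ L) : D ≤ cC H L D := by
  intro d hd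
  refine ⟨hD hd, ?_⟩
  show d ∈ centralizer _
  rw [mem_centralizer_iff]
  rintro h ⟨-, hh⟩
  exact ((mem_centralizer_iff.1 hh) d hd).symm

theorem cC_cent (H L D : Subgroup G) (hD : D ≤ L) :
    H ⊓ centralizer ((cC H L D : Subgroup G) : Set G) = H ⊓ centralizer (D : Set G) := by
  apply le_antisymm
  · rintro h ⟨hh, hc⟩
    refine ⟨hh, ?_⟩
    show h ∈ centralizer _
    rw [mem_centralizer_iff]
    intro d hd
    exact (mem_centralizer_iff.1 hc) d (le_cC H L D hD hd)
  · rintro h ⟨hh, hc⟩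
    refine ⟨hh, ?_⟩
    show h ∈ centralizer _
    rw [mem_centralizer_iff]
    rintro d ⟨-, hd⟩
    exact ((mem_centralizer_iff.1 hd) h ⟨hh, hc⟩).symm

/-- TYPE (i): an infinite abelian group of exponent `p` cannot act sparsely and faithfully -/
theorem typeI (lf : LocFin G) {π : Set ℕ} {H K : Subgroup G} (hn : H.Normal)
    (hH : IsPi πᶜ H) (ls : LocSol H) (sp : Sparse H K) (p : ℕ) (hp : p.Prime) (hpπ : p ∈ π)
    (L : Subgroup G) (hLK : L ≤ K) (hinf : Infinite L) (hc : ∀ a ∈ L, ∀ b ∈ L, a * b = b * a)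
    (hexp : ∀ a ∈ L, a ^ p = 1) (hfaith : ∀ a ∈ L, (∀ h ∈ H, a * h = h * a) → a = 1) :
    False := by
  classical
  have : Fact p.Prime := ⟨hp⟩
  obtain ⟨D, hDm⟩ : ∃ D : Subgroup G, Maximal (fun D : Subgroup G =>
      D ≤ L ∧ cC H L D ≤ D ∧ D.relIndex L = 0) D := by
    have hz := zorn_le_nonempty₀ {D : Subgroup G | D ≤ L ∧ cC H L D ≤ D ∧ D.relIndex L = 0} ?_ ⊥ ?_
    · obtain ⟨D, -, hD⟩ := hz
      exact ⟨D, hD⟩
    · intro c hcc hchain y hy
      have hdir : DirectedOn (· ≤ ·) c := hchain.directedOn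
      have hle : sSup c ≤ L := sSup_le fun D hD => (hcc hD).1
      obtain ⟨F, hFle, hFf, hF⟩ := sp (sSup c) (hle.trans hLK)
      have h1 : ∀ T : Finset G, (T : Set G) ⊆ (sSup c : Subgroup G) → ∃ U ∈ c, (T : Set G) ⊆ U := by
        intro T
        induction T using Finset.induction_on with
        | empty => intro _; exact ⟨y, hy, by simp⟩
        | insert a T _ ih =>
          intro hT
          rw [Finset.coe_insert, Set.insert_subset_iff] at hT
          obtain ⟨S, hS, haS⟩ := (mem_sSup_of_directedOn ⟨y, hy⟩ hdir).1 hT.1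
          obtain ⟨R, hR, hTR⟩ := ih hT.2
          obtain ⟨U, hU, hSU, hRU⟩ := hdir S hS R hR
          refine ⟨U, hU, ?_⟩
          rw [Finset.coe_insert, Set.insert_subset_iff]
          exact ⟨hSU haS, fun z hz => hRU (hTR hz)⟩
      have hFf' : (F : Set G).Finite := Set.toFinite _
      obtain ⟨U, hU, h2⟩ := h1 hFf'.toFinset (by
        intro z hz
        rw [Set.Finite.coe_toFinset] at hz
        exact hFle hz)
      rw [Set.Finite.coe_toFinset] at h2
      refine ⟨U, hcc hU, ?_⟩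
      intro V hV z hz
      have hzs : z ∈ sSup c := (le_sSup hV) hz
      apply (hcc hU).2.1
      refine ⟨hle hzs, ?_⟩
      show z ∈ centralizer _
      rw [mem_centralizer_iff]
      intro h hh
      have hhF : h ∈ H ⊓ centralizer (F : Set G) := by
        refine ⟨hh.1, ?_⟩
        show h ∈ centralizer _
        rw [mem_centralizer_iff]
        intro f hf
        exact (mem_centralizer_iff.1 hh.2) f (h2 hf)
      rw [← hF] at hhF
      exact ((mem_centralizer_iff.1 hhF.2) z hzs).symm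
    · refine ⟨bot_le, ?_, ?_⟩
      · rintro a ⟨haL, ha⟩
        rw [mem_bot]
        apply hfaith a haL
        intro h hh
        refine ((mem_centralizer_iff.1 ha) h ⟨hh, ?_⟩).symm
        show h ∈ centralizer _
        rw [mem_centralizer_iff]
        intro b hb
        have hb' : b = 1 := hb
        rw [hb']
        simp
      · rw [relIndex_bot_left]
        exact Nat.card_eq_zero_of_infinite
  obtain ⟨⟨hDL, hDc, hDi⟩, hmax⟩ := hDm
  -- proper closed overgroups have finite index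
  have hfi : ∀ z ∈ L, z ∉ D → (cC H L (D ⊔ zpowers z)).relIndex L ≠ 0 := by
    intro z hz hzD h0
    have hle : D ⊔ zpowers z ≤ L := sup_le hDL (by rw [zpowers_le]; exact hz)
    have h1 : D ≤ cC H L (D ⊔ zpowers z) := le_sup_left.trans (le_cC H L _ hle)
    have h2 := hmax (y := cC H L (D ⊔ zpowers z)) ⟨inf_le_left, ?_, h0⟩ h1
    · exact hzD (h2 (le_cC H L _ hle (mem_sup_right (mem_zpowers z))))
    · have h3 := cC_cent H L (D ⊔ zpowers z) hle
      unfold cC at h3 ⊢
      rw [h3]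
  -- the elements `x` and `y`
  obtain ⟨x, hxL, hxD⟩ : ∃ x ∈ L, x ∉ D := by
    by_contra hcon
    push Not at hcon
    have h1 : D.relIndex L = 1 := relIndex_eq_one.2 hcon
    omega
  obtain ⟨y, hyL, hyD⟩ : ∃ y ∈ L, ∀ i : ℕ, x ^ i * y ∉ D := by
    by_contra hcon
    push Not at hcon
    have h1 : Finite (L ⧸ D.subgroupOf L) := by
      have h2 : ∀ q : L ⧸ D.subgroupOf L, ∃ i : Fin p,
          q = QuotientGroup.mk (⟨x, hxL⟩⁻¹ ^ (i : ℕ)) := by
        intro q
        obtain ⟨y, rfl⟩ := QuotientGroup.mk_surjective q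
        obtain ⟨i, hi⟩ := hcon y y.2
        refine ⟨⟨i % p, Nat.mod_lt _ hp.pos⟩, ?_⟩
        rw [eq_comm, QuotientGroup.eq]
        show (x⁻¹ ^ (i % p))⁻¹ * (y : G) ∈ D
        rw [inv_pow, inv_inv, ← pow_eq_pow_mod i (hexp x hxL)]
        exact hi
      choose f hf using h2
      refine Finite.of_injective f ?_
      intro a b hab
      rw [hf a, hf b, hab]
    exact Subgroup.index_ne_zero_of_finite (H := D.subgroupOf L) hDi
  have hxyL : ∀ i : ℕ, x ^ i * y ∈ L := fun i => L.mul_mem (L.pow_mem hxL i) hyL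
  -- the intersection of the closed groups
  let D₀ : Subgroup G := cC H L (D ⊔ zpowers x) ⊓
    ⨅ i : Fin p, cC H L (D ⊔ zpowers (x ^ (i : ℕ) * y))
  have hD₀ : D₀.relIndex L ≠ 0 := by
    refine relIndex_inf_ne_zero (hfi x hxL hxD) ?_
    exact relIndex_iInf_ne_zero fun i => hfi _ (hxyL _) (hyD _)
  -- `D₀` centralises `M = C_H(D)`
  have hM : H ⊓ centralizer (D : Set G) ≤ centralizer (D₀ : Set G) := by
    have hnorm : ∀ z ∈ L, z ∈ normalizer ((H ⊓ centralizer (D : Set G) : Subgroup G) : Set G) := by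
      intro z hz
      rw [mem_normalizer_iff]
      intro h
      have hcomm : ∀ d ∈ D, z⁻¹ * d * z = d := by
        intro d hd
        rw [mul_assoc, ← hc z hz d (hDL hd)]
        group
      have hcomm' : ∀ d ∈ D, z * d * z⁻¹ = d := by
        intro d hd
        rw [hc z hz d (hDL hd)]
        group
      constructor
      · rintro ⟨hh, hcd⟩
        refine ⟨hn.conj_mem h hh z, ?_⟩
        show z * h * z⁻¹ ∈ centralizer _
        rw [mem_centralizer_iff]
        intro d hd
        have h1 := (mem_centralizer_iff.1 hcd) d hd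
        calc d * (z * h * z⁻¹) = (z * d * z⁻¹) * (z * h * z⁻¹) := by rw [hcomm' d hd]
          _ = z * (d * h) * z⁻¹ := by group
          _ = z * (h * d) * z⁻¹ := by rw [h1]
          _ = (z * h * z⁻¹) * (z * d * z⁻¹) := by group
          _ = _ := by rw [hcomm' d hd]
      · rintro ⟨hh, hcd⟩
        have hh' : z⁻¹ * (z * h * z⁻¹) * z⁻¹⁻¹ ∈ H := hn.conj_mem _ hh z⁻¹
        have hh'' : h ∈ H := by
          have h1 : z⁻¹ * (z * h * z⁻¹) * z⁻¹⁻¹ = h := by group
          rwa [h1] at hh'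
        refine ⟨hh'', ?_⟩
        show h ∈ centralizer _
        rw [mem_centralizer_iff]
        intro d hd
        have h1 := (mem_centralizer_iff.1 hcd) d hd
        have h2 : z * (d * h) * z⁻¹ = z * (h * d) * z⁻¹ := by
          calc z * (d * h) * z⁻¹ = (z * d * z⁻¹) * (z * h * z⁻¹) := by group
            _ = d * (z * h * z⁻¹) := by rw [hcomm' d hd]
            _ = (z * h * z⁻¹) * d := h1
            _ = (z * h * z⁻¹) * (z * d * z⁻¹) := by rw [hcomm' d hd]
            _ = _ := by group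
        exact mul_left_cancel (mul_right_cancel h2)
    have hcent : ∀ z ∈ L, D₀ ≤ cC H L (D ⊔ zpowers z) → ∀ m ∈ H ⊓ centralizer (D : Set G),
        z * m = m * z → m ∈ centralizer (D₀ : Set G) := by
      intro z _ hz m hm hzm
      rw [mem_centralizer_iff]
      intro d hd
      refine ((mem_centralizer_iff.1 (hz hd).2) m ⟨hm.1, ?_⟩).symm
      have h1 : D ⊔ zpowers z ≤ centralizer ({m} : Set G) := by
        refine sup_le ?_ ?_
        · intro e he
          rw [mem_centralizer_singleton_iff]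
          exact (mem_centralizer_iff.1 hm.2) e he
        · rw [zpowers_le, mem_centralizer_singleton_iff]
          exact hzm
      show m ∈ centralizer _
      rw [mem_centralizer_iff]
      intro e he
      exact mem_centralizer_singleton_iff.1 (h1 he)
    refine gen_lf lf (π := π) (H ⊓ centralizer (D : Set G)) (centralizer (D₀ : Set G))
      (isPi_mono inf_le_left hH) ?_ p hpπ x y (hc x hxL y hyL) (hexp x hxL) (hexp y hyL)
      (hnorm x hxL) (hnorm y hyL) ?_ ?_
    · intro S hS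
      exact ls S (fun s hs => (hS hs).1)
    · exact hcent x hxL inf_le_left
    · intro i m hm him
      have h1 : x ^ i * y = x ^ (i % p) * y := by rw [← pow_eq_pow_mod i (hexp x hxL)]
      rw [h1] at him
      refine hcent _ (hxyL _) ?_ m hm him
      exact inf_le_right.trans (iInf_le (fun i : Fin p => cC H L (D ⊔ zpowers (x ^ (i : ℕ) * y)))
        ⟨i % p, Nat.mod_lt _ hp.pos⟩)
  have hD₀D : D₀ ≤ D := by
    intro d hd
    apply hDc
    refine ⟨(inf_le_left (a := cC H L (D ⊔ zpowers x)) hd).1, ?_⟩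
    show d ∈ centralizer _
    rw [mem_centralizer_iff]
    intro m hm
    exact ((mem_centralizer_iff.1 (hM hm)) d hd).symm
  exact hD₀ (relIndex_eq_zero_of_le_left hD₀D hDi)

end TypeI

end MP0d06d9R
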