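import Pool.Agent.Lib.MP_0d06d9_alR.Defs

/-!
# MP_0d06d9_al: lemmas on commutators and the lower series
-/

set_option autoImplicit false

namespace MP0d06d9I

open Subgroup commutatorElement MP0d06d9R

variable {G : Type*} [Group G]

theorem closure_comm_le {S : Set G} {Z W : Subgroup G} (hS : S ⊆ (normalizer (W : Set G) : Set G))
    (h : ∀ g ∈ S, ∀ z ∈ Z, ⁅g, z⁆ ∈ W) : ⁅closure S, Z⁆ ≤ W := by
  have h1 : closure S ≤ normalizer (W : Set G) := (closure_le _).2 hS
  rw [commutator_le]
  intro g hg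
  induction hg using Subgroup.closure_induction with
  | mem x hx => exact h x hx
  | one =>
    intro z _
    rw [commutatorElement_one_left]
    exact W.one_mem
  | mul x y hx hy ihx ihy =>
    intro z hz
    have e : ⁅x * y, z⁆ = x * ⁅y, z⁆ * x⁻¹ * ⁅x, z⁆ := by
      rw [commutatorElement_def, commutatorElement_def, commutatorElement_def]
      group
    rw [e]
    exact W.mul_mem (((mem_normalizer_iff.1 (h1 hx)) _).1 (ihy z hz)) (ihx z hz)
  | inv x hx ihx =>
    intro z hz
    have e : ⁅x⁻¹, z⁆ = x⁻¹ * ⁅x, z⁆⁻¹ * x⁻¹⁻¹ := by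
      rw [commutatorElement_def, commutatorElement_def]
      group
    rw [e]
    exact ((mem_normalizer_iff.1 ((normalizer (W : Set G)).inv_mem (h1 hx))) _).1
      (W.inv_mem (ihx z hz))

theorem sup_comm_le {X Y Z W : Subgroup G} (hX : X ≤ normalizer (W : Set G))
    (hY : Y ≤ normalizer (W : Set G)) (h1 : ⁅X, Z⁆ ≤ W) (h2 : ⁅Y, Z⁆ ≤ W) : ⁅X ⊔ Y, Z⁆ ≤ W := by
  rw [Subgroup.sup_eq_closure]
  refine closure_comm_le (Set.union_subset hX hY) ?_
  rintro g (hg | hg) z hz
  · exact h1 (commutator_mem_commutator hg hz)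
  · exact h2 (commutator_mem_commutator hg hz)

theorem comm_sup_le {X Y Z W : Subgroup G} (hX : X ≤ normalizer (W : Set G))
    (hY : Y ≤ normalizer (W : Set G)) (h1 : ⁅Z, X⁆ ≤ W) (h2 : ⁅Z, Y⁆ ≤ W) : ⁅Z, X ⊔ Y⁆ ≤ W := by
  rw [commutator_comm] at h1 h2 ⊢
  exact sup_comm_le hX hY h1 h2

theorem norm_sup {T A B : Subgroup G} (hA : T ≤ normalizer (A : Set G))
    (hB : T ≤ normalizer (B : Set G)) : T ≤ normalizer ((A ⊔ B : Subgroup G) : Set G) := by
  rw [Subgroup.sup_eq_closure, le_normalizer_closure_iff]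
  rintro h hh g (hg | hg)
  · exact Subgroup.subset_closure (Or.inl (le_normalizer_iff.1 hA h hh g hg))
  · exact Subgroup.subset_closure (Or.inr (le_normalizer_iff.1 hB h hh g hg))

theorem norm_inf {T A B : Subgroup G} (hA : T ≤ normalizer (A : Set G))
    (hB : T ≤ normalizer (B : Set G)) : T ≤ normalizer ((A ⊓ B : Subgroup G) : Set G) :=
  (le_inf hA hB).trans inf_normalizer_le_normalizer_inf

theorem norm_map {x : G} {T : Subgroup G} :
    x ∈ normalizer (T : Set G) ↔ T.map (MulAut.conj x).toMonoidHom = T :=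
  mem_normalizer_iff_map_conj_eq

theorem norm_comm {A B : Subgroup G} :
    normalizer (A : Set G) ⊓ normalizer (B : Set G) ≤
      normalizer ((⁅A, B⁆ : Subgroup G) : Set G) := by
  rintro x ⟨hA, hB⟩
  have hA' := norm_map.1 hA
  have hB' := norm_map.1 hB
  apply norm_map.2
  rw [map_commutator, hA', hB']

theorem D_zero (T : Subgroup G) : D 0 T = T := rfl

theorem D_succ (c : ℕ) (T : Subgroup G) : D (c + 1) T = ⁅D c T, T⁆ := by
  unfold D
  rw [Function.iterate_succ_apply']

theorem D_mono {S T : Subgroup G} (h : S ≤ T) (c : ℕ) : D c S ≤ D c T := by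
  induction c with
  | zero => exact h
  | succ c ih =>
    rw [D_succ, D_succ]
    exact commutator_mono ih h

theorem D_norm (c : ℕ) (T : Subgroup G) :
    normalizer (T : Set G) ≤ normalizer ((D c T : Subgroup G) : Set G) := by
  induction c with
  | zero => exact le_rfl
  | succ c ih =>
    rw [D_succ]
    exact (le_inf ih le_rfl).trans norm_comm

theorem D_anti_succ (c : ℕ) (T : Subgroup G) : D (c + 1) T ≤ D c T := by
  rw [D_succ]
  exact le_normalizer_iff_commutator_le_left.1 (le_normalizer.trans (D_norm c T))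

theorem D_anti {c d : ℕ} (h : c ≤ d) (T : Subgroup G) : D d T ≤ D c T :=
  antitone_nat_of_succ_le (f := fun c => D c T) (fun n => D_anti_succ n T) h

theorem D_le (c : ℕ) (T : Subgroup G) : D c T ≤ T := D_anti (Nat.zero_le c) T

theorem D_map {G' : Type*} [Group G'] (f : G →* G') (c : ℕ) (T : Subgroup G) :
    (D c T).map f = D c (T.map f) := by
  induction c with
  | zero => rfl
  | succ c ih => rw [D_succ, D_succ, map_commutator, ih]

/-- if the series is constant once, it is constant from there on -/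
theorem D_const {c : ℕ} {T : Subgroup G} (h : D (c + 1) T = D c T) {d : ℕ} (hd : c ≤ d) :
    D d T = D c T := by
  induction d, hd using Nat.le_induction with
  | base => rfl
  | succ d _ ih => rw [D_succ, ih, ← D_succ, h]

/-- the series of a finite group is constant from `Nat.card T` on -/
theorem D_card_le {T : Subgroup G} (hT : Finite T) (c : ℕ) : D (Nat.card T) T ≤ D c T := by
  have key : ∀ n, (∀ i < n, D (i + 1) T ≠ D i T) → n + Nat.card (D n T) ≤ Nat.card T := by
    intro n
    induction n with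
    | zero =>
      intro _
      rw [D_zero, Nat.zero_add]
    | succ n ih =>
      intro hn
      have h1 := ih (fun i hi => hn i (hi.trans (Nat.lt_succ_self n)))
      have h2 : D (n + 1) T < D n T :=
        lt_of_le_of_ne (D_anti_succ n T) (hn n (Nat.lt_succ_self n))
      have hf : Finite (D n T) := Finite.of_injective _ (inclusion_injective (D_le n T))
      have h3 : Nat.card (D (n + 1) T) < Nat.card (D n T) := by
        refine lt_of_le_of_ne (Subgroup.card_le_of_le h2.le) ?_
        intro h4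
        exact h2.ne (Subgroup.eq_of_le_of_card_ge h2.le h4.ge)
      omega
  by_contra hc
  have h1 : ∀ i < Nat.card T, D (i + 1) T ≠ D i T := by
    intro i hi h2
    apply hc
    rw [D_const h2 hi.le]
    rcases le_total c i with h3 | h3
    · exact D_anti h3 T
    · rw [D_const h2 h3]
  have h2 := key _ h1
  have hf : Finite (D (Nat.card T) T) := Finite.of_injective _ (inclusion_injective (D_le _ T))
  have h3 : 0 < Nat.card (D (Nat.card T) T) := Nat.card_pos
  omega

/-- `D` commutes with passing to a subgroup `K` containing `T` -/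
theorem D_subgroupOf (K T : Subgroup G) (h : T ≤ K) (c : ℕ) :
    (D c (T.subgroupOf K)).map K.subtype = D c T := by
  rw [D_map, map_subgroupOf_eq_of_le h]

/-! ## Fitting's theorem -/

/-- auxiliary series -/
private def UU (T X A : Subgroup G) : ℕ → Subgroup G
  | 0 => T
  | i + 1 => D i X ⊔ A

private theorem UU_norm {T X A : Subgroup G} (hX : T ≤ normalizer (X : Set G))
    (hA : T ≤ normalizer (A : Set G)) (i : ℕ) : T ≤ normalizer ((UU T X A i : Subgroup G) : Set G) := by
  cases i with
  | zero => exact le_normalizer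
  | succ i => exact norm_sup (hX.trans (D_norm i X)) hA

private theorem UU_comm {T X A : Subgroup G} (hXT : X ≤ T) (hAT : A ≤ T)
    (hX : T ≤ normalizer (X : Set G)) (hA : T ≤ normalizer (A : Set G)) (i : ℕ) :
    ⁅UU T X A i, X⁆ ≤ UU T X A (i + 1) := by
  cases i with
  | zero =>
    show ⁅T, X⁆ ≤ D 0 X ⊔ A
    exact (le_normalizer_iff_commutator_le_right.1 hX).trans le_sup_left
  | succ i =>
    show ⁅D i X ⊔ A, X⁆ ≤ D (i + 1) X ⊔ A
    have h1 := UU_norm hX hA (i + 2)
    refine sup_comm_le ((D_le i X).trans (hXT.trans h1)) (hAT.trans h1) ?_ ?_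
    · rw [← D_succ]
      exact le_sup_left
    · exact (le_normalizer_iff_commutator_le_left.1 (hXT.trans hA)).trans le_sup_right

/-- Fitting's theorem: a product of two normal subgroups nilpotent modulo `A` is nilpotent
modulo `A` -/
theorem D_fit {X Y A : Subgroup G} (hX : X ≤ normalizer (Y : Set G))
    (hY : Y ≤ normalizer (X : Set G)) (hA : X ⊔ Y ≤ normalizer (A : Set G)) {a b : ℕ}
    (ha : D a X ≤ A) (hb : D b Y ≤ A) : D (a + b) (X ⊔ Y) ≤ A := by
  obtain ⟨T, hT⟩ : ∃ T, T = X ⊔ Y := ⟨_, rfl⟩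
  rw [← hT] at hA ⊢
  obtain ⟨B, hB⟩ : ∃ B, B = A ⊓ T := ⟨_, rfl⟩
  have hXT : X ≤ T := hT ▸ le_sup_left
  have hYT : Y ≤ T := hT ▸ le_sup_right
  have hBT : B ≤ T := hB ▸ inf_le_right
  have hBn : T ≤ normalizer (B : Set G) := hB ▸ norm_inf hA le_normalizer
  have hXn : T ≤ normalizer (X : Set G) := hT ▸ sup_le le_normalizer hY
  have hYn : T ≤ normalizer (Y : Set G) := hT ▸ sup_le hX le_normalizer
  have ha' : D a X ≤ B := hB ▸ le_inf ha ((D_le a X).trans hXT)
  have hb' : D b Y ≤ B := hB ▸ le_inf hb ((D_le b Y).trans hYT)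
  obtain ⟨S, hS⟩ : ∃ S : ℕ → Set G, S = fun n => {g | ∃ i j, i + j = n + 1 ∧ g ∈ UU T X B i ∧
    g ∈ UU T Y B j} := ⟨_, rfl⟩
  have hSn : ∀ n, T ≤ normalizer ((closure (S n) : Subgroup G) : Set G) := by
    intro n
    rw [le_normalizer_closure_iff]
    intro t ht g hg
    rw [hS] at hg
    obtain ⟨i, j, hij, h1, h2⟩ := hg
    apply Subgroup.subset_closure
    rw [hS]
    exact ⟨i, j, hij, le_normalizer_iff.1 (UU_norm hXn hBn i) t ht g h1,
      le_normalizer_iff.1 (UU_norm hYn hBn j) t ht g h2⟩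
  have hUT : ∀ (Z : Subgroup G), Z ≤ T → ∀ i, UU T Z B i ≤ T := by
    intro Z hZ i
    cases i with
    | zero => exact le_rfl
    | succ i => exact sup_le ((D_le i Z).trans hZ) hBT
  have hST : ∀ n, S n ⊆ (T : Set G) := by
    intro n g hg
    rw [hS] at hg
    obtain ⟨i, j, hij, h1, h2⟩ := hg
    exact hUT X hXT i h1
  have hstep : ∀ n, ⁅closure (S n), T⁆ ≤ closure (S (n + 1)) := by
    intro n
    refine closure_comm_le ((hST n).trans (hSn (n + 1))) ?_
    intro g hg z hz
    rw [hS] at hg
    obtain ⟨i, j, hij, h1, h2⟩ := hg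
    have h3 : ⁅zpowers g, T⁆ ≤ closure (S (n + 1)) := by
      have hgT : g ∈ T := hUT X hXT i h1
      rw [hT]
      refine comm_sup_le (hXT.trans (hSn _)) (hYT.trans (hSn _)) ?_ ?_
      · have h5 : ⁅zpowers g, X⁆ ≤ UU T X B (i + 1) ⊓ UU T Y B j := by
          refine le_inf ((commutator_mono (zpowers_le.2 h1) le_rfl).trans
            (UU_comm hXT hBT hXn hBn i)) ?_
          exact (commutator_mono (zpowers_le.2 h2) hXT).trans
            (le_normalizer_iff_commutator_le_left.1 (UU_norm hYn hBn j))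
        intro w hw
        apply Subgroup.subset_closure
        rw [hS]
        exact ⟨i + 1, j, by omega, (h5 hw).1, (h5 hw).2⟩
      · have h5 : ⁅zpowers g, Y⁆ ≤ UU T X B i ⊓ UU T Y B (j + 1) := by
          refine le_inf ?_ ((commutator_mono (zpowers_le.2 h2) le_rfl).trans
            (UU_comm hYT hBT hYn hBn j))
          exact (commutator_mono (zpowers_le.2 h1) hYT).trans
            (le_normalizer_iff_commutator_le_left.1 (UU_norm hXn hBn i))
        intro w hw
        apply Subgroup.subset_closure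
        rw [hS]
        exact ⟨i, j + 1, by omega, (h5 hw).1, (h5 hw).2⟩
    exact h3 (commutator_mem_commutator (mem_zpowers g) hz)
  have hD : ∀ n, D n T ≤ closure (S n) := by
    intro n
    induction n with
    | zero =>
      rw [D_zero, hT]
      refine sup_le ?_ ?_
      · intro x hx
        apply Subgroup.subset_closure
        rw [hS]
        exact ⟨1, 0, rfl, (le_sup_left : X ≤ X ⊔ B) hx, hXT hx⟩
      · intro x hx
        apply Subgroup.subset_closure
        rw [hS]
        exact ⟨0, 1, rfl, hYT hx, (le_sup_left : Y ≤ Y ⊔ B) hx⟩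
    | succ n ih =>
      rw [D_succ]
      exact (commutator_mono ih le_rfl).trans (hstep n)
  refine (hD (a + b)).trans ?_
  rw [closure_le]
  intro g hg
  rw [hS] at hg
  obtain ⟨i, j, hij, h1, h2⟩ := hg
  have hBA : B ≤ A := hB ▸ inf_le_left
  rcases Nat.lt_or_ge a i with h3 | h3
  · obtain ⟨k, rfl⟩ : ∃ k, i = k + 1 := ⟨i - 1, by omega⟩
    have h4 : UU T X B (k + 1) ≤ B := sup_le ((D_anti (by omega) X).trans ha') le_rfl
    exact hBA (h4 h1)
  · obtain ⟨k, rfl⟩ : ∃ k, j = k + 1 := ⟨j - 1, by omega⟩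
    have h4 : UU T Y B (k + 1) ≤ B := sup_le ((D_anti (by omega) Y).trans hb') le_rfl
    exact hBA (h4 h2)

end MP0d06d9I
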