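import Pool.Agent.Lib.MP_0d06d9_alR.GrpD

/-!
# GRP: coprime action, first lemmas
-/

set_option autoImplicit false

namespace MP0d06d9R

open Subgroup commutatorElement
open scoped Pointwise

variable {G : Type*} [Group G]

/-- the elements of `A` acting trivially modulo `S₁` on `g S₁` -/
theorem fix_zpowers (S₁ : Subgroup G) (a g : G) (hn : a ∈ normalizer (S₁ : Set G))
    (h : g⁻¹ * (a * g * a⁻¹) ∈ S₁) : ∀ x ∈ zpowers a, g⁻¹ * (x * g * x⁻¹) ∈ S₁ := by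
  let P : Subgroup G :=
    { carrier := {x | x ∈ normalizer (S₁ : Set G) ∧ g⁻¹ * (x * g * x⁻¹) ∈ S₁}
      mul_mem' := by
        rintro x y ⟨hx, hx'⟩ ⟨hy, hy'⟩
        refine ⟨Subgroup.mul_mem _ hx hy, ?_⟩
        have e : g⁻¹ * (x * y * g * (x * y)⁻¹) =
            g⁻¹ * (x * g * x⁻¹) * (x * (g⁻¹ * (y * g * y⁻¹)) * x⁻¹) := by group
        rw [e]
        exact S₁.mul_mem hx' ((mem_normalizer_iff.1 hx _).1 hy')
      one_mem' := by
        refine ⟨Subgroup.one_mem _, ?_⟩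
        have e : g⁻¹ * (1 * g * 1⁻¹) = 1 := by group
        rw [e]
        exact S₁.one_mem
      inv_mem' := by
        rintro x ⟨hx, hx'⟩
        refine ⟨Subgroup.inv_mem _ hx, ?_⟩
        have e : g⁻¹ * (x⁻¹ * g * x⁻¹⁻¹) = x⁻¹ * (g⁻¹ * (x * g * x⁻¹))⁻¹ * x⁻¹⁻¹ := by group
        rw [e]
        exact (mem_normalizer_iff.1 (Subgroup.inv_mem _ hx) _).1 (S₁.inv_mem hx') }
  have h1 : zpowers a ≤ P := zpowers_le.2 ⟨hn, h⟩
  exact fun x hx => (h1 hx).2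

theorem isSolvable_comm (A : Subgroup G) (hc : ∀ a ∈ A, ∀ b ∈ A, a * b = b * a) :
    Group.IsSolvable A := by
  apply Group.isSolvable_of_comm
  rintro ⟨a, ha⟩ ⟨b, hb⟩
  exact Subtype.ext (hc a ha b hb)

theorem zpowers_comm (a : G) : ∀ x ∈ zpowers a, ∀ y ∈ zpowers a, x * y = y * x := by
  intro x hx y hy
  obtain ⟨i, rfl⟩ := mem_zpowers_iff.mp hx
  obtain ⟨j, rfl⟩ := mem_zpowers_iff.mp hy
  rw [← zpow_add, ← zpow_add, add_comm]

theorem card_coprime_le [Finite G] {n : ℕ} {S S₁ : Subgroup G} (h : S₁ ≤ S)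
    (hco : n.Coprime (Nat.card S)) : n.Coprime (Nat.card S₁) :=
  Nat.Coprime.coprime_dvd_right (Subgroup.card_dvd_of_le h) hco

/-- fixed points in invariant cosets, for one element -/
theorem cl1 [Finite G] (S₁ : Subgroup G) (a g : G) (hn : a ∈ normalizer (S₁ : Set G))
    (hco : (orderOf a).Coprime (Nat.card S₁)) (h : g⁻¹ * (a * g * a⁻¹) ∈ S₁) :
    ∃ n ∈ S₁, a * (g * n) * a⁻¹ = g * n := by
  obtain ⟨n, hn', h'⟩ := MP0d06d9.cl (zpowers a) S₁ inferInstance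
    (isSolvable_comm _ (zpowers_comm a)) inferInstance (zpowers_le.2 hn)
    (by rw [Nat.card_zpowers]; exact hco) g (fix_zpowers S₁ a g hn h)
  exact ⟨n, hn', h' a (mem_zpowers a)⟩

/-- coprime action: `[T, A, A] = [T, A]` -/
theorem comm_comm [Finite G] (T A : Subgroup G) (hA : A ≤ normalizer (T : Set G))
    (hs : Group.IsSolvable A) (hco : (Nat.card A).Coprime (Nat.card T)) :
    ⁅⁅T, A⁆, A⁆ = ⁅T, A⁆ := by
  have hTA : ⁅T, A⁆ ≤ T := by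
    rw [commutator_le]
    intro t ht a ha
    have e : ⁅t, a⁆ = t * (a * t⁻¹ * a⁻¹) := by
      rw [commutatorElement_def]
      group
    rw [e]
    exact T.mul_mem ht ((mem_normalizer_iff.1 (hA ha) _).1 (T.inv_mem ht))
  refine le_antisymm (commutator_mono hTA le_rfl) ?_
  rw [commutator_le]
  intro t ht a ha
  obtain ⟨n, hnN, hfix⟩ := MP0d06d9.cl A ⁅T, A⁆ inferInstance hs inferInstance
    (normalizer_commutator_ge_right _ _) (card_coprime_le hTA hco) t (by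
      intro b hb
      have e : t⁻¹ * (b * t * b⁻¹) = ⁅t⁻¹, b⁆ := by
        rw [commutatorElement_def]
        group
      rw [e]
      exact commutator_mem_commutator (T.inv_mem ht) hb)
  have hc : a * (t * n) * a⁻¹ = t * n := hfix a ha
  have hcT : t * n ∈ T := T.mul_mem ht (hTA hnN)
  have h2 : (t * n)⁻¹ * a * (t * n) = a := by
    calc (t * n)⁻¹ * a * (t * n) = (a * (t * n) * a⁻¹)⁻¹ * a * (t * n) := by rw [hc]
      _ = a := by group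
  have h3 : ⁅t, a⁆ = ⁅t * n * n⁻¹ * (t * n)⁻¹, a⁆ := by
    rw [commutatorElement_def, commutatorElement_def]
    calc t * a * t⁻¹ * a⁻¹ = t * n * n⁻¹ * a * (t * n * n⁻¹)⁻¹ * a⁻¹ := by group
      _ = t * n * n⁻¹ * ((t * n)⁻¹ * a * (t * n)) * (t * n * n⁻¹)⁻¹ * a⁻¹ := by rw [h2]
      _ = t * n * n⁻¹ * (t * n)⁻¹ * a * (t * n * n⁻¹ * (t * n)⁻¹)⁻¹ * a⁻¹ := by group
  rw [h3]
  exact commutator_mem_commutator
    ((mem_normalizer_iff.1 (normalizer_commutator_ge_left T A hcT) _).1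
      (Subgroup.inv_mem _ hnN)) ha

/-- the derived series of a soluble subgroup ends with `1` -/
theorem exists_der (S : Subgroup G) (hs : Group.IsSolvable S) : ∃ k : ℕ, (D 1)^[k] S = ⊥ := by
  obtain ⟨k, hk⟩ := hs.solvable
  refine ⟨k, ?_⟩
  have h : ∀ j : ℕ, (derivedSeries S j).map S.subtype = (D 1)^[j] S := by
    intro j
    induction j with
    | zero => rw [derivedSeries_zero, ← MonoidHom.range_eq_map, S.range_subtype]; rfl
    | succ j ih =>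
      rw [derivedSeries_succ, map_commutator, ih, Function.iterate_succ_apply', D_succ, D_zero]
  rw [← h, hk, Subgroup.map_bot]

/-- a normal subgroup of `S` not contained in `S₁` with `[E, E]` contained in `S₁` -/
theorem chain (S S₁ : Subgroup G) (hs : Group.IsSolvable S) (hne : ¬ S ≤ S₁) :
    ∃ E : Subgroup G, E ≤ S ∧ normalizer (S : Set G) ≤ normalizer (E : Set G) ∧
      ¬ E ≤ S₁ ∧ ⁅E, E⁆ ≤ S₁ := by
  classical
  have hex : ∃ k : ℕ, (D 1)^[k] S ≤ S₁ := by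
    obtain ⟨k, hk⟩ := exists_der S hs
    exact ⟨k, hk ▸ bot_le⟩
  have h0 : Nat.find hex ≠ 0 := by
    intro h
    have h1 := Nat.find_spec hex
    rw [h] at h1
    exact hne h1
  obtain ⟨k, hk⟩ := Nat.exists_eq_succ_of_ne_zero h0
  have h1 := Nat.find_spec hex
  have h2 : ¬ (D 1)^[k] S ≤ S₁ := Nat.find_min hex (by rw [hk]; exact Nat.lt_succ_self k)
  rw [hk, Nat.succ_eq_add_one, Function.iterate_succ_apply', D_succ, D_zero] at h1
  exact ⟨(D 1)^[k] S, D_iter_le 1 k S, D_normalizer 1 k S, h2, h1⟩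

/-- trivial on `S / S₃` and on `S₃ / S₁` -/
theorem triv_trans [Finite G] {S S₁ S₃ : Subgroup G} {a : G} (h3 : S₃ ≤ S)
    (hn3 : a ∈ normalizer (S₃ : Set G)) (hco : (orderOf a).Coprime (Nat.card S))
    (ht3 : ∀ t ∈ S, t⁻¹ * (a * t * a⁻¹) ∈ S₃) (ht1 : ∀ t ∈ S₃, t⁻¹ * (a * t * a⁻¹) ∈ S₁) :
    ∀ t ∈ S, t⁻¹ * (a * t * a⁻¹) ∈ S₁ := by
  intro t ht
  obtain ⟨n, hn, h⟩ := cl1 S₃ a t hn3 (card_coprime_le h3 hco) (ht3 t ht)
  have e : t⁻¹ * (a * t * a⁻¹) = n⁻¹⁻¹ * (a * n⁻¹ * a⁻¹) := by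
    calc t⁻¹ * (a * t * a⁻¹) = n * (t * n)⁻¹ * (a * (t * n) * a⁻¹) * (a * n⁻¹ * a⁻¹) := by group
      _ = n⁻¹⁻¹ * (a * n⁻¹ * a⁻¹) := by rw [h]; group
  rw [e]
  exact ht1 n⁻¹ (S₃.inv_mem hn)

theorem mem_sup_of {E S₁ : Subgroup G} (hnE : S₁ ≤ normalizer (E : Set G)) {t : G}
    (ht : t ∈ E ⊔ S₁) : ∃ e ∈ E, ∃ s ∈ S₁, t = e * s := by
  have h1 : t ∈ ((E ⊔ S₁ : Subgroup G) : Set G) := ht
  rw [coe_mul_of_right_le_normalizer_left E S₁ hnE] at h1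
  obtain ⟨e, he, s, hs, h⟩ := Set.mem_mul.1 h1
  exact ⟨e, he, s, hs, h.symm⟩

/-- trivial on `E / (E ⊓ S₁)`, so trivial on `E S₁ / S₁` -/
theorem triv_sup {E S₁ : Subgroup G} {a : G} (hnE : S₁ ≤ normalizer (E : Set G))
    (hn1 : a ∈ normalizer (S₁ : Set G))
    (ht : ∀ t ∈ E, t⁻¹ * (a * t * a⁻¹) ∈ S₁) : ∀ t ∈ E ⊔ S₁, t⁻¹ * (a * t * a⁻¹) ∈ S₁ := by
  intro t ht'
  obtain ⟨e, he, s, hs, rfl⟩ := mem_sup_of hnE ht'
  have e1 : (e * s)⁻¹ * (a * (e * s) * a⁻¹) = s⁻¹ * (e⁻¹ * (a * e * a⁻¹)) * (a * s * a⁻¹) := by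
    group
  rw [e1]
  exact S₁.mul_mem (S₁.mul_mem (S₁.inv_mem hs) (ht e he)) ((mem_normalizer_iff.1 hn1 _).1 hs)

/-! ## a generic element of a finite abelian group -/

private theorem gen_norm {V : Type*} [CommGroup V] [Finite V] (f : Monoid.End V) {n : ℕ}
    (hn : n.Coprime (Nat.card V)) (hf : f ^ n = 1) {u w : V} (hw : f w = w * u) (hu : f u = u) :
    u = 1 := by
  have h1 : ∀ i : ℕ, (f ^ i) w = w * u ^ i := by
    intro i
    induction i with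
    | zero => rw [pow_zero, pow_zero, mul_one]; rfl
    | succ i ih =>
      rw [pow_succ']
      change f ((f ^ i) w) = _
      rw [ih, map_mul, map_pow, hw, hu, pow_succ', mul_assoc]
  have h2 := h1 n
  rw [hf] at h2
  have h3 : u ^ n = 1 := by
    have h4 : w = w * u ^ n := h2
    exact (mul_eq_left.1 h4.symm)
  have h5 : orderOf u ∣ n := orderOf_dvd_of_pow_eq_one h3
  have h6 : orderOf u ∣ Nat.card V := orderOf_dvd_natCard u
  have h7 : orderOf u ∣ 1 := by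
    have h8 := Nat.dvd_gcd h5 h6
    rwa [hn] at h8
  exact orderOf_eq_one_iff.1 (Nat.dvd_one.1 h7)

/-- a generic element -/
theorem gen_abs {V : Type*} [CommGroup V] [Finite V] (F : Set (Monoid.End V))
    (hcomm : ∀ f ∈ F, ∀ g ∈ F, f * g = g * f)
    (hord : ∀ f ∈ F, ∃ n : ℕ, n.Coprime (Nat.card V) ∧ f ^ n = 1) :
    ∃ v : V, ∀ f ∈ F, f v = v → f = 1 := by
  classical
  have hfin : Finite (Monoid.End V) := DFunLike.finite _
  let s : V → Set (Monoid.End V) := fun v => {f | f ∈ F ∧ f v = v}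
  obtain ⟨v, hv⟩ : ∃ v : V, ∀ w : V, ¬ s w ⊂ s v := by
    obtain ⟨v, -, hv⟩ := Set.Finite.exists_minimalFor s Set.univ Set.finite_univ ⟨1, trivial⟩
    refine ⟨v, fun w hw => ?_⟩
    exact hw.2 (hv (Set.mem_univ w) hw.1)
  refine ⟨v, fun f₀ hf₀ hv₀ => ?_⟩
  by_contra hne
  obtain ⟨t, ht⟩ : ∃ t : V, f₀ t ≠ t := by
    by_contra hno
    push Not at hno
    exact hne (MonoidHom.ext hno)
  obtain ⟨n, hn, hfn⟩ := hord f₀ hf₀
  refine hv (v * (t⁻¹ * f₀ t)) ⟨?_, ?_⟩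
  · rintro f ⟨hf, hfv⟩
    refine ⟨hf, ?_⟩
    have hc : ∀ x, f₀ (f x) = f (f₀ x) := fun x => DFunLike.congr_fun (hcomm f₀ hf₀ f hf) x
    have h1 : v⁻¹ * f v = 1 := by
      refine gen_norm f₀ hn hfn (w := t * (f t)⁻¹) ?_ ?_
      · have h2 : f v * f (t⁻¹ * f₀ t) = v * (t⁻¹ * f₀ t) := by rw [← map_mul]; exact hfv
        have h3 : v⁻¹ * f v = t⁻¹ * f₀ t * (f (t⁻¹ * f₀ t))⁻¹ := by
          rw [eq_mul_inv_iff_mul_eq, mul_assoc, h2, inv_mul_cancel_left]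
        rw [h3]
        simp only [map_mul, map_inv, hc, mul_inv, inv_inv]
        simp only [mul_left_comm, mul_assoc]
        simp
      · rw [map_mul, map_inv, hc, hv₀]
    have h4 : f v = v := by
      rw [inv_mul_eq_one] at h1
      exact h1.symm
    exact h4
  · intro h
    have h1 : f₀ (v * (t⁻¹ * f₀ t)) = v * (t⁻¹ * f₀ t) := (h ⟨hf₀, hv₀⟩).2
    rw [map_mul, hv₀] at h1
    have h2 : f₀ (t⁻¹ * f₀ t) = t⁻¹ * f₀ t := mul_left_cancel h1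
    have h3 : t⁻¹ * f₀ t = 1 := gen_norm f₀ hn hfn (w := t) (by rw [mul_inv_cancel_left]) h2
    rw [inv_mul_eq_one] at h3
    exact ht h3.symm

/-- the conjugation on `E` -/
private def genConj (E : Subgroup G) (a : G) (ha : a ∈ normalizer (E : Set G)) : E →* E where
  toFun := fun e => ⟨a * e * a⁻¹, (mem_normalizer_iff.1 ha _).1 e.2⟩
  map_one' := Subtype.ext (by show a * 1 * a⁻¹ = 1; group)
  map_mul' := fun x y => Subtype.ext (by
    show a * (x * y) * a⁻¹ = a * x * a⁻¹ * (a * y * a⁻¹)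
    group)

/-- a generic element of an abelian section -/
theorem gen [Finite G] (E S₁ A : Subgroup G) (hE : A ≤ normalizer (E : Set G))
    (h1 : A ≤ normalizer (S₁ : Set G)) (hEE : ⁅E, E⁆ ≤ S₁)
    (hc : ∀ a ∈ A, ∀ b ∈ A, a * b = b * a) (hco : (Nat.card A).Coprime (Nat.card E)) :
    ∃ e ∈ E, ∀ a ∈ A, e⁻¹ * (a * e * a⁻¹) ∈ S₁ → ∀ t ∈ E, t⁻¹ * (a * t * a⁻¹) ∈ S₁ := by
  classical
  let N : Subgroup E := S₁.subgroupOf E
  have hmem : ∀ x : E, x ∈ N ↔ (x : G) ∈ S₁ := fun x => mem_subgroupOf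
  have hN : N.Normal := ⟨fun n hn g => by
    rw [hmem] at hn ⊢
    have e : ((g * n * g⁻¹ : E) : G) = ⁅(g : G), (n : G)⁆ * n := by
      rw [commutatorElement_def]
      show (g : G) * n * (g : G)⁻¹ = _
      group
    rw [e]
    exact S₁.mul_mem (hEE (commutator_mem_commutator g.2 n.2)) hn⟩
  have hcomm : ∀ x y : E ⧸ N, x * y = y * x := by
    intro x y
    obtain ⟨x, rfl⟩ := QuotientGroup.mk_surjective x
    obtain ⟨y, rfl⟩ := QuotientGroup.mk_surjective y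
    rw [← QuotientGroup.mk_mul, ← QuotientGroup.mk_mul, QuotientGroup.eq, hmem]
    have e : (((x * y)⁻¹ * (y * x) : E) : G) = ⁅((y : G))⁻¹, ((x : G))⁻¹⁆ := by
      rw [commutatorElement_def]
      show ((x : G) * y)⁻¹ * (y * x) = _
      group
    rw [e]
    exact hEE (commutator_mem_commutator (E.inv_mem y.2) (E.inv_mem x.2))
  let _ : CommGroup (E ⧸ N) := { (inferInstance : Group (E ⧸ N)) with mul_comm := hcomm }
  have hmap : ∀ a (ha : a ∈ A), N ≤ N.comap (genConj E a (hE ha)) := by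
    intro a ha x hx
    rw [mem_comap, hmem]
    exact (mem_normalizer_iff.1 (h1 ha) _).1 hx
  let f : A → Monoid.End (E ⧸ N) := fun a =>
    QuotientGroup.map N N (genConj E a.1 (hE a.2)) (hmap a.1 a.2)
  have hf : ∀ (a : A) (x : E), f a (x : E ⧸ N) = ((genConj E a.1 (hE a.2) x : E) : E ⧸ N) :=
    fun a x => rfl
  have hpow : ∀ (a : A) (i : ℕ) (x : E), ∃ y : E, (y : G) = (a : G) ^ i * x * ((a : G) ^ i)⁻¹ ∧
      (f a ^ i) (x : E ⧸ N) = (y : E ⧸ N) := by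
    intro a i x
    induction i with
    | zero =>
      refine ⟨x, ?_, ?_⟩
      · rw [pow_zero]
        group
      · rw [pow_zero]
        rfl
    | succ i ih =>
      obtain ⟨y, hy, hy'⟩ := ih
      refine ⟨genConj E a.1 (hE a.2) y, ?_, ?_⟩
      · show (a : G) * y * (a : G)⁻¹ = _
        rw [hy, pow_succ']
        group
      · rw [pow_succ']
        change f a ((f a ^ i) (x : E ⧸ N)) = _
        rw [hy']
        exact hf a y
  obtain ⟨v, hv⟩ := gen_abs (Set.range f) (by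
    rintro _ ⟨a, rfl⟩ _ ⟨b, rfl⟩
    refine MonoidHom.ext fun x => ?_
    obtain ⟨x, rfl⟩ := QuotientGroup.mk_surjective x
    change f a (f b (x : E ⧸ N)) = f b (f a (x : E ⧸ N))
    rw [hf, hf, hf, hf]
    congr 1
    refine Subtype.ext ?_
    show (a : G) * ((b : G) * x * (b : G)⁻¹) * (a : G)⁻¹ =
      (b : G) * ((a : G) * x * (a : G)⁻¹) * (b : G)⁻¹
    have e := hc a a.2 b b.2
    calc (a : G) * ((b : G) * x * (b : G)⁻¹) * (a : G)⁻¹
        = ((a : G) * b) * x * ((a : G) * b)⁻¹ := by group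
      _ = ((b : G) * a) * x * ((b : G) * a)⁻¹ := by rw [e]
      _ = _ := by group) (by
    rintro _ ⟨a, rfl⟩
    refine ⟨Nat.card A, Nat.Coprime.coprime_dvd_right ?_ hco, ?_⟩
    · exact Subgroup.card_quotient_dvd_card N
    · refine MonoidHom.ext fun x => ?_
      obtain ⟨x, rfl⟩ := QuotientGroup.mk_surjective x
      obtain ⟨y, hy, hy'⟩ := hpow a (Nat.card A) x
      change (f a ^ Nat.card A) (x : E ⧸ N) = (x : E ⧸ N)
      rw [hy']
      have e : y = x := by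
        refine Subtype.ext ?_
        rw [hy]
        have e1 : (a : G) ^ Nat.card A = 1 := by
          have e2 : a ^ Nat.card A = 1 := pow_card_eq_one'
          have e3 := congrArg Subtype.val e2
          exact e3
        rw [e1]
        group
      rw [e])
  obtain ⟨e, rfl⟩ := QuotientGroup.mk_surjective v
  refine ⟨e, e.2, fun a ha h t ht => ?_⟩
  have h2 : f ⟨a, ha⟩ (e : E ⧸ N) = (e : E ⧸ N) := by
    rw [hf]
    refine (QuotientGroup.eq.2 ?_).symm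
    rw [hmem]
    exact h
  have h3 := hv _ ⟨⟨a, ha⟩, rfl⟩ h2
  have h4 : f ⟨a, ha⟩ ((⟨t, ht⟩ : E) : E ⧸ N) = ((⟨t, ht⟩ : E) : E ⧸ N) := by
    rw [h3]
    rfl
  rw [hf] at h4
  have h5 := QuotientGroup.eq.1 h4.symm
  rw [hmem] at h5
  exact h5

/-- a regular coset for a coprime abelian group -/
theorem exists_reg [Finite G] (S S₁ A : Subgroup G) (h1 : S₁ ≤ S)
    (hn : A ≤ normalizer (S : Set G)) (hn1 : A ≤ normalizer (S₁ : Set G))
    (hs : Group.IsSolvable S) (hc : ∀ a ∈ A, ∀ b ∈ A, a * b = b * a)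
    (hco : (Nat.card A).Coprime (Nat.card S)) :
    ∃ s ∈ S, ∀ a ∈ A, s⁻¹ * (a * s * a⁻¹) ∈ S₁ → ∀ t ∈ S, t⁻¹ * (a * t * a⁻¹) ∈ S₁ := by
  obtain ⟨m, hm⟩ : ∃ m, Nat.card G - Nat.card S₁ = m := ⟨_, rfl⟩
  induction m using Nat.strong_induction_on generalizing S₁ with
  | _ m ih =>
  by_cases hle : S ≤ S₁
  · exact ⟨1, S.one_mem, fun a ha _ t ht =>
      hle (S.mul_mem (S.inv_mem ht) ((mem_normalizer_iff.1 (hn ha) _).1 ht))⟩
  obtain ⟨E, hES, hEn, hE1, hEE⟩ := chain S S₁ hs hle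
  have hnE : S₁ ≤ normalizer (E : Set G) := (h1.trans le_normalizer).trans hEn
  have hAE : A ≤ normalizer (E : Set G) := hn.trans hEn
  have h3 : E ⊔ S₁ ≤ S := sup_le hES h1
  have hn3 : A ≤ normalizer ((E ⊔ S₁ : Subgroup G) : Set G) :=
    (le_inf hAE hn1).trans (normalizer_inf_normalizer_le_normalizer_sup E S₁)
  have hlt : Nat.card S₁ < Nat.card (E ⊔ S₁ : Subgroup G) := by
    refine lt_of_le_of_ne (Nat.le_of_dvd Nat.card_pos (Subgroup.card_dvd_of_le le_sup_right)) ?_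
    intro h
    exact hE1 (le_sup_left.trans (Subgroup.eq_of_le_of_card_ge le_sup_right h.ge).ge)
  have hle' : Nat.card (E ⊔ S₁ : Subgroup G) ≤ Nat.card G :=
    Nat.le_of_dvd Nat.card_pos (Subgroup.card_subgroup_dvd_card _)
  obtain ⟨s₀, hs₀, hreg⟩ := ih (Nat.card G - Nat.card (E ⊔ S₁ : Subgroup G)) (by omega)
    (E ⊔ S₁) h3 hn3 rfl
  let B : Subgroup G :=
    { carrier := {a | a ∈ A ∧ s₀⁻¹ * (a * s₀ * a⁻¹) ∈ E ⊔ S₁}
      mul_mem' := by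
        rintro x y ⟨hx, hx'⟩ ⟨hy, hy'⟩
        refine ⟨A.mul_mem hx hy, ?_⟩
        have e : s₀⁻¹ * (x * y * s₀ * (x * y)⁻¹) =
            s₀⁻¹ * (x * s₀ * x⁻¹) * (x * (s₀⁻¹ * (y * s₀ * y⁻¹)) * x⁻¹) := by group
        rw [e]
        exact Subgroup.mul_mem _ hx' ((mem_normalizer_iff.1 (hn3 hx) _).1 hy')
      one_mem' := by
        refine ⟨A.one_mem, ?_⟩
        have e : s₀⁻¹ * (1 * s₀ * 1⁻¹) = 1 := by group
        rw [e]
        exact Subgroup.one_mem _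
      inv_mem' := by
        rintro x ⟨hx, hx'⟩
        refine ⟨A.inv_mem hx, ?_⟩
        have e : s₀⁻¹ * (x⁻¹ * s₀ * x⁻¹⁻¹) = x⁻¹ * (s₀⁻¹ * (x * s₀ * x⁻¹))⁻¹ * x⁻¹⁻¹ := by group
        rw [e]
        exact (mem_normalizer_iff.1 (hn3 (A.inv_mem hx)) _).1 (Subgroup.inv_mem _ hx') }
  have hBA : B ≤ A := fun x hx => hx.1
  have hBco : (Nat.card B).Coprime (Nat.card (E ⊔ S₁ : Subgroup G)) :=
    card_coprime_le h3 (Nat.Coprime.coprime_dvd_left (Subgroup.card_dvd_of_le hBA) hco)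
  obtain ⟨n, hnm, hfix⟩ := MP0d06d9.cl B (E ⊔ S₁) inferInstance
    (isSolvable_comm B fun a ha b hb => hc a ha.1 b hb.1) inferInstance (hBA.trans hn3) hBco s₀
    (fun a ha => ha.2)
  obtain ⟨e, he, hgen⟩ := gen E S₁ A hAE hn1 hEE hc (card_coprime_le hES hco)
  refine ⟨s₀ * n * e, S.mul_mem (S.mul_mem hs₀ (h3 hnm)) (hES he), fun a ha hh => ?_⟩
  have hne : n * e ∈ E ⊔ S₁ := Subgroup.mul_mem _ hnm (mem_sup_left he)
  have haB : s₀⁻¹ * (a * s₀ * a⁻¹) ∈ E ⊔ S₁ := by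
    have e1 : s₀⁻¹ * (a * s₀ * a⁻¹) = n * e * ((s₀ * n * e)⁻¹ * (a * (s₀ * n * e) * a⁻¹)) *
        (a * (n * e)⁻¹ * a⁻¹) := by group
    rw [e1]
    exact Subgroup.mul_mem _ (Subgroup.mul_mem _ hne (mem_sup_right hh))
      ((mem_normalizer_iff.1 (hn3 ha) _).1 (Subgroup.inv_mem _ hne))
  have hfa : a * (s₀ * n) * a⁻¹ = s₀ * n := hfix a ⟨ha, haB⟩
  have hE : e⁻¹ * (a * e * a⁻¹) ∈ S₁ := by
    have e1 : (s₀ * n * e)⁻¹ * (a * (s₀ * n * e) * a⁻¹) = e⁻¹ * (a * e * a⁻¹) := by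
      calc (s₀ * n * e)⁻¹ * (a * (s₀ * n * e) * a⁻¹)
          = e⁻¹ * (s₀ * n)⁻¹ * (a * (s₀ * n) * a⁻¹) * (a * e * a⁻¹) := by group
        _ = e⁻¹ * (a * e * a⁻¹) := by rw [hfa]; group
    rw [← e1]
    exact hh
  have hord : (orderOf a).Coprime (Nat.card S) :=
    Nat.Coprime.coprime_dvd_left (Subgroup.orderOf_dvd_natCard A ha) hco
  exact triv_trans h3 (hn3 ha) hord (hreg a ha haB) (triv_sup hnE (hn1 ha) (hgen a ha hE))

/-- a coprime element not acting trivially on the cosets moves at least half of them -/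
theorem half [Finite G] (S S₁ : Subgroup G) (a : G) (h1 : S₁ ≤ S)
    (hn : a ∈ normalizer (S : Set G)) (hn1 : a ∈ normalizer (S₁ : Set G))
    (hs : Group.IsSolvable S) (hco : (orderOf a).Coprime (Nat.card S))
    (hna : ∃ t ∈ S, t⁻¹ * (a * t * a⁻¹) ∉ S₁) :
    2 * Nat.card {t : G // t ∈ S ∧ t⁻¹ * (a * t * a⁻¹) ∈ S₁} ≤ Nat.card S := by
  classical
  obtain ⟨m, hm⟩ : ∃ m, Nat.card G - Nat.card S₁ = m := ⟨_, rfl⟩
  induction m using Nat.strong_induction_on generalizing S₁ with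
  | _ m ih =>
  by_cases hle : S ≤ S₁
  · obtain ⟨t, ht, hno⟩ := hna
    exact absurd (hle (S.mul_mem (S.inv_mem ht) ((mem_normalizer_iff.1 hn _).1 ht))) hno
  obtain ⟨E, hES, hEn, hE1, hEE⟩ := chain S S₁ hs hle
  have hnE : S₁ ≤ normalizer (E : Set G) := (h1.trans le_normalizer).trans hEn
  have hAE : a ∈ normalizer (E : Set G) := hEn hn
  have h3 : E ⊔ S₁ ≤ S := sup_le hES h1
  have hn3 : a ∈ normalizer ((E ⊔ S₁ : Subgroup G) : Set G) :=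
    normalizer_inf_normalizer_le_normalizer_sup E S₁ ⟨hAE, hn1⟩
  have hlt : Nat.card S₁ < Nat.card (E ⊔ S₁ : Subgroup G) := by
    refine lt_of_le_of_ne (Nat.le_of_dvd Nat.card_pos (Subgroup.card_dvd_of_le le_sup_right)) ?_
    intro h
    exact hE1 (le_sup_left.trans (Subgroup.eq_of_le_of_card_ge le_sup_right h.ge).ge)
  have hle' : Nat.card (E ⊔ S₁ : Subgroup G) ≤ Nat.card G :=
    Nat.le_of_dvd Nat.card_pos (Subgroup.card_subgroup_dvd_card _)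
  by_cases hna3 : ∃ t ∈ S, t⁻¹ * (a * t * a⁻¹) ∉ E ⊔ S₁
  · refine le_trans ?_ (ih (Nat.card G - Nat.card (E ⊔ S₁ : Subgroup G)) (by omega)
      (E ⊔ S₁) h3 hn3 hna3 rfl)
    refine Nat.mul_le_mul_left 2 (Nat.card_le_card_of_injective
      (fun t : {t : G // t ∈ S ∧ t⁻¹ * (a * t * a⁻¹) ∈ S₁} =>
        (⟨t.1, t.2.1, mem_sup_right t.2.2⟩ :
          {t : G // t ∈ S ∧ t⁻¹ * (a * t * a⁻¹) ∈ E ⊔ S₁})) ?_)
    intro x y hxy
    have h11 := congrArg Subtype.val hxy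
    exact Subtype.ext h11
  push Not at hna3
  obtain ⟨e₀, he₀, hne₀⟩ : ∃ e₀ ∈ E, e₀⁻¹ * (a * e₀ * a⁻¹) ∉ S₁ := by
    by_contra hno
    push Not at hno
    obtain ⟨t, ht, htn⟩ := hna
    exact htn (triv_trans h3 hn3 hco hna3 (triv_sup hnE hn1 hno) t ht)
  have hr : ∀ q : G ⧸ (E ⊔ S₁), ∃ r : G, (∃ t ∈ S, (t : G ⧸ (E ⊔ S₁)) = q) →
      (r : G ⧸ (E ⊔ S₁)) = q ∧ a * r * a⁻¹ = r := by
    intro q
    by_cases hq : ∃ t ∈ S, (t : G ⧸ (E ⊔ S₁)) = q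
    · obtain ⟨t, ht, rfl⟩ := hq
      obtain ⟨n, hn', h'⟩ := cl1 (E ⊔ S₁) a t hn3 (card_coprime_le h3 hco) (hna3 t ht)
      refine ⟨t * n, fun _ => ⟨?_, h'⟩⟩
      refine (QuotientGroup.eq.2 ?_).symm
      rw [inv_mul_cancel_left]
      exact hn'
    · exact ⟨1, fun h => absurd h hq⟩
  choose r hr using hr
  let R : G → G := fun t => r (t : G ⧸ (E ⊔ S₁))
  have hR : ∀ t ∈ S, (R t)⁻¹ * t ∈ E ⊔ S₁ ∧ a * R t * a⁻¹ = R t := by
    intro t ht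
    obtain ⟨h4, h5⟩ := hr (t : G ⧸ (E ⊔ S₁)) ⟨t, ht, rfl⟩
    exact ⟨QuotientGroup.eq.1 h4, h5⟩
  have he3 : e₀ ∈ E ⊔ S₁ := mem_sup_left he₀
  let f : G → G := fun t => R t * e₀ * (R t)⁻¹ * t
  have hfS : ∀ t ∈ S, f t ∈ S := by
    intro t ht
    have h4 : R t ∈ S := by
      have e : R t = t * ((R t)⁻¹ * t)⁻¹ := by group
      rw [e]
      exact S.mul_mem ht (S.inv_mem (h3 (hR t ht).1))
    exact S.mul_mem (S.mul_mem (S.mul_mem h4 (hES he₀)) (S.inv_mem h4)) ht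
  have hfR : ∀ t ∈ S, R (f t) = R t := by
    intro t ht
    show r (f t : G ⧸ (E ⊔ S₁)) = r (t : G ⧸ (E ⊔ S₁))
    congr 1
    refine (QuotientGroup.eq.2 ?_).symm
    have e : t⁻¹ * f t = ((R t)⁻¹ * t)⁻¹ * e₀ * ((R t)⁻¹ * t) := by
      show t⁻¹ * (R t * e₀ * (R t)⁻¹ * t) = _
      group
    rw [e]
    exact Subgroup.mul_mem _ (Subgroup.mul_mem _ (Subgroup.inv_mem _ (hR t ht).1) he3) (hR t ht).1
  have hfinj : ∀ t ∈ S, ∀ t' ∈ S, f t = f t' → t = t' := by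
    intro t ht t' ht' h
    have h4 : R t = R t' := by rw [← hfR t ht, ← hfR t' ht', h]
    have h5 : R t * e₀ * (R t)⁻¹ * t = R t' * e₀ * (R t')⁻¹ * t' := h
    rw [h4] at h5
    exact mul_left_cancel h5
  have hfn : ∀ t ∈ S, t⁻¹ * (a * t * a⁻¹) ∈ S₁ → (f t)⁻¹ * (a * f t * a⁻¹) ∉ S₁ := by
    intro t ht ht1 hno
    obtain ⟨hx, hRa⟩ := hR t ht
    obtain ⟨e, he, s, hs', hes⟩ := mem_sup_of hnE hx
    have ht2 : t = R t * (e * s) := by rw [← hes]; group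
    have e1 : t⁻¹ * (a * t * a⁻¹) = s⁻¹ * (e⁻¹ * (a * e * a⁻¹)) * (a * s * a⁻¹) := by
      calc t⁻¹ * (a * t * a⁻¹) = (R t * (e * s))⁻¹ * (a * (R t * (e * s)) * a⁻¹) := by rw [← ht2]
        _ = s⁻¹ * (e⁻¹ * ((R t)⁻¹ * (a * R t * a⁻¹)) * (a * e * a⁻¹)) * (a * s * a⁻¹) := by group
        _ = _ := by rw [hRa]; group
    have hsa : a * s * a⁻¹ ∈ S₁ := (mem_normalizer_iff.1 hn1 _).1 hs'
    have h6 : e⁻¹ * (a * e * a⁻¹) ∈ S₁ := by
      rw [e1] at ht1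
      have h7 := S₁.mul_mem (S₁.mul_mem hs' ht1) (S₁.inv_mem hsa)
      have e2 : s * (s⁻¹ * (e⁻¹ * (a * e * a⁻¹)) * (a * s * a⁻¹)) * (a * s * a⁻¹)⁻¹ =
          e⁻¹ * (a * e * a⁻¹) := by group
      rwa [e2] at h7
    have e3 : (f t)⁻¹ * (a * f t * a⁻¹) =
        s⁻¹ * (e⁻¹ * (e₀⁻¹ * (a * e₀ * a⁻¹)) * (a * e * a⁻¹)) * (a * s * a⁻¹) := by
      have e4 : f t = R t * e₀ * (e * s) := by
        show R t * e₀ * (R t)⁻¹ * t = R t * e₀ * (e * s)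
        rw [← hes]
        group
      calc (f t)⁻¹ * (a * f t * a⁻¹) = (R t * e₀ * (e * s))⁻¹ *
            (a * (R t * e₀ * (e * s)) * a⁻¹) := by rw [e4]
        _ = s⁻¹ * (e⁻¹ * (e₀⁻¹ * ((R t)⁻¹ * (a * R t * a⁻¹)) * (a * e₀ * a⁻¹)) *
            (a * e * a⁻¹)) * (a * s * a⁻¹) := by group
        _ = _ := by rw [hRa]; group
    rw [e3] at hno
    have h8 : e⁻¹ * (e₀⁻¹ * (a * e₀ * a⁻¹)) * (a * e * a⁻¹) ∈ S₁ := by
      have h7 := S₁.mul_mem (S₁.mul_mem hs' hno) (S₁.inv_mem hsa)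
      have e2 : s * (s⁻¹ * (e⁻¹ * (e₀⁻¹ * (a * e₀ * a⁻¹)) * (a * e * a⁻¹)) * (a * s * a⁻¹)) *
          (a * s * a⁻¹)⁻¹ = e⁻¹ * (e₀⁻¹ * (a * e₀ * a⁻¹)) * (a * e * a⁻¹) := by group
      rwa [e2] at h7
    apply hne₀
    have hk : e₀⁻¹ * (a * e₀ * a⁻¹) ∈ E :=
      E.mul_mem (E.inv_mem he₀) ((mem_normalizer_iff.1 hAE _).1 he₀)
    have h9 : ⁅e⁻¹, e₀⁻¹ * (a * e₀ * a⁻¹)⁆ ∈ S₁ :=
      hEE (commutator_mem_commutator (E.inv_mem he) hk)
    have e5 : e₀⁻¹ * (a * e₀ * a⁻¹) = ⁅e⁻¹, e₀⁻¹ * (a * e₀ * a⁻¹)⁆⁻¹ *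
        (e⁻¹ * (e₀⁻¹ * (a * e₀ * a⁻¹)) * (a * e * a⁻¹)) * (e⁻¹ * (a * e * a⁻¹))⁻¹ := by
      rw [commutatorElement_def]
      group
    rw [e5]
    exact S₁.mul_mem (S₁.mul_mem (S₁.inv_mem h9) h8) (S₁.inv_mem h6)
  let X := {t : G // t ∈ S ∧ t⁻¹ * (a * t * a⁻¹) ∈ S₁}
  have h10 : Nat.card (X ⊕ X) ≤ Nat.card S := by
    refine Nat.card_le_card_of_injective (Sum.elim (fun t : X => (⟨t.1, t.2.1⟩ : S))
      (fun t : X => (⟨f t.1, hfS t.1 t.2.1⟩ : S))) ?_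
    rintro (x | x) (y | y) hxy
    · have h11 := congrArg Subtype.val hxy
      exact congrArg Sum.inl (Subtype.ext h11)
    · have h11 : x.1 = f y.1 := congrArg Subtype.val hxy
      exact absurd (h11 ▸ x.2.2) (hfn y.1 y.2.1 y.2.2)
    · have h11 : f x.1 = y.1 := congrArg Subtype.val hxy
      exact absurd (h11 ▸ y.2.2) (hfn x.1 x.2.1 x.2.2)
    · exact congrArg Sum.inr (Subtype.ext
        (hfinj x.1 x.2.1 y.1 y.2.1 (congrArg Subtype.val hxy)))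
  rw [Nat.card_sum, ← two_mul] at h10
  exact h10

end MP0d06d9R
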