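import Pool.Agent.Lib.MP_0d06d9_alR.GrpA

/-!
# GRP: Glauberman's lemma, permutation groups on few points, stability
-/

set_option autoImplicit false

namespace MP0d06d9R

open Subgroup commutatorElement
open scoped Pointwise

variable {G : Type*} [Group G]

/-- Glauberman's lemma for a `p`-group -/
private theorem glb_p [Finite G] {Ω : Type*} [MulAction G Ω] (S Q : Subgroup G)
    (hn : Q ≤ normalizer (S : Set G)) {p : ℕ} [Fact p.Prime] (hQ : IsPGroup p Q)
    (hp : ¬ p ∣ Nat.card S) (x : Ω) (hx : ∀ a ∈ Q, ∃ s ∈ S, a • x = s • x) :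
    ∃ s ∈ S, ∀ a ∈ Q, a • s • x = s • x := by
  classical
  let Δ : Set Ω := {y | ∃ s ∈ S, y = s • x}
  have hact : ∀ q ∈ Q, ∀ y ∈ Δ, q • y ∈ Δ := by
    rintro q hq _ ⟨s, hs, rfl⟩
    obtain ⟨s', hs', h⟩ := hx q hq
    refine ⟨q * s * q⁻¹ * s', S.mul_mem ((mem_normalizer_iff.1 (hn hq) _).1 hs) hs', ?_⟩
    rw [mul_smul, ← h, ← mul_smul, ← mul_smul]
    congr 1
    group
  let _ : MulAction Q Δ :=
    { smul := fun q y => ⟨(q : G) • y.1, hact q q.2 y.1 y.2⟩
      one_smul := fun y => Subtype.ext (one_smul G y.1)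
      mul_smul := fun q r y => Subtype.ext (mul_smul (q : G) (r : G) y.1) }
  have hΔ : Δ = MulAction.orbit S x := by
    ext y
    constructor
    · rintro ⟨s, hs, rfl⟩
      exact ⟨⟨s, hs⟩, rfl⟩
    · rintro ⟨s, rfl⟩
      exact ⟨s, s.2, rfl⟩
  have hfin : Finite (MulAction.orbit S x) := by
    exact Set.finite_range _
  have : Finite Δ := by
    rw [hΔ]
    exact hfin
  have hd : ¬ p ∣ Nat.card Δ := by
    intro h
    apply hp
    refine h.trans ?_
    rw [hΔ, Nat.card_congr (MulAction.orbitEquivQuotientStabilizer S x)]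
    exact Subgroup.card_quotient_dvd_card _
  obtain ⟨y, hy⟩ := hQ.nonempty_fixed_point_of_prime_not_dvd_card Δ hd
  obtain ⟨s, hs, h⟩ := y.2
  refine ⟨s, hs, fun a ha => ?_⟩
  have h1 := congrArg Subtype.val (hy ⟨a, ha⟩)
  have h2 : a • y.1 = y.1 := h1
  rwa [h] at h2

private theorem glb_exists {A : Type*} [Group A] [Finite A] (A' : Subgroup A) (h : A' ≠ ⊤) :
    ∃ (p : ℕ) (_ : Fact p.Prime) (Q : Sylow p A), ¬ (Q : Subgroup A) ≤ A' := by
  by_contra hno
  push Not at hno
  apply h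
  apply Subgroup.eq_top_of_card_eq
  apply Nat.dvd_antisymm (Subgroup.card_subgroup_dvd_card A')
  rw [Nat.dvd_iff_prime_pow_dvd_dvd]
  intro p e hp he
  have : Fact p.Prime := ⟨hp⟩
  obtain ⟨Q⟩ : Nonempty (Sylow p A) := Sylow.nonempty
  have h1 := Subgroup.card_dvd_of_le (hno p ⟨hp⟩ Q)
  rw [Sylow.card_eq_multiplicity] at h1
  refine dvd_trans ?_ h1
  exact Nat.pow_dvd_pow p ((hp.pow_dvd_iff_le_factorization Nat.card_pos.ne').1 he)

/-- Glauberman's lemma: `S` is transitive on `Δ` -/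
theorem glauberman [Finite G] {Ω : Type*} [MulAction G Ω] (S A : Subgroup G)
    (hn : A ≤ normalizer (S : Set G)) (hc : ∀ a ∈ A, ∀ b ∈ A, a * b = b * a)
    (hco : (Nat.card A).Coprime (Nat.card S)) (x : Ω)
    (hx : ∀ a ∈ A, ∃ s ∈ S, a • x = s • x) :
    ∃ s ∈ S, ∀ a ∈ A, a • s • x = s • x := by
  classical
  obtain ⟨m, hm⟩ : ∃ m, Nat.card A = m := ⟨_, rfl⟩
  induction m using Nat.strong_induction_on generalizing A with
  | _ m ih =>
  rcases eq_or_ne A ⊥ with rfl | hA
  · refine ⟨1, S.one_mem, fun a ha => ?_⟩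
    rw [mem_bot.1 ha, one_smul]
  have hnt : Nontrivial A := (Subgroup.nontrivial_iff_ne_bot A).2 hA
  obtain ⟨M, hM, -⟩ := (eq_top_or_exists_le_coatom (⊥ : Subgroup A)).resolve_left
    (bot_ne_top)
  obtain ⟨p, hp, Q, hQ⟩ := glb_exists M hM.1
  -- the two subgroups of `G`
  have hM1 : M.map A.subtype ≤ A := map_subtype_le M
  have hQ1 : (Q : Subgroup A).map A.subtype ≤ A := map_subtype_le _
  have hsup : M ⊔ (Q : Subgroup A) = ⊤ := by
    apply hM.2
    refine lt_of_le_of_ne le_sup_left fun h => hQ ?_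
    rw [h]
    exact le_sup_right
  have hlt : Nat.card (M.map A.subtype) < m := by
    rw [← hm]
    refine lt_of_le_of_ne (Nat.le_of_dvd Nat.card_pos (Subgroup.card_dvd_of_le hM1)) ?_
    intro h
    apply hM.1
    have h1 : M.map A.subtype = A := Subgroup.eq_of_le_of_card_ge hM1 h.ge
    apply map_injective A.subtype_injective
    rw [h1, ← MonoidHom.range_eq_map, A.range_subtype]
  have hpA : p ∣ Nat.card A := by
    by_contra h2
    apply hQ
    have h3 : Nat.card Q = 1 := by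
      rw [Sylow.card_eq_multiplicity, Nat.factorization_eq_zero_of_not_dvd h2, pow_zero]
    rw [(Subgroup.card_eq_one (H := (Q : Subgroup A))).1 h3]
    exact bot_le
  have hpS : ¬ p ∣ Nat.card S := by
    intro h2
    have h3 := Nat.dvd_gcd hpA h2
    rw [hco] at h3
    exact hp.out.one_lt.ne' (Nat.dvd_one.1 h3)
  obtain ⟨s₀, hs₀, hfix₀⟩ := ih _ hlt (M.map A.subtype) (hM1.trans hn)
    (fun a ha b hb => hc a (hM1 ha) b (hM1 hb))
    (Nat.Coprime.coprime_dvd_left (Subgroup.card_dvd_of_le hM1) hco)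
    (fun a ha => hx a (hM1 ha)) rfl
  set y : Ω := s₀ • x with hy
  set A' : Subgroup G := M.map A.subtype with hA'
  -- the centraliser of `A'` in `S`
  let S' : Subgroup G := S ⊓ centralizer (A' : Set G)
  have hS'mem : ∀ s : G, s ∈ S' ↔ s ∈ S ∧ ∀ a ∈ A', a * s = s * a := by
    intro s
    rw [mem_inf, mem_centralizer_iff]
    rfl
  have hnS' : (Q : Subgroup A).map A.subtype ≤ normalizer (S' : Set G) := by
    intro q hq
    have hqA := hQ1 hq
    have key : ∀ q ∈ A, ∀ s ∈ S', q * s * q⁻¹ ∈ S' := by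
      intro q hq s hs
      rw [hS'mem] at hs ⊢
      refine ⟨(mem_normalizer_iff.1 (hn hq) _).1 hs.1, fun a ha => ?_⟩
      have h1 := hc a (hM1 ha) q hq
      have h2 := hs.2 a ha
      have h3 : a * q⁻¹ = q⁻¹ * a := by
        rw [mul_inv_eq_iff_eq_mul, mul_assoc, h1, inv_mul_cancel_left]
      calc a * (q * s * q⁻¹) = (a * q) * s * q⁻¹ := by group
        _ = q * (a * s) * q⁻¹ := by rw [h1]; group
        _ = q * s * (a * q⁻¹) := by rw [h2]; group
        _ = q * s * q⁻¹ * a := by rw [h3]; group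
    rw [mem_normalizer_iff]
    intro s
    refine ⟨key q hqA s, fun hs => ?_⟩
    have h1 := key q⁻¹ (A.inv_mem hqA) _ hs
    have e : q⁻¹ * (q * s * q⁻¹) * q⁻¹⁻¹ = s := by group
    rwa [e] at h1
  have hQp : IsPGroup p ((Q : Subgroup A).map A.subtype) := Q.isPGroup'.map _
  have hpS' : ¬ p ∣ Nat.card S' := fun h =>
    hpS (h.trans (Subgroup.card_dvd_of_le inf_le_left))
  obtain ⟨c, hcS', hfixc⟩ := glb_p S' ((Q : Subgroup A).map A.subtype) hnS' hQp hpS' y (by
    intro q hq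
    have hqA := hQ1 hq
    -- `q • y = s • y` with `s ∈ S`
    obtain ⟨s, hs, h⟩ : ∃ s ∈ S, q • y = s • y := by
      obtain ⟨s', hs', h'⟩ := hx q hqA
      refine ⟨q * s₀ * q⁻¹ * s' * s₀⁻¹, S.mul_mem (S.mul_mem
        ((mem_normalizer_iff.1 (hn hqA) _).1 hs₀) hs') (S.inv_mem hs₀), ?_⟩
      rw [hy, ← mul_smul, ← mul_smul]
      have e : q * s₀ * q⁻¹ * s' * s₀⁻¹ * s₀ = (q * s₀ * q⁻¹) * s' := by group
      rw [e, mul_smul (q * s₀ * q⁻¹) s' x, ← h', ← mul_smul]
      congr 1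
      group
    -- the stabiliser of `y` in `S`
    let N : Subgroup G := S ⊓ MulAction.stabilizer G y
    have hNmem : ∀ z : G, z ∈ N ↔ z ∈ S ∧ z • y = y := by
      intro z
      rw [mem_inf, MulAction.mem_stabilizer_iff]
    have hNn : A' ≤ normalizer (N : Set G) := by
      have key : ∀ a ∈ A', ∀ z ∈ N, a * z * a⁻¹ ∈ N := by
        intro a ha z hz
        rw [hNmem] at hz ⊢
        refine ⟨(mem_normalizer_iff.1 (hn (hM1 ha)) _).1 hz.1, ?_⟩
        have h1 : a⁻¹ • y = y := hfix₀ a⁻¹ (A'.inv_mem ha)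
        rw [mul_smul, mul_smul, h1, hz.2]
        exact hfix₀ a ha
      intro a ha
      rw [mem_normalizer_iff]
      intro z
      refine ⟨key a ha z, fun hz => ?_⟩
      have h1 := key a⁻¹ (A'.inv_mem ha) _ hz
      have e : a⁻¹ * (a * z * a⁻¹) * a⁻¹⁻¹ = z := by group
      rwa [e] at h1
    obtain ⟨n, hnN, hfixn⟩ := MP0d06d9.cl A' N inferInstance
      (isSolvable_comm A' fun a ha b hb => hc a (hM1 ha) b (hM1 hb)) inferInstance hNn
      (Nat.Coprime.coprime_dvd_right (Subgroup.card_dvd_of_le inf_le_left)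
        (Nat.Coprime.coprime_dvd_left (Subgroup.card_dvd_of_le hM1) hco)) s (by
        intro a ha
        rw [hNmem]
        refine ⟨S.mul_mem (S.inv_mem hs) ((mem_normalizer_iff.1 (hn (hM1 ha)) _).1 hs), ?_⟩
        have h1 : a⁻¹ • y = y := hfix₀ a⁻¹ (A'.inv_mem ha)
        have h2 : a • y = y := hfix₀ a ha
        have h3 : a • s • y = s • y := by
          rw [← h, ← mul_smul, hc a (hM1 ha) q hqA, mul_smul, h2]
        rw [mul_smul, mul_smul, mul_smul, h1, h3, inv_smul_smul])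
    refine ⟨s * n, (hS'mem _).2 ⟨S.mul_mem hs ((hNmem n).1 hnN).1, fun a ha => ?_⟩, ?_⟩
    · have h1 := hfixn a ha
      rwa [mul_inv_eq_iff_eq_mul] at h1
    · rw [mul_smul, ((hNmem n).1 hnN).2]
      exact h)
  have hcS := (hS'mem c).1 hcS'
  refine ⟨c * s₀, S.mul_mem hcS.1 hs₀, fun a ha => ?_⟩
  rw [mul_smul]
  change a • c • y = c • y
  let P : Subgroup A :=
    { carrier := {a | (a : G) • c • y = c • y}
      mul_mem' := by
        intro a b ha hb
        have ha' : (a : G) • c • y = c • y := ha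
        have hb' : (b : G) • c • y = c • y := hb
        show ((a * b : A) : G) • c • y = c • y
        rw [Subgroup.coe_mul, mul_smul, hb', ha']
      one_mem' := by
        show ((1 : A) : G) • c • y = c • y
        rw [Subgroup.coe_one, one_smul]
      inv_mem' := by
        intro a ha
        have ha' : (a : G) • c • y = c • y := ha
        show ((a⁻¹ : A) : G) • c • y = c • y
        rw [Subgroup.coe_inv, inv_smul_eq_iff]
        exact ha'.symm }
  have hMP : M ≤ P := by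
    intro b hb
    show (b : G) • c • y = c • y
    have hb' : (b : G) ∈ A' := ⟨b, hb, rfl⟩
    rw [← mul_smul, hcS.2 _ hb', mul_smul]
    congr 1
    exact hfix₀ _ hb'
  have hQP : (Q : Subgroup A) ≤ P := by
    intro b hb
    exact hfixc (b : G) ⟨b, hb, rfl⟩
  have hP : (⊤ : Subgroup A) ≤ P := hsup ▸ sup_le hMP hQP
  exact hP (mem_top (⟨a, ha⟩ : A))

/-- the derived series of a finite soluble group reaches `1` after at most `|R|` steps -/
theorem der_card [Finite G] : ∀ (n : ℕ) (R : Subgroup G), Group.IsSolvable R → Nat.card R ≤ n →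
    (D 1)^[n] R = ⊥ := by
  intro n
  induction n with
  | zero =>
    intro R _ hR
    have := Nat.card_pos (α := R)
    omega
  | succ n ih =>
    intro R hs hR
    rw [Function.iterate_succ_apply]
    rcases eq_or_ne R ⊥ with rfl | hne
    · exact le_bot_iff.1 ((D_iter_le 1 n _).trans (D_le 1 _))
    have hnt : Nontrivial R := (Subgroup.nontrivial_iff_ne_bot R).2 hne
    have h1 : commutator R < ⊤ := Group.IsSolvable.commutator_lt_top_of_nontrivial R
    have h2 : D 1 R = (commutator R).map R.subtype := by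
      rw [D_succ, D_zero, commutator_def, map_commutator, ← MonoidHom.range_eq_map,
        R.range_subtype]
    have h3 : D 1 R < R := by
      refine lt_of_le_of_ne (D_le 1 R) fun h => ?_
      rw [h2] at h
      apply h1.ne
      apply map_injective R.subtype_injective
      rw [h, ← MonoidHom.range_eq_map, R.range_subtype]
    have h4 : Nat.card (D 1 R) < Nat.card R := by
      refine lt_of_le_of_ne (Nat.le_of_dvd Nat.card_pos (Subgroup.card_dvd_of_le h3.le)) ?_
      intro h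
      exact h3.ne (Subgroup.eq_of_le_of_card_ge h3.le h.ge)
    refine ih (D 1 R) ?_ (by omega)
    exact Group.isSolvable_of_isSolvable_injective (inclusion_injective h3.le)

/-- the conjugation on `W₁` -/
private def smlConj (W₁ : Subgroup G) (m : G) (hm : m ∈ normalizer (W₁ : Set G)) : W₁ →* W₁ where
  toFun := fun e => ⟨m * e * m⁻¹, (mem_normalizer_iff.1 hm _).1 e.2⟩
  map_one' := Subtype.ext (by show m * 1 * m⁻¹ = 1; group)
  map_mul' := fun x y => Subtype.ext (by
    show m * (x * y) * m⁻¹ = m * x * m⁻¹ * (m * y * m⁻¹)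
    group)

/-- derived length of a solvable group of permutations: the `|Ω| !`-th derived subgroup is trivial.
Here `X` acts on the finite set `W₁ / W₂` of at most `b` elements by conjugation. -/
theorem small_trivial [Finite G] (M W₁ W₂ : Subgroup G) (h21 : W₂ ≤ W₁)
    (h1 : M ≤ normalizer (W₁ : Set G)) (h2 : M ≤ normalizer (W₂ : Set G))
    (h12 : W₁ ≤ normalizer (W₂ : Set G)) (hs : Group.IsSolvable M) (b : ℕ)
    (hb : W₂.relIndex W₁ ≤ b) (t : G) (ht : t ∈ (D 1)^[b.factorial] M) (w : G) (hw : w ∈ W₁) :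
    ⁅w, t⁆ ∈ W₂ := by
  classical
  let N : Subgroup W₁ := W₂.subgroupOf W₁
  have hmem : ∀ x : W₁, x ∈ N ↔ (x : G) ∈ W₂ := fun x => mem_subgroupOf
  have hN : N.Normal := ⟨fun n hn g => by
    rw [hmem] at hn ⊢
    exact (mem_normalizer_iff.1 (h12 g.2) _).1 hn⟩
  have hmap : ∀ m (hm : m ∈ M), N ≤ N.comap (smlConj W₁ m (h1 hm)) := by
    intro m hm x hx
    rw [mem_comap, hmem]
    exact (mem_normalizer_iff.1 (h2 hm) _).1 hx
  let f : M → W₁ ⧸ N → W₁ ⧸ N := fun m =>
    QuotientGroup.map N N (smlConj W₁ m.1 (h1 m.2)) (hmap m.1 m.2)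
  have hf : ∀ (m : M) (x : W₁), f m (x : W₁ ⧸ N) = ((smlConj W₁ m.1 (h1 m.2) x : W₁) : W₁ ⧸ N) :=
    fun m x => rfl
  let act : MulAction M (W₁ ⧸ N) :=
    { smul := f
      one_smul := by
        intro x
        obtain ⟨x, rfl⟩ := QuotientGroup.mk_surjective x
        change f 1 (x : W₁ ⧸ N) = (x : W₁ ⧸ N)
        rw [hf]
        congr 1
        refine Subtype.ext ?_
        show ((1 : M) : G) * x * ((1 : M) : G)⁻¹ = x
        rw [Subgroup.coe_one]
        group
      mul_smul := by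
        intro m m' x
        obtain ⟨x, rfl⟩ := QuotientGroup.mk_surjective x
        change f (m * m') (x : W₁ ⧸ N) = f m (f m' (x : W₁ ⧸ N))
        rw [hf, hf, hf]
        congr 1
        refine Subtype.ext ?_
        show ((m * m' : M) : G) * x * ((m * m' : M) : G)⁻¹ =
          (m : G) * ((m' : G) * x * (m' : G)⁻¹) * (m : G)⁻¹
        rw [Subgroup.coe_mul]
        group }
  let ψ : M →* Equiv.Perm (W₁ ⧸ N) := MulAction.toPermHom M (W₁ ⧸ N)
  have hcard : Nat.card ((⊤ : Subgroup M).map ψ) ≤ b.factorial := by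
    have h3 : Nat.card ((⊤ : Subgroup M).map ψ) ≤ Nat.card (Equiv.Perm (W₁ ⧸ N)) :=
      Nat.le_of_dvd Nat.card_pos (Subgroup.card_subgroup_dvd_card _)
    rw [Nat.card_perm] at h3
    exact h3.trans (Nat.factorial_le hb)
  have hsol : Group.IsSolvable ((⊤ : Subgroup M).map ψ) := by
    rw [← MonoidHom.range_eq_map]
    exact Group.isSolvable_of_surjective (MonoidHom.rangeRestrict_surjective ψ)
  have h4 := der_card b.factorial _ hsol hcard
  rw [← D_iter_map] at h4
  have h5 : (D 1)^[b.factorial] M = ((D 1)^[b.factorial] (⊤ : Subgroup M)).map M.subtype := by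
    rw [D_iter_map, ← MonoidHom.range_eq_map, M.range_subtype]
  rw [h5] at ht
  obtain ⟨t', ht', rfl⟩ := ht
  have h6 : ψ t' = 1 := by
    have h7 : ψ t' ∈ ((D 1)^[b.factorial] (⊤ : Subgroup M)).map ψ := ⟨t', ht', rfl⟩
    rw [h4] at h7
    exact h7
  have h8 : f t' ((⟨w⁻¹, W₁.inv_mem hw⟩ : W₁) : W₁ ⧸ N) = ((⟨w⁻¹, W₁.inv_mem hw⟩ : W₁) : W₁ ⧸ N) := by
    have h9 : ψ t' ((⟨w⁻¹, W₁.inv_mem hw⟩ : W₁) : W₁ ⧸ N) =
      ((⟨w⁻¹, W₁.inv_mem hw⟩ : W₁) : W₁ ⧸ N) := by
      rw [h6]
      rfl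
    exact h9
  rw [hf] at h8
  have h10 := QuotientGroup.eq.1 h8.symm
  rw [hmem] at h10
  have h11 : (w⁻¹)⁻¹ * ((t' : G) * w⁻¹ * (t' : G)⁻¹) ∈ W₂ := h10
  rw [commutatorElement_def]
  have e : w * (t' : G) * w⁻¹ * (t' : G)⁻¹ = (w⁻¹)⁻¹ * ((t' : G) * w⁻¹ * (t' : G)⁻¹) := by group
  show w * (t' : G) * w⁻¹ * (t' : G)⁻¹ ∈ W₂
  rw [e]
  exact h11

/-- stability: `T` acts trivially on the factors of a chain, so `γ` of `T` acts trivially on
`J 0 / J k` -/
theorem stability (J : ℕ → Subgroup G) (k : ℕ) (T : Subgroup G) (hT : ∀ i, T ≤ normalizer (J i : Set G))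
    (hJ : ∀ i j, i ≤ j → J j ≤ J i) (hn : ∀ i j, J i ≤ normalizer (J j : Set G))
    (h : ∀ i < k, ⁅J i, T⁆ ≤ J (i + 1)) : ⁅J 0, D k T⁆ ≤ J k := by
  have key : ∀ m i : ℕ, i + m < k → ⁅J i, D m T⁆ ≤ J (i + m + 1) := by
    intro m
    induction m with
    | zero =>
      intro i hi
      exact h i (by omega)
    | succ m ih =>
      intro i hi
      have hN : ∀ x ∈ T, ∀ n ∈ J (i + (m + 1) + 1), x * n * x⁻¹ ∈ J (i + (m + 1) + 1) :=
        fun x hx n hn => (mem_normalizer_iff.1 (hT _ hx) _).1 hn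
      have hN' : ∀ x ∈ J i, ∀ n ∈ J (i + (m + 1) + 1), x * n * x⁻¹ ∈ J (i + (m + 1) + 1) :=
        fun x hx n hn' => (mem_normalizer_iff.1 (hn _ _ hx) _).1 hn'
      have hsw : ∀ (A B C : Subgroup G), ⁅A, B⁆ ≤ C → ∀ x ∈ B, ∀ y ∈ A, ⁅x, y⁆ ∈ C := by
        intro A B C hC x hx y hy
        rw [← commutatorElement_inv]
        exact C.inv_mem (hC (commutator_mem_commutator hy hx))
      let P : Subgroup G :=
        { carrier := {d | d ∈ T ∧ ∀ j ∈ J i, ⁅j, d⁆ ∈ J (i + (m + 1) + 1)}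
          mul_mem' := by
            rintro x y ⟨hx, hx'⟩ ⟨hy, hy'⟩
            refine ⟨T.mul_mem hx hy, fun j hj => ?_⟩
            have e : ⁅j, x * y⁆ = ⁅j, x⁆ * (x * ⁅j, y⁆ * x⁻¹) := by
              simp only [commutatorElement_def]
              group
            rw [e]
            exact Subgroup.mul_mem _ (hx' j hj) (hN x hx _ (hy' j hj))
          one_mem' := by
            refine ⟨T.one_mem, fun j _ => ?_⟩
            rw [commutatorElement_one_right]
            exact Subgroup.one_mem _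
          inv_mem' := by
            rintro x ⟨hx, hx'⟩
            refine ⟨T.inv_mem hx, fun j hj => ?_⟩
            have e : ⁅j, x⁻¹⁆ = x⁻¹ * ⁅j, x⁆⁻¹ * x⁻¹⁻¹ := by
              simp only [commutatorElement_def]
              group
            rw [e]
            exact hN x⁻¹ (T.inv_mem hx) _ (Subgroup.inv_mem _ (hx' j hj)) }
      have hP : D (m + 1) T ≤ P := by
        rw [D_succ, commutator_le]
        intro x hx y hy
        have hxT : x ∈ T := D_le m T hx
        refine ⟨D_le 1 T ?_, fun z hz => ?_⟩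
        · rw [D_succ, D_zero]
          exact commutator_mem_commutator hxT hy
        have e : ⁅z, ⁅x, y⁆⁆ = x * ((z * ⁅y, ⁅z⁻¹, x⁻¹⁆⁆⁻¹ * z⁻¹) *
            (y * ⁅x⁻¹, ⁅y⁻¹, z⁆⁆⁻¹ * y⁻¹)) * x⁻¹ := by
          simp only [commutatorElement_def]
          group
        rw [e]
        have h1 : ⁅z⁻¹, x⁻¹⁆ ∈ J (i + m + 1) :=
          ih i (by omega) (commutator_mem_commutator ((J i).inv_mem hz) (Subgroup.inv_mem _ hx))
        have h2 : ⁅y, ⁅z⁻¹, x⁻¹⁆⁆ ∈ J (i + (m + 1) + 1) :=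
          hsw _ _ _ (h (i + m + 1) (by omega)) y hy _ h1
        have h3 : ⁅y⁻¹, z⁆ ∈ J (i + 1) := hsw _ _ _ (h i (by omega)) y⁻¹ (T.inv_mem hy) z hz
        have h4 : ⁅x⁻¹, ⁅y⁻¹, z⁆⁆ ∈ J (i + (m + 1) + 1) := by
          have h5 := hsw _ _ _ (ih (i + 1) (by omega)) x⁻¹ (Subgroup.inv_mem _ hx) _ h3
          have e2 : i + 1 + m + 1 = i + (m + 1) + 1 := by omega
          rwa [e2] at h5
        exact hN x hxT _ (Subgroup.mul_mem _ (hN' z hz _ (Subgroup.inv_mem _ h2))
          (hN y hy _ (Subgroup.inv_mem _ h4)))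
      rw [commutator_le]
      intro j hj d hd
      exact (hP hd).2 j hj
  rcases Nat.eq_zero_or_pos k with rfl | hk
  · rw [D_zero, commutator_le]
    intro j hj t ht
    have e : ⁅j, t⁆ = j * (t * j⁻¹ * t⁻¹) := by
      rw [commutatorElement_def]
      group
    rw [e]
    exact Subgroup.mul_mem _ hj ((mem_normalizer_iff.1 (hT 0 ht) _).1 (Subgroup.inv_mem _ hj))
  · have h1 := key (k - 1) 0 (by omega)
    have e : 0 + (k - 1) + 1 = k := by omega
    rw [e] at h1
    exact (commutator_mono le_rfl (D_anti (by omega) T)).trans h1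

end MP0d06d9R
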