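import Pool.Agent.Lib.MP_0d06d9_alR.GrpD
import Pool.Agent.Lib.MP_0d06d9_alR.GrpA
import Pool.Agent.Lib.MP_0d06d9_alR.GrpB

/-!
# GRP: coprime action and the lower series (all proved)
-/
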