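import Pool.Agent.Lib.MP_0d06d9_alR.T0
import Pool.Agent.Lib.MP_0d06d9_alR.DL
import Pool.Agent.Lib.MP_0d06d9_alR.Grp

/-!
# B0: Full subgroups
-/

set_option autoImplicit false

namespace MP0d06d9R

open Subgroup commutatorElement
open MP0d06d9I (norm_sup norm_inf norm_map norm_comm)
open scoped Pointwise

variable {G : Type*} [Group G]

/-- `M` is a soluble normal subgroup, `x` acts on it as an automorphism of order dividing `b`,
`G = M ⟨x⟩`, `b` odd, coprime orders -/
structure Dat (M : Subgroup G) (x : G) (b : ℕ) : Prop where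
  nor : M.Normal
  sol : Group.IsSolvable M
  top : M ⊔ zpowers x = ⊤
  pow : ∀ m ∈ M, m * x ^ b = x ^ b * m
  cop : b.Coprime (Nat.card M)
  ord : (orderOf x).Coprime (Nat.card M)
  odd : Odd b

/-- the normal closure of the Full subgroups of `M` -/
def DF (x : G) (b : ℕ) (M : Subgroup G) : Subgroup G :=
  normalClosure {t | ∃ T : Subgroup G, T ≤ M ∧ Full x b T ∧ t ∈ T}

instance DF_normal (x : G) (b : ℕ) (M : Subgroup G) : (DF x b M).Normal :=
  normalClosure_normal

theorem norm_pow (x : G) (i : ℕ) : x ∈ normalizer ((zpowers (x ^ i) : Subgroup G) : Set G) := by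
  apply norm_map.2
  rw [MonoidHom.map_zpowers]
  congr 1
  show x * x ^ i * x⁻¹ = x ^ i
  rw [← pow_succ', pow_succ, mul_inv_cancel_right]

theorem Full.map {G' : Type*} [Group G'] (f : G →* G') {x : G} {b : ℕ} {T : Subgroup G}
    (h : Full x b T) : Full (f x) b (T.map f) := by
  refine ⟨?_, fun i hi => ?_⟩
  · have h1 := Subgroup.mem_map_of_mem f h.1
    exact (Subgroup.le_normalizer_map f) h1
  · have h2 := congrArg (Subgroup.map f) (h.2 i hi)
    rw [map_commutator, MonoidHom.map_zpowers, map_pow] at h2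
    exact h2

theorem le_DF {x : G} {b : ℕ} {M T : Subgroup G} (hT : T ≤ M) (h : Full x b T) :
    T ≤ DF x b M := fun t ht => subset_normalClosure ⟨T, hT, h, ht⟩

theorem DF_le {x : G} {b : ℕ} {M C : Subgroup G} [C.Normal]
    (h : ∀ T : Subgroup G, T ≤ M → Full x b T → T ≤ C) : DF x b M ≤ C := by
  refine normalClosure_le_normal ?_
  rintro t ⟨T, hT, hF, ht⟩
  exact h T hT hF ht

theorem DF_map {G' : Type*} [Group G'] (f : G →* G') (hf : Function.Surjective f) (x : G) (b : ℕ)
    (M : Subgroup G) : (DF x b M).map f ≤ DF (f x) b (M.map f) := by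
  rw [DF, map_normalClosure _ f hf]
  refine normalClosure_mono ?_
  rintro _ ⟨t, ⟨T, hT, hF, ht⟩, rfl⟩
  exact ⟨T.map f, Subgroup.map_mono hT, hF.map f, Subgroup.mem_map_of_mem f ht⟩

theorem exists_full {x : G} {b : ℕ} {M C : Subgroup G} [C.Normal] (h : ¬ DF x b M ≤ C) :
    ∃ T : Subgroup G, T ≤ M ∧ Full x b T ∧ ¬ T ≤ C := by
  by_contra hno
  push Not at hno
  exact h (DF_le hno)

theorem Dat.map {G' : Type*} [Group G'] [Finite G] (f : G →* G') (hf : Function.Surjective f)
    {M : Subgroup G} {x : G} {b : ℕ} (h : Dat M x b) : Dat (M.map f) (f x) b where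
  nor := h.nor.map f hf
  sol := by
    have := h.sol
    exact Group.isSolvable_of_surjective (f.subgroupMap_surjective M)
  top := by
    rw [← MonoidHom.map_zpowers, ← Subgroup.map_sup, h.top, ← MonoidHom.range_eq_map]
    exact MonoidHom.range_eq_top.2 hf
  pow := by
    rintro _ ⟨m, hm, rfl⟩
    rw [← map_pow, ← map_mul, h.pow m hm, map_mul]
  cop := Nat.Coprime.coprime_dvd_right (Subgroup.card_map_dvd M f) h.cop
  ord := Nat.Coprime.coprime_dvd_left (orderOf_map_dvd f x)
    (Nat.Coprime.coprime_dvd_right (Subgroup.card_map_dvd M f) h.ord)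
  odd := h.odd

/-- lifting of Full subgroups -/
theorem lift {G' : Type*} [Group G'] [Finite G] (f : G →* G') {x : G} {b : ℕ} {S : Subgroup G}
    (hS : x ∈ normalizer (S : Set G)) {T : Subgroup G'} (hT : Full (f x) b T) (hTS : T ≤ S.map f) :
    ∃ P ≤ S, Full x b P ∧ P.map f = T := by
  classical
  let X : Set (Subgroup G) := {P | P ≤ S ∧ x ∈ normalizer (P : Set G) ∧ P.map f = T}
  have hne : X.Nonempty := by
    refine ⟨S ⊓ T.comap f, inf_le_left, ?_, ?_⟩
    · have h1 : x ∈ normalizer ((T.comap f : Subgroup G) : Set G) := by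
        rw [mem_normalizer_iff]
        intro y
        show f y ∈ T ↔ f (x * y * x⁻¹) ∈ T
        rw [map_mul, map_mul, map_inv]
        exact mem_normalizer_iff.1 hT.1 (f y)
      exact inf_normalizer_le_normalizer_inf ⟨hS, h1⟩
    · refine le_antisymm ?_ ?_
      · rintro _ ⟨y, hy, rfl⟩
        exact hy.2
      · intro t ht
        obtain ⟨y, hy, rfl⟩ := hTS ht
        exact ⟨y, ⟨hy, ht⟩, rfl⟩
  obtain ⟨P, hP, hmin⟩ := Set.Finite.exists_minimalFor (fun P : Subgroup G => P) X
    (Set.toFinite X) hne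
  refine ⟨P, hP.1, ⟨hP.2.1, fun i hi => ?_⟩, hP.2.2⟩
  have hxi : zpowers (x ^ i) ≤ normalizer (P : Set G) :=
    zpowers_le.2 (Subgroup.pow_mem _ hP.2.1 i)
  have hle : ⁅P, zpowers (x ^ i)⁆ ≤ P := le_normalizer_iff_commutator_le_left.1 hxi
  refine le_antisymm hle (hmin ⟨hle.trans hP.1, ?_, ?_⟩ hle)
  · exact norm_comm ⟨hP.2.1, norm_pow x i⟩
  · rw [map_commutator, MonoidHom.map_zpowers, map_pow, hP.2.2]
    exact hT.2 i hi

/-- nilpotency in terms of `D` -/
theorem nil_iff (T : Subgroup G) : Group.IsNilpotent T ↔ ∃ c, D c T = ⊥ := by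
  have h : ∀ c, D c T = T.lowerCentralSeries c := by
    intro c
    induction c with
    | zero => rfl
    | succ c ih => rw [D_succ, ih, Subgroup.lowerCentralSeries_succ]
  rw [Subgroup.isNilpotent_iff_lowerCentralSeries]
  refine exists_congr fun c => ?_
  rw [h]

end MP0d06d9R
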