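import Pool.Agent.Lib.MP_0d06d9_alR.B0

/-!
# B1: nilpotent normal subgroups, the critical chief factor
-/

set_option autoImplicit false

namespace MP0d06d9R

open Subgroup commutatorElement
open MP0d06d9I (norm_sup norm_inf norm_map norm_comm)
open scoped Pointwise

variable {G : Type*} [Group G]

theorem mem_of_pow_coprime {S : Subgroup G} {a : G} {m n : ℕ} (h : m.Coprime n) (hm : a ^ m ∈ S)
    (hn : a ^ n ∈ S) : a ∈ S := by
  have h1 : (1 : ℤ) = m * Nat.gcdA m n + n * Nat.gcdB m n := by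
    rw [← Nat.gcd_eq_gcd_ab, h]
    rfl
  have h2 : a = (a ^ m) ^ (Nat.gcdA m n) * (a ^ n) ^ (Nat.gcdB m n) := by
    rw [← zpow_natCast a m, ← zpow_natCast a n, ← zpow_mul, ← zpow_mul, ← zpow_add, ← h1, zpow_one]
  rw [h2]
  exact S.mul_mem (S.zpow_mem hm _) (S.zpow_mem hn _)

/-- the Sylow `s`-subgroup of a nilpotent normal subgroup -/
theorem nil_syl [Finite G] (N : Subgroup G) [N.Normal] (hn : Group.IsNilpotent N) {s : ℕ}
    (hs : s.Prime) : ∃ S : Subgroup G, S.Normal ∧ S ≤ N ∧ IsPGroup s S ∧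
      ∃ k : ℕ, k.Coprime s ∧ ∀ w ∈ N, w ^ k ∈ S := by
  have : Fact s.Prime := ⟨hs⟩
  obtain ⟨P⟩ : Nonempty (Sylow s N) := Sylow.nonempty
  have hP : (P : Subgroup N).Normal := (Group.isNilpotent_of_finite_tfae.out 0 3 rfl rfl).1 hn s ‹_› P
  have hc : (P : Subgroup N).Characteristic := P.characteristic_of_normal hP
  refine ⟨(P : Subgroup N).map N.subtype, inferInstance, map_subtype_le _, P.isPGroup'.map _,
    (P : Subgroup N).index, ?_, fun w hw => ?_⟩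
  · exact ((Nat.Prime.coprime_iff_not_dvd hs).2 P.not_dvd_index).symm
  · exact ⟨⟨w, hw⟩ ^ (P : Subgroup N).index, Subgroup.pow_index_mem _ _, rfl⟩

/-- lifting of a Full `s`-subgroup to a nilpotent normal subgroup -/
theorem lift_nil {G' : Type*} [Group G'] [Finite G] (f : G →* G') {x : G} {b s : ℕ}
    (hs : s.Prime) (N : Subgroup G) [N.Normal] (hn : Group.IsNilpotent N) {T : Subgroup G'}
    (hT : Full (f x) b T) (hTN : T ≤ N.map f) (hTs : IsPGroup s T) :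
    ∃ S P : Subgroup G, S.Normal ∧ S ≤ N ∧ IsPGroup s S ∧ P ≤ S ∧ Full x b P ∧ P.map f = T := by
  obtain ⟨S, hS, hSN, hSs, k, hk, hkS⟩ := nil_syl N hn hs
  have hTS : T ≤ S.map f := by
    intro t ht
    obtain ⟨w, hw, rfl⟩ := hTN ht
    obtain ⟨j, hj⟩ := hTs ⟨f w, ht⟩
    have h1 : (f w) ^ (s ^ j) = 1 := congrArg Subtype.val hj
    refine mem_of_pow_coprime (m := k) (n := s ^ j) (Nat.Coprime.pow_right j hk) ?_ ?_
    · rw [← map_pow]
      exact Subgroup.mem_map_of_mem f (hkS w hw)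
    · rw [h1]
      exact Subgroup.one_mem _
  have hxS : x ∈ normalizer (S : Set G) := le_normalizer_of_normal (mem_top x)
  obtain ⟨P, hPS, hPF, hPT⟩ := lift f hxS hT hTS
  exact ⟨S, P, hS, hSN, hSs, hPS, hPF, hPT⟩

theorem comm_lt_of_solvable {N : Subgroup G} (hs : Group.IsSolvable N) (hne : N ≠ ⊥) :
    ¬ N ≤ ⁅N, N⁆ := by
  intro h
  have h1 : ∀ k : ℕ, N ≤ (D 1)^[k] N := by
    intro k
    induction k with
    | zero => exact le_rfl
    | succ k ih =>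
      rw [Function.iterate_succ_apply', D_succ, D_zero]
      exact h.trans (commutator_mono ih ih)
  obtain ⟨k, hk⟩ := exists_der N hs
  have h2 := h1 k
  rw [hk] at h2
  exact hne (le_bot_iff.1 h2)

/-- a minimal normal subgroup modulo `N₂` of a soluble group is abelian -/
theorem chief_ab {N₁ N₂ : Subgroup G} [N₁.Normal] [N₂.Normal] (hs : Group.IsSolvable N₁)
    (h21 : N₂ ≤ N₁) (hne : N₂ ≠ N₁)
    (hmin : ∀ U : Subgroup G, U.Normal → N₂ ≤ U → U ≤ N₁ → U = N₂ ∨ U = N₁) :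
    ⁅N₁, N₁⁆ ≤ N₂ := by
  have h1 : ⁅N₁, N₁⁆ ≤ N₁ := commutator_le_left _ _
  rcases hmin (N₂ ⊔ ⁅N₁, N₁⁆) inferInstance le_sup_left (sup_le h21 h1) with h | h
  · exact le_sup_right.trans h.le
  · exfalso
    have h2 : ∀ k : ℕ, N₁ ≤ (D 1)^[k] N₁ ⊔ N₂ := by
      intro k
      induction k with
      | zero => exact le_sup_left
      | succ k ih =>
        rw [Function.iterate_succ_apply']
        have h3 : D 1 N₁ ≤ D 1 ((D 1)^[k] N₁) ⊔ N₂ :=
          (D_mono ih 1).trans (D_iter_sup 1 1 _ N₂)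
        have h4 : ⁅N₁, N₁⁆ = D 1 N₁ := by rw [D_succ, D_zero]
        rw [h4] at h
        calc N₁ = N₂ ⊔ D 1 N₁ := h.symm
          _ ≤ _ := sup_le le_sup_right h3
    obtain ⟨k, hk⟩ := exists_der N₁ hs
    have h3 := h2 k
    rw [hk, bot_sup_eq] at h3
    exact hne (le_antisymm h21 h3)

/-- a maximal normal subgroup properly contained in `N₁` -/
theorem exists_chief [Finite G] (N₁ : Subgroup G) (hne : N₁ ≠ ⊥) :
    ∃ N₂ : Subgroup G, N₂.Normal ∧ N₂ ≤ N₁ ∧ N₂ ≠ N₁ ∧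
      ∀ U : Subgroup G, U.Normal → N₂ ≤ U → U ≤ N₁ → U = N₂ ∨ U = N₁ := by
  let X : Set (Subgroup G) := {U | U.Normal ∧ U ≤ N₁ ∧ U ≠ N₁}
  obtain ⟨N₂, h2, hmax⟩ := Set.Finite.exists_maximalFor (fun P : Subgroup G => P) X
    (Set.toFinite X) ⟨⊥, inferInstance, bot_le, hne.symm⟩
  refine ⟨N₂, h2.1, h2.2.1, h2.2.2, fun U hU h hU1 => ?_⟩
  by_cases h3 : U = N₁
  · exact Or.inr h3
  · exact Or.inl (le_antisymm (hmax ⟨hU, hU1, h3⟩ h) h)

/-- a minimal normal subgroup -/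
theorem exists_min [Finite G] (M : Subgroup G) (hM : M.Normal) (hne : M ≠ ⊥) :
    ∃ V : Subgroup G, V.Normal ∧ V ≤ M ∧ V ≠ ⊥ ∧
      ∀ U : Subgroup G, U.Normal → U ≤ V → U = ⊥ ∨ U = V := by
  let X : Set (Subgroup G) := {U | U.Normal ∧ U ≤ M ∧ U ≠ ⊥}
  obtain ⟨V, h2, hmin⟩ := Set.Finite.exists_minimalFor (fun P : Subgroup G => P) X
    (Set.toFinite X) ⟨M, hM, le_rfl, hne⟩
  refine ⟨V, h2.1, h2.2.1, h2.2.2, fun U hU h => ?_⟩
  by_cases h3 : U = ⊥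
  · exact Or.inl h3
  · exact Or.inr (le_antisymm h (hmin ⟨hU, h.trans h2.2.1, h3⟩ h))

/-- the critical chief factor of a normal subgroup which is not nilpotent -/
theorem critical [Finite G] (N : Subgroup G) [N.Normal] (hs : Group.IsSolvable N)
    (hn : ¬ Group.IsNilpotent N) : ∃ N₁ N₂ : Subgroup G, N₁.Normal ∧ N₂.Normal ∧ N₂ ≤ N₁ ∧
      N₂ ≠ N₁ ∧ N₁ ≤ N ∧ Group.IsNilpotent N₁ ∧ ⁅N₁, N₁⁆ ≤ N₂ ∧ ⁅N₁, N⁆ = N₁ ∧
      ∀ U : Subgroup G, U.Normal → N₂ ≤ U → U ≤ N₁ → U = N₂ ∨ U = N₁ := by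
  let E : ℕ → Subgroup G → Subgroup G := fun c A => (fun S => ⁅S, N⁆)^[c] A
  have hE0 : ∀ A, E 0 A = A := fun A => rfl
  have hE1 : ∀ c A, E (c + 1) A = ⁅E c A, N⁆ := fun c A => Function.iterate_succ_apply' _ _ _
  have hE2 : ∀ c A, E (c + 1) A = E c ⁅A, N⁆ := fun c A => Function.iterate_succ_apply _ _ _
  let X : Set (Subgroup G) := {U | U.Normal ∧ U ≤ N ∧ ¬ ∃ c, E c U = ⊥}
  have hNX : N ∈ X := by
    refine ⟨inferInstance, le_rfl, ?_⟩
    rintro ⟨c, hc⟩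
    exact hn ((nil_iff N).2 ⟨c, hc⟩)
  obtain ⟨N₁, h1, hmin⟩ := Set.Finite.exists_minimalFor (fun P : Subgroup G => P) X
    (Set.toFinite X) ⟨N, hNX⟩
  have hN1 : N₁.Normal := h1.1
  have hc : ⁅N₁, N⁆ = N₁ := by
    refine le_antisymm (commutator_le_left _ _) ?_
    refine hmin (j := ⁅N₁, N⁆) ⟨inferInstance, (commutator_le_left _ _).trans h1.2.1, ?_⟩
      (commutator_le_left _ _)
    rintro ⟨c, hc⟩
    exact h1.2.2 ⟨c + 1, by rw [hE2, hc]⟩
  have hne : N₁ ≠ ⊥ := fun h => h1.2.2 ⟨0, h⟩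
  obtain ⟨N₂, h2, h21, h2ne, hmax⟩ := exists_chief N₁ hne
  have hs1 : Group.IsSolvable N₁ := Group.isSolvable_of_isSolvable_injective
    (inclusion_injective h1.2.1)
  have hab := chief_ab hs1 h21 h2ne hmax
  refine ⟨N₁, N₂, hN1, h2, h21, h2ne, h1.2.1, ?_, hab, hc, hmax⟩
  obtain ⟨c, hc⟩ : ∃ c, E c N₂ = ⊥ := by
    by_contra hno
    exact h2ne (le_antisymm h21 (hmin ⟨h2, h21.trans h1.2.1, hno⟩ h21))
  refine (nil_iff N₁).2 ⟨c + 1, ?_⟩
  have h3 : ∀ i, D (i + 1) N₁ ≤ E i N₂ := by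
    intro i
    induction i with
    | zero =>
      rw [D_succ, D_zero, hE0]
      exact hab
    | succ i ih =>
      rw [D_succ (i + 1), hE1]
      exact commutator_mono ih h1.2.1
  exact le_bot_iff.1 ((h3 c).trans hc.le)

end MP0d06d9R
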