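import Pool.Agent.Lib.MP_0d06d9_alR.B1

/-!
# BV: the action on a minimal normal subgroup
-/

set_option autoImplicit false

namespace MP0d06d9R

open Subgroup commutatorElement
open MP0d06d9I (norm_sup norm_inf norm_map norm_comm)
open scoped Pointwise

variable {G : Type*} [Group G]

/-- a minimal normal abelian subgroup is elementary abelian -/
theorem min_exp [Finite G] (V : Subgroup G) [V.Normal] (hne : V ≠ ⊥)
    (hab : ∀ a ∈ V, ∀ b ∈ V, a * b = b * a)
    (hmin : ∀ U : Subgroup G, U.Normal → U ≤ V → U = ⊥ ∨ U = V) :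
    ∃ s : ℕ, s.Prime ∧ s ∣ Nat.card V ∧ ∀ v ∈ V, v ^ s = 1 := by
  have h1 : Nat.card V ≠ 1 := fun h => hne ((Subgroup.card_eq_one (H := V)).1 h)
  obtain ⟨s, hs, hsd⟩ := Nat.exists_prime_and_dvd h1
  have : Fact s.Prime := ⟨hs⟩
  obtain ⟨v, hv⟩ := exists_prime_orderOf_dvd_card' (G := V) s hsd
  let U : Subgroup G :=
    { carrier := {u | u ∈ V ∧ u ^ s = 1}
      mul_mem' := by
        rintro a b ⟨ha, ha'⟩ ⟨hb, hb'⟩
        refine ⟨V.mul_mem ha hb, ?_⟩
        rw [(show Commute a b from hab a ha b hb).mul_pow, ha', hb', one_mul]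
      one_mem' := ⟨V.one_mem, one_pow s⟩
      inv_mem' := by
        rintro a ⟨ha, ha'⟩
        refine ⟨V.inv_mem ha, ?_⟩
        rw [inv_pow, ha', inv_one] }
  have hU : U.Normal := ⟨fun u hu g => by
    refine ⟨(inferInstance : V.Normal).conj_mem u hu.1 g, ?_⟩
    rw [conj_pow, hu.2, mul_one, mul_inv_cancel]⟩
  have hUV : U ≤ V := fun u hu => hu.1
  refine ⟨s, hs, hsd, fun w hw => ?_⟩
  rcases hmin U hU hUV with h | h
  · exfalso
    have h2 : (v : G) ∈ U := by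
      refine ⟨v.2, ?_⟩
      have h3 : v ^ s = 1 := by rw [← hv]; exact pow_orderOf_eq_one v
      exact congrArg Subtype.val h3
    rw [h] at h2
    have h4 : v = 1 := Subtype.ext (mem_bot.1 h2)
    rw [h4, orderOf_one] at hv
    exact hs.one_lt.ne hv
  · rw [← h] at hw
    exact hw.2

/-- the largest normal `s`-subgroup of the image of `M` on a minimal normal `s`-subgroup is
trivial -/
theorem min_core [Finite G] (V : Subgroup G) [V.Normal] (hne : V ≠ ⊥)
    (hmin : ∀ U : Subgroup G, U.Normal → U ≤ V → U = ⊥ ∨ U = V) {s : ℕ} (hs : s.Prime)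
    (hV : s ∣ Nat.card V) (M : Subgroup G) [M.Normal] (Q : Subgroup (MulAut V))
    (hQM : Q ≤ M.map (MulAut.conjNormal : G →* MulAut V))
    (hQn : M.map (MulAut.conjNormal : G →* MulAut V) ≤ normalizer (Q : Set (MulAut V)))
    (hQ : IsPGroup s Q) : Q = ⊥ := by
  classical
  have : Fact s.Prime := ⟨hs⟩
  set φ : G →* MulAut V := MulAut.conjNormal with hφ
  have hfin : Finite (MulAut V) := by
    have : Finite (V ≃* V) := DFunLike.finite _
    exact this
  let X : Set (Subgroup (MulAut V)) :=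
    {Q | Q ≤ M.map φ ∧ M.map φ ≤ normalizer (Q : Set (MulAut V)) ∧ IsPGroup s Q}
  obtain ⟨R, hR, hmax⟩ := Set.Finite.exists_maximalFor (fun P : Subgroup (MulAut V) => P) X
    (Set.toFinite X) ⟨Q, hQM, hQn, hQ⟩
  have hle : ∀ Q ∈ X, Q ≤ R := by
    intro Q hQ
    have h1 : R ⊔ Q ∈ X := by
      refine ⟨sup_le hR.1 hQ.1, norm_sup hR.2.1 hQ.2.1, ?_⟩
      exact IsPGroup.to_sup_of_normal_left' hR.2.2 hQ.2.2 (hQ.1.trans hR.2.1)
    exact le_sup_right.trans (hmax h1 le_sup_left)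
  have hMn : ∀ g : G, (M.map φ).map (MulAut.conj (φ g)).toMonoidHom = M.map φ := by
    intro g
    apply norm_map.1
    have h1 : g ∈ normalizer (M : Set G) := le_normalizer_of_normal (mem_top g)
    exact (Subgroup.le_normalizer_map φ) (Subgroup.mem_map_of_mem φ h1)
  have hconj : ∀ g : G, R.map (MulAut.conj (φ g)).toMonoidHom ≤ R := by
    intro g
    apply hle
    refine ⟨?_, ?_, hR.2.2.map _⟩
    · rw [← hMn g]
      exact Subgroup.map_mono hR.1
    · rw [← hMn g]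
      exact (Subgroup.map_mono hR.2.1).trans (Subgroup.le_normalizer_map _)
  -- the fixed points of `R`
  let U : Subgroup G :=
    { carrier := {u | ∃ h : u ∈ V, ∀ q ∈ R, q ⟨u, h⟩ = ⟨u, h⟩}
      mul_mem' := by
        rintro a b ⟨ha, ha'⟩ ⟨hb, hb'⟩
        refine ⟨V.mul_mem ha hb, fun q hq => ?_⟩
        have e : (⟨a * b, V.mul_mem ha hb⟩ : V) = ⟨a, ha⟩ * ⟨b, hb⟩ := rfl
        rw [e, map_mul, ha' q hq, hb' q hq]
      one_mem' := ⟨V.one_mem, fun q hq => map_one q⟩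
      inv_mem' := by
        rintro a ⟨ha, ha'⟩
        refine ⟨V.inv_mem ha, fun q hq => ?_⟩
        have e : (⟨a⁻¹, V.inv_mem ha⟩ : V) = (⟨a, ha⟩ : V)⁻¹ := rfl
        rw [e, map_inv, ha' q hq] }
  have hUV : U ≤ V := fun u hu => hu.1
  have hU : U.Normal := ⟨by
    rintro u ⟨hu, hu'⟩ g
    refine ⟨(inferInstance : V.Normal).conj_mem u hu g, fun q hq => ?_⟩
    have e : (⟨g * u * g⁻¹, (inferInstance : V.Normal).conj_mem u hu g⟩ : V) = φ g ⟨u, hu⟩ :=
      Subtype.ext (by rw [hφ, MulAut.conjNormal_apply])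
    rw [e]
    have h1 : (φ g)⁻¹ * q * φ g ∈ R := by
      refine hconj g⁻¹ ⟨q, hq, ?_⟩
      show φ g⁻¹ * q * (φ g⁻¹)⁻¹ = _
      rw [map_inv, inv_inv]
    have h2 := hu' _ h1
    have h3 : ((φ g)⁻¹ * q * φ g) ⟨u, hu⟩ = (φ g)⁻¹ (q (φ g ⟨u, hu⟩)) := rfl
    rw [h3, MulAut.inv_apply, MulEquiv.symm_apply_eq] at h2
    exact h2⟩
  have hact : ∃ v : V, v ≠ 1 ∧ ∀ q ∈ R, q v = v := by
    obtain ⟨w, hw, hw1⟩ := hR.2.2.exists_fixed_point_of_prime_dvd_card_of_fixed_point (α := V)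
      hV (a := 1) (fun q => map_one (q : MulAut V))
    exact ⟨w, hw1.symm, fun q hq => hw ⟨q, hq⟩⟩
  obtain ⟨v, hv, hv'⟩ := hact
  rcases hmin U hU hUV with h | h
  · exfalso
    have h1 : (v : G) ∈ U := ⟨v.2, hv'⟩
    rw [h] at h1
    exact hv (Subtype.ext (mem_bot.1 h1))
  · have hR1 : R = ⊥ := by
      refine (Subgroup.eq_bot_iff_forall R).2 fun q hq => ?_
      refine MulEquiv.ext fun w => ?_
      have h1 : (w : G) ∈ U := by
        rw [h]
        exact w.2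
      obtain ⟨h3, h4⟩ := h1
      exact h4 q hq
    exact le_bot_iff.1 ((hle Q ⟨hQM, hQn, hQ⟩).trans hR1.le)

/-- a subgroup without fixed points -/
theorem comm_of_free [Finite G] {T : Subgroup G} {y : G} (hy : y ∈ normalizer (T : Set G))
    (hf : ∀ t ∈ T, y * t * y⁻¹ = t → t = 1) :
    ⁅T, zpowers y⁆ = T := by
  have hle : ⁅T, zpowers y⁆ ≤ T := le_normalizer_iff_commutator_le_left.1 (zpowers_le.2 hy)
  refine le_antisymm hle ?_
  have hy1 : ∀ t ∈ T, y * t * y⁻¹ ∈ T := fun t ht => (mem_normalizer_iff.1 hy t).1 ht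
  let g : T → T := fun t => ⟨t * (y * t * y⁻¹)⁻¹, T.mul_mem t.2 (T.inv_mem (hy1 t t.2))⟩
  have hg : Function.Injective g := by
    intro t u h
    have h1 : (t : G) * (y * t * y⁻¹)⁻¹ = u * (y * u * y⁻¹)⁻¹ := congrArg Subtype.val h
    have h3 : (u : G)⁻¹ * t = (y * u * y⁻¹)⁻¹ * (y * t * y⁻¹) := by
      calc (u : G)⁻¹ * t = (u : G)⁻¹ * (t * (y * t * y⁻¹)⁻¹) * (y * t * y⁻¹) := by group
        _ = (u : G)⁻¹ * (u * (y * u * y⁻¹)⁻¹) * (y * t * y⁻¹) := by rw [h1]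
        _ = _ := by group
    have h2 : y * ((u : G)⁻¹ * t) * y⁻¹ = (u : G)⁻¹ * t := by
      rw [h3]
      have e : (y * (u : G) * y⁻¹)⁻¹ * (y * t * y⁻¹) = y * ((u : G)⁻¹ * t) * y⁻¹ := by group
      rw [e, ← e, ← h3]
      exact e.symm.trans h3.symm
    have h5 := hf _ (T.mul_mem (T.inv_mem u.2) t.2) h2
    exact Subtype.ext (inv_mul_eq_one.1 h5).symm
  intro t ht
  obtain ⟨u, hu⟩ := (Finite.injective_iff_surjective.1 hg) ⟨t, ht⟩
  have h1 : (u : G) * (y * u * y⁻¹)⁻¹ = t := congrArg Subtype.val hu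
  have h2 : ⁅(u : G), y⁆ = t := by
    rw [commutatorElement_def, ← h1]
    group
  rw [← h2]
  exact commutator_mem_commutator u.2 (mem_zpowers y)

/-- a Full subgroup of a normal subgroup from the action -/
theorem full_of_free [Finite G] (V : Subgroup G) [V.Normal] {y : G} {b : ℕ} (T : Subgroup V)
    (hT : ∀ t ∈ T, (MulAut.conjNormal y : MulAut V) t ∈ T)
    (hf : ∀ i : ℕ, ¬ b ∣ i → ∀ t ∈ T, ((MulAut.conjNormal y : MulAut V) ^ i) t = t → t = 1) :
    Full y b (T.map V.subtype) := by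
  have hy : y ∈ normalizer ((T.map V.subtype : Subgroup G) : Set G) := by
    refine Subgroup.mem_normalizer_fintype ?_
    rintro _ ⟨t, ht, rfl⟩
    exact ⟨_, hT t ht, MulAut.conjNormal_apply y t⟩
  refine ⟨hy, fun i hi => comm_of_free (Subgroup.pow_mem _ hy i) ?_⟩
  rintro _ ⟨t, ht, rfl⟩ h
  have h1 : ((MulAut.conjNormal y : MulAut V) ^ i) t = t := by
    rw [← map_pow]
    exact Subtype.ext ((MulAut.conjNormal_apply (y ^ i) t).trans h)
  rw [hf i hi t ht h1]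
  rfl

end MP0d06d9R
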