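import Pool.Agent.Lib.MP_0d06d9_alR.T4

/-!
# TB: the T-lemma for finite abelian groups of exponent `r` (base change)

PROOFS. `Y` finite abelian of exponent `r`; `β` and `P ≤ MulAut Y` act on `M = Additive Y`, a module over `ZMod r`; `V = k ⊗ M`, `k` = the
algebraic closure of `ZMod r`; `ρ g = (the action of g).baseChange k`, a representation of `MulAut Y`. `P` is not trivial on `V` (faithfulness of the base
change: `1 ⊗ y`). `tl` for `U = ⊤`, `t = β` gives `Cl s b (Ev ρ β ⊤)`. (`b` odd, so `¬ r ∣ b` gives `(b : k) ≠ 0`; `s ≠ r` gives `(s : k) ≠ 0`.)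
* `tb1`: `s` odd, `b` odd: `s ^ m + 1` is even for `m ≥ 1` and does not divide `b`: every `l` with `l ^ b = 1` is an eigenvalue. Choose `l ≠ 1` with `l ^ d = 1` (`d ∣ b`,
  `d ≠ 1`, `(d : k) ≠ 0`, `k` algebraically closed). Suppose `β^d y = y → β y = y` for all `y`. `N = Σ_{j < b/d} β^(d j)` maps `M` to the fixed points of `β^d` so `(β - 1) N = 0`
  on `M`, so on `V` (additivity of base change). For an eigenvector `v`, `ρ β v = l v`: `N v = (b/d) v`, `(l - 1) (b/d) v = 0`: contradiction.
* `tb2`: there is a primitive `b`-th root of unity `l` which is an eigenvalue: first alternative of `Cl`: clear. Second alternative: `c (s^m+1) = b`, `e = s^m+1 = b/c` is odd, `e ≥ 3`;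
  there are two different primitive `e`-th roots of unity `μ₁, μ₁⁻¹`, one of them, `μ₁`, is not `μ`; a primitive `b`-th root `l` with `l ^ c = μ₁` exists (`ZMod.unitsMap_surjective`: a unit of
  `ZMod e` lifts to a unit of `ZMod b`). `T = {y | ∀ q prime, q ∣ b → Σ_{j<q} β^{(b/q) j} y = 0}` (multiplicatively a product). `T ≠ ⊥`: let `e_q = (1/q) Σ_{j<q} β^{(b/q) j}` (`q` invertible mod `r`), commuting
  idempotents; if `T = 0` then `∏_q (1 - e_q) = 0` on `M` (its image is in `T`), so on `V`; but it is `1` on the eigenvector of `l` (`Σ_{j<q} l^{(b/q) j} = 0`). If `b ∤ i`, `β^i t = t`, `t ∈ T`: there is a prime `q ∣ b` with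
  `gcd(i, b) ∣ b / q`, so `β^{b/q}` fixes `t`, `0 = Σ_{j<q} β^{(b/q) j} t = q t`, `t = 0`.
-/

set_option autoImplicit false

namespace MP0d06d9R

open Subgroup commutatorElement Module

universe u

/-! ## the set-up -/

/-- a polynomial in an endomorphism, applied to an eigenvector -/
private theorem tb0_poly {R k V : Type*} [CommRing R] [Field k] [Algebra R k] [AddCommGroup V]
    [Module k V] [Algebra R (Module.End k V)] [IsScalarTower R k (Module.End k V)]
    (f : Module.End k V) (l : k) (v : V)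
    (hv : f v = l • v) (p : Polynomial R) :
    (Polynomial.aeval f p) v = (Polynomial.aeval l p) • v := by
  have hpow : ∀ n : ℕ, (f ^ n) v = l ^ n • v := by
    intro n
    induction n with
    | zero => simp
    | succ n ih => rw [pow_succ', Module.End.mul_apply, ih, map_smul, hv, smul_smul, pow_succ]
  induction p using Polynomial.induction_on' with
  | add p q hp hq => rw [map_add, map_add, LinearMap.add_apply, hp, hq, add_smul]
  | monomial n a =>
    rw [Polynomial.aeval_monomial, Polynomial.aeval_monomial, Module.End.mul_apply, hpow]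
    rw [IsScalarTower.algebraMap_apply R k (Module.End k V)]
    rw [Module.algebraMap_end_apply, smul_smul]

/-- the action of an automorphism -/
private def tb0_add {Y : Type u} [CommGroup Y] (g : MulAut Y) : Additive Y →+ Additive Y where
  toFun m := Additive.ofMul (g (Additive.toMul m))
  map_zero' := by
    show Additive.ofMul (g 1) = 0
    rw [map_one]
    rfl
  map_add' a b := by
    show Additive.ofMul (g (Additive.toMul a * Additive.toMul b)) = _
    rw [map_mul]
    rfl

private def tb0_act {Y : Type u} [CommGroup Y] (r : ℕ) [Module (ZMod r) (Additive Y)] :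
    MulAut Y →* Module.End (ZMod r) (Additive Y) where
  toFun g := (tb0_add g).toZModLinearMap r
  map_one' := by
    apply LinearMap.ext
    intro x
    rfl
  map_mul' g h := by
    apply LinearMap.ext
    intro x
    rfl

private theorem tb0_act_apply {Y : Type u} [CommGroup Y] (r : ℕ) [Module (ZMod r) (Additive Y)]
    (g : MulAut Y) (y : Y) : tb0_act r g (Additive.ofMul y) = Additive.ofMul (g y) := rfl

/-- BASE CHANGE: the T-lemma for the eigenvalues of `β` over the algebraic closure -/
private theorem tb0 {Y : Type u} [CommGroup Y] [Finite Y] {r s b : ℕ} [hr : Fact r.Prime]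
    [Module (ZMod r) (Additive Y)]
    (hs : s.Prime) (hrs : s ≠ r)
    (β : MulAut Y) (hb1 : β ^ b = 1) (hrb : r.Coprime b)
    (P : Subgroup (MulAut Y)) (hP : IsPGroup s P) (hF : Full β b P) (hne : P ≠ ⊥) :
    Cl s b (fun l : AlgebraicClosure (ZMod r) => ∀ p : Polynomial (ZMod r),
      Polynomial.aeval (tb0_act r β) p = 0 → Polynomial.aeval l p = 0) := by
  classical
  have hsf : Fact s.Prime := ⟨hs⟩
  have hck : CharP (AlgebraicClosure (ZMod r)) r := inferInstance
  let Φ := Module.End.baseChangeHom (ZMod r) (AlgebraicClosure (ZMod r)) (Additive Y)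
  let ρ : Representation (AlgebraicClosure (ZMod r)) (MulAut Y)
      (TensorProduct (ZMod r) (AlgebraicClosure (ZMod r)) (Additive Y)) :=
    (Φ : Module.End (ZMod r) (Additive Y) →* _).comp (tb0_act r)
  have hρ : ∀ g, ρ g = Φ (tb0_act r g) := fun _ => rfl
  have hfinM : Module.Finite (ZMod r) (Additive Y) := by
    have : Finite (Additive Y) := inferInstanceAs (Finite Y)
    exact Module.Finite.of_finite
  have hfinG : Finite (MulAut Y) := inferInstance
  obtain ⟨p, hp, hp1⟩ : ∃ p ∈ P, p ≠ 1 := by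
    by_contra hcon
    push Not at hcon
    exact hne ((Subgroup.eq_bot_iff_forall P).2 hcon)
  obtain ⟨y, hy⟩ : ∃ y : Y, p y ≠ y := by
    by_contra hcon
    push Not at hcon
    exact hp1 (MulEquiv.ext hcon)
  have htl := tl ρ (k := AlgebraicClosure (ZMod r)) (s := s) (by
      intro h
      rw [CharP.cast_eq_zero_iff _ r] at h
      exact hrs ((Nat.prime_dvd_prime_iff_eq hr.out hs).1 h).symm) P hP b (by
      intro h
      rw [CharP.cast_eq_zero_iff _ r] at h
      have h1 : r ∣ Nat.gcd r b := Nat.dvd_gcd (dvd_refl r) h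
      rw [hrb.gcd_eq_one] at h1
      exact hr.out.one_lt.ne' (Nat.dvd_one.1 h1)) β hF ⊤ (by
      intro g _
      rw [mem_stb]
      unfold tr
      rw [Submodule.map_top, LinearMap.range_eq_top]
      intro v
      refine ⟨ρ g⁻¹ v, ?_⟩
      rw [← Module.End.mul_apply, ← map_mul, mul_inv_cancel, map_one, Module.End.one_apply]) (by
      rw [mem_stb]
      unfold tr
      rw [Submodule.map_top, LinearMap.range_eq_top]
      intro v
      refine ⟨ρ β⁻¹ v, ?_⟩
      rw [← Module.End.mul_apply, ← map_mul, mul_inv_cancel, map_one, Module.End.one_apply]) (by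
      intro v _
      rw [hb1, map_one, Module.End.one_apply]) (by
      refine ⟨p, hp, ?_⟩
      intro h
      have h1 := h (TensorProduct.tmul (ZMod r) (1 : AlgebraicClosure (ZMod r))
        (Additive.ofMul y)) (Submodule.mem_top)
      rw [hρ] at h1
      have h2 : Φ (tb0_act r p) (TensorProduct.tmul (ZMod r) (1 : AlgebraicClosure (ZMod r))
          (Additive.ofMul y)) = TensorProduct.tmul (ZMod r) (1 : AlgebraicClosure (ZMod r))
          (Additive.ofMul (p y)) := rfl
      rw [h2] at h1
      have h3 := Module.Flat.tensorProduct_mk_injective (ZMod r) (Additive Y)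
        (AlgebraicClosure (ZMod r)) h1
      exact hy h3)
  have hkey : ∀ l : AlgebraicClosure (ZMod r), Ev ρ β ⊤ l → ∀ p : Polynomial (ZMod r),
      Polynomial.aeval (tb0_act r β) p = 0 → Polynomial.aeval l p = 0 := by
    rintro l ⟨v, -, hv0, hv⟩ p hp
    have h1 : Polynomial.aeval (Φ (tb0_act r β)) p = 0 := by
      rw [Polynomial.aeval_algHom_apply, hp, map_zero]
    have h2 := tb0_poly (R := ZMod r) (ρ β) l v hv p
    rw [hρ, h1, LinearMap.zero_apply] at h2
    rcases smul_eq_zero.1 h2.symm with h3 | h3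
    · exact h3
    · exact absurd h3 hv0
  rcases htl with h | ⟨c, m, μ, hm, hc, h⟩
  · exact Or.inl fun l hl => hkey l (h l hl)
  · exact Or.inr ⟨c, m, μ, hm, hc, fun l hl hl2 => hkey l (h l hl hl2)⟩

private theorem tb0_pow {Y : Type u} [CommGroup Y] (r : ℕ) [Module (ZMod r) (Additive Y)]
    (g : MulAut Y) (i : ℕ) (y : Y) :
    ((tb0_act r g) ^ i) (Additive.ofMul y) = Additive.ofMul ((g ^ i) y) := by
  rw [← map_pow, tb0_act_apply]

private theorem tb0_prim {r : ℕ} [Fact r.Prime] {d : ℕ} (hd : r.Coprime d) :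
    ∃ z : AlgebraicClosure (ZMod r), IsPrimitiveRoot z d := by
  have h1 : ((d : ℕ) : AlgebraicClosure (ZMod r)) ≠ 0 := by
    intro h
    rw [CharP.cast_eq_zero_iff _ r] at h
    have h1 : r ∣ Nat.gcd r d := Nat.dvd_gcd (dvd_refl r) h
    rw [hd.gcd_eq_one] at h1
    exact (Fact.out : r.Prime).one_lt.ne' (Nat.dvd_one.1 h1)
  have : NeZero ((d : ℕ) : AlgebraicClosure (ZMod r)) := ⟨h1⟩
  exact HasEnoughRootsOfUnity.exists_primitiveRoot _ d

private theorem tb0_ne {r : ℕ} [Fact r.Prime] {d : ℕ} (hd : r.Coprime d) :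
    ((d : ℕ) : AlgebraicClosure (ZMod r)) ≠ 0 := by
  intro h
  rw [CharP.cast_eq_zero_iff _ r] at h
  have h1 : r ∣ Nat.gcd r d := Nat.dvd_gcd (dvd_refl r) h
  rw [hd.gcd_eq_one] at h1
  exact (Fact.out : r.Prime).one_lt.ne' (Nat.dvd_one.1 h1)

variable {Y : Type u} [CommGroup Y] [Finite Y] {r s b : ℕ}

private theorem tb1a [hrf : Fact r.Prime] [Module (ZMod r) (Additive Y)] (hs : s.Prime) (hrs : s ≠ r)
    (β : MulAut Y) (hb1 : β ^ b = 1) (hb : Odd b) (hrb : r.Coprime b)
    (P : Subgroup (MulAut Y)) (hP : IsPGroup s P) (hF : Full β b P) (hne : P ≠ ⊥)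
    (hs2 : s ≠ 2) {d : ℕ} (hd : d ∣ b) (hd1 : d ≠ 1) :
    ∃ y : Y, (β ^ d) y = y ∧ β y ≠ y := by
  classical
  have hall : ∀ l : AlgebraicClosure (ZMod r), l ^ b = 1 → ∀ p : Polynomial (ZMod r),
      Polynomial.aeval (tb0_act r β) p = 0 → Polynomial.aeval l p = 0 := by
    rcases tb0 hs hrs β hb1 hrb P hP hF hne with h | ⟨c, m, μ, hm, hc, -⟩
    · exact h
    · exfalso
      have hso : Odd s := hs.odd_of_ne_two hs2
      have h1 : Even (s ^ m + 1) := (hso.pow).add_one
      have h2 : Even b := by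
        rw [← hc]
        exact h1.mul_left c
      exact (Nat.not_even_iff_odd.2 hb) h2
  by_contra hcon
  push Not at hcon
  obtain ⟨e, he⟩ := hd
  have hd0 : r.Coprime d := Nat.Coprime.coprime_mul_right_right (he ▸ hrb)
  have he0 : r.Coprime e := Nat.Coprime.coprime_mul_left_right (he ▸ hrb)
  obtain ⟨l, hl⟩ := tb0_prim (r := r) hd0
  have hld : l ^ d = 1 := hl.pow_eq_one
  have hl1 : l ≠ 1 := by
    intro h
    rw [h] at hl
    exact hd1 (hl.eq_orderOf.trans orderOf_one)
  have hlb : l ^ b = 1 := by rw [he, pow_mul, hld, one_pow]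
  have h1 := hall l hlb ((Polynomial.X - 1) * ∑ j ∈ Finset.range e, Polynomial.X ^ (d * j)) (by
    rw [map_mul, map_sub, Polynomial.aeval_X, map_one, map_sum]
    simp only [map_pow, Polynomial.aeval_X]
    refine LinearMap.ext fun x => ?_
    obtain ⟨y, hyx⟩ : ∃ y : Y, Additive.ofMul y = x := ⟨Additive.toMul x, rfl⟩
    rw [← hyx]
    rw [LinearMap.zero_apply, Module.End.mul_apply, LinearMap.sub_apply, Module.End.one_apply,
      LinearMap.sum_apply]
    simp only [tb0_pow]
    obtain ⟨z, hz⟩ : ∃ z : Y, (∑ j ∈ Finset.range e, Additive.ofMul ((β ^ (d * j)) y)) =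
      Additive.ofMul z := ⟨Additive.toMul _, rfl⟩
    have hzp : z = ∏ j ∈ Finset.range e, (β ^ (d * j)) y := by
      have h2 : Additive.ofMul z = Additive.ofMul (∏ j ∈ Finset.range e, (β ^ (d * j)) y) := by
        rw [← hz, ofMul_prod]
      exact h2
    rw [hz, tb0_act_apply]
    have hfix : (β ^ d) z = z := by
      rw [hzp, map_prod]
      have h2 := Finset.prod_range_succ (fun j => (β ^ (d * j)) y) e
      have h3 := Finset.prod_range_succ' (fun j => (β ^ (d * j)) y) e
      rw [h2] at h3
      have h4 : (β ^ (d * e)) y = (β ^ (d * 0)) y := by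
        rw [← he, hb1, mul_zero, pow_zero]
      rw [h4] at h3
      have h5 := mul_right_cancel h3
      rw [h5]
      refine Finset.prod_congr rfl ?_
      intro j _
      rw [← MulAut.mul_apply, ← pow_add]
      congr 2
      ring
    have h6 := hcon z hfix
    rw [h6, sub_self])
  rw [map_mul, map_sub, Polynomial.aeval_X, map_one, map_sum] at h1
  simp only [map_pow, Polynomial.aeval_X] at h1
  have h2 : (∑ j ∈ Finset.range e, l ^ (d * j)) = (e : AlgebraicClosure (ZMod r)) := by
    simp only [pow_mul, hld, one_pow, Finset.sum_const, Finset.card_range, nsmul_eq_mul, mul_one]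
  rw [h2] at h1
  rcases mul_eq_zero.1 h1 with h3 | h3
  · exact hl1 (sub_eq_zero.1 h3)
  · exact tb0_ne he0 h3

theorem tb1 (hr : r.Prime) (hs : s.Prime) (hrs : s ≠ r) (hY : ∀ y : Y, y ^ r = 1)
    (β : MulAut Y) (hb1 : β ^ b = 1) (hb : Odd b) (hrb : r.Coprime b)
    (P : Subgroup (MulAut Y)) (hP : IsPGroup s P) (hF : Full β b P) (hne : P ≠ ⊥)
    (hs2 : s ≠ 2) {d : ℕ} (hd : d ∣ b) (hd1 : d ≠ 1) :
    ∃ y : Y, (β ^ d) y = y ∧ β y ≠ y := by
  have hrf : Fact r.Prime := ⟨hr⟩
  let _ : Module (ZMod r) (Additive Y) := AddCommGroup.zmodModule (n := r) (by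
    intro x
    exact hY x)
  exact tb1a hs hrs β hb1 hb hrb P hP hF hne hs2 hd hd1

/-- the norm polynomial -/
private noncomputable def nq (r b q : ℕ) : Polynomial (ZMod r) :=
  ∑ j ∈ Finset.range q, Polynomial.X ^ (b / q * j)

private theorem tb2a [hrf : Fact r.Prime] [Module (ZMod r) (Additive Y)] (hs : s.Prime) (hrs : s ≠ r) (hY : ∀ y : Y, y ^ r = 1)
    (β : MulAut Y) (hb1 : β ^ b = 1) (hb : Odd b) (hrb : r.Coprime b)
    (P : Subgroup (MulAut Y)) (hP : IsPGroup s P) (hF : Full β b P) (hne : P ≠ ⊥) :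
    ∃ T : Subgroup Y, T ≠ ⊥ ∧ (∀ t ∈ T, β t ∈ T) ∧
      ∀ i : ℕ, ¬ b ∣ i → ∀ t ∈ T, (β ^ i) t = t → t = 1 := by
  classical
  have hb0 : 0 < b := hb.pos
  -- a primitive root which is an eigenvalue
  obtain ⟨l, hl, hev⟩ : ∃ l : AlgebraicClosure (ZMod r), IsPrimitiveRoot l b ∧
      ∀ p : Polynomial (ZMod r), Polynomial.aeval (tb0_act r β) p = 0 →
        Polynomial.aeval l p = 0 := by
    obtain ⟨z, hz⟩ := tb0_prim (r := r) hrb
    rcases tb0 hs hrs β hb1 hrb P hP hF hne with h | ⟨c, m, μ, hm, hc, h⟩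
    · exact ⟨z, hz, h z hz.pow_eq_one⟩
    · by_cases hzc : z ^ c = μ
      · refine ⟨z⁻¹, hz.inv, h _ hz.inv.pow_eq_one ?_⟩
        intro h2
        rw [inv_pow, hzc] at h2
        have hz0 : z ≠ 0 := hz.ne_zero hb0.ne'
        have hμ : μ ≠ 0 := by rw [← hzc]; exact pow_ne_zero _ hz0
        have h3 : z ^ (2 * c) = 1 := by
          rw [mul_comm, pow_mul, hzc, sq]
          nth_rewrite 1 [← h2]
          exact inv_mul_cancel₀ hμ
        have h4 := hz.dvd_of_pow_eq_one _ h3
        have hc0 : 0 < c := by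
          rcases Nat.eq_zero_or_pos c with h5 | h5
          · rw [h5, zero_mul] at hc
            omega
          · exact h5
        rw [← hc, mul_comm 2 c] at h4
        have h5 := Nat.dvd_of_mul_dvd_mul_left hc0 h4
        have h6 := Nat.le_of_dvd (by omega) h5
        have h7 : 2 ≤ s ^ m := by
          calc 2 ≤ s := hs.two_le
            _ = s ^ 1 := (pow_one s).symm
            _ ≤ s ^ m := Nat.pow_le_pow_right hs.pos hm
        omega
      · exact ⟨z, hz, h z hz.pow_eq_one hzc⟩
  have hub : (tb0_act r β) ^ b = 1 := by rw [← map_pow, hb1, map_one]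
  -- norms
  have hnn : ∀ q ∈ b.primeFactors, Polynomial.aeval (tb0_act r β) (nq r b q) *
      Polynomial.aeval (tb0_act r β) (nq r b q) =
      (q : Module.End (ZMod r) (Additive Y)) * Polynomial.aeval (tb0_act r β) (nq r b q) := by
    intro q hq
    have hqb : q ∣ b := Nat.dvd_of_mem_primeFactors hq
    have h1 : Polynomial.aeval (tb0_act r β) (nq r b q) =
        ∑ j ∈ Finset.range q, (tb0_act r β) ^ (b / q * j) := by
      unfold nq
      rw [map_sum]
      simp only [map_pow, Polynomial.aeval_X]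
    have h2 : (tb0_act r β) ^ (b / q) * Polynomial.aeval (tb0_act r β) (nq r b q) =
        Polynomial.aeval (tb0_act r β) (nq r b q) := by
      rw [h1, Finset.mul_sum]
      have h3 := Finset.sum_range_succ (fun j => (tb0_act r β) ^ (b / q * j)) q
      have h4 := Finset.sum_range_succ' (fun j => (tb0_act r β) ^ (b / q * j)) q
      rw [h3] at h4
      have h5 : (tb0_act r β) ^ (b / q * q) = (tb0_act r β) ^ (b / q * 0) := by
        rw [Nat.div_mul_cancel hqb, hub, mul_zero, pow_zero]
      rw [h5] at h4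
      have h6 := add_right_cancel h4
      rw [h6]
      refine Finset.sum_congr rfl ?_
      intro j _
      rw [← pow_add]
      congr 1
      ring
    have h3 : ∀ j : ℕ, (tb0_act r β) ^ (b / q * j) *
        Polynomial.aeval (tb0_act r β) (nq r b q) =
        Polynomial.aeval (tb0_act r β) (nq r b q) := by
      intro j
      induction j with
      | zero => rw [mul_zero, pow_zero, one_mul]
      | succ j ih => rw [mul_add, mul_one, pow_add, mul_assoc, h2, ih]
    have h4 : (∑ j ∈ Finset.range q, (tb0_act r β) ^ (b / q * j)) *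
        Polynomial.aeval (tb0_act r β) (nq r b q) =
        (q : Module.End (ZMod r) (Additive Y)) * Polynomial.aeval (tb0_act r β) (nq r b q) := by
      rw [Finset.sum_mul]
      simp only [h3, Finset.sum_const, Finset.card_range, nsmul_eq_mul]
    rw [← h1] at h4
    exact h4
  -- the subgroup `T`
  let T : Subgroup Y :=
    { carrier := {y | ∀ q ∈ b.primeFactors,
        Polynomial.aeval (tb0_act r β) (nq r b q) (Additive.ofMul y) = 0}
      mul_mem' := by
        intro x y hx hy q hq
        rw [ofMul_mul, map_add, hx q hq, hy q hq, add_zero]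
      one_mem' := by
        intro q hq
        rw [ofMul_one, map_zero]
      inv_mem' := by
        intro x hx q hq
        rw [ofMul_inv, map_neg, hx q hq, neg_zero] }
  refine ⟨T, ?_, ?_, ?_⟩
  · intro hT
    -- the product of the `q - n_q`
    have h1 : Polynomial.aeval (tb0_act r β)
        (∏ q ∈ b.primeFactors, ((q : Polynomial (ZMod r)) - nq r b q)) = 0 := by
      apply LinearMap.ext
      intro x
      rw [LinearMap.zero_apply]
      obtain ⟨z, hz⟩ : ∃ z : Y, (Polynomial.aeval (tb0_act r β)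
        (∏ q ∈ b.primeFactors, ((q : Polynomial (ZMod r)) - nq r b q))) x =
        Additive.ofMul z := ⟨Additive.toMul _, rfl⟩
      have hzT : z ∈ T := by
        intro q hq
        rw [← hz, ← Module.End.mul_apply, ← map_mul, ← Finset.mul_prod_erase _ _ hq, ← mul_assoc,
          map_mul]
        have h2 : Polynomial.aeval (tb0_act r β) (nq r b q * ((q : Polynomial (ZMod r)) -
            nq r b q)) = 0 := by
          rw [map_mul, map_sub, mul_sub, hnn q hq, map_natCast]
          rw [Nat.cast_comm, sub_self]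
        rw [h2, zero_mul, LinearMap.zero_apply]
      rw [hT, mem_bot] at hzT
      rw [hz, hzT, ofMul_one]
    have h2 := hev _ h1
    rw [map_prod, Finset.prod_eq_zero_iff] at h2
    obtain ⟨q, hq, h3⟩ := h2
    have hqb : q ∣ b := Nat.dvd_of_mem_primeFactors hq
    have hqp : q.Prime := Nat.prime_of_mem_primeFactors hq
    have h4 : Polynomial.aeval l (nq r b q) = 0 := by
      unfold nq
      rw [map_sum]
      simp only [map_pow, Polynomial.aeval_X, pow_mul]
      have h5 : IsPrimitiveRoot (l ^ (b / q)) q := hl.pow hb0 (by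
        rw [Nat.div_mul_cancel hqb])
      exact h5.geom_sum_eq_zero hqp.one_lt
    rw [map_sub, h4, sub_zero, map_natCast] at h3
    exact tb0_ne (Nat.Coprime.coprime_dvd_right hqb hrb) h3
  · intro t ht q hq
    have h1 : Polynomial.aeval (tb0_act r β) (nq r b q) (Additive.ofMul (β t)) =
        (Polynomial.aeval (tb0_act r β) (nq r b q) * Polynomial.aeval (tb0_act r β)
          (Polynomial.X : Polynomial (ZMod r))) (Additive.ofMul t) := by
      rw [Module.End.mul_apply, Polynomial.aeval_X, tb0_act_apply]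
    rw [h1, ← map_mul, mul_comm, map_mul, Module.End.mul_apply, ht q hq, map_zero]
  · intro i hi t ht hit
    -- a prime
    have hg : Nat.gcd i b ∣ b := Nat.gcd_dvd_right i b
    obtain ⟨e, he⟩ := hg
    have he1 : e ≠ 1 := by
      intro h
      rw [h, mul_one] at he
      exact hi (he ▸ Nat.gcd_dvd_left i b)
    obtain ⟨q, hq, hqe⟩ := Nat.exists_prime_and_dvd he1
    obtain ⟨f, hf⟩ := hqe
    have hqb : q ∣ b := by
      rw [he, hf]
      exact ⟨Nat.gcd i b * f, by ring⟩
    have hbq : b / q = Nat.gcd i b * f := by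
      apply Nat.div_eq_of_eq_mul_left hq.pos
      conv_lhs => rw [he, hf]
      ring
    have hst : β ^ (Nat.gcd i b) ∈ MulAction.stabilizer (MulAut Y) t := by
      have h1 : β ^ i ∈ MulAction.stabilizer (MulAut Y) t := hit
      have h2 : β ^ b ∈ MulAction.stabilizer (MulAut Y) t := by
        rw [hb1]
        exact one_mem _
      have h3 : β ^ (Nat.gcd i b) = (β ^ i) ^ (Nat.gcdA i b) * (β ^ b) ^ (Nat.gcdB i b) := by
        rw [← zpow_natCast, Nat.gcd_eq_gcd_ab, zpow_add, zpow_mul, zpow_mul, zpow_natCast,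
          zpow_natCast]
      rw [h3]
      exact mul_mem (zpow_mem h1 _) (zpow_mem h2 _)
    have hst2 : ∀ j : ℕ, (β ^ (b / q * j)) t = t := by
      intro j
      rw [hbq, mul_assoc, pow_mul]
      exact pow_mem hst (f * j)
    have hqm : q ∈ b.primeFactors := Nat.mem_primeFactors.2 ⟨hq, hqb, hb0.ne'⟩
    have h0 : Polynomial.aeval (tb0_act r β) (nq r b q) =
        ∑ j ∈ Finset.range q, (tb0_act r β) ^ (b / q * j) := by
      unfold nq
      rw [map_sum]
      simp only [map_pow, Polynomial.aeval_X]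
    have h1 : ∑ j ∈ Finset.range q, Additive.ofMul ((β ^ (b / q * j)) t) = 0 := by
      have h2 : ∑ j ∈ Finset.range q, ((tb0_act r β) ^ (b / q * j)) (Additive.ofMul t) = 0 := by
        rw [← LinearMap.sum_apply, ← h0]
        exact ht q hqm
      simp only [tb0_pow] at h2
      exact h2
    simp only [hst2, Finset.sum_const, Finset.card_range] at h1
    have h2 : t ^ q = 1 := h1
    have h3 := hY t
    have hqr : Nat.Coprime q r := (Nat.Coprime.coprime_dvd_right hqb hrb).symm
    have h4 := orderOf_dvd_of_pow_eq_one h2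
    have h5 := orderOf_dvd_of_pow_eq_one h3
    have h6 := Nat.dvd_gcd h4 h5
    rw [hqr.gcd_eq_one] at h6
    exact orderOf_eq_one_iff.1 (Nat.dvd_one.1 h6)

theorem tb2 (hr : r.Prime) (hs : s.Prime) (hrs : s ≠ r) (hY : ∀ y : Y, y ^ r = 1)
    (β : MulAut Y) (hb1 : β ^ b = 1) (hb : Odd b) (hrb : r.Coprime b)
    (P : Subgroup (MulAut Y)) (hP : IsPGroup s P) (hF : Full β b P) (hne : P ≠ ⊥) :
    ∃ T : Subgroup Y, T ≠ ⊥ ∧ (∀ t ∈ T, β t ∈ T) ∧
      ∀ i : ℕ, ¬ b ∣ i → ∀ t ∈ T, (β ^ i) t = t → t = 1 := by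
  have hrf : Fact r.Prime := ⟨hr⟩
  let _ : Module (ZMod r) (Additive Y) := AddCommGroup.zmodModule (n := r) (by
    intro x
    exact hY x)
  exact tb2a hs hrs hY β hb1 hb hrb P hP hF hne

end MP0d06d9R
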