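import Pool.Agent.Lib.MP_0d06d9_alR.BV
import Pool.Agent.Lib.MP_0d06d9_alR.TB

/-!
# BX: Full subgroups of prime power order (B1)
-/

set_option autoImplicit false

namespace MP0d06d9R

open Subgroup commutatorElement
open MP0d06d9I (norm_sup norm_inf norm_map norm_comm)
open scoped Pointwise

/-- `x` acts on the soluble group `M` as an automorphism of order dividing `b` -/
structure Dat0 {G : Type*} [Group G] (M : Subgroup G) (x : G) (b : ℕ) : Prop where
  nor : x ∈ normalizer (M : Set G)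
  sol : Group.IsSolvable M
  pow : ∀ m ∈ M, m * x ^ b = x ^ b * m
  cop : b.Coprime (Nat.card M)
  ord : (orderOf x).Coprime (Nat.card M)
  odd : Odd b

theorem Dat.dat0 {G : Type*} [Group G] {M : Subgroup G} {x : G} {b : ℕ} (h : Dat M x b) :
    Dat0 M x b where
  nor := by
    have := h.nor
    exact le_normalizer_of_normal (mem_top x)
  sol := h.sol
  pow := h.pow
  cop := h.cop
  ord := h.ord
  odd := h.odd

theorem Dat0.map {G G' : Type*} [Group G] [Group G'] [Finite G] (f : G →* G')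
    {M : Subgroup G} {x : G} {b : ℕ} (h : Dat0 M x b) : Dat0 (M.map f) (f x) b where
  nor := (Subgroup.le_normalizer_map f) (Subgroup.mem_map_of_mem f h.nor)
  sol := by
    have := h.sol
    exact Group.isSolvable_of_surjective (f.subgroupMap_surjective M)
  pow := by
    rintro _ ⟨m, hm, rfl⟩
    rw [← map_pow, ← map_mul, h.pow m hm, map_mul]
  cop := Nat.Coprime.coprime_dvd_right (Subgroup.card_map_dvd M f) h.cop
  ord := Nat.Coprime.coprime_dvd_left (orderOf_map_dvd f x)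
    (Nat.Coprime.coprime_dvd_right (Subgroup.card_map_dvd M f) h.ord)
  odd := h.odd

/-- a Full subgroup is Full in every subgroup of the ambient group -/
theorem Full.of_map {G G' : Type*} [Group G] [Group G'] (f : G →* G')
    (hf : Function.Injective f) {x : G} {b : ℕ} {T : Subgroup G} (h : Full (f x) b (T.map f)) :
    Full x b T := by
  refine ⟨?_, fun i hi => ?_⟩
  · rw [mem_normalizer_iff]
    intro y
    have h1 := mem_normalizer_iff.1 h.1 (f y)
    rw [← map_inv, ← map_mul, ← map_mul] at h1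
    change f y ∈ T.map f ↔ f (x * y * x⁻¹) ∈ T.map f at h1
    rw [Subgroup.mem_map_iff_mem hf, Subgroup.mem_map_iff_mem hf] at h1
    exact h1
  · have h2 := h.2 i hi
    rw [← map_pow, ← MonoidHom.map_zpowers, ← map_commutator] at h2
    exact map_injective hf h2

/-- the Full `s`-part of an abelian Full subgroup -/
theorem exists_full_s {G : Type*} [Group G] [Finite G] {T : Subgroup G} {y : G} {b : ℕ}
    (hab : ∀ a ∈ T, ∀ b ∈ T, a * b = b * a) (hF : Full y b T) (hne : T ≠ ⊥) :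
    ∃ (s : ℕ) (P : Subgroup G), s.Prime ∧ P ≤ T ∧ P ≠ ⊥ ∧ IsPGroup s P ∧ Full y b P := by
  classical
  have h1 : Nat.card T ≠ 1 := fun h => hne ((Subgroup.card_eq_one (H := T)).1 h)
  obtain ⟨s, hs, hsd⟩ := Nat.exists_prime_and_dvd h1
  have : Fact s.Prime := ⟨hs⟩
  obtain ⟨v, hv⟩ := exists_prime_orderOf_dvd_card' (G := T) s hsd
  obtain ⟨k, m, hm, hkm⟩ := Nat.exists_eq_pow_mul_and_not_dvd (Nat.card_pos (α := T)).ne' s hs.ne_one
  have hpow : ∀ t ∈ T, (t ^ m) ^ (s ^ k) = 1 := by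
    intro t ht
    rw [← pow_mul, Nat.mul_comm, ← hkm]
    have h2 : (⟨t, ht⟩ : T) ^ Nat.card T = 1 := pow_card_eq_one'
    exact congrArg Subtype.val h2
  let P : Subgroup G :=
    { carrier := {u | ∃ t ∈ T, t ^ m = u}
      mul_mem' := by
        rintro _ _ ⟨a, ha, rfl⟩ ⟨c, hc, rfl⟩
        exact ⟨a * c, T.mul_mem ha hc, (show Commute a c from hab a ha c hc).mul_pow m⟩
      one_mem' := ⟨1, T.one_mem, one_pow m⟩
      inv_mem' := by
        rintro _ ⟨a, ha, rfl⟩
        exact ⟨a⁻¹, T.inv_mem ha, inv_pow a m⟩ }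
  have hPT : P ≤ T := by
    rintro _ ⟨t, ht, rfl⟩
    exact T.pow_mem ht m
  have hyP : y ∈ normalizer (P : Set G) := by
    refine Subgroup.mem_normalizer_fintype ?_
    rintro _ ⟨t, ht, rfl⟩
    exact ⟨y * t * y⁻¹, (mem_normalizer_iff.1 hF.1 t).1 ht, conj_pow⟩
  refine ⟨s, P, hs, hPT, ?_, ?_, hyP, fun i hi => ?_⟩
  · intro h
    have h2 : (v : G) ^ m ∈ P := ⟨v, v.2, rfl⟩
    rw [h, mem_bot] at h2
    have h3 : v ^ m = 1 := Subtype.ext h2
    have h4 := orderOf_dvd_of_pow_eq_one h3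
    rw [hv] at h4
    exact hm h4
  · rintro ⟨_, t, ht, rfl⟩
    exact ⟨k, Subtype.ext (hpow t ht)⟩
  · refine le_antisymm (le_normalizer_iff_commutator_le_left.1
      (zpowers_le.2 (Subgroup.pow_mem _ hyP i))) ?_
    have hyi : ∀ z ∈ zpowers (y ^ i), z ∈ normalizer (T : Set G) :=
      fun z hz => (zpowers_le.2 (Subgroup.pow_mem _ hF.1 i)) hz
    have hyiP : ∀ z ∈ zpowers (y ^ i), z ∈ normalizer (P : Set G) :=
      fun z hz => (zpowers_le.2 (Subgroup.pow_mem _ hyP i)) hz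
    let R : Subgroup G :=
      { carrier := {u | u ∈ T ∧ u ^ m ∈ ⁅P, zpowers (y ^ i)⁆}
        mul_mem' := by
          rintro a c ⟨ha, ha'⟩ ⟨hc, hc'⟩
          refine ⟨T.mul_mem ha hc, ?_⟩
          rw [(show Commute a c from hab a ha c hc).mul_pow m]
          exact Subgroup.mul_mem _ ha' hc'
        one_mem' := ⟨T.one_mem, by rw [one_pow]; exact Subgroup.one_mem _⟩
        inv_mem' := by
          rintro a ⟨ha, ha'⟩
          refine ⟨T.inv_mem ha, ?_⟩
          rw [inv_pow]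
          exact Subgroup.inv_mem _ ha' }
    have hR : T ≤ R := by
      rw [← hF.2 i hi, commutator_le]
      intro t ht z hz
      have h3 : z * t⁻¹ * z⁻¹ ∈ T := (mem_normalizer_iff.1 (hyi z hz) _).1 (T.inv_mem ht)
      have e : ⁅t, z⁆ = t * (z * t⁻¹ * z⁻¹) := by
        rw [commutatorElement_def]
        group
      refine ⟨?_, ?_⟩
      · rw [e]
        exact T.mul_mem ht h3
      · rw [e, (show Commute t (z * t⁻¹ * z⁻¹) from hab t ht _ h3).mul_pow m, conj_pow, inv_pow]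
        have e2 : t ^ m * (z * (t ^ m)⁻¹ * z⁻¹) = ⁅t ^ m, z⁆ := by
          rw [commutatorElement_def]
          group
        rw [e2]
        exact commutator_mem_commutator ⟨t, ht, rfl⟩ hz
    rintro _ ⟨t, ht, rfl⟩
    exact (hR ht).2

universe u

/-- the conclusion of B1 -/
def C1 {G : Type*} [Group G] (M : Subgroup G) (x : G) (b r : ℕ) : Prop :=
  ∃ (s : ℕ) (P : Subgroup G), s.Prime ∧ s ≠ r ∧ P ≤ M ∧ IsPGroup s P ∧ Full x b P ∧ P ≠ ⊥

/-- B1 for all groups `M` of order less than `n` -/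
def I1 (b n : ℕ) : Prop :=
  ∀ (G : Type u) [Group G] [Finite G] (M : Subgroup G) (x : G) (r : ℕ), Nat.card M < n →
    Dat0 M x b →
    (∀ Q : Subgroup G, Q ≤ M → M ≤ normalizer (Q : Set G) → IsPGroup r Q → Q = ⊥) →
    (∃ T ≤ M, Full x b T ∧ T ≠ ⊥) → C1 M x b r

variable {G : Type u} [Group G]

theorem crit_aux [Finite G] {M : Subgroup G} {x : G} {b : ℕ} (ih : I1.{u} b (Nat.card M))
    (dat : Dat M x b) (hn : ¬ Group.IsNilpotent (DF x b M)) :
    ∃ s : ℕ, s.Prime ∧ (∃ S P : Subgroup G, S.Normal ∧ S ≤ M ∧ IsPGroup s S ∧ P ≤ S ∧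
      Full x b P ∧ P ≠ ⊥) ∧ (s = 2 → ∀ d : ℕ, d ∣ b → d ≠ 1 →
        ∃ m ∈ M, m * x ^ d = x ^ d * m ∧ m * x ≠ x * m) := by
  classical
  have := dat.nor
  have hDM : DF x b M ≤ M := DF_le fun T hT _ => hT
  have hsM := dat.sol
  have hsD : Group.IsSolvable (DF x b M) :=
    Group.isSolvable_of_isSolvable_injective (inclusion_injective hDM)
  obtain ⟨N₁, N₂, hN1, hN2, h21, hne, hN1D, hnil, hab, hcomm, hmin⟩ := critical (DF x b M) hsD hn
  set f : G →* G ⧸ N₂ := QuotientGroup.mk' N₂ with hf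
  have hfs : Function.Surjective f := QuotientGroup.mk'_surjective N₂
  have hfk : f.ker = N₂ := QuotientGroup.ker_mk' N₂
  have hfm : ∀ g : G, f g = 1 ↔ g ∈ N₂ := fun g => by rw [← MonoidHom.mem_ker, hfk]
  set V : Subgroup (G ⧸ N₂) := N₁.map f with hV
  have hVn : V.Normal := hN1.map f hfs
  have hcV : V.comap f = N₁ := by
    rw [hV, Subgroup.comap_map_eq, hfk, sup_eq_left]
    exact h21
  have hVne : V ≠ ⊥ := by
    intro h
    apply hne
    refine le_antisymm h21 ?_
    intro w hw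
    have h1 : f w ∈ V := Subgroup.mem_map_of_mem f hw
    rw [h, mem_bot, hfm] at h1
    exact h1
  have hVab : ∀ a ∈ V, ∀ c ∈ V, a * c = c * a := by
    rintro _ ⟨a, ha, rfl⟩ _ ⟨c, hc, rfl⟩
    have h1 : f ⁅a, c⁆ = 1 := (hfm _).2 (hab (commutator_mem_commutator ha hc))
    rw [map_commutatorElement, commutatorElement_eq_one_iff_mul_comm] at h1
    exact h1
  have hVmin : ∀ U : Subgroup (G ⧸ N₂), U.Normal → U ≤ V → U = ⊥ ∨ U = V := by
    intro U hU hUV
    have h1 : (U.comap f).map f = U := Subgroup.map_comap_eq_self_of_surjective hfs U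
    rcases hmin (U.comap f) (hU.comap f) (hfk.ge.trans (MonoidHom.ker_le_comap f U))
      (by rw [← hcV]; exact Subgroup.comap_mono hUV) with h | h
    · left
      rw [← h1, h, (Subgroup.map_eq_bot_iff N₂), hfk]
    · right
      rw [← h1, h]
  obtain ⟨s, hs, hsV, hVs⟩ := min_exp V hVne hVab hVmin
  let _ : CommGroup V := { (inferInstance : Group V) with
    mul_comm := fun a c => Subtype.ext (hVab a a.2 c c.2) }
  let φ : (G ⧸ N₂) →* MulAut V := MulAut.conjNormal
  let ψ : G →* MulAut V := φ.comp f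
  have hψ : ∀ (g : G) (v : V), ((ψ g v : V) : G ⧸ N₂) = f g * v * (f g)⁻¹ :=
    fun g v => MulAut.conjNormal_apply (f g) v
  have hker : ¬ DF x b M ≤ ψ.ker := by
    intro h
    apply hne
    refine le_antisymm h21 ?_
    rw [← hcomm, commutator_le]
    intro w hw g hg
    have h1 : ψ g = 1 := h hg
    have h2 := hψ g ⟨f w, Subgroup.mem_map_of_mem f hw⟩
    rw [h1] at h2
    have h3 : f w = f g * f w * (f g)⁻¹ := h2
    rw [← hfm, map_commutatorElement, commutatorElement_eq_one_iff_mul_comm]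
    exact eq_mul_inv_iff_mul_eq.1 h3
  obtain ⟨T, hTM, hTF, hTn⟩ := exists_full hker
  have hMmap : M.map ψ = (M.map f).map φ := (Subgroup.map_map M φ f).symm
  have hMf : (M.map f).Normal := dat.nor.map f hfs
  have hN1M : N₁ ≤ M := hN1D.trans hDM
  have hcard : Nat.card (M.map ψ) < Nat.card M := by
    refine lt_of_le_of_ne (Nat.le_of_dvd Nat.card_pos (Subgroup.card_map_dvd M ψ)) fun h => ?_
    have h1 : Function.Bijective (ψ.subgroupMap M) :=
      Function.Surjective.bijective_of_nat_card_le (ψ.subgroupMap_surjective M) h.ge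
    apply hne
    refine le_antisymm h21 ?_
    intro w hw
    have h2 : ψ w = 1 := by
      refine MulEquiv.ext fun v => Subtype.ext ?_
      rw [hψ, hVab _ (Subgroup.mem_map_of_mem f hw) _ v.2, mul_inv_cancel_right]
      rfl
    have h3 : (⟨w, hN1M hw⟩ : M) = 1 := by
      apply h1.1
      rw [map_one]
      exact Subtype.ext h2
    have h4 : w = 1 := congrArg Subtype.val h3
    rw [h4]
    exact N₂.one_mem
  obtain ⟨s', P', hs', hss, hP'M, hP's, hP'F, hP'ne⟩ := ih (MulAut V) (M.map ψ) (ψ x) s hcard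
    (dat.dat0.map ψ) (by
      intro Q hQM hQn hQ
      rw [hMmap] at hQM hQn
      exact min_core V hVne hVmin hs hsV (M.map f) Q hQM hQn hQ)
    ⟨T.map ψ, Subgroup.map_mono hTM, hTF.map ψ, by
      rw [Ne, Subgroup.map_eq_bot_iff]
      exact hTn⟩
  have hβ : (ψ x) ^ b = 1 := by
    rw [← map_pow]
    refine MulEquiv.ext fun v => Subtype.ext ?_
    obtain ⟨w, hw, hwv⟩ := v.2
    rw [hψ, ← hwv, ← map_inv, ← map_mul, ← map_mul, ← dat.pow w (hN1M hw), mul_inv_cancel_right]
    exact hwv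
  have hVM : Nat.card V ∣ Nat.card M :=
    (Subgroup.card_map_dvd N₁ f).trans (Subgroup.card_dvd_of_le hN1M)
  have hsb : s.Coprime b := Nat.Coprime.coprime_dvd_left (hsV.trans hVM) dat.cop.symm
  have hY : ∀ v : V, v ^ s = 1 := fun v => Subtype.ext (hVs v v.2)
  obtain ⟨T₁, hT1ne, hT1i, hT1f⟩ := tb2 hs hs' hss hY (ψ x) hβ dat.odd hsb P' hP's hP'F hP'ne
  have hTF' : Full (f x) b (T₁.map V.subtype) := full_of_free V T₁ hT1i hT1f
  have hTs' : IsPGroup s (T₁.map V.subtype) := by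
    rintro ⟨_, t, ht, rfl⟩
    refine ⟨1, Subtype.ext ?_⟩
    rw [pow_one]
    have h2 := congrArg Subtype.val (hY t)
    exact h2
  obtain ⟨S, P, hS, hSN, hSs, hPS, hPF, hPT⟩ := lift_nil f hs N₁ hnil hTF' (map_subtype_le T₁) hTs'
  refine ⟨s, hs, ⟨S, P, hS, hSN.trans hN1M, hSs, hPS, hPF, ?_⟩, ?_⟩
  · rintro rfl
    rw [Subgroup.map_bot] at hPT
    exact hT1ne ((Subgroup.map_eq_bot_iff_of_injective T₁ V.subtype_injective).1 hPT.symm)
  · rintro hs2 d hd hd1
    obtain ⟨y, hy1, hy2⟩ := tb1 hs hs' hss hY (ψ x) hβ dat.odd hsb P' hP's hP'F hP'ne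
      (by rw [← hs2]; exact hss) hd hd1
    obtain ⟨w, hw, hwy⟩ := y.2
    rw [← map_pow] at hy1
    have h1 := congrArg Subtype.val hy1
    rw [hψ, ← hwy] at h1
    have h2 : w⁻¹ * (x ^ d * w * (x ^ d)⁻¹) ∈ N₂ := by
      rw [← hfm, map_mul, map_mul, map_mul, map_inv, map_inv, h1, inv_mul_cancel]
    obtain ⟨n, hn, hfix⟩ := cl1 N₂ (x ^ d) w (le_normalizer_of_normal (mem_top _))
      (Nat.Coprime.coprime_dvd_left (orderOf_pow_dvd d)
        (card_coprime_le (h21.trans hN1M) dat.ord)) h2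
    refine ⟨w * n, M.mul_mem (hN1M hw) ((h21.trans hN1M) hn), ?_, fun h => ?_⟩
    · exact (mul_inv_eq_iff_eq_mul.1 hfix).symm
    · apply hy2
      refine Subtype.ext ?_
      have h3 : f (w * n) = y := by
        rw [map_mul, (hfm n).2 hn, mul_one, hwy]
      rw [hψ, ← h3, ← map_inv, ← map_mul, ← map_mul, ← h, mul_inv_cancel_right]

end MP0d06d9R
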