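import Pool.Agent.Lib.MP_0d06d9_alR.BX

/-!
# BY: B1, B2, B3
-/

set_option autoImplicit false

namespace MP0d06d9R

open Subgroup commutatorElement
open MP0d06d9I (norm_sup norm_inf norm_map norm_comm)
open scoped Pointwise

universe u

variable {G : Type u} [Group G]

theorem b1_dat [Finite G] {M : Subgroup G} {x : G} {b r : ℕ} (ih : I1.{u} b (Nat.card M))
    (dat : Dat M x b)
    (hO : ∀ Q : Subgroup G, Q ≤ M → M ≤ normalizer (Q : Set G) → IsPGroup r Q → Q = ⊥)
    (hT : ∃ T ≤ M, Full x b T ∧ T ≠ ⊥) : C1 M x b r := by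
  have := dat.nor
  have hDM : DF x b M ≤ M := DF_le fun T hT _ => hT
  have key : ∀ s : ℕ, s.Prime → (∃ S P : Subgroup G, S.Normal ∧ S ≤ M ∧ IsPGroup s S ∧ P ≤ S ∧
      Full x b P ∧ P ≠ ⊥) → C1 M x b r := by
    rintro s hs ⟨S, P, hS, hSM, hSs, hPS, hPF, hPne⟩
    refine ⟨s, P, hs, ?_, hPS.trans hSM, hSs.to_le hPS, hPF, hPne⟩
    rintro rfl
    have h1 := hO S hSM le_normalizer_of_normal hSs
    rw [h1] at hPS
    exact hPne (le_bot_iff.1 hPS)
  by_cases hn : Group.IsNilpotent (DF x b M)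
  · obtain ⟨T₀, hT₀M, hT₀F, hT₀ne⟩ := hT
    have hDne : DF x b M ≠ ⊥ := by
      intro h
      have h1 := le_DF hT₀M hT₀F
      rw [h] at h1
      exact hT₀ne (le_bot_iff.1 h1)
    have hsM := dat.sol
    have hsD : Group.IsSolvable (DF x b M) :=
      Group.isSolvable_of_isSolvable_injective (inclusion_injective hDM)
    obtain ⟨T, hTM, hTF, hTn⟩ := exists_full (comm_lt_of_solvable hsD hDne)
    set N₂ : Subgroup G := ⁅DF x b M, DF x b M⁆ with hN₂
    set f : G →* G ⧸ N₂ := QuotientGroup.mk' N₂ with hf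
    have hfm : ∀ g : G, f g = 1 ↔ g ∈ N₂ := fun g => by
      rw [← MonoidHom.mem_ker, hf, QuotientGroup.ker_mk']
    have hTD : T ≤ DF x b M := le_DF hTM hTF
    obtain ⟨s, P, hs, hPT, hPne, hPs, hPF⟩ := exists_full_s (T := T.map f) (by
      rintro _ ⟨a, ha, rfl⟩ _ ⟨c, hc, rfl⟩
      have h1 : f ⁅a, c⁆ = 1 := (hfm _).2 (commutator_mem_commutator (hTD ha) (hTD hc))
      rw [map_commutatorElement, commutatorElement_eq_one_iff_mul_comm] at h1
      exact h1) (hTF.map f) (by
      intro h
      apply hTn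
      intro t ht
      rw [← hfm]
      have h1 : f t ∈ T.map f := Subgroup.mem_map_of_mem f ht
      rw [h] at h1
      exact h1)
    obtain ⟨S, P', hS, hSN, hSs, hPS, hPF', hPT'⟩ := lift_nil f hs (DF x b M) hn hPF
      (hPT.trans (Subgroup.map_mono hTD)) hPs
    refine key s hs ⟨S, P', hS, hSN.trans hDM, hSs, hPS, hPF', ?_⟩
    rintro rfl
    rw [Subgroup.map_bot] at hPT'
    exact hPne hPT'.symm
  · obtain ⟨s, hs, h, -⟩ := crit_aux ih dat hn
    exact key s hs h

theorem Dat0.dat [Finite G] {M : Subgroup G} {x : G} {b : ℕ} (h : Dat0 M x b) :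
    Dat (M.subgroupOf (M ⊔ zpowers x))
      (⟨x, mem_sup_right (mem_zpowers x)⟩ : (M ⊔ zpowers x : Subgroup G)) b := by
  have hMA : M ≤ M ⊔ zpowers x := le_sup_left
  have hcard : Nat.card (M.subgroupOf (M ⊔ zpowers x)) = Nat.card M :=
    Nat.card_congr (subgroupOfEquivOfLe hMA).toEquiv
  refine ⟨?_, ?_, ?_, ?_, ?_, ?_, h.odd⟩
  · exact (normal_subgroupOf_iff_le_normalizer hMA).2 (sup_le le_normalizer (zpowers_le.2 h.nor))
  · have := h.sol
    exact Group.isSolvable_of_isSolvable_injective (f := (subgroupOfEquivOfLe hMA).toMonoidHom)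
      (subgroupOfEquivOfLe hMA).injective
  · apply map_injective (M ⊔ zpowers x).subtype_injective
    rw [Subgroup.map_sup, map_subgroupOf_eq_of_le hMA, MonoidHom.map_zpowers,
      ← MonoidHom.range_eq_map, Subgroup.range_subtype]
    rfl
  · intro m hm
    exact Subtype.ext (h.pow m hm)
  · rw [hcard]
    exact h.cop
  · rw [hcard]
    have h1 : orderOf (⟨x, mem_sup_right (mem_zpowers x)⟩ : (M ⊔ zpowers x : Subgroup G)) =
        orderOf x := by
      rw [← Subgroup.orderOf_coe]
    rw [h1]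
    exact h.ord

/-- B1 -/
theorem i1 (b n : ℕ) : I1.{u} b n := by
  induction n with
  | zero =>
    intro G _ _ M x r h
    exact absurd h (Nat.not_lt_zero _)
  | succ n ih =>
    intro G _ _ M x r hM dat hO hT
    have hMA : M ≤ M ⊔ zpowers x := le_sup_left
    have hcard : Nat.card (M.subgroupOf (M ⊔ zpowers x)) = Nat.card M :=
      Nat.card_congr (subgroupOfEquivOfLe hMA).toEquiv
    set A : Subgroup G := M ⊔ zpowers x with hA
    have hinj := A.subtype_injective
    have hmap : (M.subgroupOf A).map A.subtype = M := map_subgroupOf_eq_of_le hMA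
    obtain ⟨s, P, hs, hsr, hPM, hPs, hPF, hPne⟩ := b1_dat (r := r) (M := M.subgroupOf A)
      (x := (⟨x, mem_sup_right (mem_zpowers x)⟩ : A)) (b := b)
      (fun G' _ _ M' x' r' h' => ih G' M' x' r' (by omega)) dat.dat (by
        intro Q hQM hQn hQ
        refine (Subgroup.map_eq_bot_iff_of_injective Q hinj).1 (hO (Q.map A.subtype) ?_ ?_
          (hQ.map _))
        · rw [← hmap]
          exact Subgroup.map_mono hQM
        · rw [← hmap]
          exact (Subgroup.map_mono hQn).trans (Subgroup.le_normalizer_map _)) (by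
        obtain ⟨T, hTM, hTF, hTne⟩ := hT
        have hTA : (T.subgroupOf A).map A.subtype = T :=
          map_subgroupOf_eq_of_le (hTM.trans hMA)
        refine ⟨T.subgroupOf A, Subgroup.comap_mono hTM, ?_, ?_⟩
        · apply Full.of_map A.subtype hinj
          rw [hTA]
          exact hTF
        · intro h
          rw [h, Subgroup.map_bot] at hTA
          exact hTne hTA.symm)
    refine ⟨s, P.map A.subtype, hs, hsr, ?_, hPs.map _, hPF.map A.subtype, ?_⟩
    · rw [← hmap]
      exact Subgroup.map_mono hPM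
    · intro h
      exact hPne ((Subgroup.map_eq_bot_iff_of_injective P hinj).1 h)

/-- B2 -/
theorem b2 [Finite G] {M : Subgroup G} {x : G} {b d : ℕ} (dat : Dat M x b) {Y : Type u}
    [CommGroup Y] [Finite Y] {r : ℕ} (hr : r.Prime) (hrb : r.Coprime b) (hY : ∀ y : Y, y ^ r = 1)
    (φ : G →* MulAut Y) (hφ : ∀ m ∈ M, φ m = 1 → m = 1) (hφb : φ x ^ b = 1)
    (hO : ∀ Q : Subgroup G, Q ≤ M → M ≤ normalizer (Q : Set G) → IsPGroup r Q → Q = ⊥)
    (hd : d ∣ b) (hd1 : d ≠ 1) (hsp : ∀ m ∈ M, m * x ^ d = x ^ d * m → m * x = x * m)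
    (hspY : ∀ y : Y, (φ x ^ d) y = y → φ x y = y) : Group.IsNilpotent (DF x b M) := by
  by_contra hn
  obtain ⟨s, hs, ⟨S, P, hS, hSM, hSs, hPS, hPF, hPne⟩, h2⟩ := crit_aux (i1 b _) dat hn
  have hsr : s ≠ r := by
    rintro rfl
    have h1 := hO S hSM le_normalizer_of_normal hSs
    rw [h1] at hPS
    exact hPne (le_bot_iff.1 hPS)
  have hs2 : s ≠ 2 := by
    intro h
    obtain ⟨m, hm, h3, h4⟩ := h2 h d hd hd1
    exact h4 (hsp m hm h3)
  have hPφ : P.map φ ≠ ⊥ := by
    intro h
    apply hPne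
    rw [Subgroup.eq_bot_iff_forall]
    intro p hp
    refine hφ p (hSM (hPS hp)) ?_
    have h1 : φ p ∈ P.map φ := Subgroup.mem_map_of_mem φ hp
    rw [h] at h1
    exact h1
  obtain ⟨y, hy1, hy2⟩ := tb1 hr hs hsr hY (φ x) hφb dat.odd hrb (P.map φ)
    ((hSs.to_le hPS).map φ) (hPF.map φ) hPφ hs2 hd hd1
  exact hy2 (hspY y hy1)

/-- the property Sp is inherited by the images -/
theorem sp_map [Finite G] {G' : Type*} [Group G'] {M : Subgroup G} {x : G} {b d : ℕ}
    (dat : Dat0 M x b) (f : G →* G')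
    (hsp : ∀ m ∈ M, m * x ^ d = x ^ d * m → m * x = x * m) :
    ∀ m ∈ M.map f, m * (f x) ^ d = (f x) ^ d * m → m * f x = f x * m := by
  rintro _ ⟨m, hm, rfl⟩ h
  have hK : x ∈ normalizer ((M ⊓ f.ker : Subgroup G) : Set G) :=
    inf_normalizer_le_normalizer_inf ⟨dat.nor, le_normalizer_of_normal (mem_top x)⟩
  have hxd : m⁻¹ * (x ^ d * m * (x ^ d)⁻¹) ∈ M ⊓ f.ker := by
    refine ⟨M.mul_mem (M.inv_mem hm)
      ((mem_normalizer_iff.1 (Subgroup.pow_mem _ dat.nor d) m).1 hm), ?_⟩
    show f (m⁻¹ * (x ^ d * m * (x ^ d)⁻¹)) = 1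
    rw [map_mul, map_mul, map_mul, map_inv, map_inv, map_pow, ← h, mul_inv_cancel_right,
      inv_mul_cancel]
  obtain ⟨n, hn, hfix⟩ := cl1 (M ⊓ f.ker) (x ^ d) m (Subgroup.pow_mem _ hK d)
    (Nat.Coprime.coprime_dvd_left (orderOf_pow_dvd d) (card_coprime_le inf_le_left dat.ord)) hxd
  have h1 := hsp (m * n) (M.mul_mem hm hn.1) (mul_inv_eq_iff_eq_mul.1 hfix).symm
  have h2 : f n = 1 := hn.2
  have h3 := congrArg f h1
  simp only [map_mul, h2, mul_one] at h3
  exact h3

/-- B3 -/
theorem b3_aux (b d n : ℕ) (hd : d ∣ b) (hd1 : d ≠ 1) : ∀ (G : Type u) [Group G] [Finite G]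
    (M : Subgroup G) (x : G), Nat.card M < n → Dat M x b →
    (∀ m ∈ M, m * x ^ d = x ^ d * m → m * x = x * m) →
    ∃ F : Subgroup G, F.Normal ∧ F ≤ M ∧ Group.IsNilpotent F ∧ ∃ c, D c (DF x b M) ≤ F := by
  induction n with
  | zero =>
    intro G _ _ M x h
    exact absurd h (Nat.not_lt_zero _)
  | succ n ih =>
    intro G _ _ M x hM dat hsp
    have hMn := dat.nor
    have hDM : DF x b M ≤ M := DF_le fun T hT _ => hT
    rcases eq_or_ne M ⊥ with hM0 | hM0
    · exact ⟨⊥, inferInstance, bot_le, (nil_iff _).2 ⟨0, rfl⟩, 0, by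
        rw [D_zero]
        exact hDM.trans hM0.le⟩
    obtain ⟨V, hVn, hVM, hVne, hVmin⟩ := exists_min M hMn hM0
    have hsM := dat.sol
    have hsV : Group.IsSolvable V :=
      Group.isSolvable_of_isSolvable_injective (inclusion_injective hVM)
    have hVc : ⁅V, V⁆ ≤ ⊥ := chief_ab hsV bot_le hVne.symm (fun U hU _ h => hVmin U hU h)
    have hVab : ∀ a ∈ V, ∀ c ∈ V, a * c = c * a := by
      intro a ha c hc
      have h1 := hVc (commutator_mem_commutator ha hc)
      rwa [mem_bot, commutatorElement_eq_one_iff_mul_comm] at h1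
    obtain ⟨r, hr, hrV, hVr⟩ := min_exp V hVne hVab hVmin
    let _ : CommGroup V := { (inferInstance : Group V) with
      mul_comm := fun a c => Subtype.ext (hVab a a.2 c c.2) }
    have hcM : Nat.card V ∣ Nat.card M := Subgroup.card_dvd_of_le hVM
    have hrb : r.Coprime b := Nat.Coprime.coprime_dvd_left (hrV.trans hcM) dat.cop.symm
    -- the quotient by `V`
    set f : G →* G ⧸ V := QuotientGroup.mk' V with hf
    have hfs : Function.Surjective f := QuotientGroup.mk'_surjective V
    have hfk : f.ker = V := QuotientGroup.ker_mk' V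
    have hcard : Nat.card (M.map f) < Nat.card M := by
      refine lt_of_le_of_ne (Nat.le_of_dvd Nat.card_pos (Subgroup.card_map_dvd M f)) fun h => ?_
      have h1 : Function.Bijective (f.subgroupMap M) :=
        Function.Surjective.bijective_of_nat_card_le (f.subgroupMap_surjective M) h.ge
      apply hVne
      rw [Subgroup.eq_bot_iff_forall]
      intro w hw
      have h2 : f w = 1 := by
        have h3 : w ∈ f.ker := hfk.ge hw
        exact h3
      have h3 : (⟨w, hVM hw⟩ : M) = 1 := by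
        apply h1.1
        rw [map_one]
        exact Subtype.ext h2
      exact congrArg Subtype.val h3
    obtain ⟨F₀, hF₀n, hF₀M, hF₀nil, c, hc⟩ := ih (G ⧸ V) (M.map f) (f x) (by omega)
      (dat.map f hfs) (sp_map dat.dat0 f hsp)
    -- the action on `V`
    let φ : G →* MulAut V := MulAut.conjNormal
    have hφ : ∀ (g : G) (v : V), ((φ g v : V) : G) = g * v * g⁻¹ :=
      fun g v => MulAut.conjNormal_apply g v
    let φr : G →* φ.range := φ.rangeRestrict
    have hφr : Function.Surjective φr := φ.rangeRestrict_surjective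
    have hφM : (M.map φr).map φ.range.subtype = M.map φ := by
      rw [Subgroup.map_map]
      rfl
    have hfin : Finite (MulAut V) := by
      have : Finite (V ≃* V) := DFunLike.finite _
      exact this
    have hnil : Group.IsNilpotent (DF (φr x) b (M.map φr)) := by
      refine b2 (dat.map φr hφr) (Y := V) hr hrb (fun v => Subtype.ext (hVr v v.2))
        φ.range.subtype (fun m _ h => Subtype.ext h) ?_ ?_ hd hd1 (sp_map dat.dat0 φr hsp) ?_
      · show (φ x) ^ b = 1
        rw [← map_pow]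
        refine MulEquiv.ext fun v => Subtype.ext ?_
        rw [hφ, ← dat.pow v (hVM v.2), mul_inv_cancel_right]
        rfl
      · intro Q hQM hQn hQ
        refine (Subgroup.map_eq_bot_iff_of_injective Q φ.range.subtype_injective).1
          (min_core V hVne hVmin hr hrV M (Q.map φ.range.subtype) ?_ ?_ (hQ.map _))
        · show Q.map φ.range.subtype ≤ M.map φ
          rw [← hφM]
          exact Subgroup.map_mono hQM
        · show M.map φ ≤ _
          rw [← hφM]
          exact (Subgroup.map_mono hQn).trans (Subgroup.le_normalizer_map _)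
      · intro v hv
        have h1 : (φ x ^ d) v = v := hv
        rw [← map_pow] at h1
        have h2 := congrArg Subtype.val h1
        rw [hφ] at h2
        have h3 := hsp v (hVM v.2) (mul_inv_eq_iff_eq_mul.1 h2).symm
        refine Subtype.ext ?_
        show ((φ x v : V) : G) = v
        rw [hφ, ← h3, mul_inv_cancel_right]
    obtain ⟨c', hc'⟩ := (nil_iff _).1 hnil
    have h1 : D c (DF x b M) ≤ F₀.comap f := by
      rw [← Subgroup.map_le_iff_le_comap, D_map]
      exact (D_mono (DF_map f hfs x b M) c).trans hc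
    have h2 : D c' (DF x b M) ≤ φ.ker := by
      have h3 : (D c' (DF x b M)).map φr = ⊥ := by
        rw [D_map, eq_bot_iff, ← hc']
        exact D_mono (DF_map φr hφr x b M) c'
      rw [Subgroup.map_eq_bot_iff] at h3
      rwa [MonoidHom.ker_rangeRestrict] at h3
    refine ⟨F₀.comap f ⊓ φ.ker ⊓ M, ?_, inf_le_right, ?_, max c c', ?_⟩
    · have := hF₀n.comap f
      infer_instance
    · obtain ⟨k, hk⟩ := (nil_iff _).1 hF₀nil
      refine (nil_iff _).2 ⟨k + 1, ?_⟩
      have h3 : D k (F₀.comap f ⊓ φ.ker ⊓ M) ≤ V := by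
        refine le_trans ?_ hfk.le
        rw [← Subgroup.map_eq_bot_iff, D_map, eq_bot_iff, ← hk]
        refine D_mono ?_ k
        exact (Subgroup.map_mono (inf_le_left.trans inf_le_left)).trans (Subgroup.map_comap_le f F₀)
      rw [D_succ, eq_bot_iff]
      refine (commutator_mono h3 (inf_le_left.trans inf_le_right)).trans ?_
      rw [commutator_le]
      intro v hv g hg
      have h4 : φ g = 1 := hg
      have h5 := hφ g ⟨v, hv⟩
      rw [h4] at h5
      have h6 : v = g * v * g⁻¹ := h5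
      rw [mem_bot, commutatorElement_eq_one_iff_mul_comm]
      exact eq_mul_inv_iff_mul_eq.1 h6
    · exact le_inf (le_inf ((D_anti (le_max_left c c') _).trans h1)
        ((D_anti (le_max_right c c') _).trans h2)) ((D_le _ _).trans hDM)

/-- B3 -/
theorem b3 [Finite G] {M : Subgroup G} {x : G} {b d : ℕ} (dat : Dat M x b) (hd : d ∣ b)
    (hd1 : d ≠ 1) (hsp : ∀ m ∈ M, m * x ^ d = x ^ d * m → m * x = x * m) :
    ∃ F : Subgroup G, F.Normal ∧ F ≤ M ∧ Group.IsNilpotent F ∧ ∃ c, D c (DF x b M) ≤ F :=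
  b3_aux b d _ hd hd1 G M x (Nat.lt_succ_self _) dat hsp

end MP0d06d9R
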