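import Pool.Agent.Lib.MP_0d06d9_alR.BY

/-!
# BZ: B4
-/

set_option autoImplicit false

namespace MP0d06d9R

open Subgroup commutatorElement
open MP0d06d9I (norm_sup norm_inf norm_map norm_comm)
open scoped Pointwise

universe u

theorem full_of_primes {G : Type*} [Group G] {T : Subgroup G} {x : G} {b : ℕ}
    (hxT : x ∈ normalizer (T : Set G)) (hb : ∀ t ∈ T, t * x ^ b = x ^ b * t)
    (h : ∀ q : ℕ, q.Prime → q ∣ b → ⁅T, zpowers (x ^ (b / q))⁆ = T) : Full x b T := by
  refine ⟨hxT, fun i hi => le_antisymm (le_normalizer_iff_commutator_le_left.1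
    (zpowers_le.2 (Subgroup.pow_mem _ hxT i))) ?_⟩
  have hg0 : Nat.gcd i b ∣ b := Nat.gcd_dvd_right i b
  have hg1 : b / Nat.gcd i b ≠ 1 := by
    intro h1
    apply hi
    have h2 : Nat.gcd i b = b := by
      have h3 := Nat.div_mul_cancel hg0
      rw [h1, Nat.one_mul] at h3
      exact h3
    rw [← h2]
    exact Nat.gcd_dvd_left i b
  obtain ⟨q, hq, hqd⟩ := Nat.exists_prime_and_dvd hg1
  have hqb : q ∣ b := hqd.trans (Nat.div_dvd_of_dvd hg0)
  obtain ⟨e, he⟩ := hqd
  have hbq : b / q = Nat.gcd i b * e := by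
    have h3 := Nat.div_mul_cancel hg0
    rw [he] at h3
    exact Nat.div_eq_of_eq_mul_left hq.pos (h3.symm.trans (by ring))
  refine le_trans (h q hq hqb).ge ?_
  rw [commutator_le]
  intro t ht z hz
  obtain ⟨k, rfl⟩ := mem_zpowers_iff.1 hz
  have h4 : (x ^ (b / q)) ^ k = (x ^ i) ^ (Nat.gcdA i b * e * k) * (x ^ b) ^ (Nat.gcdB i b * e * k) := by
    rw [hbq, ← zpow_natCast x (Nat.gcd i b * e), ← zpow_natCast x i, ← zpow_natCast x b, ← zpow_mul,
      ← zpow_mul, ← zpow_mul, ← zpow_add]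
    congr 1
    rw [Nat.cast_mul, Nat.gcd_eq_gcd_ab]
    ring
  have h5 : Commute t ((x ^ b) ^ (Nat.gcdB i b * e * k)) :=
    (show Commute t (x ^ b) from hb t ht).zpow_right _
  have h6 : ⁅t, (x ^ (b / q)) ^ k⁆ = ⁅t, (x ^ i) ^ (Nat.gcdA i b * e * k)⁆ := by
    rw [h4, commutatorElement_def, commutatorElement_def]
    generalize (x ^ b) ^ (Nat.gcdB i b * e * k) = z at h5
    generalize (x ^ i) ^ (Nat.gcdA i b * e * k) = w
    have h7 : z * t⁻¹ * z⁻¹ = t⁻¹ := by
      rw [mul_inv_eq_iff_eq_mul]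
      exact h5.symm.inv_right.eq
    calc t * (w * z) * t⁻¹ * (w * z)⁻¹ = t * w * (z * t⁻¹ * z⁻¹) * w⁻¹ := by group
      _ = _ := by rw [h7]
  rw [h6]
  exact commutator_mem_commutator ht (mem_zpowers_iff.2 ⟨_, rfl⟩)

/-- the Full closure of a subgroup under `x` -/
theorem full_closure {G : Type*} [Group G] [Finite G] {V T : Subgroup G} [V.Normal] (hTV : T ≤ V)
    {x : G} {b' p : ℕ} (hF : Full (x ^ p) b' T) : ∃ T' : Subgroup G, T ≤ T' ∧ T' ≤ V ∧
      x ∈ normalizer (T' : Set G) ∧ ∀ i : ℕ, ¬ b' ∣ i → ⁅T', zpowers ((x ^ p) ^ i)⁆ = T' := by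
  let c : ℕ → G →* G := fun k => (MulAut.conj (x ^ k)).toMonoidHom
  have hc : ∀ k g, c k g = x ^ k * g * (x ^ k)⁻¹ := fun k g => rfl
  have hx : x ∈ normalizer ((⨆ k, T.map (c k) : Subgroup G) : Set G) := by
    have h1 : (⨆ k, T.map (c k) : Subgroup G).map (MulAut.conj x).toMonoidHom ≤
        ⨆ k, T.map (c k) := by
      rw [Subgroup.map_iSup]
      refine iSup_le fun k => ?_
      refine le_trans ?_ (le_iSup (fun k => T.map (c k)) (k + 1))
      rw [Subgroup.map_map]
      refine le_of_eq ?_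
      congr 1
      refine MonoidHom.ext fun g => ?_
      show x * (x ^ k * g * (x ^ k)⁻¹) * x⁻¹ = x ^ (k + 1) * g * (x ^ (k + 1))⁻¹
      rw [pow_succ']
      group
    refine Subgroup.mem_normalizer_fintype fun g hg => ?_
    exact h1 ⟨g, hg, rfl⟩
  refine ⟨⨆ k, T.map (c k), ?_, ?_, hx, fun i hi => le_antisymm
    (le_normalizer_iff_commutator_le_left.1
      (zpowers_le.2 (Subgroup.pow_mem _ (Subgroup.pow_mem _ hx p) i))) ?_⟩
  · refine le_trans ?_ (le_iSup (fun k => T.map (c k)) 0)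
    intro t ht
    refine ⟨t, ht, ?_⟩
    rw [hc]
    group
  · refine iSup_le fun k => ?_
    rintro _ ⟨t, ht, rfl⟩
    exact (inferInstance : V.Normal).conj_mem t (hTV ht) (x ^ k)
  · refine iSup_le fun k => ?_
    have h1 : T.map (c k) = ⁅T.map (c k), zpowers ((x ^ p) ^ i)⁆ := by
      have h2 := congrArg (Subgroup.map (c k)) (hF.2 i hi)
      rw [map_commutator, MonoidHom.map_zpowers] at h2
      have h3 : c k ((x ^ p) ^ i) = (x ^ p) ^ i := by
        rw [hc, ← pow_mul, ← pow_add, Nat.add_comm, pow_add, mul_inv_cancel_right]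
      rw [h3] at h2
      exact h2.symm
    exact h1.le.trans (commutator_mono (le_iSup (fun k => T.map (c k)) k) le_rfl)

/-- B4, the case that `M` centralises `V` -/
theorem b4_central {G : Type*} [Group G] [Finite G] {M V : Subgroup G} [V.Normal] {x : G}
    {b' p : ℕ} (dat : Dat M x (b' * p)) (hp : p.Prime) (hb0 : b' * p ≠ 0) (hVM : V ≤ M)
    (hF : Full (x ^ p) b' M) (hc : ∀ v ∈ V, ∀ m ∈ M, v * m = m * v)
    (hq : ∀ m ∈ M, m⁻¹ * (x ^ b' * m * (x ^ b')⁻¹) ∈ V)
    (h0 : ∀ v ∈ V, v * x ^ b' = x ^ b' * v → v = 1) : Full x (b' * p) V := by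
  have hVn : x ∈ normalizer (V : Set G) := le_normalizer_of_normal (mem_top x)
  refine full_of_primes hVn (fun t ht => dat.pow t (hVM ht)) fun q hq' hqd => ?_
  have hb'0 : b' ≠ 0 := fun h => hb0 (by rw [h, Nat.zero_mul])
  rcases (Nat.Prime.dvd_mul hq').1 hqd with h | h
  · -- `q ∣ b'`
    have e1 : b' * p / q = p * (b' / q) := by
      rw [Nat.mul_comm b' p, Nat.mul_div_assoc p h]
    have e2 : ¬ b' ∣ b' / q := by
      intro h1
      have h2 := Nat.le_of_dvd (Nat.div_pos (Nat.le_of_dvd (Nat.pos_of_ne_zero hb'0) h) hq'.pos) h1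
      have h3 := Nat.div_lt_self (Nat.pos_of_ne_zero hb'0) hq'.one_lt
      omega
    rw [e1, pow_mul]
    set y := (x ^ p) ^ (b' / q) with hy
    have hYx : ∀ z ∈ zpowers y, Commute z x := by
      intro z hz
      obtain ⟨k, rfl⟩ := mem_zpowers_iff.1 hz
      rw [hy]
      exact ((((Commute.refl x).pow_left p).pow_left (b' / q)).zpow_left k)
    have hYM : ∀ z ∈ zpowers y, z ∈ normalizer (M : Set G) := by
      intro z hz
      have := dat.nor
      exact le_normalizer_of_normal (mem_top z)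
    have hYV : ∀ z ∈ zpowers y, z ∈ normalizer (V : Set G) :=
      fun z _ => le_normalizer_of_normal (mem_top z)
    have hle : ⁅V, zpowers y⁆ ≤ V := le_normalizer_iff_commutator_le_left.1 hYV
    refine le_antisymm hle ?_
    let R : Subgroup G :=
      { carrier := {m | ∃ w ∈ ⁅V, zpowers y⁆, ∃ c ∈ M, c * x ^ b' = x ^ b' * c ∧ m = w * c}
        mul_mem' := by
          rintro _ _ ⟨w, hw, c, hc1, hc2, rfl⟩ ⟨w', hw', c', hc1', hc2', rfl⟩
          refine ⟨w * w', Subgroup.mul_mem _ hw hw', c * c', M.mul_mem hc1 hc1', ?_, ?_⟩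
          · rw [mul_assoc, hc2', ← mul_assoc, hc2, mul_assoc]
          · have h1 := hc w' (hle hw') c hc1
            calc w * c * (w' * c') = w * (c * w') * c' := by group
              _ = w * w' * (c * c') := by rw [← h1]; group
        one_mem' := ⟨1, Subgroup.one_mem _, 1, M.one_mem, by rw [one_mul, mul_one], by rw [one_mul]⟩
        inv_mem' := by
          rintro _ ⟨w, hw, c, hc1, hc2, rfl⟩
          refine ⟨w⁻¹, Subgroup.inv_mem _ hw, c⁻¹, M.inv_mem hc1, ?_, ?_⟩
          · exact ((show Commute c (x ^ b') from hc2).inv_left).eq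
          · have h1 := hc w (hle hw) c hc1
            rw [h1, mul_inv_rev] }
    have hR : M ≤ R := by
      rw [← hF.2 (b' / q) e2, commutator_le]
      intro m hm z hz
      obtain ⟨n, hn, hfix⟩ := cl1 V (x ^ b') m (Subgroup.pow_mem _ hVn b')
        (Nat.Coprime.coprime_dvd_left (orderOf_pow_dvd b') (card_coprime_le hVM dat.ord)) (hq m hm)
      have hcM : m * n ∈ M := M.mul_mem hm (hVM hn)
      have hcx : m * n * x ^ b' = x ^ b' * (m * n) := (mul_inv_eq_iff_eq_mul.1 hfix).symm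
      have hzc : ⁅m * n, z⁆ ∈ M := by
        have e : ⁅m * n, z⁆ = m * n * (z * (m * n)⁻¹ * z⁻¹) := by
          rw [commutatorElement_def]
          group
        rw [e]
        exact M.mul_mem hcM ((mem_normalizer_iff.1 (hYM z hz) _).1 (M.inv_mem hcM))
      refine ⟨⁅n⁻¹, z⁆, commutator_mem_commutator (V.inv_mem hn) hz, ⁅m * n, z⁆, hzc, ?_, ?_⟩
      · have h1 : Commute (m * n) (x ^ b') := hcx
        have h2 : Commute z (x ^ b') := (hYx z hz).pow_right b'
        rw [commutatorElement_def]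
        exact (((h1.mul_left h2).mul_left h1.inv_left).mul_left h2.inv_left).eq
      · have h1 := hc n⁻¹ (V.inv_mem hn) _ hzc
        have e : ⁅m, z⁆ = n⁻¹ * ⁅m * n, z⁆ * (z * n * z⁻¹) := by
          have h3 := hc n⁻¹ (V.inv_mem hn) m hm
          rw [commutatorElement_def, commutatorElement_def]
          calc m * z * m⁻¹ * z⁻¹ = (m * n⁻¹) * n * z * n⁻¹ * (m * n⁻¹)⁻¹ * z⁻¹ := by group
            _ = (n⁻¹ * m) * n * z * n⁻¹ * (n⁻¹ * m)⁻¹ * z⁻¹ := by rw [h3]
            _ = _ := by group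
        have h4 : z * n * z⁻¹ ∈ V := (mem_normalizer_iff.1 (hYV z hz) n).1 hn
        have h5 := hc _ h4 _ hzc
        rw [e, mul_assoc, ← h5, ← mul_assoc]
        congr 1
        rw [commutatorElement_def]
        group
    intro v hv
    obtain ⟨w, hw, c, hcM, hcx, hvc⟩ := hR (hVM hv)
    have h1 : c ∈ V := by
      have e : c = w⁻¹ * v := by rw [hvc]; group
      rw [e]
      exact V.mul_mem (V.inv_mem (hle hw)) hv
    have h2 := h0 c h1 hcx
    rw [hvc, h2, mul_one]
    exact hw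
  · -- `q = p`
    have e1 : q = p := (Nat.prime_dvd_prime_iff_eq hq' hp).1 h
    rw [e1, Nat.mul_div_cancel b' hp.pos]
    refine comm_of_free (Subgroup.pow_mem _ hVn b') fun t ht h1 => ?_
    exact h0 t ht (mul_inv_eq_iff_eq_mul.1 h1).symm

/-- B4, the case that `M` does not centralise `V` -/
theorem b4_noncentral {G : Type u} [Group G] [Finite G] {M V : Subgroup G} [V.Normal] {x : G}
    {b' p : ℕ} (dat : Dat M x (b' * p)) (hp : p.Prime) (hb0 : b' * p ≠ 0) (hVM : V ≤ M)
    (hVne : V ≠ ⊥) (hVmin : ∀ U : Subgroup G, U.Normal → U ≤ V → U = ⊥ ∨ U = V)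
    (hVab : ∀ a ∈ V, ∀ c ∈ V, a * c = c * a)
    (hF : Full (x ^ p) b' M) (hc : ¬ ∀ v ∈ V, ∀ m ∈ M, v * m = m * v)
    (h0 : ∀ v ∈ V, v * x ^ b' = x ^ b' * v → v = 1) :
    ∃ T ≤ M, Full x (b' * p) T ∧ T ≠ ⊥ := by
  classical
  have hMn := dat.nor
  have hb'0 : b' ≠ 0 := fun h => hb0 (by rw [h, Nat.zero_mul])
  obtain ⟨r, hr, hrV, hVr⟩ := min_exp V hVne hVab hVmin
  let _ : CommGroup V := { (inferInstance : Group V) with
    mul_comm := fun a c => Subtype.ext (hVab a a.2 c c.2) }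
  have hcM : Nat.card V ∣ Nat.card M := Subgroup.card_dvd_of_le hVM
  have hcop : b'.Coprime (Nat.card M) := Nat.Coprime.coprime_dvd_left (Nat.dvd_mul_right b' p) dat.cop
  have hrb : r.Coprime b' := Nat.Coprime.coprime_dvd_left (hrV.trans hcM) hcop.symm
  let φ : G →* MulAut V := MulAut.conjNormal
  have hφ : ∀ (g : G) (v : V), ((φ g v : V) : G) = g * v * g⁻¹ :=
    fun g v => MulAut.conjNormal_apply g v
  have hfin : Finite (MulAut V) := by
    have : Finite (V ≃* V) := DFunLike.finite _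
    exact this
  have hMφ : M.map φ ≠ ⊥ := by
    intro h
    apply hc
    intro v hv m hm
    have h1 : φ m ∈ M.map φ := Subgroup.mem_map_of_mem φ hm
    rw [h, mem_bot] at h1
    have h2 := hφ m ⟨v, hv⟩
    rw [h1] at h2
    have h3 : v = m * v * m⁻¹ := h2
    exact eq_mul_inv_iff_mul_eq.1 h3
  have hodd : Odd b' := (Nat.odd_mul.1 dat.odd).1
  have dat' : Dat0 (M.map φ) ((φ x) ^ p) b' := by
    have d0 := dat.dat0.map φ
    refine ⟨Subgroup.pow_mem _ d0.nor p, d0.sol, ?_, ?_, ?_, hodd⟩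
    · intro m hm
      rw [← pow_mul, Nat.mul_comm p b']
      exact d0.pow m hm
    · exact Nat.Coprime.coprime_dvd_right (Subgroup.card_map_dvd M φ) hcop
    · exact Nat.Coprime.coprime_dvd_left (orderOf_pow_dvd p) d0.ord
  have hF' : Full ((φ x) ^ p) b' (M.map φ) := by
    rw [← map_pow]
    exact hF.map φ
  obtain ⟨s, P, hs, hsr, hPM, hPs, hPF, hPne⟩ := i1.{u} b' (Nat.card (M.map φ) + 1) (MulAut V)
    (M.map φ) ((φ x) ^ p) r (Nat.lt_succ_self _) dat'
    (fun Q hQM hQn hQ => min_core V hVne hVmin hr hrV M Q hQM hQn hQ)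
    ⟨M.map φ, le_rfl, hF', hMφ⟩
  have hβ : ((φ x) ^ p) ^ b' = 1 := by
    rw [← pow_mul, Nat.mul_comm p b', ← map_pow]
    refine MulEquiv.ext fun v => Subtype.ext ?_
    rw [hφ, ← dat.pow v (hVM v.2), mul_inv_cancel_right]
    rfl
  obtain ⟨T₁, hT1ne, hT1i, hT1f⟩ := tb2 hr hs hsr (fun v : V => Subtype.ext (hVr v v.2))
    ((φ x) ^ p) hβ hodd hrb P hPs hPF hPne
  rw [← map_pow] at hT1i hT1f
  have hTF : Full (x ^ p) b' (T₁.map V.subtype) := full_of_free V T₁ hT1i hT1f
  obtain ⟨T, hTT, hTV, hxT, hTf⟩ := full_closure (map_subtype_le T₁) hTF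
  refine ⟨T, hTV.trans hVM, full_of_primes hxT (fun t ht => dat.pow t (hVM (hTV ht)))
    fun q hq' hqd => ?_, ?_⟩
  · rcases (Nat.Prime.dvd_mul hq').1 hqd with h | h
    · have e1 : b' * p / q = p * (b' / q) := by
        rw [Nat.mul_comm b' p, Nat.mul_div_assoc p h]
      have e2 : ¬ b' ∣ b' / q := by
        intro h1
        have h2 := Nat.le_of_dvd (Nat.div_pos (Nat.le_of_dvd (Nat.pos_of_ne_zero hb'0) h) hq'.pos) h1
        have h3 := Nat.div_lt_self (Nat.pos_of_ne_zero hb'0) hq'.one_lt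
        omega
      rw [e1, pow_mul]
      exact hTf _ e2
    · have e1 : q = p := (Nat.prime_dvd_prime_iff_eq hq' hp).1 h
      rw [e1, Nat.mul_div_cancel b' hp.pos]
      refine comm_of_free (Subgroup.pow_mem _ hxT b') fun t ht h1 => ?_
      exact h0 t (hTV ht) (mul_inv_eq_iff_eq_mul.1 h1).symm
  · rintro rfl
    apply hT1ne
    exact (Subgroup.map_eq_bot_iff_of_injective T₁ V.subtype_injective).1 (le_bot_iff.1 hTT)

theorem b4_aux (b' p n : ℕ) (hp : p.Prime) (hb0 : b' * p ≠ 0) : ∀ (G : Type u) [Group G] [Finite G]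
    (M : Subgroup G) (x : G), Nat.card M < n → Dat M x (b' * p) → Full (x ^ p) b' M →
    (∀ T : Subgroup G, T ≤ M → Full x (b' * p) T → T = ⊥) → ∀ m ∈ M, m * x ^ b' = x ^ b' * m := by
  induction n with
  | zero =>
    intro G _ _ M x h
    exact absurd h (Nat.not_lt_zero _)
  | succ n ih =>
    intro G _ _ M x hM dat hF hno
    have hMn := dat.nor
    rcases eq_or_ne M ⊥ with hM0 | hM0
    · intro m hm
      rw [hM0, mem_bot] at hm
      rw [hm, one_mul, mul_one]
    obtain ⟨V, hVn, hVM, hVne, hVmin⟩ := exists_min M hMn hM0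
    have hsM := dat.sol
    have hsV : Group.IsSolvable V :=
      Group.isSolvable_of_isSolvable_injective (inclusion_injective hVM)
    have hVc : ⁅V, V⁆ ≤ ⊥ := chief_ab hsV bot_le hVne.symm (fun U hU _ h => hVmin U hU h)
    have hVab : ∀ a ∈ V, ∀ c ∈ V, a * c = c * a := by
      intro a ha c hc
      have h1 := hVc (commutator_mem_commutator ha hc)
      rwa [mem_bot, commutatorElement_eq_one_iff_mul_comm] at h1
    set f : G →* G ⧸ V := QuotientGroup.mk' V with hf
    have hfs : Function.Surjective f := QuotientGroup.mk'_surjective V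
    have hfk : f.ker = V := QuotientGroup.ker_mk' V
    have hcard : Nat.card (M.map f) < Nat.card M := by
      refine lt_of_le_of_ne (Nat.le_of_dvd Nat.card_pos (Subgroup.card_map_dvd M f)) fun h => ?_
      have h1 : Function.Bijective (f.subgroupMap M) :=
        Function.Surjective.bijective_of_nat_card_le (f.subgroupMap_surjective M) h.ge
      apply hVne
      rw [Subgroup.eq_bot_iff_forall]
      intro w hw
      have h2 : f w = 1 := by
        have h3 : w ∈ f.ker := hfk.ge hw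
        exact h3
      have h3 : (⟨w, hVM hw⟩ : M) = 1 := by
        apply h1.1
        rw [map_one]
        exact Subtype.ext h2
      exact congrArg Subtype.val h3
    have hIH := ih (G ⧸ V) (M.map f) (f x) (by omega) (dat.map f hfs)
      (by rw [← map_pow]; exact hF.map f) (by
        intro T hTM hTF
        obtain ⟨P, hPM, hPF, hPT⟩ := lift f (S := M) (le_normalizer_of_normal (mem_top x)) hTF hTM
        rw [← hPT, hno P hPM hPF, Subgroup.map_bot])
    have hq : ∀ m ∈ M, m⁻¹ * (x ^ b' * m * (x ^ b')⁻¹) ∈ V := by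
      intro m hm
      refine hfk.le ?_
      show f (m⁻¹ * (x ^ b' * m * (x ^ b')⁻¹)) = 1
      have h1 := hIH (f m) (Subgroup.mem_map_of_mem f hm)
      rw [map_mul, map_mul, map_mul, map_inv, map_inv, map_pow, ← h1, mul_inv_cancel_right,
        inv_mul_cancel]
    -- the fixed points in `V`
    have hmem : ∀ v : G, v ∈ V ⊓ centralizer {x ^ b'} ↔ v ∈ V ∧ v * x ^ b' = x ^ b' * v := by
      intro v
      rw [mem_inf, mem_centralizer_singleton_iff]
    have hU : (V ⊓ centralizer {x ^ b'} : Subgroup G).Normal := by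
      rw [← normalizer_eq_top_iff, eq_top_iff, ← dat.top]
      refine sup_le ?_ (zpowers_le.2 ?_)
      · intro m hm
        refine Subgroup.mem_normalizer_fintype fun v hv => ?_
        have hv' := (hmem v).1 hv
        refine (hmem _).2 ⟨hVn.conj_mem v hv'.1 m, ?_⟩
        obtain ⟨w, hw⟩ : ∃ w, w = m⁻¹ * (x ^ b' * m * (x ^ b')⁻¹) := ⟨_, rfl⟩
        have hwV : w ∈ V := by rw [hw]; exact hq m hm
        have h1 : x ^ b' * m = m * w * x ^ b' := by rw [hw]; group
        have h2 := hVab w hwV v hv'.1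
        have h4 : w⁻¹ * m⁻¹ * x ^ b' = x ^ b' * m⁻¹ := by
          calc w⁻¹ * m⁻¹ * x ^ b' = w⁻¹ * m⁻¹ * (x ^ b' * m) * m⁻¹ := by group
            _ = w⁻¹ * m⁻¹ * (m * w * x ^ b') * m⁻¹ := by rw [h1]
            _ = x ^ b' * m⁻¹ := by group
        calc m * v * m⁻¹ * x ^ b' = m * (v * w) * w⁻¹ * m⁻¹ * x ^ b' := by group
          _ = m * (w * v) * w⁻¹ * m⁻¹ * x ^ b' := by rw [h2]
          _ = m * w * v * (w⁻¹ * m⁻¹ * x ^ b') := by group
          _ = m * w * (v * x ^ b') * m⁻¹ := by rw [h4]; group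
          _ = (m * w * x ^ b') * v * m⁻¹ := by rw [hv'.2]; group
          _ = x ^ b' * (m * v * m⁻¹) := by rw [← h1]; group
      · refine Subgroup.mem_normalizer_fintype fun v hv => ?_
        have hv' := (hmem v).1 hv
        refine (hmem _).2 ⟨hVn.conj_mem v hv'.1 x, ?_⟩
        have h1 : Commute x (x ^ b') := (Commute.refl x).pow_right b'
        exact ((h1.mul_left (show Commute v (x ^ b') from hv'.2)).mul_left h1.inv_left).eq
    rcases hVmin _ hU inf_le_left with h | h
    · have h0 : ∀ v ∈ V, v * x ^ b' = x ^ b' * v → v = 1 := by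
        intro v hv h1
        have h2 := (hmem v).2 ⟨hv, h1⟩
        rw [h] at h2
        exact h2
      exfalso
      by_cases hc : ∀ v ∈ V, ∀ m ∈ M, v * m = m * v
      · exact hVne (hno V hVM (b4_central dat hp hb0 hVM hF hc hq h0))
      · obtain ⟨T, hTM, hTF, hTne⟩ := b4_noncentral dat hp hb0 hVM hVne hVmin hVab hF hc h0
        exact hTne (hno T hTM hTF)
    · have h1 : ∀ t ∈ V, t⁻¹ * (x ^ b' * t * (x ^ b')⁻¹) ∈ (⊥ : Subgroup G) := by
        intro t ht
        rw [← h] at ht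
        rw [← ((hmem t).1 ht).2, mul_inv_cancel_right, inv_mul_cancel]
        exact one_mem _
      intro m hm
      have h2 := triv_trans (S := M) (S₁ := ⊥) (S₃ := V) (a := x ^ b') hVM
        (le_normalizer_of_normal (mem_top _))
        (Nat.Coprime.coprime_dvd_left (orderOf_pow_dvd b') dat.ord) hq h1 m hm
      rw [mem_bot, inv_mul_eq_one] at h2
      exact (mul_inv_eq_iff_eq_mul.1 h2.symm).symm

/-- B4 -/
theorem b4 {G : Type u} [Group G] [Finite G] {M : Subgroup G} {x : G} {b' p : ℕ}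
    (dat : Dat M x (b' * p)) (hp : p.Prime) (hF : Full (x ^ p) b' M)
    (hno : ∀ T : Subgroup G, T ≤ M → Full x (b' * p) T → T = ⊥) :
    ∀ m ∈ M, m * x ^ b' = x ^ b' * m :=
  b4_aux b' p _ hp (fun h => by
    have := dat.odd
    rw [h] at this
    exact absurd this (by decide)) G M x (Nat.lt_succ_self _) dat hF hno

end MP0d06d9R
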