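import Mathlib

/-!
# MP_0d06d9_al, Rae's theorem: definitions for the finite part

`⁅a, b⁆ = a * b * a⁻¹ * b⁻¹`.  See TEAM_MP_0d06d9_al_PROOF.md for the complete proof in words.
-/

set_option autoImplicit false

namespace MP0d06d9R

open Subgroup commutatorElement

section Grp

variable {G : Type*} [Group G]

/-- the term `γ_{c+1}` of the lower central series of `T`, as a subgroup of `G` -/
def D (c : ℕ) (T : Subgroup G) : Subgroup G := (fun S => ⁅S, T⁆)^[c] T

/-- `T` has Fitting height at most `n` modulo `N` -/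
def HtR (n : ℕ) (N T : Subgroup G) : Prop := ∃ c : ℕ, (D c)^[n] T ≤ N

/-- `W₁ / W₂` is an abelian chief factor for the group `G₀` -/
structure Chief (G₀ W₁ W₂ : Subgroup G) : Prop where
  le : W₂ ≤ W₁
  ne : W₂ ≠ W₁
  n1 : G₀ ≤ normalizer (W₁ : Set G)
  n2 : G₀ ≤ normalizer (W₂ : Set G)
  n12 : W₁ ≤ normalizer (W₂ : Set G)
  ab : ⁅W₁, W₁⁆ ≤ W₂
  irr : ∀ U : Subgroup G, W₂ ≤ U → U ≤ W₁ → G₀ ≤ normalizer (U : Set G) → U = W₂ ∨ U = W₁

/-- the elements of `W₁` which are fixed modulo `W₂` by all elements of `L` -/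
def Cs (W₁ W₂ L : Subgroup G) : Subgroup G :=
  closure {w | w ∈ W₁ ∧ ∀ l ∈ L, ⁅w, l⁆ ∈ W₂}

end Grp

section Rep

variable {G k V : Type*} [Group G] [Field k] [AddCommGroup V] [Module k V]
  (ρ : Representation k G V)

/-- the translate `g U` -/
def tr (g : G) (U : Submodule k V) : Submodule k V := U.map (ρ g)

/-- the vectors fixed by all elements of `L` -/
def fx (L : Subgroup G) : Submodule k V where
  carrier := {v | ∀ l ∈ L, ρ l v = v}
  add_mem' := fun {a b} ha hb l hl => by rw [map_add, ha l hl, hb l hl]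
  zero_mem' := fun l _ => map_zero _
  smul_mem' := fun c v hv l hl => by rw [map_smul, hv l hl]

theorem mem_fx {L : Subgroup G} {v : V} : v ∈ fx ρ L ↔ ∀ l ∈ L, ρ l v = v := Iff.rfl

/-- `g` acts as a scalar on `U` -/
def Sca (U : Submodule k V) (g : G) : Prop := ∃ c : k, ∀ v ∈ U, ρ g v = c • v

/-- `g` acts trivially on `U` -/
def Tri (U : Submodule k V) (g : G) : Prop := ∀ v ∈ U, ρ g v = v

/-- the elements of `B` commute on `U` -/
def Com (U : Submodule k V) (B : Subgroup G) : Prop :=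
  ∀ a ∈ B, ∀ b ∈ B, ∀ v ∈ U, ρ a (ρ b v) = ρ b (ρ a v)

/-- the set of the translates of `U` -/
def orb (U : Submodule k V) : Set (Submodule k V) := Set.range fun g => tr ρ g U

/-- irreducible representation -/
def Irr : Prop :=
  Nontrivial V ∧ ∀ U : Submodule k V, (∀ g : G, tr ρ g U ≤ U) → U = ⊥ ∨ U = ⊤

theorem tr_one (U : Submodule k V) : tr ρ 1 U = U := by
  unfold tr
  rw [map_one]
  exact Submodule.map_id U

theorem tr_mul (g h : G) (U : Submodule k V) : tr ρ (g * h) U = tr ρ g (tr ρ h U) := by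
  unfold tr
  rw [map_mul]
  exact Submodule.map_comp (ρ h) (ρ g) U

theorem mem_tr {g : G} {U : Submodule k V} {v : V} : v ∈ tr ρ g U ↔ ρ g⁻¹ v ∈ U := by
  unfold tr
  rw [Submodule.mem_map]
  constructor
  · rintro ⟨w, hw, rfl⟩
    have h1 : ρ g⁻¹ (ρ g w) = w := by
      rw [← Module.End.mul_apply, ← map_mul, inv_mul_cancel, map_one, Module.End.one_apply]
    rw [h1]
    exact hw
  · intro h
    refine ⟨_, h, ?_⟩
    rw [← Module.End.mul_apply, ← map_mul, mul_inv_cancel, map_one, Module.End.one_apply]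

/-- the stabiliser of `U` -/
def stb (U : Submodule k V) : Subgroup G where
  carrier := {g | tr ρ g U = U}
  mul_mem' := fun {a b} ha hb => by
    have ha' : tr ρ a U = U := ha
    have hb' : tr ρ b U = U := hb
    show tr ρ (a * b) U = U
    rw [tr_mul, hb', ha']
  one_mem' := tr_one ρ U
  inv_mem' := fun {a} ha => by
    have ha' : tr ρ a U = U := ha
    show tr ρ a⁻¹ U = U
    conv_lhs => rw [← ha']
    rw [← tr_mul, inv_mul_cancel, tr_one]

theorem mem_stb {U : Submodule k V} {g : G} : g ∈ stb ρ U ↔ tr ρ g U = U := Iff.rfl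

/-- primitive decomposition: the translates of `U` are independent and generate `V`, and the
commutative normal subgroups of the stabiliser of `U` act by scalars on `U` -/
structure PD (U : Submodule k V) : Prop where
  ne : U ≠ ⊥
  ind : sSupIndep (orb ρ U)
  sup : sSup (orb ρ U) = ⊤
  sca : ∀ B : Subgroup G, B ≤ stb ρ U → stb ρ U ≤ normalizer (B : Set G) → Com ρ U B →
    ∀ b ∈ B, Sca ρ U b

/-- `J / Z` (`Z` = the elements of `M` acting as scalars on `U`) is abelian and nondegenerate -/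
structure Fm (U : Submodule k V) (G₀ M J : Subgroup G) : Prop where
  le : J ≤ M
  nor : G₀ ≤ normalizer (J : Set G)
  sc : ∀ m ∈ M, Sca ρ U m → m ∈ J
  com : ∀ a ∈ J, ∀ b ∈ J, Sca ρ U ⁅a, b⁆
  nd : ∀ a ∈ J, (∀ b ∈ J, Tri ρ U ⁅a, b⁆) → Sca ρ U a

/-- the elements of `M` acting as scalars on `U` -/
def Zs (U : Submodule k V) (M : Subgroup G) : Subgroup G :=
  closure {m | m ∈ M ∧ Sca ρ U m}

end Rep

end MP0d06d9R
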