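import Mathlib

/-!
# MP_0d06d9_al, Rae's theorem: step E2 (combinatorics)

PROOF of `comb`. Otherwise every infinite `S ⊆ σ` contains a small finite set. For `p ∈ σ` there is
a maximal finite `μ p` with `p ∈ μ p ⊆ σ`, `¬ Sm (μ p)` (an infinite strictly increasing chain of
such sets would have an infinite union all of whose finite subsets are not small, by `mono`). So
`Sm (insert q (μ p))` for `q ∈ σ`, `q ∉ μ p`. Let `ω` be an ultrafilter on `ℕ` finer than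
`Filter.cofinite` with `σ ∈ ω` (`Filter.cofinite ⊓ 𝓟 σ` is not `⊥`), and
`E = {q ∈ σ | ∀ᶠ p in ω, q ∈ μ p}`. Every finite subset `ρ` of `E` is contained in some `μ p`
(finite intersection), so it is not small. So `E` is finite. For `q ∈ σ`, `q ∉ E`:
`∀ᶠ p in ω, q ∉ μ p`. Choose `p 0, p 1, ..` in `σ`, outside `E`, distinct, with `p i ∉ μ (p k)` for
`i < k` (`exists_seq_of_forall_finset_exists` or recursion; each condition holds for `ω`-almost all
candidates). `S = {p k}`, `τ` from `e1`, `k` larger than all `i` with `p i ∈ τ`: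
`Sm (insert p' (μ (p k)))` for all `p' ∈ τ`, so `Sm (insert (p k) (μ (p k)))`, but `p k ∈ μ (p k)`.
-/

set_option autoImplicit false

namespace MP0d06d9I

theorem comb {σ : Set ℕ} (hσ : σ.Infinite) (Sm : Finset ℕ → Prop)
    (mono : ∀ ρ ρ' : Finset ℕ, ρ ⊆ ρ' → Sm ρ → Sm ρ')
    (sing : ∀ p ∈ σ, ¬ Sm {p})
    (e1 : ∀ S : Set ℕ, S ⊆ σ → ∃ τ : Finset ℕ, (τ : Set ℕ) ⊆ S ∧
      ∀ ρ : Finset ℕ, (ρ : Set ℕ) ⊆ σ → (∀ p' ∈ τ, Sm (insert p' ρ)) →
        ∀ p ∈ S, Sm (insert p ρ)) :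
    ∃ S : Set ℕ, S ⊆ σ ∧ S.Infinite ∧ ∀ ρ : Finset ℕ, (ρ : Set ℕ) ⊆ S → ¬ Sm ρ := by
  classical
  by_contra hcon
  have H : ∀ S : Set ℕ, S ⊆ σ → S.Infinite → ∃ ρ : Finset ℕ, (ρ : Set ℕ) ⊆ S ∧ Sm ρ := by
    intro S hS hinf
    by_contra h
    push Not at h
    exact hcon ⟨S, hS, hinf, h⟩
  -- maximal sets
  have hmax : ∀ p : ℕ, ∃ μ : Finset ℕ, p ∈ σ → (p ∈ μ ∧ (μ : Set ℕ) ⊆ σ ∧ ¬ Sm μ ∧
      ∀ q ∈ σ, q ∉ μ → Sm (insert q μ)) := by
    intro p
    by_cases hp : p ∈ σ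
    · obtain ⟨m, hpm, hm⟩ := zorn_subset_nonempty
        {T : Set ℕ | T ⊆ σ ∧ ∀ ρ : Finset ℕ, (ρ : Set ℕ) ⊆ T → ¬ Sm ρ} (by
          intro c hc hchain hne
          refine ⟨⋃₀ c, ⟨Set.sUnion_subset fun T hT => (hc hT).1, ?_⟩,
            fun T hT => Set.subset_sUnion_of_mem hT⟩
          intro ρ hρ
          rw [Set.sUnion_eq_biUnion] at hρ
          obtain ⟨T, hT, hρT⟩ := DirectedOn.exists_mem_subset_of_finset_subset_biUnion
            hne hchain.directedOn hρ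
          exact (hc hT).2 ρ hρT) {p} ⟨Set.singleton_subset_iff.2 hp, by
            intro ρ hρ hS
            exact sing p hp (mono ρ {p} (by exact_mod_cast hρ) hS)⟩
      have hfin : m.Finite := by
        by_contra hinf
        obtain ⟨ρ, hρ, hS⟩ := H m hm.prop.1 hinf
        exact hm.prop.2 ρ hρ hS
      refine ⟨hfin.toFinset, fun _ => ⟨?_, ?_, ?_, ?_⟩⟩
      · rw [Set.Finite.mem_toFinset]
        exact hpm (Set.mem_singleton p)
      · rw [Set.Finite.coe_toFinset]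
        exact hm.prop.1
      · apply hm.prop.2
        rw [Set.Finite.coe_toFinset]
      · intro q hq hqm
        by_contra hns
        have h1 : insert q m ∈ {T : Set ℕ | T ⊆ σ ∧ ∀ ρ : Finset ℕ, (ρ : Set ℕ) ⊆ T → ¬ Sm ρ} := by
          refine ⟨Set.insert_subset_iff.2 ⟨hq, hm.prop.1⟩, ?_⟩
          intro ρ hρ hS
          apply hns
          refine mono ρ _ ?_ hS
          intro z hz
          rw [Finset.mem_insert, Set.Finite.mem_toFinset]
          exact hρ hz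
        have h2 := hm.le_of_ge h1 (Set.subset_insert q m)
        apply hqm
        rw [Set.Finite.mem_toFinset]
        exact h2 (Set.mem_insert q m)
    · exact ⟨∅, fun h => absurd h hp⟩
  choose μ hμ using hmax
  -- the ultrafilter
  have hne : (Filter.cofinite ⊓ Filter.principal σ).NeBot := hσ.cofinite_inf_principal_neBot
  obtain ⟨ω, hω⟩ : ∃ ω : Ultrafilter ℕ, (ω : Filter ℕ) ≤ Filter.cofinite ⊓ Filter.principal σ :=
    ⟨Ultrafilter.of _, Ultrafilter.of_le _⟩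
  have hωσ : ∀ᶠ p in (ω : Filter ℕ), p ∈ σ := by
    have h1 : (ω : Filter ℕ) ≤ Filter.principal σ := hω.trans inf_le_right
    exact h1 (Filter.mem_principal_self σ)
  have hωc : ∀ x : ℕ, ∀ᶠ p in (ω : Filter ℕ), x ≠ p := by
    intro x
    have h1 : (ω : Filter ℕ) ≤ Filter.cofinite := hω.trans inf_le_left
    apply h1
    rw [Filter.mem_cofinite]
    refine (Set.finite_singleton x).subset ?_
    intro z hz
    by_contra hzx
    exact hz (fun h => hzx h.symm)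
  obtain ⟨E, hE⟩ : ∃ E : Set ℕ, E = {q | q ∈ σ ∧ ∀ᶠ p in (ω : Filter ℕ), q ∈ μ p} := ⟨_, rfl⟩
  have hEns : ∀ ρ : Finset ℕ, (ρ : Set ℕ) ⊆ E → ¬ Sm ρ := by
    intro ρ hρ hS
    have h1 : ∀ᶠ p in (ω : Filter ℕ), ∀ q ∈ ρ, q ∈ μ p := by
      rw [Filter.eventually_all_finset]
      intro q hq
      have h2 := hρ hq
      rw [hE] at h2
      exact h2.2
    obtain ⟨p, hp1, hp2⟩ := (h1.and hωσ).exists
    exact (hμ p hp2).2.2.1 (mono ρ (μ p) hp1 hS)
  have hEf : ∃ x, x ∈ σ ∧ x ∉ E := by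
    by_contra h
    push Not at h
    obtain ⟨ρ, hρ, hS⟩ := H σ le_rfl hσ
    exact hEns ρ (fun z hz => h z (hρ hz)) hS
  have hEfin : E.Finite := by
    by_contra hinf
    obtain ⟨ρ, hρ, hS⟩ := H E (by rw [hE]; exact fun z hz => hz.1) hinf
    exact hEns ρ hρ hS
  have hωE : ∀ᶠ p in (ω : Filter ℕ), p ∉ E := by
    have h1 : (ω : Filter ℕ) ≤ Filter.cofinite := hω.trans inf_le_left
    apply h1
    rw [Filter.mem_cofinite]
    refine hEfin.subset ?_
    intro z hz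
    by_contra hzx
    exact hz hzx
  obtain ⟨f, hf1, hf2⟩ := exists_seq_of_forall_finset_exists
    (fun x => x ∈ σ ∧ x ∉ E) (fun x y => x ≠ y ∧ x ∉ μ y) (by
      intro s hs
      have h1 : ∀ᶠ y in (ω : Filter ℕ), ∀ x ∈ s, x ≠ y ∧ x ∉ μ y := by
        rw [Filter.eventually_all_finset]
        intro x hx
        refine (hωc x).and ?_
        have h2 : ¬ ∀ᶠ p in (ω : Filter ℕ), x ∈ μ p := by
          intro h3
          apply (hs x hx).2
          rw [hE]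
          exact ⟨(hs x hx).1, h3⟩
        exact Ultrafilter.eventually_not.2 h2
      obtain ⟨y, ⟨hy1, hy2⟩, hy3⟩ := ((h1.and hωσ).and hωE).exists
      exact ⟨y, ⟨hy2, hy3⟩, hy1⟩)
  obtain ⟨τ, hτ, hτ2⟩ := e1 (Set.range f) (by
    rintro _ ⟨n, rfl⟩
    exact (hf1 n).1)
  obtain ⟨k, hk⟩ : ∃ k : ℕ, ∀ p ∈ τ, ∃ i, i < k ∧ f i = p := by
    have h1 : ∀ p : ℕ, ∃ i, p ∈ τ → f i = p := by
      intro p
      by_cases hp : p ∈ τ
      · obtain ⟨i, hi⟩ := hτ hp
        exact ⟨i, fun _ => hi⟩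
      · exact ⟨0, fun h => absurd h hp⟩
    choose g hg using h1
    refine ⟨τ.sup g + 1, ?_⟩
    intro p hp
    exact ⟨g p, Nat.lt_succ_of_le (Finset.le_sup hp), hg p hp⟩
  have hfk := hμ (f k) (hf1 k).1
  have h1 := hτ2 (μ (f k)) hfk.2.1 (by
    intro p' hp'
    obtain ⟨i, hik, rfl⟩ := hk p' hp'
    exact hfk.2.2.2 (f i) (hf1 i).1 (hf2 i k hik).2) (f k) ⟨k, rfl⟩
  rw [Finset.insert_eq_of_mem hfk.1] at h1
  exact hfk.2.2.1 h1

end MP0d06d9I
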