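import Pool.Agent.Lib.MP_0d06d9_alR.Defs
import Pool.Agent.Lib.MP_0d06d9_al.CLb

/-!
# GRP: the lower series
-/

set_option autoImplicit false

namespace MP0d06d9R

open Subgroup commutatorElement

variable {G : Type*} [Group G]

theorem D_zero (T : Subgroup G) : D 0 T = T := rfl

theorem D_succ (c : ℕ) (T : Subgroup G) : D (c + 1) T = ⁅D c T, T⁆ := by
  unfold D
  rw [Function.iterate_succ_apply']

theorem D_mono {S T : Subgroup G} (h : S ≤ T) (c : ℕ) : D c S ≤ D c T := by
  induction c with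
  | zero => exact h
  | succ c ih =>
    rw [D_succ, D_succ]
    exact commutator_mono ih h

theorem D_step (c : ℕ) (T : Subgroup G) : D (c + 1) T ≤ D c T := by
  induction c with
  | zero =>
    rw [D_succ, D_zero, commutator_le]
    intro a ha b hb
    rw [commutatorElement_def]
    exact T.mul_mem (T.mul_mem (T.mul_mem ha hb) (T.inv_mem ha)) (T.inv_mem hb)
  | succ c ih =>
    rw [D_succ (c + 1), D_succ c]
    exact commutator_mono (by rw [← D_succ]; exact ih) le_rfl

theorem D_anti {c d : ℕ} (h : c ≤ d) (T : Subgroup G) : D d T ≤ D c T := by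
  induction d, h using Nat.le_induction with
  | base => exact le_rfl
  | succ d _ ih => exact (D_step d T).trans ih

theorem D_le (c : ℕ) (T : Subgroup G) : D c T ≤ T := D_anti (Nat.zero_le c) T

theorem D_map {G' : Type*} [Group G'] (f : G →* G') (c : ℕ) (T : Subgroup G) :
    (D c T).map f = D c (T.map f) := by
  induction c with
  | zero => rfl
  | succ c ih => rw [D_succ, D_succ, map_commutator, ih]

theorem D_iter_map {G' : Type*} [Group G'] (f : G →* G') (c n : ℕ) (T : Subgroup G) :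
    ((D c)^[n] T).map f = (D c)^[n] (T.map f) := by
  induction n with
  | zero => rfl
  | succ n ih => rw [Function.iterate_succ_apply', Function.iterate_succ_apply', D_map, ih]

theorem mem_normalizer_iff_map {x : G} {T : Subgroup G} :
    x ∈ normalizer (T : Set G) ↔ T.map (MulAut.conj x).toMonoidHom = T :=
  (MP0d06d9.cj_eq_iff (x := x) (M := T)).symm

/-- every element normalising `T` normalises the iterated terms -/
theorem D_normalizer (c n : ℕ) (T : Subgroup G) :
    normalizer (T : Set G) ≤ normalizer (((D c)^[n] T : Subgroup G) : Set G) := by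
  intro x hx
  rw [mem_normalizer_iff_map] at hx ⊢
  rw [D_iter_map, hx]

theorem D_iter_mono {c d : ℕ} (hcd : d ≤ c) {S T : Subgroup G} (h : S ≤ T) (n : ℕ) :
    (D c)^[n] S ≤ (D d)^[n] T := by
  induction n with
  | zero => exact h
  | succ n ih =>
    rw [Function.iterate_succ_apply', Function.iterate_succ_apply']
    exact (D_anti hcd _).trans (D_mono ih d)

theorem D_iter_le (c n : ℕ) (T : Subgroup G) : (D c)^[n] T ≤ T := by
  induction n with
  | zero => exact le_rfl
  | succ n ih =>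
    rw [Function.iterate_succ_apply']
    exact (D_le c _).trans ih

theorem HtR.mono {n : ℕ} {N N' T T' : Subgroup G} (h : HtR n N T) (hN : N ≤ N') (hT : T' ≤ T) :
    HtR n N' T' := by
  obtain ⟨c, hc⟩ := h
  exact ⟨c, (D_iter_mono le_rfl hT n).trans (hc.trans hN)⟩

theorem HtR.trans {a b : ℕ} {N M T : Subgroup G} (h1 : HtR a N M) (h2 : HtR b M T) :
    HtR (a + b) N T := by
  obtain ⟨c, hc⟩ := h1
  obtain ⟨d, hd⟩ := h2
  refine ⟨max c d, ?_⟩
  rw [Function.iterate_add_apply]
  refine le_trans ?_ hc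
  exact D_iter_mono (le_max_left c d) ((D_iter_mono (le_max_right c d) le_rfl b).trans hd) a

theorem HtR.mono_n {a b : ℕ} (hab : a ≤ b) {N T : Subgroup G} (h : HtR a N T) : HtR b N T := by
  obtain ⟨c, hc⟩ := h
  refine ⟨c, ?_⟩
  obtain ⟨k, rfl⟩ := Nat.exists_eq_add_of_le hab
  rw [Nat.add_comm, Function.iterate_add_apply]
  exact (D_iter_le c k _).trans hc

theorem HtR.inf {n : ℕ} {N N' T : Subgroup G} (h : HtR n N T) (h' : HtR n N' T) :
    HtR n (N ⊓ N') T := by
  obtain ⟨c, hc⟩ := h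
  obtain ⟨d, hd⟩ := h'
  exact ⟨max c d, le_inf ((D_iter_mono (le_max_left c d) le_rfl n).trans hc)
    ((D_iter_mono (le_max_right c d) le_rfl n).trans hd)⟩

theorem D_iter_sup (c n : ℕ) (T N : Subgroup G) [N.Normal] :
    (D c)^[n] (T ⊔ N) ≤ (D c)^[n] T ⊔ N := by
  have h1 : ((D c)^[n] (T ⊔ N)).map (QuotientGroup.mk' N) =
      ((D c)^[n] T).map (QuotientGroup.mk' N) := by
    rw [D_iter_map, D_iter_map, Subgroup.map_sup]
    congr 1
    rw [(Subgroup.map_eq_bot_iff N).2 (by rw [QuotientGroup.ker_mk']), sup_bot_eq]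
  have h2 := Subgroup.le_comap_map (QuotientGroup.mk' N) ((D c)^[n] (T ⊔ N))
  rw [h1, Subgroup.comap_map_eq, QuotientGroup.ker_mk'] at h2
  exact h2

theorem HtR.sup {n : ℕ} {N P T : Subgroup G} [N.Normal] (hNP : N ≤ P)
    (h : HtR n P T) : HtR n P (T ⊔ N) := by
  obtain ⟨c, hc⟩ := h
  exact ⟨c, (D_iter_sup c n T N).trans (sup_le hc hNP)⟩

theorem mem_Cs {W₁ W₂ L : Subgroup G} (h12 : W₁ ≤ normalizer (W₂ : Set G))
    (hL1 : L ≤ normalizer (W₁ : Set G)) (hL2 : L ≤ normalizer (W₂ : Set G)) {w : G} :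
    w ∈ Cs W₁ W₂ L ↔ w ∈ W₁ ∧ ∀ l ∈ L, ⁅w, l⁆ ∈ W₂ := by
  constructor
  · intro h
    unfold Cs at h
    induction h using closure_induction with
    | mem x hx => exact hx
    | one => exact ⟨W₁.one_mem, fun l _ => by rw [commutatorElement_one_left]; exact W₂.one_mem⟩
    | mul x y _ _ hx hy =>
      refine ⟨W₁.mul_mem hx.1 hy.1, fun l hl => ?_⟩
      have e : ⁅x * y, l⁆ = x * ⁅y, l⁆ * x⁻¹ * ⁅x, l⁆ := by
        simp only [commutatorElement_def]
        group
      rw [e]
      exact W₂.mul_mem ((mem_normalizer_iff.1 (h12 hx.1) _).1 (hy.2 l hl)) (hx.2 l hl)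
    | inv x _ hx =>
      refine ⟨W₁.inv_mem hx.1, fun l hl => ?_⟩
      have e : ⁅x⁻¹, l⁆ = x⁻¹ * ⁅x, l⁆⁻¹ * x⁻¹⁻¹ := by
        simp only [commutatorElement_def]
        group
      rw [e]
      exact (mem_normalizer_iff.1 (h12 (W₁.inv_mem hx.1)) _).1 (W₂.inv_mem (hx.2 l hl))
  · intro h
    exact subset_closure h

end MP0d06d9R
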