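import Pool.Agent.Lib.MP_0d06d9_al.Defs

/-!
# MP_0d06d9_al, Rae's theorem: infinite abelian subgroups

Theorem (Hall and Kulatilaka for locally soluble groups) with an elementary proof: an infinite
locally finite group all of whose finite subgroups are soluble has an infinite abelian subgroup.
-/

set_option autoImplicit false

namespace MP0d06d9R

open Subgroup MP0d06d9 commutatorElement

/-! ## a Frobenius type argument -/

section Frob

variable {B V : Type*} [Group B] [CommGroup V] [MulDistribMulAction B V]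

theorem norm_fix (N : Subgroup B) [Fintype N] (n : B) (hn : n ∈ N) (v : V) :
    n • (∏ b : N, (b : B) • v) = ∏ b : N, (b : B) • v := by
  rw [Finset.smul_prod']
  refine Fintype.prod_equiv (Equiv.mulLeft (⟨n, hn⟩ : N)) _ _ ?_
  intro b
  show n • (b : B) • v = (n * (b : B)) • v
  rw [mul_smul]

theorem cyc_fix (y : B) (p : ℕ) (hy : y ^ p = 1) (v : V) :
    y • (∏ i ∈ Finset.range p, (y ^ i) • v) = ∏ i ∈ Finset.range p, (y ^ i) • v := by
  have h1 := Finset.prod_range_succ (fun i => (y ^ i) • v) p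
  have h2 := Finset.prod_range_succ' (fun i => (y ^ i) • v) p
  rw [h1] at h2
  simp only [hy, one_smul, pow_zero] at h2
  have h3 := mul_right_cancel h2
  rw [Finset.smul_prod', h3]
  refine Finset.prod_congr rfl ?_
  intro i _
  rw [← mul_smul, ← pow_succ']

/-- If `M` is a nontrivial finite subgroup normalised by the element `x` of prime order `p`, no
nontrivial element of `M` commutes with `x`, and all nontrivial elements of `B` act without fixed
points on the finite abelian group `V`, then `V` is trivial. -/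
theorem frob [Finite V] (M : Subgroup B) [Finite M] (hM : M ≠ ⊥) (x : B) (p : ℕ)
    (hp : p.Prime) (hx : orderOf x = p) (hn : ∀ m ∈ M, x * m * x⁻¹ ∈ M)
    (hc : ∀ m ∈ M, x * m = m * x → m = 1)
    (hf : ∀ b : B, b ≠ 1 → ∀ v : V, b • v = v → v = 1) : ∀ v : V, v = 1 := by
  classical
  have : Fintype M := Fintype.ofFinite M
  have hxp : x ^ p = 1 := by rw [← hx]; exact pow_orderOf_eq_one x
  have hx1 : x ≠ 1 := by
    intro h
    rw [h, orderOf_one] at hx
    exact hp.one_lt.ne hx
  obtain ⟨m₀, hm₀, hm₀1⟩ : ∃ m ∈ M, m ≠ 1 := by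
    by_contra hcon
    push Not at hcon
    exact hM ((Subgroup.eq_bot_iff_forall M).2 hcon)
  -- the norm of `M` is trivial
  have hNM : ∀ v : V, (∏ b : M, (b : B) • v) = 1 := by
    intro v
    exact hf m₀ hm₀1 _ (norm_fix M m₀ hm₀ v)
  -- conjugates of `x`
  have hy : ∀ (g : M) (v : V),
      (∏ i ∈ Finset.range p, (((g : B)⁻¹ * x * (g : B)) ^ i) • v) = 1 := by
    intro g v
    refine hf ((g : B)⁻¹ * x * (g : B)) ?_ _ (cyc_fix _ p ?_ v)
    · intro h
      apply hx1
      have : x = (g : B) * ((g : B)⁻¹ * x * (g : B)) * (g : B)⁻¹ := by group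
      rw [this, h]
      group
    · have h1 : ((g : B)⁻¹ * x * (g : B)) ^ p = (g : B)⁻¹ * x ^ p * (g : B) := by
        have := conj_pow (i := p) (a := (g : B)⁻¹) (b := x)
        rw [inv_inv] at this
        exact this
      rw [h1, hxp]
      group
  have hnp : ∀ (i : ℕ), ∀ m ∈ M, x ^ i * m * (x ^ i)⁻¹ ∈ M := by
    intro i
    induction i with
    | zero => intro m hm; simpa using hm
    | succ i ih =>
      intro m hm
      have h1 := hn _ (ih m hm)
      have h2 : x * (x ^ i * m * (x ^ i)⁻¹) * x⁻¹ = x ^ (i + 1) * m * (x ^ (i + 1))⁻¹ := by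
        rw [pow_succ']
        group
      rwa [h2] at h1
  -- elements commuting with a power of `x`
  have hcp : ∀ i : ℕ, 0 < i → i < p → ∀ m ∈ M, x ^ i * m = m * x ^ i → m = 1 := by
    intro i hi0 hip m hm h
    apply hc m hm
    have hco : Nat.Coprime i p := by
      rw [Nat.coprime_comm, hp.coprime_iff_not_dvd]
      exact Nat.not_dvd_of_pos_of_lt hi0 hip
    have hcm : Commute (x ^ i) m := h
    obtain ⟨j, hj⟩ : ∃ j : ℕ, (x ^ i) ^ j = x := by
      obtain ⟨j, -, hj⟩ := Nat.exists_mul_mod_eq_one_of_coprime hco hp.one_lt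
      refine ⟨j, ?_⟩
      rw [← pow_mul, ← pow_mod_orderOf, hx, hj, pow_one]
    have := hcm.pow_left j
    rw [hj] at this
    exact this
  have hkey : ∀ i : ℕ, 0 < i → i < p → ∀ v : V,
      (∏ g : M, (((g : B)⁻¹ * x * (g : B)) ^ i) • v) = 1 := by
    intro i hi0 hip v
    have hmem : ∀ g : M, (g : B)⁻¹ * (x ^ i * (g : B) * (x ^ i)⁻¹) ∈ M := by
      intro g
      exact M.mul_mem (M.inv_mem g.2) (hnp i _ g.2)
    let f : M → M := fun g => ⟨(g : B)⁻¹ * (x ^ i * (g : B) * (x ^ i)⁻¹), hmem g⟩
    have hinj : Function.Injective f := by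
      intro g h hgh
      have h1 : (g : B)⁻¹ * (x ^ i * (g : B) * (x ^ i)⁻¹) =
          (h : B)⁻¹ * (x ^ i * (h : B) * (x ^ i)⁻¹) := congrArg Subtype.val hgh
      have h2 : x ^ i * ((g : B) * (h : B)⁻¹) = ((g : B) * (h : B)⁻¹) * x ^ i := by
        have h3 : (g : B)⁻¹ * x ^ i * (g : B) = (h : B)⁻¹ * x ^ i * (h : B) := by
          have h4 : (g : B)⁻¹ * x ^ i * (g : B) =
              ((g : B)⁻¹ * (x ^ i * (g : B) * (x ^ i)⁻¹)) * x ^ i := by group
          rw [h4, h1]
          group
        have h5 : x ^ i * ((g : B) * (h : B)⁻¹) =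
            (g : B) * ((g : B)⁻¹ * x ^ i * (g : B)) * (h : B)⁻¹ := by group
        rw [h5, h3]
        group
      have h3 := hcp i hi0 hip _ (M.mul_mem g.2 (M.inv_mem h.2)) h2
      apply Subtype.ext
      exact mul_inv_eq_one.1 h3
    have hbij : Function.Bijective f := (Finite.injective_iff_bijective).1 hinj
    have h1 := Function.Bijective.prod_comp hbij (fun g : M => (g : B) • (x ^ i) • v)
    rw [hNM] at h1
    rw [← h1]
    refine Finset.prod_congr rfl ?_
    intro g _
    show _ = ((g : B)⁻¹ * (x ^ i * (g : B) * (x ^ i)⁻¹)) • (x ^ i) • v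
    rw [← mul_smul]
    have h4 : ((g : B)⁻¹ * x * (g : B)) ^ i = (g : B)⁻¹ * x ^ i * (g : B) := by
      have := conj_pow (i := i) (a := (g : B)⁻¹) (b := x)
      rw [inv_inv] at this
      exact this
    rw [h4]
    have h5 : (g : B)⁻¹ * (x ^ i * (g : B) * (x ^ i)⁻¹) * x ^ i = (g : B)⁻¹ * x ^ i * (g : B) := by
      group
    rw [h5]
  have hexp : ∀ v : V, v ^ (Fintype.card M) = 1 := by
    intro v
    have h1 : (∏ g : M, ∏ i ∈ Finset.range p, (((g : B)⁻¹ * x * (g : B)) ^ i) • v) = 1 :=
      Finset.prod_eq_one fun g _ => hy g v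
    rw [Finset.prod_comm] at h1
    obtain ⟨k, hk⟩ : ∃ k, p = k + 1 := ⟨p - 1, by have := hp.pos; omega⟩
    rw [hk, Finset.prod_range_succ'] at h1
    have h2 : (∏ i ∈ Finset.range k, ∏ g : M, (((g : B)⁻¹ * x * (g : B)) ^ (i + 1)) • v) = 1 := by
      refine Finset.prod_eq_one ?_
      intro i hi
      rw [Finset.mem_range] at hi
      exact hkey (i + 1) (by omega) (by omega) v
    rw [h2, one_mul] at h1
    simpa using h1
  intro v
  by_contra hv
  have : Fintype V := Fintype.ofFinite V
  have ho : orderOf v ≠ 1 := fun h => hv (orderOf_eq_one_iff.1 h)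
  obtain ⟨q, hq, hqv⟩ := Nat.exists_prime_and_dvd ho
  have : Fact q.Prime := ⟨hq⟩
  have hqM : q ∣ Nat.card M := by
    rw [Nat.card_eq_fintype_card]
    exact hqv.trans (orderOf_dvd_of_pow_eq_one (hexp v))
  obtain ⟨b, hb⟩ := exists_prime_orderOf_dvd_card' q hqM
  have hbq : IsPGroup q (zpowers (b : B)) := by
    apply IsPGroup.of_card (n := 1)
    rw [Nat.card_zpowers, pow_one, ← hb, Subgroup.orderOf_coe]
  have hqV : q ∣ Nat.card V := hqv.trans (orderOf_dvd_natCard v)
  obtain ⟨w, hw, hw1⟩ := hbq.exists_fixed_point_of_prime_dvd_card_of_fixed_point V hqV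
    (a := (1 : V)) (fun g => smul_one g)
  have hb1 : (b : B) ≠ 1 := by
    intro h
    have : orderOf (b : B) = 1 := by rw [h, orderOf_one]
    rw [Subgroup.orderOf_coe, hb] at this
    exact hq.one_lt.ne' this
  exact hw1 (hf (b : B) hb1 w (hw ⟨(b : B), mem_zpowers _⟩)).symm

end Frob

/-! ## the class size bound -/

section Bound

variable {Q : Type*} [Group Q]

/-- if `y` lies in an abelian normal subgroup `M` of the finite group `E` then `|E| ≤ |C(y)| ^ 2` -/
theorem card_le_sq (E M : Subgroup Q) [Finite E] (hME : M ≤ E)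
    (hMn : ∀ e ∈ E, ∀ m ∈ M, e * m * e⁻¹ ∈ M) (hMc : ∀ a ∈ M, ∀ b ∈ M, a * b = b * a)
    (y : Q) (hy : y ∈ M) (hf : Finite (centralizer ({y} : Set Q))) :
    Nat.card E ≤ Nat.card (centralizer ({y} : Set Q)) ^ 2 := by
  classical
  have hMf : Finite M := Finite.of_injective (Subgroup.inclusion hME) (inclusion_injective hME)
  have hex : ∀ m : Q, ∃ s : Q, (∃ e ∈ E, e * y * e⁻¹ = m) → (s ∈ E ∧ s * y * s⁻¹ = m) := by
    intro m
    by_cases h : ∃ e ∈ E, e * y * e⁻¹ = m
    · obtain ⟨e, he, h⟩ := h
      exact ⟨e, fun _ => ⟨he, h⟩⟩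
    · exact ⟨1, fun h' => absurd h' h⟩
  choose s hs using hex
  have hs' : ∀ e : E, s ((e : Q) * y * (e : Q)⁻¹) ∈ E ∧
      s ((e : Q) * y * (e : Q)⁻¹) * y * (s ((e : Q) * y * (e : Q)⁻¹))⁻¹ =
        (e : Q) * y * (e : Q)⁻¹ := fun e => hs _ ⟨e, e.2, rfl⟩
  have hc : ∀ e : E, (s ((e : Q) * y * (e : Q)⁻¹))⁻¹ * (e : Q) ∈ centralizer ({y} : Set Q) := by
    intro e
    rw [mem_centralizer_singleton_iff]
    have h := (hs' e).2
    generalize s ((e : Q) * y * (e : Q)⁻¹) = t at h
    have h1 : t⁻¹ * (e : Q) * y = t⁻¹ * ((e : Q) * y * (e : Q)⁻¹) * (e : Q) := by group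
    rw [h1, ← h]
    group
  let f : E → M × centralizer ({y} : Set Q) := fun e =>
    (⟨(e : Q) * y * (e : Q)⁻¹, hMn _ e.2 _ hy⟩, ⟨_, hc e⟩)
  have hinj : Function.Injective f := by
    intro a b hab
    have h1 : (a : Q) * y * (a : Q)⁻¹ = (b : Q) * y * (b : Q)⁻¹ :=
      congrArg (fun z => (z.1 : Q)) hab
    have h2 : (s ((a : Q) * y * (a : Q)⁻¹))⁻¹ * (a : Q) =
        (s ((b : Q) * y * (b : Q)⁻¹))⁻¹ * (b : Q) := congrArg (fun z => (z.2 : Q)) hab
    rw [h1] at h2
    exact Subtype.ext (mul_left_cancel h2)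
  have h1 := Nat.card_le_card_of_injective f hinj
  rw [Nat.card_prod] at h1
  have h2 : M ≤ centralizer ({y} : Set Q) := by
    intro m hm
    rw [mem_centralizer_singleton_iff]
    exact hMc m hm y hy
  have h3 : Nat.card M ≤ Nat.card (centralizer ({y} : Set Q)) :=
    Nat.card_le_card_of_injective (Subgroup.inclusion h2) (inclusion_injective h2)
  calc Nat.card E ≤ Nat.card M * Nat.card (centralizer ({y} : Set Q)) := h1
    _ ≤ Nat.card (centralizer ({y} : Set Q)) * Nat.card (centralizer ({y} : Set Q)) :=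
        Nat.mul_le_mul_right _ h3
    _ = _ := (sq _).symm

/-- a nontrivial soluble group has a nontrivial abelian normal subgroup -/
theorem exists_abn (E : Subgroup Q) (hs : Group.IsSolvable E) (hE : E ≠ ⊥) :
    ∃ M : Subgroup Q, M ≤ E ∧ M ≠ ⊥ ∧ (∀ e ∈ E, ∀ m ∈ M, e * m * e⁻¹ ∈ M) ∧
      ∀ a ∈ M, ∀ b ∈ M, a * b = b * a := by
  classical
  have hex : ∃ n : ℕ, derivedSeries E n = ⊥ := hs.solvable
  have hne : Nat.find hex ≠ 0 := by
    intro h
    have h1 := Nat.find_spec hex
    rw [h, derivedSeries_zero] at h1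
    apply hE
    rw [Subgroup.eq_bot_iff_forall]
    intro x hx
    have h2 : (⟨x, hx⟩ : E) ∈ (⊤ : Subgroup E) := mem_top _
    rw [h1, mem_bot] at h2
    exact congrArg Subtype.val h2
  obtain ⟨n, hn⟩ := Nat.exists_eq_succ_of_ne_zero hne
  have h1 : derivedSeries E n ≠ ⊥ := Nat.find_min hex (by omega)
  have h2 : derivedSeries E (n + 1) = ⊥ := by
    have := Nat.find_spec hex
    rwa [hn] at this
  refine ⟨(derivedSeries E n).map E.subtype, ?_, ?_, ?_, ?_⟩
  · rintro x ⟨y, -, rfl⟩
    exact y.2
  · intro h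
    apply h1
    rw [Subgroup.eq_bot_iff_forall]
    intro x hx
    have h3 : (x : Q) ∈ (derivedSeries E n).map E.subtype := ⟨x, hx, rfl⟩
    rw [h, mem_bot] at h3
    exact Subtype.ext h3
  · rintro e he _ ⟨m, hm, rfl⟩
    have hnor : (derivedSeries E n).Normal := inferInstance
    exact ⟨⟨e, he⟩ * m * ⟨e, he⟩⁻¹, hnor.conj_mem m hm ⟨e, he⟩, rfl⟩
  · rintro _ ⟨a, ha, rfl⟩ _ ⟨b, hb, rfl⟩
    have h3 : ⁅a, b⁆ ∈ derivedSeries E (n + 1) := by
      rw [derivedSeries_succ]
      exact commutator_mem_commutator ha hb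
    rw [h2, mem_bot, commutatorElement_eq_one_iff_mul_comm] at h3
    exact congrArg Subtype.val h3

/-- the conjugation action of `E` on a normal subgroup `M` -/
@[reducible] def conjAct (E M : Subgroup Q) (hMc : ∀ a ∈ M, ∀ b ∈ M, a * b = b * a)
    (hMn : ∀ e ∈ E, ∀ m ∈ M, e * m * e⁻¹ ∈ M) :
    letI : CommGroup M := { (inferInstance : Group M) with
      mul_comm := fun a b => Subtype.ext (hMc a a.2 b b.2) }
    MulDistribMulAction E M :=
  letI : CommGroup M := { (inferInstance : Group M) with
    mul_comm := fun a b => Subtype.ext (hMc a a.2 b b.2) }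
  { smul := fun e m => ⟨(e : Q) * m * (e : Q)⁻¹, hMn e e.2 m m.2⟩
    one_smul := by
      intro m
      apply Subtype.ext
      show ((1 : E) : Q) * m * ((1 : E) : Q)⁻¹ = m
      simp
    mul_smul := by
      intro a b m
      apply Subtype.ext
      show ((a * b : E) : Q) * m * ((a * b : E) : Q)⁻¹ =
        (a : Q) * ((b : Q) * m * (b : Q)⁻¹) * (a : Q)⁻¹
      rw [Subgroup.coe_mul]
      group
    smul_mul := by
      intro a m m'
      apply Subtype.ext
      show (a : Q) * ((m : Q) * (m' : Q)) * (a : Q)⁻¹ =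
        ((a : Q) * m * (a : Q)⁻¹) * ((a : Q) * m' * (a : Q)⁻¹)
      group
    smul_one := by
      intro a
      apply Subtype.ext
      show (a : Q) * (1 : Q) * (a : Q)⁻¹ = 1
      group }

/-- `frob` for a nontrivial abelian normal subgroup -/
theorem frob' (E M : Subgroup Q) [Finite M] (hM : M ≠ ⊥)
    (hMc : ∀ a ∈ M, ∀ b ∈ M, a * b = b * a) (hMn : ∀ e ∈ E, ∀ m ∈ M, e * m * e⁻¹ ∈ M)
    (N : Subgroup Q) (hN : N ≤ E) [Finite N] (hN1 : N ≠ ⊥) (x : Q) (hxE : x ∈ E) (p : ℕ)
    (hp : p.Prime) (hx : orderOf x = p) (hn : ∀ m ∈ N, x * m * x⁻¹ ∈ N)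
    (hc : ∀ m ∈ N, x * m = m * x → m = 1)
    (hf : ∀ b ∈ E, b ≠ 1 → ∀ v ∈ M, b * v = v * b → v = 1) : False := by
  let _ : CommGroup M := { (inferInstance : Group M) with
    mul_comm := fun a b => Subtype.ext (hMc a a.2 b b.2) }
  let _ : MulDistribMulAction E M := conjAct E M hMc hMn
  have hNf : Finite (N.subgroupOf E) :=
    Finite.of_injective (fun z : N.subgroupOf E => (⟨(z : E), z.2⟩ : N)) (by
      intro a b hab
      exact Subtype.ext (Subtype.ext (congrArg (fun z : N => (z : Q)) hab)))
  have h1 := frob (V := M) (N.subgroupOf E) ?_ ⟨x, hxE⟩ p hp ?_ ?_ ?_ ?_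
  · apply hM
    rw [Subgroup.eq_bot_iff_forall]
    intro v hv
    exact congrArg Subtype.val (h1 ⟨v, hv⟩)
  · intro h
    apply hN1
    rw [Subgroup.eq_bot_iff_forall]
    intro v hv
    have h2 : (⟨v, hN hv⟩ : E) ∈ N.subgroupOf E := hv
    rw [h, mem_bot] at h2
    exact congrArg Subtype.val h2
  · rw [← hx, ← Subgroup.orderOf_coe]
  · intro m hm
    exact hn m hm
  · intro m hm h
    exact Subtype.ext (hc m hm (congrArg Subtype.val h))
  · intro b hb v h
    have h2 : (b : Q) * (v : Q) * (b : Q)⁻¹ = v := congrArg Subtype.val h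
    apply Subtype.ext
    refine hf b b.2 ?_ v v.2 ?_
    · intro h3
      exact hb (Subtype.ext h3)
    · have h3 := congrArg (fun z => z * (b : Q)) h2
      simpa [mul_assoc] using h3

end Bound

/-! ## infinite groups -/

section Inf

variable {Q : Type*} [Group Q]

theorem finite_of_le {A B : Subgroup Q} (h : A ≤ B) (hB : Finite B) : Finite A :=
  Finite.of_injective (Subgroup.inclusion h) (inclusion_injective h)

theorem orderOf_pos_lf (lf : LocFin Q) (x : Q) : 0 < orderOf x := by
  have h : Finite (closure (({x} : Finset Q) : Set Q)) := lf {x}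
  have hx : x ∈ closure (({x} : Finset Q) : Set Q) := subset_closure (by simp)
  have h1 := orderOf_pos (⟨x, hx⟩ : closure (({x} : Finset Q) : Set Q))
  rwa [← Subgroup.orderOf_coe] at h1

theorem le_sum_univ {α : Type*} [Fintype α] (f : α → ℕ) (a : α) : f a ≤ ∑ x, f x :=
  Finset.single_le_sum (fun _ _ => Nat.zero_le _) (Finset.mem_univ a)

/-- large finite subgroups containing a given finite set -/
theorem exists_large [Infinite Q] (lf : LocFin Q) (S : Finset Q) (n : ℕ) :
    ∃ T : Finset Q, S ⊆ T ∧ n < Nat.card (closure (T : Set Q)) := by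
  obtain ⟨T, hST, hT⟩ := Infinite.exists_superset_card_eq S (S.card + n + 1) (by omega)
  refine ⟨T, hST, ?_⟩
  have hf : Finite (closure (T : Set Q)) := lf T
  have h1 : Nat.card T ≤ Nat.card (closure (T : Set Q)) :=
    Nat.card_le_card_of_injective
      (fun z : T => (⟨z, subset_closure z.2⟩ : closure (T : Set Q))) (by
        intro a b hab
        exact Subtype.ext (congrArg (fun z : closure (T : Set Q) => (z : Q)) hab))
  have h2 : Nat.card T = T.card := by simp
  omega

/-- no infinite locally finite and locally soluble group has only finite centralisers of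
nontrivial elements -/
theorem no_finite_cent [Infinite Q] (lf : LocFin Q)
    (ls : ∀ S : Finset Q, Group.IsSolvable (closure (S : Set Q)))
    (hc : ∀ x : Q, x ≠ 1 → Finite (centralizer ({x} : Set Q))) : False := by
  classical
  -- an element of prime order
  obtain ⟨x₀, hx₀⟩ := exists_ne (1 : Q)
  have ho : orderOf x₀ ≠ 1 := fun h => hx₀ (orderOf_eq_one_iff.1 h)
  obtain ⟨p, hp, hpx⟩ := Nat.exists_prime_and_dvd ho
  obtain ⟨x, hx⟩ : ∃ x : Q, orderOf x = p := by
    refine ⟨x₀ ^ (orderOf x₀ / p), ?_⟩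
    exact orderOf_pow_orderOf_div (orderOf_pos_lf lf x₀).ne' hpx
  have hx1 : x ≠ 1 := by
    intro h
    rw [h, orderOf_one] at hx
    exact hp.one_lt.ne hx
  -- the bound
  have hN : ∀ z : Q, ∃ n : ℕ, z ≠ 1 → ∀ E : Subgroup Q, Finite E → n < Nat.card E →
      ∀ M : Subgroup Q, M ≤ E → (∀ e ∈ E, ∀ m ∈ M, e * m * e⁻¹ ∈ M) →
      (∀ a ∈ M, ∀ b ∈ M, a * b = b * a) → ∀ m ∈ M, z * m = m * z → m = 1 := by
    intro z
    by_cases hz : z = 1
    · exact ⟨0, fun h => absurd hz h⟩
    have hcz := hc z hz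
    have : Fintype (centralizer ({z} : Set Q)) := Fintype.ofFinite _
    refine ⟨∑ y : centralizer ({z} : Set Q), Nat.card (centralizer ({(y : Q)} : Set Q)) ^ 2, ?_⟩
    intro _ E hE hcard M hME hMn hMc m hm hzm
    by_contra hm1
    have hmc : m ∈ centralizer ({z} : Set Q) := by
      rw [mem_centralizer_singleton_iff]
      exact hzm.symm
    have h1 := card_le_sq E M hME hMn hMc m hm (hc m hm1)
    have h2 := le_sum_univ (fun y : centralizer ({z} : Set Q) =>
      Nat.card (centralizer ({(y : Q)} : Set Q)) ^ 2) ⟨m, hmc⟩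
    exact absurd hcard (not_lt.2 (h1.trans h2))
  choose N hN using hN
  -- the first group
  obtain ⟨T₁, hT₁, hc₁⟩ := exists_large lf {x} (N x)
  have hE₁ : Finite (closure (T₁ : Set Q)) := lf T₁
  have hxE₁ : x ∈ closure (T₁ : Set Q) := subset_closure (hT₁ (by simp))
  have hE₁b : closure (T₁ : Set Q) ≠ ⊥ := by
    intro h
    rw [h, mem_bot] at hxE₁
    exact hx1 hxE₁
  obtain ⟨M₁, hM₁E, hM₁b, hM₁n, hM₁c⟩ := exists_abn _ (ls T₁) hE₁b
  have hM₁f : Finite M₁ := finite_of_le hM₁E hE₁
  have hM₁x := hN x hx1 _ hE₁ hc₁ M₁ hM₁E hM₁n hM₁c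
  -- the second group
  have : Fintype (closure (T₁ : Set Q)) := Fintype.ofFinite _
  obtain ⟨T₂, hT₂, hc₂⟩ := exists_large lf T₁ (∑ b : closure (T₁ : Set Q), N b)
  have hE₂ : Finite (closure (T₂ : Set Q)) := lf T₂
  have hE₁₂ : closure (T₁ : Set Q) ≤ closure (T₂ : Set Q) := closure_mono (by exact_mod_cast hT₂)
  have hE₂b : closure (T₂ : Set Q) ≠ ⊥ := by
    intro h
    rw [h] at hE₁₂
    exact hE₁b (le_bot_iff.1 hE₁₂)
  obtain ⟨M₂, hM₂E, hM₂b, hM₂n, hM₂c⟩ := exists_abn _ (ls T₂) hE₂b
  have hM₂f : Finite M₂ := finite_of_le hM₂E hE₂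
  refine frob' (closure (T₁ : Set Q)) M₂ hM₂b hM₂c (fun e he => hM₂n e (hE₁₂ he)) M₁ hM₁E hM₁b x
    hxE₁ p hp hx (fun m hm => hM₁n x hxE₁ m hm) hM₁x ?_
  intro b hb hb1 v hv hbv
  refine hN b hb1 _ hE₂ (lt_of_le_of_lt ?_ hc₂) M₂ hM₂E hM₂n hM₂c v hv hbv
  exact le_sum_univ (fun y : closure (T₁ : Set Q) => N (y : Q)) ⟨b, hb⟩

theorem lf_of_surj {P R : Type*} [Group P] [Group R] (f : P →* R) (hf : Function.Surjective f)
    (lf : LocFin P) : LocFin R := by
  classical
  intro S
  choose g hg using hf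
  have h1 : Finite (closure ((S.image g : Finset P) : Set P)) := lf _
  have h2 : closure (S : Set R) ≤ (closure ((S.image g : Finset P) : Set P)).map f := by
    rw [closure_le]
    intro r hr
    refine ⟨g r, subset_closure ?_, hg r⟩
    simp only [Finset.coe_image]
    exact ⟨r, hr, rfl⟩
  have h3 : Finite ((closure ((S.image g : Finset P) : Set P)).map f) := by
    have : Finite (((closure ((S.image g : Finset P) : Set P)).map f : Subgroup R) : Set R) := by
      rw [coe_map]
      exact Set.Finite.image f (Set.toFinite _)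
    exact this
  exact finite_of_le h2 h3

theorem ls_of_surj {P R : Type*} [Group P] [Group R] (f : P →* R) (hf : Function.Surjective f)
    (ls : ∀ S : Finset P, Group.IsSolvable (closure (S : Set P))) (S : Finset R) :
    Group.IsSolvable (closure (S : Set R)) := by
  classical
  choose g hg using hf
  have h1 := ls (S.image g)
  have h2 : closure (S : Set R) ≤ (closure ((S.image g : Finset P) : Set P)).map f := by
    rw [closure_le]
    intro r hr
    refine ⟨g r, subset_closure ?_, hg r⟩
    simp only [Finset.coe_image]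
    exact ⟨r, hr, rfl⟩
  have h3 : Group.IsSolvable ((closure ((S.image g : Finset P) : Set P)).map f) := by
    have hs : Function.Surjective
        (f.subgroupMap (closure ((S.image g : Finset P) : Set P))) :=
      f.subgroupMap_surjective _
    exact Group.isSolvable_of_surjective hs
  exact Group.isSolvable_of_isSolvable_injective (f := Subgroup.inclusion h2)
    (inclusion_injective h2)

theorem lf_sub (lf : LocFin Q) (C : Subgroup Q) : LocFin C := by
  classical
  intro S
  have h1 : Finite (closure ((S.image (fun c : C => (c : Q)) : Finset Q) : Set Q)) := lf _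
  have h2 : ∀ z : closure (S : Set C), ((z : C) : Q) ∈
      closure ((S.image (fun c : C => (c : Q)) : Finset Q) : Set Q) := by
    intro z
    have h3 : closure (S : Set C) ≤
        (closure ((S.image (fun c : C => (c : Q)) : Finset Q) : Set Q)).comap C.subtype := by
      rw [closure_le]
      intro r hr
      refine subset_closure ?_
      simp only [Finset.coe_image]
      exact ⟨r, hr, rfl⟩
    exact h3 z.2
  exact Finite.of_injective (fun z : closure (S : Set C) => (⟨((z : C) : Q), h2 z⟩ :
    closure ((S.image (fun c : C => (c : Q)) : Finset Q) : Set Q))) (by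
      intro a b hab
      exact Subtype.ext (Subtype.ext (congrArg (fun z : closure ((S.image (fun c : C => (c : Q)) :
        Finset Q) : Set Q) => (z : Q)) hab)))

theorem ls_sub (ls : ∀ S : Finset Q, Group.IsSolvable (closure (S : Set Q))) (C : Subgroup Q)
    (S : Finset C) : Group.IsSolvable (closure (S : Set C)) := by
  classical
  have h1 := ls (S.image (fun c : C => (c : Q)))
  have h3 : closure (S : Set C) ≤
      (closure ((S.image (fun c : C => (c : Q)) : Finset Q) : Set Q)).comap C.subtype := by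
    rw [closure_le]
    intro r hr
    refine subset_closure ?_
    simp only [Finset.coe_image]
    exact ⟨r, hr, rfl⟩
  let f : closure (S : Set C) →* closure ((S.image (fun c : C => (c : Q)) : Finset Q) : Set Q) :=
    { toFun := fun z => ⟨((z : C) : Q), h3 z.2⟩
      map_one' := rfl
      map_mul' := fun _ _ => rfl }
  have hf : Function.Injective f := by
    intro a b hab
    exact Subtype.ext (Subtype.ext (congrArg (fun z : closure ((S.image (fun c : C => (c : Q)) :
      Finset Q) : Set Q) => (z : Q)) hab))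
  exact Group.isSolvable_of_isSolvable_injective hf

/-- the elements commuting with `x` modulo a finite central subgroup -/
theorem finite_comm_mod (A : Subgroup Q) (hA : Finite A) (x : Q)
    (hx : Finite (centralizer ({x} : Set Q))) (C : Set Q) :
    {c | c ∈ C ∧ c * x * c⁻¹ * x⁻¹ ∈ A}.Finite := by
  classical
  have h1 : {c | c ∈ C ∧ c * x * c⁻¹ * x⁻¹ ∈ A} ⊆ ⋃ a ∈ (A : Set Q), {c | c * x * c⁻¹ * x⁻¹ = a} := by
    rintro c ⟨-, hc⟩
    simp only [Set.mem_iUnion]
    exact ⟨_, hc, rfl⟩
  refine Set.Finite.subset (Set.Finite.biUnion (Set.toFinite (A : Set Q)) ?_) h1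
  intro a _
  by_cases h : ∃ c₀ : Q, c₀ * x * c₀⁻¹ * x⁻¹ = a
  · obtain ⟨c₀, hc₀⟩ := h
    refine Set.Finite.subset (Set.Finite.image (fun z => c₀ * z)
      (Set.toFinite ((centralizer ({x} : Set Q) : Subgroup Q) : Set Q))) ?_
    intro c hc
    have hc' : c * x * c⁻¹ * x⁻¹ = a := hc
    refine ⟨c₀⁻¹ * c, ?_, by group⟩
    show c₀⁻¹ * c ∈ centralizer ({x} : Set Q)
    rw [mem_centralizer_singleton_iff]
    have h2 : c * x * c⁻¹ = c₀ * x * c₀⁻¹ := by
      have h3 : c * x * c⁻¹ * x⁻¹ = c₀ * x * c₀⁻¹ * x⁻¹ := by rw [hc', hc₀]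
      exact mul_right_cancel h3
    have h4 : c₀⁻¹ * c * x = c₀⁻¹ * (c * x * c⁻¹) * c := by group
    rw [h4, h2]
    group
  · have h2 : {c | c * x * c⁻¹ * x⁻¹ = a} = ∅ := by
      ext c
      simp only [Set.mem_ofPred_eq, Set.mem_empty_iff_false, iff_false]
      intro hc
      exact h ⟨c, hc⟩
    rw [h2]
    exact Set.finite_empty

/-- a subgroup generated by a commutative subgroup and an element commuting with it -/
theorem comm_closure (A : Subgroup Q) (hA : ∀ a ∈ A, ∀ b ∈ A, a * b = b * a) (x : Q)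
    (hx : x ∈ centralizer (A : Set Q)) :
    ∀ a ∈ A ⊔ zpowers x, ∀ b ∈ A ⊔ zpowers x, a * b = b * a := by
  have h1 : A ⊔ zpowers x ≤ centralizer (A : Set Q) := by
    refine sup_le ?_ ?_
    · intro a ha
      rw [mem_centralizer_iff]
      intro b hb
      exact hA b hb a ha
    · rw [zpowers_le]
      exact hx
  have h2 : A ⊔ zpowers x ≤ centralizer ((A ⊔ zpowers x : Subgroup Q) : Set Q) := by
    refine sup_le ?_ ?_
    · intro a ha
      rw [mem_centralizer_iff]
      intro b hb
      exact ((mem_centralizer_iff.1 (h1 hb)) a ha).symm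
    · rw [zpowers_le, mem_centralizer_iff]
      have h3 : A ⊔ zpowers x ≤ centralizer ({x} : Set Q) := by
        refine sup_le ?_ ?_
        · intro a ha
          rw [mem_centralizer_singleton_iff]
          exact (mem_centralizer_iff.1 hx) a ha
        · rw [zpowers_le, mem_centralizer_singleton_iff]
      intro b hb
      exact mem_centralizer_singleton_iff.1 (h3 hb)
  intro a ha b hb
  exact ((mem_centralizer_iff.1 (h2 ha)) b hb).symm

/-- HALL and KULATILAKA for locally soluble groups -/
theorem hk [Infinite Q] (lf : LocFin Q)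
    (ls : ∀ S : Finset Q, Group.IsSolvable (closure (S : Set Q))) :
    ∃ B : Subgroup Q, Infinite B ∧ ∀ a ∈ B, ∀ b ∈ B, a * b = b * a := by
  classical
  by_contra hcon
  push Not at hcon
  have hfin : ∀ A : Subgroup Q, (∀ a ∈ A, ∀ b ∈ A, a * b = b * a) → Finite A := by
    intro A hA
    by_contra hinf
    obtain ⟨a, ha, b, hb, hab⟩ := hcon A (not_finite_iff_infinite.1 hinf)
    exact hab (hA a ha b hb)
  -- a maximal commutative subgroup with infinite centraliser
  obtain ⟨A, hAm⟩ : ∃ A : Subgroup Q, Maximal (fun A : Subgroup Q =>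
      (∀ a ∈ A, ∀ b ∈ A, a * b = b * a) ∧ Infinite (centralizer (A : Set Q))) A := by
    have hz := zorn_le_nonempty₀ {A : Subgroup Q | (∀ a ∈ A, ∀ b ∈ A, a * b = b * a) ∧
      Infinite (centralizer (A : Set Q))} ?_ ⊥ ?_
    · obtain ⟨A, -, hA⟩ := hz
      exact ⟨A, hA⟩
    · intro c hc hchain y hy
      have hdir : DirectedOn (· ≤ ·) c := hchain.directedOn
      have hcm : ∀ a ∈ sSup c, ∀ b ∈ sSup c, a * b = b * a := by
        intro a ha b hb
        rw [mem_sSup_of_directedOn ⟨y, hy⟩ hdir] at ha hb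
        obtain ⟨S, hS, ha⟩ := ha
        obtain ⟨T, hT, hb⟩ := hb
        obtain ⟨U, hU, hSU, hTU⟩ := hdir S hS T hT
        exact (hc hU).1 a (hSU ha) b (hTU hb)
      have hsf : Finite (sSup c : Subgroup Q) := hfin _ hcm
      have hex : ∃ U ∈ c, sSup c ≤ U := by
        have h1 : ∀ F : Finset Q, (F : Set Q) ⊆ (sSup c : Subgroup Q) → ∃ U ∈ c, (F : Set Q) ⊆ U := by
          intro F
          induction F using Finset.induction_on with
          | empty => intro _; exact ⟨y, hy, by simp⟩
          | insert a F _ ih =>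
            intro hF
            rw [Finset.coe_insert, Set.insert_subset_iff] at hF
            obtain ⟨S, hS, haS⟩ := (mem_sSup_of_directedOn ⟨y, hy⟩ hdir).1 hF.1
            obtain ⟨T, hT, hFT⟩ := ih hF.2
            obtain ⟨U, hU, hSU, hTU⟩ := hdir S hS T hT
            refine ⟨U, hU, ?_⟩
            rw [Finset.coe_insert, Set.insert_subset_iff]
            exact ⟨hSU haS, fun z hz => hTU (hFT hz)⟩
        have hsf' : ((sSup c : Subgroup Q) : Set Q).Finite := Set.toFinite _
        obtain ⟨U, hU, h2⟩ := h1 hsf'.toFinset (by simp)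
        refine ⟨U, hU, ?_⟩
        intro z hz
        exact h2 (by simpa using hz)
      obtain ⟨U, hU, hle⟩ := hex
      exact ⟨U, hc hU, fun z hz => (le_sSup hz).trans hle⟩
    · refine ⟨?_, ?_⟩
      · intro a ha b _
        rw [mem_bot] at ha
        rw [ha]
        simp
      · have h1 : (centralizer ((⊥ : Subgroup Q) : Set Q)) = ⊤ := by
          rw [eq_top_iff]
          intro z _
          rw [mem_centralizer_iff]
          intro w hw
          have hw' : w = 1 := hw
          rw [hw']
          simp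
        rw [h1]
        exact Subgroup.topEquiv.toEquiv.infinite_iff.2 inferInstance
  obtain ⟨⟨hAc, hAinf⟩, hmax⟩ := hAm
  have hAf : Finite A := hfin A hAc
  have hAle : A ≤ centralizer (A : Set Q) := by
    intro a ha
    rw [mem_centralizer_iff]
    intro b hb
    exact hAc b hb a ha
  have hnor : (A.subgroupOf (centralizer (A : Set Q))).Normal := by
    constructor
    intro n hn g
    have h1 : ((g * n * g⁻¹ : centralizer (A : Set Q)) : Q) = (n : Q) := by
      have h2 := (mem_centralizer_iff.1 g.2) n hn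
      show (g : Q) * n * (g : Q)⁻¹ = n
      rw [← h2]
      group
    show ((g * n * g⁻¹ : centralizer (A : Set Q)) : Q) ∈ A
    rw [h1]
    exact hn
  -- the centralisers in `C`
  have hcf : ∀ x ∈ centralizer (A : Set Q), x ∉ A →
      Finite ((centralizer (A : Set Q) ⊓ centralizer ({x} : Set Q) : Subgroup Q)) := by
    intro x hx hxA
    by_contra hinf
    rw [not_finite_iff_infinite] at hinf
    apply hxA
    have h1 : Infinite (centralizer ((A ⊔ zpowers x : Subgroup Q) : Set Q)) := by
      have h2 : (centralizer (A : Set Q) ⊓ centralizer ({x} : Set Q) : Subgroup Q) ≤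
          centralizer ((A ⊔ zpowers x : Subgroup Q) : Set Q) := by
        rintro z ⟨hz1, hz2⟩
        have h3 : A ⊔ zpowers x ≤ centralizer ({z} : Set Q) := by
          refine sup_le ?_ ?_
          · intro a ha
            rw [mem_centralizer_singleton_iff]
            exact (mem_centralizer_iff.1 hz1) a ha
          · rw [zpowers_le, mem_centralizer_singleton_iff]
            exact (mem_centralizer_singleton_iff.1 hz2).symm
        rw [mem_centralizer_iff]
        intro b hb
        exact mem_centralizer_singleton_iff.1 (h3 hb)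
      exact Infinite.of_injective (Subgroup.inclusion h2) (inclusion_injective h2)
    have h2 := hmax (y := A ⊔ zpowers x) ⟨comm_closure A hAc x hx, h1⟩ le_sup_left
    exact h2 (mem_sup_right (mem_zpowers x))
  -- pass to the quotient
  have lfC := lf_sub lf (centralizer (A : Set Q))
  have lsC := ls_sub ls (centralizer (A : Set Q))
  have lfQ := lf_of_surj (QuotientGroup.mk' (A.subgroupOf (centralizer (A : Set Q))))
    (QuotientGroup.mk'_surjective _) lfC
  have lsQ := ls_of_surj (QuotientGroup.mk' (A.subgroupOf (centralizer (A : Set Q))))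
    (QuotientGroup.mk'_surjective _) lsC
  have hfs : Finite (A.subgroupOf (centralizer (A : Set Q))) :=
    Finite.of_injective (fun z : A.subgroupOf (centralizer (A : Set Q)) =>
      (⟨((z : centralizer (A : Set Q)) : Q), z.2⟩ : A)) (by
      intro a b hab
      exact Subtype.ext (Subtype.ext (congrArg (fun z : A => (z : Q)) hab)))
  have hinfQ : Infinite (centralizer (A : Set Q) ⧸ A.subgroupOf (centralizer (A : Set Q))) := by
    by_contra hcon2
    rw [not_infinite_iff_finite] at hcon2
    have h1 : Finite (centralizer (A : Set Q)) := by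
      have := Finite.of_equiv _ (Subgroup.groupEquivQuotientProdSubgroup
        (s := A.subgroupOf (centralizer (A : Set Q)))).symm
      exact this
    exact not_finite_iff_infinite.2 hAinf h1
  refine no_finite_cent lfQ lsQ ?_
  intro xb hxb
  obtain ⟨x, rfl⟩ := QuotientGroup.mk'_surjective (A.subgroupOf (centralizer (A : Set Q))) xb
  have hxA : (x : Q) ∉ A := by
    intro h
    apply hxb
    rw [QuotientGroup.mk'_apply, QuotientGroup.eq_one_iff]
    exact h
  have h1 := hcf x x.2 hxA
  have h2 : Finite (centralizer ({x} : Set (centralizer (A : Set Q)))) := by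
    refine Finite.of_injective (fun z : centralizer ({x} : Set (centralizer (A : Set Q))) =>
      (⟨((z : centralizer (A : Set Q)) : Q), (z : centralizer (A : Set Q)).2, ?_⟩ :
        (centralizer (A : Set Q) ⊓ centralizer ({(x : Q)} : Set Q) : Subgroup Q))) ?_
    · have h3 := z.2
      rw [mem_centralizer_singleton_iff] at h3
      show ((z : centralizer (A : Set Q)) : Q) ∈ centralizer ({(x : Q)} : Set Q)
      rw [mem_centralizer_singleton_iff]
      exact congrArg Subtype.val h3
    · intro a b hab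
      exact Subtype.ext (Subtype.ext (congrArg (fun z :
        (centralizer (A : Set Q) ⊓ centralizer ({(x : Q)} : Set Q) : Subgroup Q) => (z : Q)) hab))
  have h3 := finite_comm_mod (A.subgroupOf (centralizer (A : Set Q))) hfs x h2 Set.univ
  have h4 : ((centralizer ({QuotientGroup.mk' (A.subgroupOf (centralizer (A : Set Q))) x} :
      Set (centralizer (A : Set Q) ⧸ A.subgroupOf (centralizer (A : Set Q)))) :
      Subgroup _) : Set (centralizer (A : Set Q) ⧸ A.subgroupOf (centralizer (A : Set Q)))) ⊆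
      (QuotientGroup.mk' (A.subgroupOf (centralizer (A : Set Q)))) ''
        {c | c ∈ Set.univ ∧ c * x * c⁻¹ * x⁻¹ ∈ A.subgroupOf (centralizer (A : Set Q))} := by
    intro cb hcb
    obtain ⟨c, rfl⟩ := QuotientGroup.mk'_surjective (A.subgroupOf (centralizer (A : Set Q))) cb
    refine ⟨c, ⟨Set.mem_univ _, ?_⟩, rfl⟩
    have h5 := mem_centralizer_singleton_iff.1 hcb
    rw [← QuotientGroup.eq_one_iff, ← QuotientGroup.mk'_apply, map_mul, map_mul, map_mul, map_inv,
      map_inv, h5]
    group
  exact (Set.Finite.image _ h3).subset h4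

/-- the relative form: `K / C` infinite, `K` locally soluble -/
theorem hk_rel (lf : LocFin Q) (C K : Subgroup Q) (hCK : C ≤ K)
    (hn : K ≤ normalizer (C : Set Q)) (ls : LocSol K) (hinf : C.relIndex K = 0) :
    ∃ B : Subgroup Q, C ≤ B ∧ B ≤ K ∧ C.relIndex B = 0 ∧ ∀ a ∈ B, ∀ b ∈ B, ⁅a, b⁆ ∈ C := by
  classical
  have hnor : (C.subgroupOf K).Normal := by
    constructor
    intro n hn' g
    exact ((mem_normalizer_iff.1 (hn g.2)) n).1 hn'
  have lfK := lf_sub lf K
  have lsK : ∀ S : Finset K, Group.IsSolvable (closure (S : Set K)) := by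
    intro S
    have h1 := ls (S.image (fun c : K => (c : Q))) (by
      intro z hz
      simp only [Finset.coe_image] at hz
      obtain ⟨w, -, rfl⟩ := hz
      exact w.2)
    have h3 : closure (S : Set K) ≤
        (closure ((S.image (fun c : K => (c : Q)) : Finset Q) : Set Q)).comap K.subtype := by
      rw [closure_le]
      intro r hr
      refine subset_closure ?_
      simp only [Finset.coe_image]
      exact ⟨r, hr, rfl⟩
    let f : closure (S : Set K) →* closure ((S.image (fun c : K => (c : Q)) : Finset Q) : Set Q) :=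
      { toFun := fun z => ⟨((z : K) : Q), h3 z.2⟩
        map_one' := rfl
        map_mul' := fun _ _ => rfl }
    have hf : Function.Injective f := by
      intro a b hab
      exact Subtype.ext (Subtype.ext (congrArg (fun z : closure ((S.image (fun c : K => (c : Q)) :
        Finset Q) : Set Q) => (z : Q)) hab))
    exact Group.isSolvable_of_isSolvable_injective hf
  have lfQ := lf_of_surj (QuotientGroup.mk' (C.subgroupOf K)) (QuotientGroup.mk'_surjective _) lfK
  have lsQ := ls_of_surj (QuotientGroup.mk' (C.subgroupOf K)) (QuotientGroup.mk'_surjective _) lsK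
  have hinfQ : Infinite (K ⧸ C.subgroupOf K) := by
    by_contra h
    rw [not_infinite_iff_finite] at h
    have h1 : (C.subgroupOf K).index ≠ 0 := Subgroup.index_ne_zero_of_finite
    exact h1 hinf
  obtain ⟨Bb, hBb, hcm⟩ := hk lfQ lsQ
  refine ⟨(Bb.comap (QuotientGroup.mk' (C.subgroupOf K))).map K.subtype, ?_, ?_, ?_, ?_⟩
  · intro c hc
    refine ⟨⟨c, hCK hc⟩, ?_, rfl⟩
    show QuotientGroup.mk' (C.subgroupOf K) ⟨c, hCK hc⟩ ∈ Bb
    have h1 : QuotientGroup.mk' (C.subgroupOf K) ⟨c, hCK hc⟩ = 1 := by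
      rw [QuotientGroup.mk'_apply, QuotientGroup.eq_one_iff]
      exact hc
    rw [h1]
    exact Bb.one_mem
  · rintro _ ⟨b, -, rfl⟩
    exact b.2
  · by_contra hne
    have hfi : (C.subgroupOf ((Bb.comap (QuotientGroup.mk' (C.subgroupOf K))).map
        K.subtype)).FiniteIndex := ⟨hne⟩
    have hfin : Finite (((Bb.comap (QuotientGroup.mk' (C.subgroupOf K))).map K.subtype : Subgroup Q)
        ⧸ C.subgroupOf ((Bb.comap (QuotientGroup.mk' (C.subgroupOf K))).map K.subtype)) :=
      Subgroup.finite_quotient_of_finiteIndex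
    -- a surjection onto `Bb`
    have hsur : Finite Bb := by
      have h1 : ∀ b : Bb, ∃ z : ((Bb.comap (QuotientGroup.mk' (C.subgroupOf K))).map K.subtype :
          Subgroup Q), ∃ w : K, (w : Q) = z ∧ QuotientGroup.mk' (C.subgroupOf K) w = b := by
        intro b
        obtain ⟨w, hw⟩ := QuotientGroup.mk'_surjective (C.subgroupOf K) (b : K ⧸ C.subgroupOf K)
        refine ⟨⟨w, ⟨w, ?_, rfl⟩⟩, w, rfl, hw⟩
        show QuotientGroup.mk' (C.subgroupOf K) w ∈ Bb
        rw [hw]
        exact b.2
      choose z w hwz hw using h1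
      refine Finite.of_injective (fun b : Bb => (QuotientGroup.mk (z b) :
        ((Bb.comap (QuotientGroup.mk' (C.subgroupOf K))).map K.subtype : Subgroup Q)
        ⧸ C.subgroupOf ((Bb.comap (QuotientGroup.mk' (C.subgroupOf K))).map K.subtype))) ?_
      intro a b hab
      have h2 := QuotientGroup.eq.1 hab
      have h3 : ((z a : Q))⁻¹ * (z b : Q) ∈ C := h2
      rw [← hwz a, ← hwz b] at h3
      apply Subtype.ext
      rw [← hw a, ← hw b]
      show (QuotientGroup.mk (w a) : K ⧸ C.subgroupOf K) = QuotientGroup.mk (w b)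
      rw [QuotientGroup.eq]
      exact h3
    exact not_finite_iff_infinite.2 hBb hsur
  · rintro _ ⟨a, ha, rfl⟩ _ ⟨b, hb, rfl⟩
    have h1 := hcm _ ha _ hb
    have h2 : QuotientGroup.mk' (C.subgroupOf K) ⁅a, b⁆ = 1 := by
      rw [map_commutatorElement, commutatorElement_eq_one_iff_mul_comm]
      exact h1
    rw [QuotientGroup.mk'_apply, QuotientGroup.eq_one_iff] at h2
    exact h2

end Inf

end MP0d06d9R
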