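import Pool.Agent.Lib.MP_0d06d9_alR.DL
import Pool.Agent.Lib.MP_0d06d9_al.Sel

/-!
# MP_0d06d9_al, Rae's theorem: the upper series `R H j` (iterated Hirsch-Plotkin radicals)
-/

set_option autoImplicit false

namespace MP0d06d9I

open Subgroup commutatorElement MP0d06d9 MP0d06d9R

variable {G : Type*} [Group G]

/-- every finite subgroup of `B` is nilpotent modulo `A` -/
def LN (A B : Subgroup G) : Prop :=
  ∀ E : Subgroup G, Finite E → E ≤ B → ∃ n, D n E ≤ A

/-- the normal subgroups of `H` which are locally nilpotent modulo `A` -/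
def HPS (H A : Subgroup G) : Set (Subgroup G) :=
  {N | N ≤ H ∧ H ≤ normalizer (N : Set G) ∧ LN A N}

/-- the Hirsch-Plotkin radical of `H` modulo `A` -/
def HP (H A : Subgroup G) : Subgroup G := sSup (HPS H A)

/-- the upper series of `H` -/
def R (H : Subgroup G) : ℕ → Subgroup G
  | 0 => ⊥
  | j + 1 => HP H (R H j)

theorem R_zero (H : Subgroup G) : R H 0 = ⊥ := rfl

theorem R_succ (H : Subgroup G) (j : ℕ) : R H (j + 1) = HP H (R H j) := rfl

/-! ## finite subgroups of locally finite groups -/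

theorem fin_le {A B : Subgroup G} (h : A ≤ B) (hB : Finite B) : Finite A :=
  Finite.of_injective _ (inclusion_injective h)

theorem fin_clo (lf : LocFin G) {S : Set G} (hS : S.Finite) : Finite (closure S) := by
  have h1 := lf hS.toFinset
  rwa [hS.coe_toFinset] at h1

theorem fin_sup (lf : LocFin G) {X Y : Subgroup G} (hX : Finite X) (hY : Finite Y) :
    Finite (X ⊔ Y : Subgroup G) := by
  rw [Subgroup.sup_eq_closure]
  exact fin_clo lf ((Set.toFinite (X : Set G)).union (Set.toFinite (Y : Set G)))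

/-- every element of `closure S` is in the closure of a finite subset of `S` -/
theorem mem_clo {S : Set G} {x : G} (hx : x ∈ closure S) :
    ∃ S' : Finset G, (S' : Set G) ⊆ S ∧ x ∈ closure (S' : Set G) := by
  classical
  induction hx using Subgroup.closure_induction with
  | mem x hx => exact ⟨{x}, by simpa using hx, Subgroup.subset_closure (by simp)⟩
  | one => exact ⟨∅, by simp, Subgroup.one_mem _⟩
  | mul x y _ _ ihx ihy =>
    obtain ⟨A, hA, hxA⟩ := ihx
    obtain ⟨B, hB, hyB⟩ := ihy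
    refine ⟨A ∪ B, ?_, ?_⟩
    · rw [Finset.coe_union]
      exact Set.union_subset hA hB
    · rw [Finset.coe_union]
      exact Subgroup.mul_mem _ (Subgroup.closure_mono Set.subset_union_left hxA)
        (Subgroup.closure_mono Set.subset_union_right hyB)
  | inv x _ ihx =>
    obtain ⟨A, hA, hxA⟩ := ihx
    exact ⟨A, hA, Subgroup.inv_mem _ hxA⟩

/-- a finite subgroup of `closure S` is in the closure of a finite subset of `S` -/
theorem fin_in_clo {S : Set G} {E : Subgroup G} (hE : Finite E) (h : E ≤ closure S) :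
    ∃ S' : Finset G, (S' : Set G) ⊆ S ∧ E ≤ closure (S' : Set G) := by
  classical
  have h1 : ∀ e : E, ∃ S' : Finset G, (S' : Set G) ⊆ S ∧ (e : G) ∈ closure (S' : Set G) :=
    fun e => mem_clo (h e.2)
  choose f hf1 hf2 using h1
  have := Fintype.ofFinite E
  refine ⟨Finset.univ.biUnion f, ?_, ?_⟩
  · intro x hx
    rw [Finset.mem_coe, Finset.mem_biUnion] at hx
    obtain ⟨e, _, he⟩ := hx
    exact hf1 e he
  · intro x hx
    refine Subgroup.closure_mono ?_ (hf2 ⟨x, hx⟩)
    intro y hy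
    rw [Finset.mem_coe, Finset.mem_biUnion]
    exact ⟨⟨x, hx⟩, Finset.mem_univ _, hy⟩

/-! ## locally nilpotent modulo `A` -/

theorem LN_refl (A : Subgroup G) : LN A A := fun _ _ hE => ⟨0, hE⟩

theorem LN_mono {A A' B B' : Subgroup G} (hA : A ≤ A') (hB : B' ≤ B) (h : LN A B) : LN A' B' := by
  intro E hE hEB
  obtain ⟨n, hn⟩ := h E hE (hEB.trans hB)
  exact ⟨n, hn.trans hA⟩

theorem LN_inf {A B C : Subgroup G} (h : LN A B) : LN (A ⊓ C) (B ⊓ C) := by
  intro E hE hEB
  obtain ⟨n, hn⟩ := h E hE (hEB.trans inf_le_left)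
  exact ⟨n, le_inf hn ((D_le n E).trans (hEB.trans inf_le_right))⟩

theorem LN_sup (lf : LocFin G) {H A N₁ N₂ : Subgroup G} (hA : H ≤ normalizer (A : Set G))
    (h1 : N₁ ∈ HPS H A) (h2 : N₂ ∈ HPS H A) : N₁ ⊔ N₂ ∈ HPS H A := by
  obtain ⟨a1, b1, c1⟩ := h1
  obtain ⟨a2, b2, c2⟩ := h2
  refine ⟨sup_le a1 a2, norm_sup b1 b2, ?_⟩
  intro E hE hEB
  rw [Subgroup.sup_eq_closure] at hEB
  obtain ⟨S, hS, hES⟩ := fin_in_clo hE hEB
  obtain ⟨X, hX⟩ : ∃ X : Subgroup G, X = closure (S : Set G) := ⟨_, rfl⟩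
  rw [← hX] at hES
  have hXf : Finite X := hX ▸ lf S
  have hXle : X ≤ (X ⊓ N₁) ⊔ (X ⊓ N₂) := by
    conv_lhs => rw [hX]
    rw [closure_le]
    intro s hs
    have hsX : s ∈ X := hX ▸ Subgroup.subset_closure hs
    rcases hS hs with h | h
    · exact (le_sup_left : X ⊓ N₁ ≤ (X ⊓ N₁) ⊔ (X ⊓ N₂)) ⟨hsX, h⟩
    · exact (le_sup_right : X ⊓ N₂ ≤ (X ⊓ N₁) ⊔ (X ⊓ N₂)) ⟨hsX, h⟩
  have hXeq : (X ⊓ N₁) ⊔ (X ⊓ N₂) = X := le_antisymm (sup_le inf_le_left inf_le_left) hXle
  obtain ⟨n1, hn1⟩ := c1 (X ⊓ N₁) (fin_le inf_le_left hXf) inf_le_right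
  obtain ⟨n2, hn2⟩ := c2 (X ⊓ N₂) (fin_le inf_le_left hXf) inf_le_right
  have hXH : X ≤ H := by
    rw [← hXeq]
    exact sup_le (inf_le_right.trans a1) (inf_le_right.trans a2)
  have h3 := D_fit (X := X ⊓ N₁) (Y := X ⊓ N₂) (A := A) (a := n1) (b := n2)
    (norm_inf (inf_le_left.trans le_normalizer) ((inf_le_left.trans hXH).trans b2))
    (norm_inf (inf_le_left.trans le_normalizer) ((inf_le_left.trans hXH).trans b1))
    (by rw [hXeq]; exact hXH.trans hA) hn1 hn2
  rw [hXeq] at h3
  exact ⟨n1 + n2, (D_mono hES _).trans h3⟩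

theorem HP_max {H A N : Subgroup G} (h1 : N ≤ H) (h2 : H ≤ normalizer (N : Set G)) (h3 : LN A N) :
    N ≤ HP H A := le_sSup ⟨h1, h2, h3⟩

theorem HP_le (H A : Subgroup G) : HP H A ≤ H := sSup_le fun _ h => h.1

theorem le_HP {H A : Subgroup G} (h1 : A ≤ H) (h2 : H ≤ normalizer (A : Set G)) : A ≤ HP H A :=
  HP_max h1 h2 (LN_refl A)

/-- Hirsch and Plotkin -/
theorem LN_HP (lf : LocFin G) {H A : Subgroup G} (hA : H ≤ normalizer (A : Set G))
    (hAH : A ≤ H) : LN A (HP H A) := by
  have hdir : DirectedOn (· ≤ ·) (HPS H A) := fun N₁ h1 N₂ h2 =>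
    ⟨N₁ ⊔ N₂, LN_sup lf hA h1 h2, le_sup_left, le_sup_right⟩
  have hne : (HPS H A).Nonempty := ⟨A, hAH, hA, LN_refl A⟩
  intro E hE hEB
  have h1 : ∀ S : Finset G, (S : Set G) ⊆ E → ∃ N ∈ HPS H A, (S : Set G) ⊆ N := by
    classical
    intro S
    induction S using Finset.induction_on with
    | empty =>
      intro _
      obtain ⟨N, hN⟩ := hne
      exact ⟨N, hN, by simp⟩
    | insert a S _ ih =>
      intro h
      rw [Finset.coe_insert, Set.insert_subset_iff] at h
      obtain ⟨N, hN, hS⟩ := ih h.2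
      obtain ⟨N', hN', haN⟩ := (mem_sSup_of_directedOn hne hdir).1 (hEB h.1)
      obtain ⟨N'', hN'', hl, hr⟩ := hdir N hN N' hN'
      refine ⟨N'', hN'', ?_⟩
      rw [Finset.coe_insert, Set.insert_subset_iff]
      exact ⟨hr haN, hS.trans hl⟩
  have hEf : (E : Set G).Finite := Set.toFinite _
  obtain ⟨N, hN, h2⟩ := h1 hEf.toFinset (by rw [hEf.coe_toFinset])
  rw [hEf.coe_toFinset] at h2
  exact hN.2.2 E hE h2

/-- the radical is invariant under the automorphisms preserving `H` and `A` -/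
theorem HP_norm (H A : Subgroup G) :
    normalizer (H : Set G) ⊓ normalizer (A : Set G) ≤
      normalizer ((HP H A : Subgroup G) : Set G) := by
  have key : ∀ g : G, g ∈ normalizer (H : Set G) → g ∈ normalizer (A : Set G) →
      (HP H A).map (MulAut.conj g).toMonoidHom ≤ HP H A := by
    intro g hH hA
    have hH' := norm_map.1 hH
    have hA' := norm_map.1 hA
    rw [map_le_iff_le_comap]
    refine sSup_le fun N hN => ?_
    rw [← map_le_iff_le_comap]
    obtain ⟨a, b, c⟩ := hN
    refine HP_max ?_ ?_ ?_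
    · rw [← hH']
      exact map_mono a
    · intro h hh
      have h1 : g⁻¹ * h * g ∈ normalizer (N : Set G) :=
        b ((mem_normalizer_iff''.1 hH h).1 hh)
      have h2 := le_normalizer_map (MulAut.conj g).toMonoidHom
        (mem_map_of_mem (MulAut.conj g).toMonoidHom h1)
      have h3 : (MulAut.conj g).toMonoidHom (g⁻¹ * h * g) = h := by
        show g * (g⁻¹ * h * g) * g⁻¹ = h
        group
      rwa [h3] at h2
    · intro E hE hEN
      have h1 : E.map (MulAut.conj g⁻¹).toMonoidHom ≤ N := by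
        rintro x ⟨e, he, rfl⟩
        obtain ⟨n, hn, hne⟩ := hEN he
        have h2 : (MulAut.conj g⁻¹).toMonoidHom e = n := by
          rw [← hne]
          show g⁻¹ * (g * n * g⁻¹) * g⁻¹⁻¹ = n
          group
        rw [h2]
        exact hn
      have hEf : Finite (E.map (MulAut.conj g⁻¹).toMonoidHom) := by
        have h2 : ((E.map (MulAut.conj g⁻¹).toMonoidHom : Subgroup G) : Set G).Finite := by
          rw [coe_map]
          exact (Set.toFinite (E : Set G)).image _
        exact h2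
      obtain ⟨n, hn⟩ := c _ hEf h1
      refine ⟨n, ?_⟩
      have h3 := map_mono (f := (MulAut.conj g).toMonoidHom) hn
      rw [hA', D_map, map_map] at h3
      have h4 : E.map ((MulAut.conj g).toMonoidHom.comp (MulAut.conj g⁻¹).toMonoidHom) = E := by
        have h5 : (MulAut.conj g).toMonoidHom.comp (MulAut.conj g⁻¹).toMonoidHom =
            MonoidHom.id G := by
          ext x
          show g * (g⁻¹ * x * g⁻¹⁻¹) * g⁻¹ = x
          group
        rw [h5, map_id]
      rwa [h4] at h3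
  rintro g ⟨hH, hA⟩
  apply norm_map.2
  refine le_antisymm (key g hH hA) ?_
  intro x hx
  have h1 := key g⁻¹ (Subgroup.inv_mem _ hH) (Subgroup.inv_mem _ hA)
    (mem_map_of_mem (MulAut.conj g⁻¹).toMonoidHom hx)
  refine ⟨_, h1, ?_⟩
  show g * (g⁻¹ * x * g⁻¹⁻¹) * g⁻¹ = x
  group

/-! ## the upper series -/

theorem R_le (H : Subgroup G) (j : ℕ) : R H j ≤ H := by
  cases j with
  | zero => exact bot_le
  | succ j => exact HP_le H _

theorem R_norm (H : Subgroup G) (j : ℕ) :
    normalizer (H : Set G) ≤ normalizer ((R H j : Subgroup G) : Set G) := by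
  induction j with
  | zero =>
    have h1 : normalizer (((⊥ : Subgroup G) : Subgroup G) : Set G) = ⊤ :=
      normalizer_eq_top_iff.2 inferInstance
    rw [R_zero, h1]
    exact le_top
  | succ j ih => exact (le_inf le_rfl ih).trans (HP_norm H _)

theorem R_normal {H : Subgroup G} (hn : H.Normal) (j : ℕ) : (R H j).Normal := by
  have h2 : normalizer (H : Set G) = ⊤ := normalizer_eq_top_iff.2 hn
  exact normalizer_eq_top_iff.1 (top_le_iff.1 (h2 ▸ R_norm H j))

theorem R_mono_succ (H : Subgroup G) (j : ℕ) : R H j ≤ R H (j + 1) :=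
  le_HP (R_le H j) (le_normalizer.trans (R_norm H j))

theorem R_mono (H : Subgroup G) {i j : ℕ} (h : i ≤ j) : R H i ≤ R H j :=
  monotone_nat_of_le_succ (f := fun j => R H j) (R_mono_succ H) h

theorem LN_R (lf : LocFin G) (H : Subgroup G) (j : ℕ) : LN (R H j) (R H (j + 1)) :=
  LN_HP lf (le_normalizer.trans (R_norm H j)) (R_le H j)

theorem R_max {H N : Subgroup G} (h1 : N ≤ H) (h2 : H ≤ normalizer (N : Set G)) {j : ℕ}
    (h3 : LN (R H j) N) : N ≤ R H (j + 1) := HP_max h1 h2 h3

/-- the preimage of the `i`-th term of the upper series of `H / (H ⊓ f.ker)` -/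
theorem R_comap {G' : Type*} [Group G'] (lf' : LocFin G') (f : G →* G') {H : Subgroup G} {j : ℕ}
    (hk : H ⊓ f.ker ≤ R H j) (i : ℕ) : H ⊓ (R (H.map f) i).comap f ≤ R H (j + i) := by
  induction i with
  | zero =>
    rw [R_zero, Nat.add_zero]
    exact hk
  | succ i ih =>
    refine R_max inf_le_left ?_ ?_
    · refine norm_inf le_normalizer ?_
      refine le_trans ?_ (le_normalizer_comap f)
      rw [← map_le_iff_le_comap]
      exact le_normalizer.trans (R_norm _ _)
    · intro E hE hEP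
      have h1 : E.map f ≤ R (H.map f) (i + 1) := map_le_iff_le_comap.2 (hEP.trans inf_le_right)
      have h2 : Finite (E.map f) := by
        have h2 : ((E.map f : Subgroup G') : Set G').Finite := by
          rw [coe_map]
          exact (Set.toFinite (E : Set G)).image _
        exact h2
      obtain ⟨n, hn⟩ := LN_R lf' _ i _ h2 h1
      rw [← D_map, map_le_iff_le_comap] at hn
      exact ⟨n, (le_inf ((D_le n E).trans (hEP.trans inf_le_left)) hn).trans ih⟩

end MP0d06d9I
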