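import Pool.Agent.Lib.MP_0d06d9_alR.InfA

/-!
# MP_0d06d9_al, Rae's theorem: elements acting trivially on `H / R H j`, step A1
-/

set_option autoImplicit false

namespace MP0d06d9I

open Subgroup commutatorElement MP0d06d9 MP0d06d9R

variable {G : Type*} [Group G]

/-- the elements which normalise `A` and act trivially on `H` modulo `A` -/
def TH (H A : Subgroup G) : Subgroup G where
  carrier := {x | x ∈ normalizer (A : Set G) ∧ ∀ h ∈ H, ⁅h, x⁆ ∈ A}
  mul_mem' := by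
    rintro x y ⟨hx, hx'⟩ ⟨hy, hy'⟩
    refine ⟨Subgroup.mul_mem _ hx hy, fun h hh => ?_⟩
    have e : ⁅h, x * y⁆ = ⁅h, x⁆ * (x * ⁅h, y⁆ * x⁻¹) := by
      rw [commutatorElement_def, commutatorElement_def, commutatorElement_def]
      group
    rw [e]
    exact A.mul_mem (hx' h hh) ((mem_normalizer_iff.1 hx _).1 (hy' h hh))
  one_mem' := ⟨Subgroup.one_mem _, fun h _ => by
    rw [commutatorElement_one_right]
    exact A.one_mem⟩
  inv_mem' := by
    rintro x ⟨hx, hx'⟩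
    refine ⟨Subgroup.inv_mem _ hx, fun h hh => ?_⟩
    have e : ⁅h, x⁻¹⁆ = x⁻¹ * ⁅h, x⁆⁻¹ * x⁻¹⁻¹ := by
      rw [commutatorElement_def, commutatorElement_def]
      group
    rw [e]
    exact (mem_normalizer_iff.1 (Subgroup.inv_mem _ hx) _).1 (A.inv_mem (hx' h hh))

theorem mem_TH {H A : Subgroup G} {x : G} :
    x ∈ TH H A ↔ x ∈ normalizer (A : Set G) ∧ ∀ h ∈ H, ⁅h, x⁆ ∈ A := Iff.rfl

theorem comm_TH (H A : Subgroup G) : ⁅H, TH H A⁆ ≤ A := by
  rw [commutator_le]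
  intro h hh x hx
  exact hx.2 h hh

theorem TH_mono {H A B : Subgroup G} (hB : B.Normal) (h : A ≤ B) : TH H A ≤ TH H B := by
  intro x hx
  refine ⟨?_, fun y hy => h (hx.2 y hy)⟩
  rw [normalizer_eq_top_iff.2 hB]
  exact mem_top x

/-- `TH H A` is invariant under everything that normalises `H` and `A` -/
theorem TH_norm (H A : Subgroup G) :
    normalizer (H : Set G) ⊓ normalizer (A : Set G) ≤
      normalizer ((TH H A : Subgroup G) : Set G) := by
  rw [le_normalizer_iff]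
  rintro g ⟨hH, hA⟩ x ⟨hx, hx'⟩
  refine ⟨Subgroup.mul_mem _ (Subgroup.mul_mem _ hA hx) (Subgroup.inv_mem _ hA), ?_⟩
  intro h hh
  have h1 : g⁻¹ * h * g ∈ H := (mem_normalizer_iff''.1 hH h).1 hh
  have h2 := (mem_normalizer_iff.1 hA _).1 (hx' _ h1)
  have e : g * ⁅g⁻¹ * h * g, x⁆ * g⁻¹ = ⁅h, g * x * g⁻¹⁆ := by
    rw [commutatorElement_def, commutatorElement_def]
    group
  rwa [e] at h2

theorem solv_of_le {H : Subgroup G} (hs : LocSol H) {F : Subgroup G} (hF : Finite F)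
    (h : F ≤ H) : Group.IsSolvable F := by
  have hf : (F : Set G).Finite := Set.toFinite _
  have h1 := hs hf.toFinset (by rw [hf.coe_toFinset]; exact h)
  rwa [hf.coe_toFinset, closure_eq] at h1

/-- coprime action: fixed points lift -/
theorem fixpt {π : Set ℕ} (lf : LocFin G) {H A F : Subgroup G} (hA : A ≤ H)
    (piH : IsPi πᶜ H) (piF : IsPi π F) (hFf : Finite F) (hFs : Group.IsSolvable F)
    (hFA : F ≤ normalizer (A : Set G)) {h : G} (hh : h ∈ normalizer (A : Set G))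
    (hf : ∀ f ∈ F, ⁅h, f⁆ ∈ A) :
    ∃ r ∈ A, ∀ f ∈ F, f * (h * r) * f⁻¹ = h * r := by
  obtain ⟨L, hL⟩ : ∃ L : Subgroup G, L = closure ((F : Set G) ∪ {h}) := ⟨_, rfl⟩
  have hLf : Finite L := hL ▸ fin_clo lf ((Set.toFinite (F : Set G)).union (Set.finite_singleton h))
  have hFL : F ≤ L := fun f hf => hL ▸ Subgroup.subset_closure (Or.inl hf)
  have hhL : h ∈ L := hL ▸ Subgroup.subset_closure (Or.inr rfl)
  obtain ⟨n, hn, h2⟩ := cl F (A ⊓ L) hFf hFs (fin_le inf_le_right hLf)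
    (norm_inf hFA (hFL.trans le_normalizer))
    (card_coprime hFf (fin_le inf_le_right hLf) piF (isPi_mono (inf_le_left.trans hA) piH)) h
    (by
      intro a ha
      refine ⟨?_, ?_⟩
      · have h3 := (mem_normalizer_iff''.1 hh _).1 (A.inv_mem (hf a ha))
        have e : h⁻¹ * ⁅h, a⁆⁻¹ * h = h⁻¹ * (a * h * a⁻¹) := by
          rw [commutatorElement_def]
          group
        rwa [e] at h3
      · exact L.mul_mem (L.inv_mem hhL) (L.mul_mem (L.mul_mem (hFL ha) hhL) (L.inv_mem (hFL ha))))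
  exact ⟨n, hn.1, h2⟩

/-- the elements of `K` which act trivially on `H` modulo the `j`-th term of the upper series -/
def KK (H K : Subgroup G) (j : ℕ) : Subgroup G := K ⊓ TH H (R H j)

theorem mem_KK {H K : Subgroup G} (hn : H.Normal) {j : ℕ} {x : G} :
    x ∈ KK H K j ↔ x ∈ K ∧ ∀ h ∈ H, ⁅h, x⁆ ∈ R H j := by
  have h1 := normalizer_eq_top_iff.2 (R_normal hn j)
  constructor
  · rintro ⟨h2, h3⟩
    exact ⟨h2, h3.2⟩
  · rintro ⟨h2, h3⟩
    refine ⟨h2, ?_, h3⟩
    rw [h1]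
    exact mem_top x

theorem KK_mono {H : Subgroup G} (hn : H.Normal) (K : Subgroup G) {i j : ℕ} (h : i ≤ j) :
    KK H K i ≤ KK H K j :=
  le_inf inf_le_left (inf_le_right.trans (TH_mono (R_normal hn j) (R_mono H h)))

theorem KK_norm {H : Subgroup G} (hn : H.Normal) (K : Subgroup G) (j : ℕ) :
    K ≤ normalizer ((KK H K j : Subgroup G) : Set G) := by
  refine norm_inf le_normalizer (le_trans (le_inf ?_ ?_) (TH_norm H (R H j)))
  · rw [normalizer_eq_top_iff.2 hn]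
    exact le_top
  · rw [normalizer_eq_top_iff.2 (R_normal hn j)]
    exact le_top

/-- step A1: the subgroups `KK H K j` are finally constant -/
theorem a1 {π : Set ℕ} (lf : LocFin G) {H K : Subgroup G} (hn : H.Normal) (piH : IsPi πᶜ H)
    (piK : IsPi π K) (solK : LocSol K) (sp : Sparse H K) :
    ∃ j, ∀ i, KK H K i ≤ KK H K j := by
  classical
  have hdir : Directed (· ≤ ·) (KK H K) :=
    directed_of_isDirected_le (fun i j h => KK_mono hn K h)
  obtain ⟨D, hD⟩ : ∃ D : Subgroup G, D = ⨆ j, KK H K j := ⟨_, rfl⟩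
  have hmem : ∀ x, x ∈ D ↔ ∃ j, x ∈ KK H K j := by
    intro x
    rw [hD]
    exact mem_iSup_of_directed hdir
  have hDK : D ≤ K := by
    rw [hD]
    exact iSup_le fun j => inf_le_left
  obtain ⟨F, hF, hFf, hC⟩ := sp D hDK
  have h1 : ∀ f : F, ∃ j, (f : G) ∈ KK H K j := fun f => (hmem _).1 (hF f.2)
  choose φ hφ using h1
  have := Fintype.ofFinite F
  obtain ⟨j, hj⟩ : ∃ j, ∀ f : F, φ f ≤ j :=
    ⟨Finset.univ.sup φ, fun f => Finset.le_sup (Finset.mem_univ f)⟩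
  have hFj : F ≤ KK H K j := fun f hf => KK_mono hn K (hj ⟨f, hf⟩) (hφ ⟨f, hf⟩)
  have hRn := R_normal hn j
  have hRt : normalizer ((R H j : Subgroup G) : Set G) = ⊤ := normalizer_eq_top_iff.2 hRn
  refine ⟨j, fun i x hx => ?_⟩
  have hxK : x ∈ K := hx.1
  have hxD : x ∈ D := (hmem x).2 ⟨i, hx⟩
  refine (mem_KK hn).2 ⟨hxK, fun h hh => ?_⟩
  obtain ⟨r, hr, hfix⟩ := fixpt lf (R_le H j) piH (isPi_mono (hF.trans hDK) piK) hFf
    (solv_of_le solK hFf (hF.trans hDK)) (F := F) (by rw [hRt]; exact le_top) (h := h)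
    (by rw [hRt]; exact mem_top h) (fun f hf => ((mem_KK hn).1 (hFj hf)).2 h hh)
  have hrH : r ∈ H := R_le H j hr
  have hc : h * r ∈ H ⊓ centralizer (F : Set G) := by
    refine mem_inf.2 ⟨H.mul_mem hh hrH, mem_centralizer_iff.2 ?_⟩
    intro f hf
    have h2 := hfix f hf
    calc f * (h * r) = f * (h * r) * f⁻¹ * f := by group
      _ = h * r * f := by rw [h2]
  rw [← hC] at hc
  have h3 := mem_centralizer_iff.1 hc.2 x hxD
  have h4 : ⁅r⁻¹, x⁆ ∈ R H j := by
    rw [commutatorElement_def, inv_inv, mul_assoc, mul_assoc, ← mul_assoc x]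
    exact (R H j).mul_mem ((R H j).inv_mem hr) (hRn.conj_mem r hr x)
  have e : ⁅h, x⁆ = (h * r) * ⁅r⁻¹, x⁆ * (h * r)⁻¹ := by
    have h5 : (h * r)⁻¹ * x⁻¹ = x⁻¹ * (h * r)⁻¹ := by
      rw [← mul_inv_rev, ← mul_inv_rev, h3]
    calc ⁅h, x⁆ = (h * r) * r⁻¹ * x * r * ((h * r)⁻¹ * x⁻¹) := by
          rw [commutatorElement_def]
          group
      _ = (h * r) * r⁻¹ * x * r * (x⁻¹ * (h * r)⁻¹) := by rw [h5]
      _ = (h * r) * ⁅r⁻¹, x⁆ * (h * r)⁻¹ := by
          rw [commutatorElement_def]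
          group
  rw [e]
  exact hRn.conj_mem _ h4 _

/-- the situation of theorem Q -/
structure Cx (π : Set ℕ) (H K : Subgroup G) : Prop where
  lf : LocFin G
  nor : H.Normal
  piH : IsPi πᶜ H
  piK : IsPi π K
  solH : LocSol H
  solK : LocSol K
  sp : Sparse H K
  deep : ∀ j, ∀ x ∈ K, (∀ h ∈ H, ⁅h, x⁆ ∈ R H j) → x = 1

end MP0d06d9I
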