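import Pool.Agent.Lib.MP_0d06d9_alR.InfB
import Pool.Agent.Lib.MP_0d06d9_alR.HK

/-!
# MP_0d06d9_al, Rae's theorem: passage to the quotient (step A2)
-/

set_option autoImplicit false

namespace MP0d06d9I

open Subgroup commutatorElement MP0d06d9 MP0d06d9R

universe u

variable {G : Type u} [Group G]

theorem inf_bot {π : Set ℕ} {H K : Subgroup G} (piH : IsPi πᶜ H) (piK : IsPi π K) : H ⊓ K = ⊥ := by
  rw [eq_bot_iff]
  intro x hx
  rw [mem_bot, ← orderOf_eq_one_iff, Nat.eq_one_iff_not_exists_prime_dvd]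
  intro p hp hpx
  exact piH x hx.1 p hp hpx (piK x hx.2 p hp hpx)

theorem map_isPi {G' : Type*} [Group G'] (f : G →* G') {σ : Set ℕ} {A : Subgroup G}
    (h : IsPi σ A) : IsPi σ (A.map f) := by
  rintro _ ⟨x, hx, rfl⟩ p hp hpx
  exact h x hx p hp (hpx.trans (orderOf_map_dvd f x))

theorem map_locSol {G' : Type*} [Group G'] (f : G →* G') {A : Subgroup G}
    (h : LocSol A) : LocSol (A.map f) := by
  classical
  intro S hS
  have h1 : ∀ s : G', s ∈ S → ∃ x ∈ A, f x = s := fun s hs => hS hs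
  choose! g hg hgf using h1
  have h2 := h (S.image g) (by
    intro x hx
    rw [Finset.coe_image] at hx
    obtain ⟨s, hs, rfl⟩ := hx
    exact hg s hs)
  have h3 : closure (S : Set G') ≤ (closure ((S.image g : Finset G) : Set G)).map f := by
    rw [closure_le]
    intro s hs
    refine ⟨g s, Subgroup.subset_closure ?_, hgf s hs⟩
    rw [Finset.coe_image]
    exact ⟨s, hs, rfl⟩
  have h4 : Group.IsSolvable ((closure ((S.image g : Finset G) : Set G)).map f) := by
    have hs : Function.Surjective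
        (f.subgroupMap (closure ((S.image g : Finset G) : Set G))) :=
      f.subgroupMap_surjective _
    exact Group.isSolvable_of_surjective hs
  exact Group.isSolvable_of_isSolvable_injective (f := Subgroup.inclusion h3)
    (inclusion_injective h3)

section

variable {π : Set ℕ} {H K : Subgroup G}

/-- the kernel of the passage to the quotient -/
theorem Q_normal (hn : H.Normal) (top : H ⊔ K = ⊤) (j : ℕ) : (R H j ⊔ KK H K j).Normal := by
  have hRt := normalizer_eq_top_iff.2 (R_normal hn j)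
  rw [← normalizer_eq_top_iff, ← top_le_iff, ← top]
  refine sup_le ?_ ?_
  · rw [le_normalizer_iff_commutator_le_left]
    refine sup_comm_le (le_sup_left.trans le_normalizer) (le_sup_right.trans le_normalizer) ?_ ?_
    · refine (le_normalizer_iff_commutator_le_left.1 ?_).trans le_sup_left
      rw [hRt]
      exact le_top
    · rw [commutator_comm]
      exact ((commutator_mono le_rfl inf_le_right).trans (comm_TH H (R H j))).trans le_sup_left
  · refine norm_sup ?_ (KK_norm hn K j)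
    rw [hRt]
    exact le_top

theorem H_inf_Q (hn : H.Normal) (piH : IsPi πᶜ H) (piK : IsPi π K) (j : ℕ) :
    H ⊓ (R H j ⊔ KK H K j) ≤ R H j := by
  have hR := R_normal hn j
  rintro x ⟨hxH, hxQ⟩
  obtain ⟨y, hy, z, hz, rfl⟩ := mem_sup_of_normal_left.1 hxQ
  have h1 : z ∈ H ⊓ K := by
    refine mem_inf.2 ⟨?_, hz.1⟩
    have e : z = y⁻¹ * (y * z) := by group
    rw [e]
    exact H.mul_mem (H.inv_mem (R_le H j hy)) hxH
  rw [inf_bot piH piK, mem_bot] at h1
  rw [h1, mul_one]
  exact hy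

theorem K_inf_Q (hn : H.Normal) (piH : IsPi πᶜ H) (piK : IsPi π K) (j : ℕ) :
    K ⊓ (R H j ⊔ KK H K j) ≤ KK H K j := by
  have hR := R_normal hn j
  rintro x ⟨hxK, hxQ⟩
  obtain ⟨y, hy, z, hz, rfl⟩ := mem_sup_of_normal_left.1 hxQ
  have h1 : y ∈ H ⊓ K := by
    refine mem_inf.2 ⟨R_le H j hy, ?_⟩
    have e : y = (y * z) * z⁻¹ := by group
    rw [e]
    exact K.mul_mem hxK (K.inv_mem hz.1)
  rw [inf_bot piH piK, mem_bot] at h1
  rw [h1, one_mul]
  exact hz

theorem quot (lf : LocFin G) (hn : H.Normal) (piH : IsPi πᶜ H) (piK : IsPi π K)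
    (solH : LocSol H) (solK : LocSol K) (sp : Sparse H K) (top : H ⊔ K = ⊤) {j : ℕ}
    (hj : ∀ i, KK H K i ≤ KK H K j) (hinf : (KK H K j).relIndex K = 0) :
    ∃ (Γ : Type u) (_ : Group Γ) (H' K' : Subgroup Γ), Cx π H' K' ∧ Infinite K' := by
  have hQn := Q_normal hn top j
  have hHQ := H_inf_Q hn piH piK j
  have hKQ := K_inf_Q hn piH piK j
  have hRn := R_normal hn j
  have hRt := normalizer_eq_top_iff.2 hRn
  obtain ⟨Q, hQ⟩ : ∃ Q : Subgroup G, Q = R H j ⊔ KK H K j := ⟨_, rfl⟩
  rw [← hQ] at hQn hHQ hKQ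
  have hRQ : R H j ≤ Q := hQ ▸ le_sup_left
  have hKKQ : KK H K j ≤ Q := hQ ▸ le_sup_right
  obtain ⟨f, hf⟩ : ∃ f : G →* G ⧸ Q, f = QuotientGroup.mk' Q := ⟨_, rfl⟩
  have hfs : Function.Surjective f := hf ▸ QuotientGroup.mk'_surjective Q
  have hfk : f.ker = Q := hf ▸ QuotientGroup.ker_mk' Q
  have hf1 : ∀ x, f x = 1 ↔ x ∈ Q := fun x => by rw [← MonoidHom.mem_ker, hfk]
  have lf' : LocFin (G ⧸ Q) := lf_of_surj f hfs lf
  refine ⟨G ⧸ Q, inferInstance, H.map f, K.map f, ⟨lf', hn.map f hfs, map_isPi f piH,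
    map_isPi f piK, map_locSol f solH, map_locSol f solK, ?_, ?_⟩, ?_⟩
  · -- Sparse
    intro L' hL'
    obtain ⟨F, hF, hFf, hC⟩ := sp (K ⊓ L'.comap f) inf_le_left
    have hFf' : Finite (F.map f) := by
      have h2 : ((F.map f : Subgroup (G ⧸ Q)) : Set (G ⧸ Q)).Finite := by
        rw [coe_map]
        exact (Set.toFinite (F : Set G)).image _
      exact h2
    have hFL : F.map f ≤ L' := map_le_iff_le_comap.2 (hF.trans inf_le_right)
    refine ⟨F.map f, hFL, hFf', le_antisymm ?_ ?_⟩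
    · exact inf_le_inf_left _ (centralizer_le hFL)
    · rintro _ ⟨⟨h, hh, rfl⟩, hc⟩
      refine mem_inf.2 ⟨⟨h, hh, rfl⟩, mem_centralizer_iff.2 ?_⟩
      have h1 : ∀ x ∈ F, ⁅h, x⁆ ∈ R H j := by
        intro x hx
        refine hHQ (mem_inf.2 ⟨?_, ?_⟩)
        · rw [commutatorElement_def, mul_assoc, mul_assoc, ← mul_assoc x]
          exact H.mul_mem hh (hn.conj_mem _ (H.inv_mem hh) x)
        · rw [← hf1, map_commutatorElement, commutatorElement_eq_one_iff_mul_comm]
          exact (mem_centralizer_iff.1 hc (f x) ⟨x, hx, rfl⟩).symm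
      obtain ⟨r, hr, hfix⟩ := fixpt lf (R_le H j) piH (isPi_mono (hF.trans inf_le_left) piK) hFf
        (solv_of_le solK hFf (hF.trans inf_le_left)) (F := F) (by rw [hRt]; exact le_top) (h := h)
        (by rw [hRt]; exact mem_top h) h1
      have hc2 : h * r ∈ H ⊓ centralizer (F : Set G) := by
        refine mem_inf.2 ⟨H.mul_mem hh (R_le H j hr), mem_centralizer_iff.2 ?_⟩
        intro x hx
        have h2 := hfix x hx
        calc x * (h * r) = x * (h * r) * x⁻¹ * x := by group
          _ = h * r * x := by rw [h2]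
      rw [← hC] at hc2
      have h3 : f h = f (h * r) := by
        rw [map_mul, (hf1 r).2 (hRQ hr), mul_one]
      intro l' hl'
      obtain ⟨l, hl, rfl⟩ := hL' hl'
      have h4 := mem_centralizer_iff.1 hc2.2 l ⟨hl, hl'⟩
      rw [h3, ← map_mul, ← map_mul, h4]
  · -- deep
    rintro i _ ⟨x, hx, rfl⟩ h1
    rw [hf1]
    apply hKKQ
    apply hj (j + i)
    refine (mem_KK hn).2 ⟨hx, fun h hh => ?_⟩
    refine R_comap lf' f (j := j) (by rw [hfk]; exact hHQ) i (mem_inf.2 ⟨?_, ?_⟩)
    · rw [commutatorElement_def, mul_assoc, mul_assoc, ← mul_assoc x]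
      exact H.mul_mem hh (hn.conj_mem _ (H.inv_mem hh) x)
    · show f ⁅h, x⁆ ∈ R (H.map f) i
      rw [map_commutatorElement]
      exact h1 (f h) ⟨h, hh, rfl⟩
  · -- infinite
    have h1 : Nat.card (K.map f) = 0 := by
      rw [← relIndex_ker, hfk, ← inf_relIndex_right]
      have h2 : Q ⊓ K = KK H K j := by
        refine le_antisymm ?_ (le_inf hKKQ inf_le_left)
        rw [inf_comm]
        exact hKQ
      rw [h2, hinf]
    rcases Nat.card_eq_zero.1 h1 with h2 | h2
    · exact absurd h2 (not_isEmpty_of_nonempty _)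
    · exact h2

end

end MP0d06d9I
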