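import Pool.Agent.Lib.MP_0d06d9_alR.InfT

/-!
# MP_0d06d9_al, Rae's theorem: the limit argument (B5), theorem `lim`
-/

set_option autoImplicit false

namespace MP0d06d9I

open Subgroup commutatorElement MP0d06d9 MP0d06d9R

variable {G : Type*} [Group G]

theorem b5 (lf : LocFin G) {H N : Subgroup G} (hN : N ≤ H) (hHN : H ≤ normalizer (N : Set G))
    (h : ∀ M₀ : Subgroup G, Finite M₀ → M₀ ≤ H → ∃ F : Subgroup G, M₀ ≤ normalizer (F : Set G) ∧
      (∃ n, D n F = ⊥) ∧ ∃ c, D c (M₀ ⊓ N) ≤ F) : N ≤ R H 2 := by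
  classical
  obtain ⟨𝔽, hF1, hF2⟩ := exists_ult lf H
  choose! F hFn hFnil hFc using h
  obtain ⟨V, hV⟩ := ulim (𝔽 : Filter (Subgroup G)) F
  have hR1 : V ⊓ H ≤ R H 1 := by
    refine R_max inf_le_right ?_ ?_
    · refine norm_inf ?_ le_normalizer
      rw [le_normalizer_iff]
      intro g hg x hx
      rw [hV] at hx ⊢
      have h1 : Finite (closure ({g} : Set G)) := fin_clo lf (Set.finite_singleton g)
      have h2 : closure ({g} : Set G) ≤ H := by
        rw [closure_le]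
        intro y hy
        rw [Set.mem_singleton_iff.1 hy]
        exact hg
      filter_upwards [hx, hF1, hF2 _ h2 h1] with X h3 h4 h5
      exact le_normalizer_iff.1 (hFn X h4.2 h4.1) g (h5 (Subgroup.subset_closure rfl)) x h3
    · intro E hE hEV
      have hEf : (E : Set G).Finite := Set.toFinite _
      have h1 : ∀ᶠ X in (𝔽 : Filter (Subgroup G)), ∀ e ∈ (E : Set G), e ∈ F X :=
        (Filter.eventually_all_finite hEf).2 fun e he => (hV e).1 (hEV he).1
      obtain ⟨X, h2, h3⟩ := (h1.and hF1).exists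
      obtain ⟨n, hn⟩ := hFnil X h3.2 h3.1
      refine ⟨n, ?_⟩
      rw [R_zero, ← hn]
      exact D_mono h2 n
  refine R_max hN hHN (j := 1) ?_
  intro E hE hEN
  refine ⟨Nat.card E, le_trans ?_ hR1⟩
  have hEH : E ≤ H := hEN.trans hN
  refine le_inf ?_ ((D_le _ E).trans hEH)
  intro x hx
  rw [hV]
  filter_upwards [hF1, hF2 E hEH hE] with X h4 h5
  obtain ⟨c, hc⟩ := hFc X h4.2 h4.1
  exact hc (D_mono (le_inf h5 hEN) c (D_card_le hE c hx))

theorem lim {π : Set ℕ} (lf : LocFin G) {H : Subgroup G} (hn : H.Normal) (piH : IsPi πᶜ H)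
    (solH : LocSol H) (h2 : 2 ∉ π) {x : G} {b d : ℕ} (hb0 : b ≠ 0) (hb : x ^ b = 1)
    (hbπ : ∀ p : ℕ, p.Prime → p ∣ b → p ∈ π) (hd : d ∣ b) (hd1 : d ≠ 1)
    (hsp : ∀ m ∈ H, m * x ^ d = x ^ d * m → m * x = x * m) {T : Subgroup G} (hTf : Finite T)
    (hTH : T ≤ H) (hT : Full x b T) : T ≤ R H 2 := by
  classical
  obtain ⟨S, hS⟩ : ∃ S : Set G, S = {g | ∃ h ∈ H, ∃ T : Subgroup G, Finite T ∧ T ≤ H ∧
    Full x b T ∧ ∃ t ∈ T, g = h * t * h⁻¹} := ⟨_, rfl⟩
  have hSH : S ⊆ H := by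
    intro g hg
    rw [hS] at hg
    obtain ⟨h, hh, T, _, hT, _, t, ht, rfl⟩ := hg
    exact H.mul_mem (H.mul_mem hh (hT ht)) (H.inv_mem hh)
  have hN : closure S ≤ H := (closure_le _).2 hSH
  have hHN : H ≤ normalizer ((closure S : Subgroup G) : Set G) := by
    rw [le_normalizer_closure_iff]
    intro k hk g hg
    apply Subgroup.subset_closure
    rw [hS] at hg ⊢
    obtain ⟨h, hh, T, a1, a2, a3, t, ht, rfl⟩ := hg
    exact ⟨k * h, H.mul_mem hk hh, T, a1, a2, a3, t, ht, by group⟩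
  have key : closure S ≤ R H 2 := by
    refine b5 lf hN hHN ?_
    intro M₀ hM₀f hM₀H
    obtain ⟨S', hS', hMS⟩ := fin_in_clo (E := M₀ ⊓ closure S) (fin_le inf_le_left hM₀f) inf_le_right
    have h1 : ∀ s ∈ S', ∃ X : Subgroup G, Finite X ∧ X ≤ H ∧ ∃ h ∈ X, ∃ T : Subgroup G, T ≤ X ∧
        Full x b T ∧ ∃ t ∈ T, s = h * t * h⁻¹ := by
      intro s hs
      have h2 := hS' hs
      rw [hS] at h2
      obtain ⟨h, hh, T, a1, a2, a3, t, ht, rfl⟩ := h2
      have h3 : Finite (closure ({h} : Set G)) := fin_clo lf (Set.finite_singleton h)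
      have h4 : closure ({h} : Set G) ≤ H := by
        rw [closure_le]
        intro y hy
        rw [Set.mem_singleton_iff.1 hy]
        exact hh
      exact ⟨closure {h} ⊔ T, fin_sup lf h3 a1, sup_le h4 a2, h,
        (le_sup_left : closure ({h} : Set G) ≤ closure {h} ⊔ T) (Subgroup.subset_closure rfl),
        T, le_sup_right, a3, t, ht, rfl⟩
    choose! X hXf hXH hX using h1
    obtain ⟨L, hL⟩ : ∃ L : Subgroup G, L = closure ((M₀ : Set G) ∪ {x} ∪
      ⋃ s ∈ S', (X s : Set G)) := ⟨_, rfl⟩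
    have hLf : Finite L := by
      rw [hL]
      refine fin_clo lf (((Set.toFinite (M₀ : Set G)).union (Set.finite_singleton x)).union ?_)
      refine Set.Finite.biUnion (Finset.finite_toSet S') ?_
      intro s hs
      have := hXf s hs
      exact Set.toFinite _
    have hM₀L : M₀ ≤ L := fun y hy => hL ▸ Subgroup.subset_closure (Or.inl (Or.inl hy))
    have hxL : x ∈ L := hL ▸ Subgroup.subset_closure (Or.inl (Or.inr rfl))
    have hXL : ∀ s ∈ S', X s ≤ L := fun s hs y hy =>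
      hL ▸ Subgroup.subset_closure (Or.inr (Set.mem_biUnion hs hy))
    have hMf : Finite (H ⊓ L : Subgroup G) := fin_le inf_le_right hLf
    have hxM : x ∈ normalizer ((H ⊓ L : Subgroup G) : Set G) := by
      have h3 : L ≤ normalizer ((H ⊓ L : Subgroup G) : Set G) :=
        norm_inf (by rw [normalizer_eq_top_iff.2 hn]; exact le_top) le_normalizer
      exact h3 hxL
    have hco : b.Coprime (Nat.card (H ⊓ L : Subgroup G)) := by
      by_contra hc
      obtain ⟨p, hp, h3, h4⟩ := Nat.Prime.not_coprime_iff_dvd.1 hc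
      have : Fact p.Prime := ⟨hp⟩
      obtain ⟨y, hy⟩ := exists_prime_orderOf_dvd_card' (G := (H ⊓ L : Subgroup G)) p h4
      have h5 : p ∈ πᶜ := piH y y.2.1 p hp (by rw [Subgroup.orderOf_coe, hy])
      exact h5 (hbπ p hp h3)
    have hodd : Odd b := by
      rw [← Nat.not_even_iff_odd, even_iff_two_dvd]
      intro h3
      exact h2 (hbπ 2 Nat.prime_two h3)
    obtain ⟨F, b1, b2, b3, c, b4⟩ := b3g lf hMf (solv_of_le solH hMf inf_le_left) hxM hb hco hodd
      hd hd1 (fun m hm => hsp m hm.1)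
    refine ⟨F, (le_inf hM₀H hM₀L).trans b2, b3, c, le_trans (D_mono ?_ c) b4⟩
    refine hMS.trans ?_
    rw [closure_le]
    intro s hs
    obtain ⟨h, hh, T, c1, c2, t, ht, h3⟩ := hX s hs
    apply Subgroup.subset_closure
    have h4 : X s ≤ H ⊓ L := le_inf (hXH s hs) (hXL s hs)
    exact ⟨h, h4 hh, T, c1.trans h4, c2, t, ht, h3⟩
  refine le_trans ?_ key
  intro t ht
  apply Subgroup.subset_closure
  rw [hS]
  exact ⟨1, H.one_mem, T, hTf, hTH, hT, t, ht, by group⟩

end MP0d06d9I
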