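import Pool.Agent.Lib.MP_0d06d9_alR.InfD
import Pool.Agent.Lib.MP_0d06d9_alR.E2

/-!
# MP_0d06d9_al, Rae's theorem: type (iii), subgroups of `K` generated by commuting elements `a p` of
order `p`, `p` in an infinite set `σ` of primes

PROOFS.
* `exists_gen`: induction on `ρ` (`Finset.induction_on`): `x = 1` for `∅`; for `insert q ρ`
  (`q ∉ ρ`) take `a q * x` (`x ∈ closure (a '' ρ)` commutes with `a q`; keep it as part of the
  induction). `(a q * x) ^ (q * b) = 1`, `b = ∏ ρ`. For `p ∈ ρ`, `¬ p ∣ k`: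
  `((a q * x) ^ k) ^ q = x ^ (k * q)` and `¬ p ∣ k * q`. For `q`, `¬ q ∣ k`:
  `((a q * x) ^ k) ^ b = a q ^ (k * b)`, and `¬ q ∣ k * b`, so it generates `zpowers (a q)`
  (`orderOf (a q) = q` prime: `mem_zpowers_pow_iff`-like, `Nat.Coprime`, `pow_gcd`).
* `Gen.norm`: everything that normalises (contains, commutes with) ... by `closure_le`.
* `full_of_FR`: `x ∈ closure (a '' ρ) ≤ normalizer T`. If `¬ b ∣ i` some `p ∈ ρ` has `¬ p ∣ i`
  (otherwise the product of the distinct primes of `ρ` divides `i`: `Finset.prod_primes_dvd`), so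
  `a p ∈ zpowers (x ^ i)` and `T = ⁅T, zpowers (a p)⁆ ≤ ⁅T, zpowers (x ^ i)⁆ ≤ T`.
* `full_pow`: the same for `x ^ p'`, `x` a generator for `insert p' ρ`: if `¬ b' ∣ i`, `b' = ∏ ρ`, then
  some `p ∈ ρ` has `¬ p ∣ i`, so `¬ p ∣ p' * i` and `a p ∈ zpowers (x ^ (p' * i))`.
* `FR_of_full`: `a p = x ^ i` for a natural number `i` (`x` has finite order), `a p ≠ 1` so
  `¬ b ∣ i`, and `zpowers (x ^ i) = zpowers (a p)`; `a p` is in `zpowers x ≤ normalizer T`.
* `exists_tau`: `A = closure (a '' S) ≤ K`, `F ≤ A` finite from `h.sp A`; `F` is contained in the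
  closure of a finite subset of `a '' S` (`fin_in_clo`), take preimages.
* `not_Sm_sing`: otherwise there is `j` with `T ≤ R H j` for all finite `T ≤ H` with `FR a {p} T`.
  For `h ∈ H`: `M = H ⊓ closure {h, a p}` is finite, normalised by `a p`. `T = ⁅M, zpowers (a p)⁆`
  is `FR` by coprime action (`comm_comm` of helper63 in Grp63.tgz for the ambient group
  `closure {h, a p}`, or `comm_eq` of CLb with the ambient group replaced, or `fixpt`), so
  `⁅h, a p⁆ ∈ R H j`; by `h.deep` `a p = 1`, against `orderOf (a p) = p`.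
* `e1`: `τ` from `exists_tau`. Let `ρ` be given, `j` a common index for the finitely many small sets
  `insert p' ρ`, `p' ∈ τ` (`R_mono`), `p ∈ S`; CLAIM: `insert p ρ` is small with the same `j`. Let
  `T ≤ H` be finite with `FR a (insert p ρ) T`. `T'` = closure of all `g * t * g⁻¹`, `t ∈ T`,
  `g ∈ closure (a '' τ)` (a finite group): finite, `≤ H`, `FR a (insert p ρ) T'` (the `a q`
  commute with `g`), normalised by `a q` for `q ∈ τ ∪ insert p ρ`, `T ≤ T'`. For `p' ∈ τ`: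
  `∀ t ∈ T', ⁅t, a p'⁆ ∈ R H j`: if `p' ∈ ρ`, `insert p' ρ = ρ ⊆ insert p ρ`, so `T' ≤ R H j`.
  If `p' ∉ ρ`: `x` from `exists_gen` for `insert p' ρ`, `b4g` with `M = T'`, `N = R H j ⊓ T'`,
  `b' = ∏ ρ`, `p = p'`: `Full (x ^ p') b' T'` is `full_pow`; `hno`: a full subgroup for `x` is
  `FR a (insert p' ρ)` (`FR_of_full`), so it is `≤ R H j`. Result: `⁅t, x ^ b'⁆ ∈ R H j`, and
  `a p' ∈ zpowers (x ^ b')` (`Gen.gen`, `¬ p' ∣ b'`), so `a p' ∈ TH T' (R H j)`. So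
  `closure (a '' τ) ≤ TH T' (R H j)`. `fixpt` (with `F = closure (a '' τ)`, `A = R H j`): for
  `t ∈ T'` there is `r ∈ R H j` with `t * r` commuting with `a q`, `q ∈ τ`, so with `a p`
  (`exists_tau`); `⁅t, a p⁆ = ⁅(t * r) * r⁻¹, a p⁆ ∈ R H j` (as in the proof of `a1` in InfB). So
  `a p ∈ TH T' (R H j)` and `T' = ⁅T', zpowers (a p)⁆ ≤ R H j`.
* `e3`: `τ` from `exists_tau`, `q ∈ S`, `q ∉ τ`, `ρ = insert q τ`, `x` from `exists_gen`. `lim` with
  `b = ∏ ρ`, `d = q`: if `m ∈ H` commutes with `x ^ q` then it commutes with `a p`, `p ∈ τ`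
  (`a p ∈ zpowers (x ^ q)`), so with `a p` for all `p ∈ S`, so with `x`. So `FR a ρ T` implies
  `Full x b T` implies `T ≤ R H 2`: `Sm H a ρ`.
* `typeIII`: `comb` (E2) for `Sm H a`.
-/

set_option autoImplicit false

namespace MP0d06d9I

open Subgroup commutatorElement MP0d06d9 MP0d06d9R

variable {G : Type*} [Group G]

/-- `T` is normalised by the `a p` and `[T, a p] = T`, `p ∈ ρ` -/
def FR (a : ℕ → G) (ρ : Finset ℕ) (T : Subgroup G) : Prop :=
  ∀ p ∈ ρ, a p ∈ normalizer (T : Set G) ∧ ⁅T, zpowers (a p)⁆ = T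

/-- `ρ` is small -/
def Sm (H : Subgroup G) (a : ℕ → G) (ρ : Finset ℕ) : Prop :=
  ∃ j, ∀ T : Subgroup G, Finite T → T ≤ H → FR a ρ T → T ≤ R H j

/-- commuting elements `a p` of order `p` of `K` -/
structure Ty (σ : Set ℕ) (a : ℕ → G) (K : Subgroup G) : Prop where
  pr : ∀ p ∈ σ, p.Prime
  mem : ∀ p ∈ σ, a p ∈ K
  ord : ∀ p ∈ σ, orderOf (a p) = p
  com : ∀ p ∈ σ, ∀ q ∈ σ, a p * a q = a q * a p

/-- `x` is a generator of the cyclic group generated by the `a p`, `p ∈ ρ` -/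
structure Gen (a : ℕ → G) (ρ : Finset ℕ) (x : G) : Prop where
  mem : x ∈ closure (a '' (ρ : Set ℕ))
  pow : x ^ (∏ p ∈ ρ, p) = 1
  gen : ∀ p ∈ ρ, ∀ k : ℕ, ¬ p ∣ k → a p ∈ zpowers (x ^ k)

variable {π : Set ℕ} {H K : Subgroup G} {σ : Set ℕ} {a : ℕ → G}

theorem com_clo (ht : Ty σ a K) {S : Set ℕ} (hS : S ⊆ σ) {q : ℕ} (hq : q ∈ σ) {x : G}
    (hx : x ∈ closure (a '' S)) : a q * x = x * a q := by
  have h1 : closure (a '' S) ≤ centralizer {a q} := by
    rw [closure_le]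
    rintro y ⟨p, hp, rfl⟩
    refine mem_centralizer_iff.2 fun z hz => ?_
    rw [Set.mem_singleton_iff] at hz
    rw [hz]
    exact ht.com q hq p (hS hp)
  exact mem_centralizer_iff.1 (h1 hx) (a q) (Set.mem_singleton _)

theorem comm_zp_le {T : Subgroup G} {y : G} (hy : y ∈ normalizer (T : Set G)) :
    ⁅T, zpowers y⁆ ≤ T := by
  have h1 : zpowers y ≤ normalizer (T : Set G) := zpowers_le.2 hy
  rw [commutator_le]
  intro t htT b hb
  have e : ⁅t, b⁆ = t * (b * t⁻¹ * b⁻¹) := by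
    rw [commutatorElement_def]
    group
  rw [e]
  exact T.mul_mem htT ((mem_normalizer_iff.1 (h1 hb) _).1 (T.inv_mem htT))

theorem not_dvd_prod (ht : Ty σ a K) {ρ : Finset ℕ} (hρ : (ρ : Set ℕ) ⊆ σ) {i : ℕ}
    (hi : ¬ (∏ p ∈ ρ, p) ∣ i) : ∃ p ∈ ρ, ¬ p ∣ i := by
  by_contra hc
  push Not at hc
  exact hi (Finset.prod_primes_dvd i (fun p hp => (ht.pr p (hρ hp)).prime) hc)

theorem exists_gen (ht : Ty σ a K) (ρ : Finset ℕ) (hρ : (ρ : Set ℕ) ⊆ σ) : ∃ x, Gen a ρ x := by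
  classical
  induction ρ using Finset.induction_on with
  | empty =>
    refine ⟨1, Subgroup.one_mem _, one_pow _, ?_⟩
    intro p hp
    exact absurd hp (Finset.notMem_empty p)
  | insert q ρ hq ih =>
    have hqσ : q ∈ σ := hρ (by simp)
    have hρ' : (ρ : Set ℕ) ⊆ σ := fun p hp => hρ (by
      rw [Finset.coe_insert]
      exact Or.inr hp)
    obtain ⟨x, hx⟩ := ih hρ'
    have hqp : q.Prime := ht.pr q hqσ
    have hco : Commute (a q) x := com_clo ht hρ' hqσ hx.mem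
    have haq : a q ^ q = 1 := by
      have h1 := pow_orderOf_eq_one (a q)
      rwa [ht.ord q hqσ] at h1
    refine ⟨a q * x, ?_, ?_, ?_⟩
    · refine Subgroup.mul_mem _ (Subgroup.subset_closure ⟨q, by simp, rfl⟩) ?_
      refine Subgroup.closure_mono (Set.image_mono ?_) hx.mem
      rw [Finset.coe_insert]
      exact Set.subset_insert _ _
    · rw [Finset.prod_insert hq, hco.mul_pow, pow_mul, haq, one_pow, one_mul, mul_comm q, pow_mul,
        hx.pow, one_pow]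
    · intro p hp k hk
      rcases Finset.mem_insert.1 hp with rfl | hp
      · have h1 : ((a p * x) ^ k) ^ (∏ p ∈ ρ, p) = a p ^ (k * ∏ p ∈ ρ, p) := by
          rw [← pow_mul, hco.mul_pow, mul_comm k (∏ p ∈ ρ, p), pow_mul x, hx.pow, one_pow, mul_one]
        have h2 : ¬ p ∣ k * ∏ p ∈ ρ, p := by
          intro h3
          rcases (Nat.Prime.dvd_mul hqp).1 h3 with h3 | h3
          · exact hk h3
          · obtain ⟨r, hr, hpr⟩ := (Prime.dvd_finsetProd_iff hqp.prime _).1 h3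
            have h4 := (Nat.prime_dvd_prime_iff_eq hqp (ht.pr r (hρ' hr))).1 hpr
            exact hq (h4 ▸ hr)
        have h3 : (k * ∏ p ∈ ρ, p).Coprime (orderOf (a p)) := by
          rw [ht.ord p hqσ]
          exact (Nat.coprime_comm.1 ((Nat.Prime.coprime_iff_not_dvd hqp).2 h2))
        obtain ⟨m, hm⟩ := exists_pow_eq_self_of_coprime h3
        rw [← h1] at hm
        have h4 : (((a p * x) ^ k) ^ (∏ p ∈ ρ, p)) ^ m ∈ zpowers ((a p * x) ^ k) :=
          Subgroup.pow_mem _ (Subgroup.pow_mem _ (mem_zpowers _) _) _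
        rwa [hm] at h4
      · have hpq : p ≠ q := fun h => hq (h ▸ hp)
        have hpp : p.Prime := ht.pr p (hρ' hp)
        have h2 : ¬ p ∣ k * q := by
          intro h3
          rcases (Nat.Prime.dvd_mul hpp).1 h3 with h3 | h3
          · exact hk h3
          · exact hpq ((Nat.prime_dvd_prime_iff_eq hpp hqp).1 h3)
        have h1 : ((a q * x) ^ k) ^ q = x ^ (k * q) := by
          rw [← pow_mul, hco.mul_pow, mul_comm k q, pow_mul (a q), haq, one_pow, one_mul]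
        have h3 := hx.gen p hp (k * q) h2
        rw [← h1] at h3
        exact (zpowers_le.2 (Subgroup.pow_mem _ (mem_zpowers _) _)) h3

theorem clo_norm {ρ : Finset ℕ} {T : Subgroup G} (h : ∀ p ∈ ρ, a p ∈ normalizer (T : Set G)) :
    closure (a '' (ρ : Set ℕ)) ≤ normalizer (T : Set G) := by
  rw [closure_le]
  rintro y ⟨p, hp, rfl⟩
  exact h p hp

/-- if `a p` is a power of `y` and `y` normalises `T`, then `[T, y] = T` -/
theorem eq_of_mem {T : Subgroup G} {y z : G} (hy : y ∈ normalizer (T : Set G))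
    (hz : z ∈ zpowers y) (hT : ⁅T, zpowers z⁆ = T) : ⁅T, zpowers y⁆ = T := by
  refine le_antisymm (comm_zp_le hy) ?_
  conv_lhs => rw [← hT]
  exact commutator_mono le_rfl (zpowers_le.2 hz)

theorem full_of_FR (ht : Ty σ a K) {ρ : Finset ℕ} (hρ : (ρ : Set ℕ) ⊆ σ) {x : G}
    (hx : Gen a ρ x) {T : Subgroup G} (hT : FR a ρ T) : Full x (∏ p ∈ ρ, p) T := by
  have hxT : x ∈ normalizer (T : Set G) := clo_norm (fun p hp => (hT p hp).1) hx.mem
  refine ⟨hxT, fun i hi => ?_⟩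
  obtain ⟨p, hp, hpi⟩ := not_dvd_prod ht hρ hi
  exact eq_of_mem (Subgroup.pow_mem _ hxT i) (hx.gen p hp i hpi) (hT p hp).2

theorem full_pow (ht : Ty σ a K) {ρ : Finset ℕ} {p' : ℕ} (hp' : p' ∉ ρ)
    (hρ : ((insert p' ρ : Finset ℕ) : Set ℕ) ⊆ σ) {x : G}
    (hx : Gen a (insert p' ρ) x) {T : Subgroup G} (hT : FR a ρ T)
    (hxT : a p' ∈ normalizer (T : Set G)) : Full (x ^ p') (∏ p ∈ ρ, p) T := by
  have hxT' : x ∈ normalizer (T : Set G) := by
    refine clo_norm (fun p hp => ?_) hx.mem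
    rcases Finset.mem_insert.1 hp with rfl | hp
    · exact hxT
    · exact (hT p hp).1
  refine ⟨Subgroup.pow_mem _ hxT' p', fun i hi => ?_⟩
  have hρ' : (ρ : Set ℕ) ⊆ σ := fun p hp => hρ (by
    rw [Finset.coe_insert]
    exact Or.inr hp)
  have hp'σ : p' ∈ σ := hρ (by simp)
  obtain ⟨p, hp, hpi⟩ := not_dvd_prod ht hρ' hi
  have hpp : p.Prime := ht.pr p (hρ' hp)
  have h2 : ¬ p ∣ p' * i := by
    intro h3
    rcases (Nat.Prime.dvd_mul hpp).1 h3 with h3 | h3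
    · exact hp' ((Nat.prime_dvd_prime_iff_eq hpp (ht.pr p' hp'σ)).1 h3 ▸ hp)
    · exact hpi h3
  have h3 := hx.gen p (Finset.mem_insert_of_mem hp) (p' * i) h2
  rw [pow_mul] at h3
  exact eq_of_mem (Subgroup.pow_mem _ (Subgroup.pow_mem _ hxT' p') i) h3 (hT p hp).2

theorem FR_of_full (ht : Ty σ a K) {ρ : Finset ℕ} (hρ : (ρ : Set ℕ) ⊆ σ) {x : G}
    (hx : Gen a ρ x) {T : Subgroup G} (hT : Full x (∏ p ∈ ρ, p) T) : FR a ρ T := by
  intro p hp
  have hpp : p.Prime := ht.pr p (hρ hp)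
  have hpos : 0 < ∏ p ∈ ρ, p := Finset.prod_pos fun q hq => (ht.pr q (hρ hq)).pos
  have hfin : IsOfFinOrder x := isOfFinOrder_iff_pow_eq_one.2 ⟨_, hpos, hx.pow⟩
  have h1 : a p ∈ zpowers x := by
    have h2 := hx.gen p hp 1 (fun h => hpp.one_lt.ne' (Nat.dvd_one.1 h))
    rwa [pow_one] at h2
  refine ⟨(zpowers_le.2 hT.1) h1, ?_⟩
  obtain ⟨i, hi⟩ := hfin.mem_powers_iff_mem_zpowers.2 h1
  have hi' : x ^ i = a p := hi
  have h3 : ¬ (∏ p ∈ ρ, p) ∣ i := by
    rintro ⟨k, rfl⟩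
    rw [pow_mul, hx.pow, one_pow] at hi'
    have h4 := ht.ord p (hρ hp)
    rw [← hi', orderOf_one] at h4
    exact hpp.one_lt.ne h4
  have h4 := hT.2 i h3
  rwa [hi'] at h4

theorem exists_tau (h : Cx π H K) (ht : Ty σ a K) {S : Set ℕ} (hS : S ⊆ σ) :
    ∃ τ : Finset ℕ, (τ : Set ℕ) ⊆ S ∧ ∀ c ∈ H, (∀ q ∈ τ, c * a q = a q * c) →
      ∀ p ∈ S, c * a p = a p * c := by
  classical
  have hA : closure (a '' S) ≤ K := by
    rw [closure_le]
    rintro y ⟨p, hp, rfl⟩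
    exact ht.mem p (hS hp)
  obtain ⟨F, hF, hFf, hC⟩ := h.sp _ hA
  obtain ⟨S', hS', hFS⟩ := fin_in_clo hFf hF
  obtain ⟨τ, hτ, rfl⟩ := Finset.subset_set_image_iff.1 hS'
  refine ⟨τ, hτ, fun c hc hcτ p hp => ?_⟩
  have h1 : c ∈ H ⊓ centralizer (F : Set G) := by
    refine mem_inf.2 ⟨hc, mem_centralizer_iff.2 fun f hf => ?_⟩
    have h2 : closure (((τ.image a : Finset G)) : Set G) ≤ centralizer {c} := by
      rw [closure_le]
      intro y hy
      rw [Finset.coe_image] at hy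
      obtain ⟨q, hq, rfl⟩ := hy
      refine mem_centralizer_iff.2 fun z hz => ?_
      rw [Set.mem_singleton_iff] at hz
      rw [hz]
      exact hcτ q hq
    exact (mem_centralizer_iff.1 (h2 (hFS hf)) c (Set.mem_singleton _)).symm
  rw [← hC] at h1
  exact (mem_centralizer_iff.1 h1.2 (a p) (Subgroup.subset_closure ⟨p, hp, rfl⟩)).symm

theorem Sm_mono {ρ ρ' : Finset ℕ} (hρ : ρ ⊆ ρ') (h : Sm H a ρ) : Sm H a ρ' := by
  obtain ⟨j, hj⟩ := h
  exact ⟨j, fun T hT hTH hF => hj T hT hTH fun p hp => hF p (hρ hp)⟩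

/-- coprime action: `[T, A, A] = [T, A]` -/
theorem comm_comm' (T A : Subgroup G) (hTf : Finite T) (hAf : Finite A)
    (hA : A ≤ normalizer (T : Set G)) (hs : Group.IsSolvable A)
    (hco : (Nat.card A).Coprime (Nat.card T)) : ⁅⁅T, A⁆, A⁆ = ⁅T, A⁆ := by
  have hTA : ⁅T, A⁆ ≤ T := by
    rw [commutator_le]
    intro t ht a ha
    have e : ⁅t, a⁆ = t * (a * t⁻¹ * a⁻¹) := by
      rw [commutatorElement_def]
      group
    rw [e]
    exact T.mul_mem ht ((mem_normalizer_iff.1 (hA ha) _).1 (T.inv_mem ht))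
  refine le_antisymm (commutator_mono hTA le_rfl) ?_
  rw [commutator_le]
  intro t ht a ha
  obtain ⟨n, hnN, hfix⟩ := MP0d06d9.cl A ⁅T, A⁆ hAf hs (fin_le hTA hTf)
    (normalizer_commutator_ge_right _ _)
    (Nat.Coprime.coprime_dvd_right (Subgroup.card_dvd_of_le hTA) hco) t (by
      intro b hb
      have e : t⁻¹ * (b * t * b⁻¹) = ⁅t⁻¹, b⁆ := by
        rw [commutatorElement_def]
        group
      rw [e]
      exact commutator_mem_commutator (T.inv_mem ht) hb)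
  have hc : a * (t * n) * a⁻¹ = t * n := hfix a ha
  have hcT : t * n ∈ T := T.mul_mem ht (hTA hnN)
  have h2 : (t * n)⁻¹ * a * (t * n) = a := by
    calc (t * n)⁻¹ * a * (t * n) = (a * (t * n) * a⁻¹)⁻¹ * a * (t * n) := by rw [hc]
      _ = a := by group
  have h3 : ⁅t, a⁆ = ⁅t * n * n⁻¹ * (t * n)⁻¹, a⁆ := by
    rw [commutatorElement_def, commutatorElement_def]
    calc t * a * t⁻¹ * a⁻¹ = t * n * n⁻¹ * a * (t * n * n⁻¹)⁻¹ * a⁻¹ := by group
      _ = t * n * n⁻¹ * ((t * n)⁻¹ * a * (t * n)) * (t * n * n⁻¹)⁻¹ * a⁻¹ := by rw [h2]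
      _ = t * n * n⁻¹ * (t * n)⁻¹ * a * (t * n * n⁻¹ * (t * n)⁻¹)⁻¹ * a⁻¹ := by group
  rw [h3]
  exact commutator_mem_commutator
    ((mem_normalizer_iff.1 (normalizer_commutator_ge_left T A hcT) _).1
      (Subgroup.inv_mem _ hnN)) ha

theorem not_Sm_sing (h : Cx π H K) (ht : Ty σ a K) {p : ℕ} (hp : p ∈ σ) : ¬ Sm H a {p} := by
  rintro ⟨j, hj⟩
  have hpp : p.Prime := ht.pr p hp
  have hnt : normalizer (H : Set G) = ⊤ := normalizer_eq_top_iff.2 h.nor
  have h1 : ∀ y ∈ H, ⁅y, a p⁆ ∈ R H j := by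
    intro y hy
    obtain ⟨L, hL⟩ : ∃ L : Subgroup G, L = closure ({y, a p} : Set G) := ⟨_, rfl⟩
    have hLf : Finite L := hL ▸ fin_clo h.lf (Set.toFinite _)
    have hyL : y ∈ L := hL ▸ Subgroup.subset_closure (by simp)
    have haL : a p ∈ L := hL ▸ Subgroup.subset_closure (by simp)
    have hMf : Finite (H ⊓ L : Subgroup G) := fin_le inf_le_right hLf
    have hAf : Finite (zpowers (a p)) := fin_le (zpowers_le.2 haL) hLf
    have hAs : Group.IsSolvable (zpowers (a p)) :=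
      solv_of_le h.solK hAf (zpowers_le.2 (ht.mem p hp))
    have hAN : zpowers (a p) ≤ normalizer ((H ⊓ L : Subgroup G) : Set G) :=
      norm_inf (hnt ▸ le_top) ((zpowers_le.2 haL).trans le_normalizer)
    have hcop : (Nat.card (zpowers (a p))).Coprime (Nat.card (H ⊓ L : Subgroup G)) :=
      card_coprime hAf hMf (isPi_mono (zpowers_le.2 (ht.mem p hp)) h.piK)
        (isPi_mono inf_le_left h.piH)
    have h2 := comm_comm' (H ⊓ L) (zpowers (a p)) hMf hAf hAN hAs hcop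
    have hTM : ⁅(H ⊓ L : Subgroup G), zpowers (a p)⁆ ≤ H ⊓ L :=
      comm_zp_le (hAN (mem_zpowers _))
    have h3 := hj ⁅(H ⊓ L : Subgroup G), zpowers (a p)⁆ (fin_le hTM hMf) (hTM.trans inf_le_left) (by
      intro q hq
      rw [Finset.mem_singleton] at hq
      rw [hq]
      exact ⟨normalizer_commutator_ge_right _ _ (mem_zpowers _), h2⟩)
    exact h3 (commutator_mem_commutator (mem_inf.2 ⟨hy, hyL⟩) (mem_zpowers _))
  have h2 := h.deep j (a p) (ht.mem p hp) h1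
  have h3 := ht.ord p hp
  rw [h2, orderOf_one] at h3
  exact hpp.one_lt.ne h3

theorem cop {b : ℕ} (hbπ : ∀ p : ℕ, p.Prime → p ∣ b → p ∈ π) (piH : IsPi πᶜ H) {M : Subgroup G}
    (hM : Finite M) (hMH : M ≤ H) : b.Coprime (Nat.card M) := by
  by_contra hc
  obtain ⟨p, hp, h3, h4⟩ := Nat.Prime.not_coprime_iff_dvd.1 hc
  have : Fact p.Prime := ⟨hp⟩
  obtain ⟨y, hy⟩ := exists_prime_orderOf_dvd_card' (G := M) p h4
  have h5 : p ∈ πᶜ := piH y (hMH y.2) p hp (by rw [Subgroup.orderOf_coe, hy])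
  exact h5 (hbπ p hp h3)

theorem odd_of (h2 : 2 ∉ π) {b : ℕ} (hbπ : ∀ p : ℕ, p.Prime → p ∣ b → p ∈ π) : Odd b := by
  rw [← Nat.not_even_iff_odd, even_iff_two_dvd]
  intro h3
  exact h2 (hbπ 2 Nat.prime_two h3)

theorem Ty.pi (ht : Ty σ a K) (piK : IsPi π K) {p : ℕ} (hp : p ∈ σ) : p ∈ π :=
  piK (a p) (ht.mem p hp) p (ht.pr p hp) (by rw [ht.ord p hp])

theorem dvd_prod_mem (ht : Ty σ a K) {ρ : Finset ℕ} (hρ : (ρ : Set ℕ) ⊆ σ) {q : ℕ} (hq : q.Prime)
    (h : q ∣ ∏ p ∈ ρ, p) : q ∈ ρ := by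
  obtain ⟨r, hr, hqr⟩ := (Nat.Prime.prime hq).exists_mem_finset_dvd h
  rwa [(Nat.prime_dvd_prime_iff_eq hq (ht.pr r (hρ hr))).1 hqr]

theorem comm_fix {R₁ : Subgroup G} (hR : R₁.Normal) {t r x : G} (hr : r ∈ R₁)
    (hc : t * r * x = x * (t * r)) : ⁅t, x⁆ ∈ R₁ := by
  have h4 : ⁅r⁻¹, x⁆ ∈ R₁ := by
    rw [commutatorElement_def, inv_inv, mul_assoc, mul_assoc, ← mul_assoc x]
    exact R₁.mul_mem (R₁.inv_mem hr) (hR.conj_mem r hr x)
  have e : ⁅t, x⁆ = (t * r) * ⁅r⁻¹, x⁆ * (t * r)⁻¹ := by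
    have h5 : (t * r)⁻¹ * x⁻¹ = x⁻¹ * (t * r)⁻¹ := by
      rw [← mul_inv_rev, ← mul_inv_rev, hc]
    calc ⁅t, x⁆ = (t * r) * r⁻¹ * x * r * ((t * r)⁻¹ * x⁻¹) := by
          rw [commutatorElement_def]
          group
      _ = (t * r) * r⁻¹ * x * r * (x⁻¹ * (t * r)⁻¹) := by rw [h5]
      _ = (t * r) * ⁅r⁻¹, x⁆ * (t * r)⁻¹ := by
          rw [commutatorElement_def]
          group
  rw [e]
  exact hR.conj_mem _ h4 _

theorem e1 (h : Cx π H K) (h2 : 2 ∉ π) (ht : Ty σ a K) (S : Set ℕ) (hS : S ⊆ σ) :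
    ∃ τ : Finset ℕ, (τ : Set ℕ) ⊆ S ∧ ∀ ρ : Finset ℕ, (ρ : Set ℕ) ⊆ σ →
      (∀ p' ∈ τ, Sm H a (insert p' ρ)) → ∀ p ∈ S, Sm H a (insert p ρ) := by
  classical
  obtain ⟨τ, hτS, hτ⟩ := exists_tau h ht hS
  refine ⟨τ, hτS, fun ρ hρ hsm p hp => ?_⟩
  obtain ⟨j, hj⟩ : ∃ j, ∀ p' ∈ τ, ∀ T : Subgroup G, Finite T → T ≤ H →
      FR a (insert p' ρ) T → T ≤ R H j := by
    choose! φ hφ using hsm
    exact ⟨τ.sup φ, fun p' hp' T h3 h4 h5 => (hφ p' hp' T h3 h4 h5).trans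
      (R_mono H (Finset.le_sup hp'))⟩
  refine ⟨j, fun T hTf hTH hT => ?_⟩
  have hRn := R_normal h.nor j
  have hRt : ∀ y : G, y ∈ normalizer ((R H j : Subgroup G) : Set G) := by
    intro y
    rw [normalizer_eq_top_iff.2 hRn]
    exact mem_top y
  obtain ⟨A, hA⟩ : ∃ A : Subgroup G, A = closure (a '' (τ : Set ℕ)) := ⟨_, rfl⟩
  have hAf : Finite A := hA ▸ fin_clo h.lf ((Finset.finite_toSet τ).image a)
  have hAK : A ≤ K := by
    rw [hA, closure_le]
    rintro _ ⟨q, hq, rfl⟩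
    exact ht.mem q (hS (hτS hq))
  have haA : ∀ q ∈ τ, a q ∈ A := fun q hq => hA ▸ Subgroup.subset_closure ⟨q, hq, rfl⟩
  have hAc : ∀ g ∈ A, ∀ q ∈ σ, ∀ y ∈ zpowers (a q), g * y = y * g := by
    have h3 : A ≤ centralizer (a '' σ) := by
      rw [hA, closure_le]
      rintro _ ⟨q, hq, rfl⟩
      refine mem_centralizer_iff.2 ?_
      rintro _ ⟨q', hq', rfl⟩
      exact ht.com q' hq' q (hS (hτS hq))
    intro g hg q hq y hy
    obtain ⟨i, rfl⟩ := mem_zpowers_iff.1 hy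
    have h4 : Commute g (a q) := (mem_centralizer_iff.1 (h3 hg) (a q) ⟨q, hq, rfl⟩).symm
    exact (h4.zpow_right i).eq
  have hins : ∀ q ∈ insert p ρ, q ∈ σ := by
    intro q hq
    rcases Finset.mem_insert.1 hq with rfl | hq
    · exact hS hp
    · exact hρ hq
  -- the group `T'`
  obtain ⟨Y, hY⟩ : ∃ Y : Set G, Y = Set.image2 (fun g t => g * t * g⁻¹) (A : Set G) (T : Set G) :=
    ⟨_, rfl⟩
  have hYf : Y.Finite := by
    rw [hY]
    exact Set.Finite.image2 _ (Set.toFinite _) (Set.toFinite _)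
  have hYm : ∀ g ∈ A, ∀ t ∈ T, g * t * g⁻¹ ∈ Y := fun g hg t ht' => by
    rw [hY]
    exact ⟨g, hg, t, ht', rfl⟩
  have hYe : ∀ y ∈ Y, ∃ g ∈ A, ∃ t ∈ T, y = g * t * g⁻¹ := by
    intro y hy
    rw [hY] at hy
    obtain ⟨g, hg, t, ht', rfl⟩ := hy
    exact ⟨g, hg, t, ht', rfl⟩
  have hT'f : Finite (closure Y) := fin_clo h.lf hYf
  have hTT' : T ≤ closure Y := by
    intro t ht'
    have h3 := hYm 1 A.one_mem t ht'
    rw [one_mul, inv_one, mul_one] at h3
    exact Subgroup.subset_closure h3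
  have hT'H : closure Y ≤ H := by
    rw [closure_le]
    intro y hy
    obtain ⟨g, _, t, ht', rfl⟩ := hYe y hy
    exact h.nor.conj_mem t (hTH ht') g
  have hAT' : A ≤ normalizer ((closure Y : Subgroup G) : Set G) := by
    rw [le_normalizer_closure_iff]
    intro g hg y hy
    obtain ⟨g', hg', t, ht', rfl⟩ := hYe y hy
    have e : g * (g' * t * g'⁻¹) * g⁻¹ = (g * g') * t * (g * g')⁻¹ := by group
    rw [e]
    exact Subgroup.subset_closure (hYm _ (A.mul_mem hg hg') t ht')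
  have hFR : FR a (insert p ρ) (closure Y) := by
    intro q hq
    have hB : zpowers (a q) ≤ normalizer ((closure Y : Subgroup G) : Set G) := by
      rw [le_normalizer_closure_iff]
      intro b hb y hy
      obtain ⟨g, hg, t, ht', rfl⟩ := hYe y hy
      have hc := hAc g hg q (hins q hq) b hb
      have e : b * (g * t * g⁻¹) * b⁻¹ = g * (b * t * b⁻¹) * g⁻¹ := by
        calc b * (g * t * g⁻¹) * b⁻¹ = (b * g) * t * (b * g)⁻¹ := by group
          _ = (g * b) * t * (g * b)⁻¹ := by rw [hc]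
          _ = _ := by group
      rw [e]
      refine Subgroup.subset_closure (hYm g hg _ ?_)
      have h3 : b ∈ normalizer (T : Set G) := (zpowers_le.2 (hT q hq).1) hb
      exact (mem_normalizer_iff.1 h3 t).1 ht'
    refine ⟨hB (mem_zpowers _), le_antisymm (le_normalizer_iff_commutator_le_left.1 hB) ?_⟩
    rw [closure_le]
    intro y hy
    obtain ⟨g, hg, t, ht', rfl⟩ := hYe y hy
    have h3 : t ∈ ⁅T, zpowers (a q)⁆ := by
      rw [(hT q hq).2]
      exact ht'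
    have h4 : (⁅T, zpowers (a q)⁆ : Subgroup G).map (MulAut.conj g).toMonoidHom ≤
        ⁅closure Y, zpowers (a q)⁆ := by
      rw [map_commutator]
      refine commutator_mono ?_ ?_
      · rintro _ ⟨s, hs, rfl⟩
        exact Subgroup.subset_closure (hYm g hg s hs)
      · rintro _ ⟨b, hb, rfl⟩
        have h5 : (MulAut.conj g).toMonoidHom b = b := by
          show g * b * g⁻¹ = b
          rw [hAc g hg q (hins q hq) b hb, mul_inv_cancel_right]
        rw [h5]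
        exact hb
    exact h4 ⟨t, h3, rfl⟩
  refine hTT'.trans ?_
  by_cases hex : ∃ p' ∈ τ, p' ∈ ρ
  · obtain ⟨p', h3, h4⟩ := hex
    refine hj p' h3 _ hT'f hT'H fun q hq => hFR q ?_
    rw [Finset.insert_eq_of_mem h4] at hq
    exact Finset.mem_insert_of_mem hq
  · push Not at hex
    have hATH : A ≤ TH (closure Y) (R H j) := by
      rw [hA, closure_le]
      rintro _ ⟨p', hp', rfl⟩
      have hp'ρ := hex p' hp'
      have hp'σ : p' ∈ σ := hS (hτS hp')
      have hins' : ((insert p' ρ : Finset ℕ) : Set ℕ) ⊆ σ := by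
        rw [Finset.coe_insert, Set.insert_subset_iff]
        exact ⟨hp'σ, hρ⟩
      obtain ⟨x, hx⟩ := exists_gen ht (insert p' ρ) hins'
      have hprod : ∏ q ∈ insert p' ρ, q = (∏ q ∈ ρ, q) * p' := by
        rw [Finset.prod_insert hp'ρ, mul_comm]
      have hxT : x ∈ normalizer ((closure Y : Subgroup G) : Set G) := by
        refine ((closure_le _).2 ?_) hx.mem
        rintro _ ⟨q, hq, rfl⟩
        rcases Finset.mem_insert.1 (Finset.mem_coe.1 hq) with rfl | hq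
        · exact hAT' (haA _ hp')
        · exact (hFR q (Finset.mem_insert_of_mem hq)).1
      have hbπ : ∀ q : ℕ, q.Prime → q ∣ (∏ q ∈ ρ, q) * p' → q ∈ π := by
        intro q hq hqd
        rw [← hprod] at hqd
        exact ht.pi h.piK (hins' (dvd_prod_mem ht hins' hq hqd))
      have hnd : ¬ p' ∣ ∏ q ∈ ρ, q := fun h3 => hp'ρ (dvd_prod_mem ht hρ (ht.pr p' hp'σ) h3)
      have hFRρ : FR a ρ (closure Y) := fun q hq => hFR q (Finset.mem_insert_of_mem hq)
      have h3 := b4g h.lf (x := x) (b' := ∏ q ∈ ρ, q) (p := p') (M := closure Y)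
        (N := R H j ⊓ closure Y) hT'f (solv_of_le h.solH hT'f hT'H) hxT inf_le_right
        (norm_inf (fun y _ => hRt y) le_normalizer)
        ((norm_inf (T := normalizer ((closure Y : Subgroup G) : Set G)) (fun y _ => hRt y)
          le_rfl) hxT)
        (by rw [← hprod]; exact hx.pow) (cop hbπ h.piH hT'f hT'H) (odd_of h2 hbπ)
        (ht.pr p' hp'σ) hnd (full_pow ht hp'ρ hins' hx hFRρ (hAT' (haA _ hp')))
        (fun T'' hT'' hT3 => le_inf (hj p' hp' T'' (fin_le hT'' hT'f) (hT''.trans hT'H)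
          (FR_of_full ht hins' hx (by rw [hprod]; exact hT3))) hT'')
      have h4 : x ^ (∏ q ∈ ρ, q) ∈ TH (closure Y) (R H j) := ⟨hRt _, fun m hm => (h3 m hm).1⟩
      exact (zpowers_le.2 h4) (hx.gen p' (Finset.mem_insert_self _ _) _ hnd)
    have hap : a p ∈ TH (closure Y) (R H j) := by
      refine ⟨hRt _, fun t ht' => ?_⟩
      obtain ⟨r, hr, hfix⟩ := fixpt h.lf (R_le H j) h.piH (isPi_mono hAK h.piK) hAf
        (solv_of_le h.solK hAf hAK) (F := A) (fun y _ => hRt y) (h := t) (hRt t)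
        (fun f hf => (hATH hf).2 t ht')
      refine comm_fix hRn hr (hτ (t * r) (H.mul_mem (hT'H ht') (R_le H j hr)) ?_ p hp)
      intro q hq
      have h3 := hfix (a q) (haA q hq)
      calc t * r * a q = a q * (t * r) * (a q)⁻¹ * a q := by rw [h3]
        _ = a q * (t * r) := by group
    rw [← (hFR p (Finset.mem_insert_self _ _)).2]
    exact (commutator_mono le_rfl (zpowers_le.2 hap)).trans (comm_TH _ _)

theorem e3 (h : Cx π H K) (h2 : 2 ∉ π) (ht : Ty σ a K) {S : Set ℕ} (hS : S ⊆ σ)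
    (hSi : S.Infinite) : ∃ ρ : Finset ℕ, (ρ : Set ℕ) ⊆ S ∧ Sm H a ρ := by
  classical
  obtain ⟨τ, hτS, hτ⟩ := exists_tau h ht hS
  obtain ⟨q, hqS, hqτ⟩ := hSi.exists_notMem_finset τ
  have hρS : ((insert q τ : Finset ℕ) : Set ℕ) ⊆ S := by
    rw [Finset.coe_insert]
    exact Set.insert_subset hqS hτS
  have hρσ : ((insert q τ : Finset ℕ) : Set ℕ) ⊆ σ := hρS.trans hS
  obtain ⟨x, hx⟩ := exists_gen ht (insert q τ) hρσ
  refine ⟨insert q τ, hρS, 2, fun T hTf hTH hT => ?_⟩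
  have hfull := full_of_FR ht hρσ hx hT
  have hqp : q.Prime := ht.pr q (hS hqS)
  have hqρ : q ∈ insert q τ := Finset.mem_insert_self q τ
  refine lim (x := x) (b := ∏ p ∈ insert q τ, p) (d := q) h.lf h.nor h.piH h.solH h2 ?_ hx.pow ?_
    (Finset.dvd_prod_of_mem (fun p => p) hqρ) hqp.ne_one ?_ hTf hTH hfull
  · rw [Finset.prod_ne_zero_iff]
    intro p hp
    exact (ht.pr p (hρσ (Finset.mem_coe.2 hp))).ne_zero
  · intro p hp hpb
    obtain ⟨r, hr, hpr⟩ := (Prime.dvd_finsetProd_iff hp.prime (fun p => p)).1 hpb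
    have hrσ : r ∈ σ := hρσ (Finset.mem_coe.2 hr)
    have h3 : p = r := (Nat.prime_dvd_prime_iff_eq hp (ht.pr r hrσ)).1 hpr
    subst h3
    exact h.piK (a p) (ht.mem p hrσ) p hp (by rw [ht.ord p hrσ])
  · intro m hm hmx
    have h3 : ∀ p ∈ τ, m * a p = a p * m := by
      intro p hp
      have hpp : p.Prime := ht.pr p (hS (hτS (Finset.mem_coe.2 hp)))
      have hpq : ¬ p ∣ q := by
        intro h4
        have h5 := (Nat.prime_dvd_prime_iff_eq hpp hqp).1 h4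
        subst h5
        exact hqτ hp
      have h4 := hx.gen p (Finset.mem_insert_of_mem hp) q hpq
      obtain ⟨i, hi⟩ := mem_zpowers_iff.1 h4
      rw [← hi]
      exact ((show Commute m (x ^ q) from hmx).zpow_right i).eq
    have h4 := hτ m hm h3
    have h5 : closure (a '' ((insert q τ : Finset ℕ) : Set ℕ)) ≤ centralizer ({m} : Set G) := by
      rw [closure_le]
      rintro _ ⟨p, hp, rfl⟩
      rw [SetLike.mem_coe, mem_centralizer_singleton_iff]
      exact (h4 p (hρS hp)).symm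
    have h6 := h5 hx.mem
    rw [mem_centralizer_singleton_iff] at h6
    exact h6.symm

theorem typeIII (h : Cx π H K) (h2 : 2 ∉ π) (ht : Ty σ a K) (hσ : σ.Infinite) : False := by
  obtain ⟨S, hS, hSi, hSn⟩ := comb hσ (Sm H a) (fun _ _ hρ hs => Sm_mono hρ hs)
    (fun p hp => not_Sm_sing h ht hp) (fun S hS => e1 h h2 ht S hS)
  obtain ⟨ρ, hρ, hs⟩ := e3 h h2 ht hS hSi
  exact hSn ρ hρ hs

end MP0d06d9I
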