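import Pool.Agent.Lib.MP_0d06d9_alR.DL
import Pool.Agent.Lib.MP_0d06d9_al.CLb

/-!
# MP_0d06d9_al: nilpotent groups and the series `D`, coprime commutators
-/

set_option autoImplicit false

namespace MP0d06d9I

open Subgroup commutatorElement MP0d06d9 MP0d06d9R

variable {G : Type*} [Group G]

theorem D_eq (T : Subgroup G) (n : ℕ) : D n T = Subgroup.lowerCentralSeries T n := by
  induction n with
  | zero => rfl
  | succ n ih =>
    rw [D_succ, ih]
    rfl

theorem nilp_iff (T : Subgroup G) : Group.IsNilpotent T ↔ ∃ n, D n T = ⊥ := by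
  rw [Subgroup.isNilpotent_iff_lowerCentralSeries]
  constructor
  · rintro ⟨n, hn⟩
    exact ⟨n, by rw [D_eq, hn]⟩
  · rintro ⟨n, hn⟩
    exact ⟨n, by rw [← D_eq, hn]⟩

/-- coprime action: `[M, A, A] = [M, A]` -/
theorem comm2 {M A : Subgroup G} (hM : Finite M) (hA : Finite A) (hs : Group.IsSolvable A)
    (hAM : A ≤ normalizer (M : Set G)) (hco : (Nat.card A).Coprime (Nat.card M)) :
    ⁅⁅M, A⁆, A⁆ = ⁅M, A⁆ := by
  have hNM : ⁅M, A⁆ ≤ M := le_normalizer_iff_commutator_le_left.1 hAM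
  have hNf : Finite (⁅M, A⁆ : Subgroup G) := Finite.of_injective _ (inclusion_injective hNM)
  have hco' : (Nat.card A).Coprime (Nat.card (⁅M, A⁆ : Subgroup G)) :=
    Nat.Coprime.coprime_dvd_right (Subgroup.card_dvd_of_le hNM) hco
  refine le_antisymm (commutator_mono hNM le_rfl) ?_
  rw [commutator_le]
  intro m hm a ha
  obtain ⟨n, hn, hfix⟩ := cl A ⁅M, A⁆ hA hs hNf (normalizer_commutator_ge_right _ _) hco' m (by
    intro y hy
    have e : m⁻¹ * (y * m * y⁻¹) = ⁅m⁻¹, y⁆ := by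
      rw [commutatorElement_def]
      group
    rw [e]
    exact commutator_mem_commutator (M.inv_mem hm) hy)
  have h1 := hfix a ha
  have hc : m * n ∈ M := M.mul_mem hm (hNM hn)
  have h2 : (m * n)⁻¹ * a⁻¹ = a⁻¹ * (m * n)⁻¹ := by
    rw [← mul_inv_rev, ← mul_inv_rev]
    calc (a * (m * n))⁻¹ = (a * (m * n) * a⁻¹ * a)⁻¹ := by group
      _ = (m * n * a)⁻¹ := by rw [h1]
  have e : ⁅m, a⁆ = ⁅(m * n) * n⁻¹ * (m * n)⁻¹, a⁆ := by
    have h3 : a * (m * n) = (m * n) * a := by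
      calc a * (m * n) = a * (m * n) * a⁻¹ * a := by group
        _ = _ := by rw [h1]
    calc ⁅m, a⁆ = (m * n) * n⁻¹ * a * n * ((m * n)⁻¹ * a⁻¹) := by
          rw [commutatorElement_def]
          group
      _ = (m * n) * n⁻¹ * a * n * (a⁻¹ * (m * n)⁻¹) := by rw [h2]
      _ = (m * n) * n⁻¹ * (m * n)⁻¹ * ((m * n) * a) * n * a⁻¹ * (m * n)⁻¹ := by group
      _ = (m * n) * n⁻¹ * (m * n)⁻¹ * (a * (m * n)) * n * a⁻¹ * (m * n)⁻¹ := by rw [h3]
      _ = (m * n) * n⁻¹ * (m * n)⁻¹ * a * (m * n) * n * (a⁻¹ * (m * n)⁻¹) := by group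
      _ = (m * n) * n⁻¹ * (m * n)⁻¹ * a * (m * n) * n * ((m * n)⁻¹ * a⁻¹) := by rw [h2]
      _ = ⁅(m * n) * n⁻¹ * (m * n)⁻¹, a⁆ := by
          rw [commutatorElement_def]
          group
  rw [e]
  refine commutator_mem_commutator ?_ ha
  exact (mem_normalizer_iff.1 (normalizer_commutator_ge_left M A hc) _).1
    (Subgroup.inv_mem _ hn)

end MP0d06d9I
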