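import Pool.Agent.Lib.MP_0d06d9_alR.InfD
import Pool.Agent.Lib.MP_0d06d9_alR.InfN

/-!
# MP_0d06d9_al, Rae's theorem: type (ii), quasicyclic subgroups of `K`
-/

set_option autoImplicit false

namespace MP0d06d9I

open Subgroup commutatorElement MP0d06d9 MP0d06d9R

variable {G : Type*} [Group G]

theorem zpowers_comm' (x : G) : Group.IsSolvable (zpowers x) := by
  apply Group.isSolvable_of_comm
  rintro ⟨a, ha⟩ ⟨b, hb⟩
  obtain ⟨i, rfl⟩ := mem_zpowers_iff.mp ha
  obtain ⟨j, rfl⟩ := mem_zpowers_iff.mp hb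
  apply Subtype.ext
  change x ^ i * x ^ j = x ^ j * x ^ i
  rw [← zpow_add, ← zpow_add, add_comm]

theorem zpowers_le_norm {x : G} {T : Subgroup G} (h : x ∈ normalizer (T : Set G)) (i : ℕ) :
    zpowers (x ^ i) ≤ normalizer (T : Set G) := by
  rw [zpowers_le]
  exact Subgroup.pow_mem _ h i

/-- an element `y` of prime order is in the group generated by `y ^ u`, `u` prime to the order -/
theorem mem_zpowers_pow {y : G} {p u : ℕ} (hp : p.Prime) (hy : y ^ p = 1) (hu : ¬ p ∣ u) :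
    y ∈ zpowers (y ^ u) := by
  have h1 : Nat.gcd p u = 1 := (Nat.Prime.coprime_iff_not_dvd hp).2 hu
  have h2 := Nat.gcd_eq_gcd_ab p u
  rw [h1] at h2
  refine mem_zpowers_iff.2 ⟨Nat.gcdB p u, ?_⟩
  have h3 : y ^ ((p : ℤ) * Nat.gcdA p u + u * Nat.gcdB p u) = y := by
    rw [← h2]
    simp
  rw [zpow_add, zpow_mul, zpow_mul, zpow_natCast, hy, one_zpow, one_mul, zpow_natCast] at h3
  exact h3

theorem typeII {π : Set ℕ} {H K : Subgroup G} (h : Cx π H K) (h2 : 2 ∉ π) {p : ℕ} (hp : p.Prime)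
    {x : ℕ → G} (hx : ∀ n, x n ∈ K) (h0 : x 0 = 1) (h1 : x 1 ≠ 1)
    (hs : ∀ n, x (n + 1) ^ p = x n) : False := by
  classical
  have f1 : ∀ k n, x (n + k) ^ (p ^ k) = x n := by
    intro k
    induction k with
    | zero =>
      intro n
      rw [pow_zero, pow_one, Nat.add_zero]
    | succ k ih =>
      intro n
      rw [pow_succ', pow_mul, ← Nat.add_assoc, hs, ih]
  have f2 : ∀ {n m}, n ≤ m → x n ∈ zpowers (x m) := by
    intro n m hnm
    obtain ⟨k, rfl⟩ := Nat.exists_eq_add_of_le hnm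
    rw [← f1 k n]
    exact Subgroup.pow_mem _ (mem_zpowers _) _
  have f2' : ∀ {n m}, n ≤ m → zpowers (x n) ≤ zpowers (x m) := fun hnm => zpowers_le.2 (f2 hnm)
  have hp1 : x 1 ^ p = 1 := by rw [hs 0, h0]
  have hpπ : p ∈ π := by
    have h3 : orderOf (x 1) = p := by
      have : Fact p.Prime := ⟨hp⟩
      exact orderOf_eq_prime hp1 h1
    exact h.piK (x 1) (hx 1) p hp (by rw [h3])
  -- the centralizer in `H` is constant from `a` on
  obtain ⟨a, ha⟩ : ∃ a, ∀ c ∈ H, c * x a = x a * c → ∀ n, c * x n = x n * c := by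
    have hdir : Directed (· ≤ ·) (fun n => zpowers (x n)) :=
      directed_of_isDirected_le (fun i j hij => f2' hij)
    obtain ⟨L, hL⟩ : ∃ L : Subgroup G, L = ⨆ n, zpowers (x n) := ⟨_, rfl⟩
    have hmem : ∀ y, y ∈ L ↔ ∃ n, y ∈ zpowers (x n) := by
      intro y
      rw [hL]
      exact mem_iSup_of_directed hdir
    have hLK : L ≤ K := by
      rw [hL]
      exact iSup_le fun n => zpowers_le.2 (hx n)
    obtain ⟨F, hF, hFf, hC⟩ := h.sp L hLK
    have h3 : ∀ f : F, ∃ n, (f : G) ∈ zpowers (x n) := fun f => (hmem _).1 (hF f.2)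
    choose φ hφ using h3
    have := Fintype.ofFinite F
    refine ⟨Finset.univ.sup φ, fun c hc hca n => ?_⟩
    have h4 : c ∈ H ⊓ centralizer (F : Set G) := by
      refine mem_inf.2 ⟨hc, mem_centralizer_iff.2 ?_⟩
      intro f hf
      have h5 : f ∈ zpowers (x (Finset.univ.sup φ)) :=
        f2' (Finset.le_sup (Finset.mem_univ (⟨f, hf⟩ : F))) (hφ ⟨f, hf⟩)
      obtain ⟨i, rfl⟩ := mem_zpowers_iff.1 h5
      exact (Commute.zpow_right hca i).eq.symm
    rw [← hC] at h4
    exact (mem_centralizer_iff.1 h4.2 (x n) ((hmem _).2 ⟨n, mem_zpowers _⟩)).symm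
  have hXb : x (a + 1) ^ (p ^ (a + 1)) = 1 := by
    have h3 := f1 (a + 1) 0
    rw [Nat.zero_add] at h3
    rw [h3, h0]
  have hX1 : zpowers (x 1) ≤ zpowers (x (a + 1)) := f2' (by omega)
  -- for `i` not divisible by `p ^ (a + 1)` the element `x 1` is a power of `x (a + 1) ^ i`
  have hpow : ∀ i : ℕ, ¬ p ^ (a + 1) ∣ i → x 1 ∈ zpowers (x (a + 1) ^ i) := by
    intro i hi
    have hi0 : i ≠ 0 := fun h3 => hi (h3 ▸ dvd_zero _)
    obtain ⟨k, u, hu, hiu⟩ := Nat.exists_eq_pow_mul_and_not_dvd hi0 p hp.ne_one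
    have hk : k ≤ a := by
      by_contra hk
      apply hi
      rw [hiu]
      exact Dvd.dvd.mul_right (pow_dvd_pow p (by omega)) u
    have h3 : (x (a + 1) ^ i) ^ (p ^ (a - k)) = x 1 ^ u := by
      have h4 := f1 a 1
      rw [Nat.add_comm 1 a] at h4
      rw [← h4, ← pow_mul, ← pow_mul, hiu]
      congr 1
      have h5 : p ^ k * p ^ (a - k) = p ^ a := by
        rw [← pow_add, Nat.add_sub_cancel' hk]
      calc p ^ k * u * p ^ (a - k) = p ^ k * p ^ (a - k) * u := by ring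
        _ = p ^ a * u := by rw [h5]
    have h4 : x 1 ^ u ∈ zpowers (x (a + 1) ^ i) := by
      rw [← h3]
      exact Subgroup.pow_mem _ (mem_zpowers _) _
    exact (zpowers_le.2 h4) (mem_zpowers_pow hp hp1 hu)
  apply h1
  refine h.deep 2 (x 1) (hx 1) fun g hg => ?_
  obtain ⟨L, hL⟩ : ∃ L : Subgroup G, L = closure ({g, x (a + 1)} : Set G) := ⟨_, rfl⟩
  have hLf : Finite L := hL ▸ fin_clo h.lf ((Set.finite_singleton _).insert g)
  have hgL : g ∈ L := hL ▸ Subgroup.subset_closure (Or.inl rfl)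
  have hxL : x (a + 1) ∈ L := hL ▸ Subgroup.subset_closure (Or.inr rfl)
  have hMf : Finite (H ⊓ L : Subgroup G) := fin_le inf_le_right hLf
  have hLM : L ≤ normalizer ((H ⊓ L : Subgroup G) : Set G) :=
    norm_inf (by rw [normalizer_eq_top_iff.2 h.nor]; exact le_top) le_normalizer
  have hAL : zpowers (x 1) ≤ L := hX1.trans (zpowers_le.2 hxL)
  have hAK : zpowers (x 1) ≤ K := zpowers_le.2 (hx 1)
  obtain ⟨T, hT⟩ : ∃ T : Subgroup G, T = ⁅H ⊓ L, zpowers (x 1)⁆ := ⟨_, rfl⟩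
  have hTM : T ≤ H ⊓ L := hT ▸ le_normalizer_iff_commutator_le_left.1 (hAL.trans hLM)
  have hTc : ⁅T, zpowers (x 1)⁆ = T := by
    rw [hT]
    exact comm2 hMf (fin_le hAL hLf) (zpowers_comm' _) (hAL.trans hLM)
      (card_coprime (fin_le hAL hLf) hMf (isPi_mono hAK h.piK) (isPi_mono inf_le_left h.piH))
  have hxT : x (a + 1) ∈ normalizer (T : Set G) := by
    rw [hT]
    refine norm_comm (mem_inf.2 ⟨hLM hxL, ?_⟩)
    rw [mem_normalizer_iff]
    have hc : ∀ y ∈ zpowers (x 1), x (a + 1) * y = y * x (a + 1) := by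
      intro y hy
      obtain ⟨i, rfl⟩ := mem_zpowers_iff.1 (hX1 hy)
      exact ((Commute.refl (x (a + 1))).zpow_right i).eq
    intro y
    constructor
    · intro hy
      rw [hc y hy, mul_inv_cancel_right]
      exact hy
    · intro hy
      have h3 := hc _ hy
      have h4 : x (a + 1) * y * (x (a + 1))⁻¹ = y := by
        have h5 : x (a + 1) * (x (a + 1) * y * (x (a + 1))⁻¹) = x (a + 1) * y := by
          rw [h3]
          group
        exact mul_left_cancel h5
      rwa [h4] at hy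
  have hFull : Full (x (a + 1)) (p ^ (a + 1)) T := by
    refine ⟨hxT, fun i hi => le_antisymm ?_ ?_⟩
    · exact le_normalizer_iff_commutator_le_left.1 (zpowers_le_norm hxT i)
    · conv_lhs => rw [← hTc]
      exact commutator_mono le_rfl (zpowers_le.2 (hpow i hi))
  have hTf : Finite T := fin_le hTM hMf
  have h3 := lim h.lf h.nor h.piH h.solH h2 (x := x (a + 1)) (b := p ^ (a + 1)) (d := p)
    (pow_ne_zero _ hp.ne_zero) hXb (fun q hq hqp => by
      rw [(Nat.prime_dvd_prime_iff_eq hq hp).1 (hq.dvd_of_dvd_pow hqp)]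
      exact hpπ) (dvd_pow_self p (Nat.succ_ne_zero a)) hp.ne_one
    (fun m hm hmx => by
      rw [hs a] at hmx
      exact ha m hm hmx (a + 1)) hTf (hTM.trans inf_le_left) hFull
  apply h3
  rw [hT]
  exact commutator_mem_commutator (mem_inf.2 ⟨hg, hgL⟩) (mem_zpowers _)

end MP0d06d9I
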