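import Pool.Agent.Lib.MP_0d06d9_al.Defs

/-!
# MP_0d06d9_al: the definitions of the statement of the main theorem
-/

set_option autoImplicit false

namespace MP0d06d9I

open Subgroup MP0d06d9

/-- `Γ` is locally nilpotent: every finitely generated subgroup is nilpotent -/
def LocNil (Γ : Type*) [Group Γ] : Prop :=
  ∀ S : Finset Γ, Group.IsNilpotent (closure (S : Set Γ))

/-- the subgroup `N` has a finite series `1 = M 0 ≤ M 1 ≤ ⋯ ≤ M m = N`, each term normal in the
next one, with locally nilpotent factors -/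
def LNSeries {G : Type*} [Group G] (N : Subgroup G) : Prop :=
  ∃ (m : ℕ) (M : ℕ → Subgroup G), M 0 = ⊥ ∧ M m = N ∧ ∀ i < m, M i ≤ M (i + 1) ∧
    ∃ h : ((M i).subgroupOf (M (i + 1))).Normal,
      @LocNil (↥(M (i + 1)) ⧸ (M i).subgroupOf (M (i + 1)))
        (@QuotientGroup.Quotient.group _ _ ((M i).subgroupOf (M (i + 1))) h)

/-- the Schur-Zassenhaus situation (*): `G` locally finite, `G = H K`, `H` a normal `π'`-subgroup,
`K` a `π`-subgroup -/
structure Star {G : Type*} [Group G] (π : Set ℕ) (H K : Subgroup G) : Prop where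
  lf : LocFin G
  top : H ⊔ K = ⊤
  nor : H.Normal
  piH : IsPi πᶜ H
  piK : IsPi π K

end MP0d06d9I
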