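import Pool.Agent.Lib.MP_0d06d9_alR.InfC
import Pool.Agent.Lib.MP_0d06d9_alR.InfE
import Pool.Agent.Lib.MP_0d06d9_alR.InfF
import Pool.Agent.Lib.MP_0d06d9_alR.A3
import Pool.Agent.Lib.MP_0d06d9_alR.A4
import Pool.Agent.Lib.MP_0d06d9_alR.QDefs

/-!
# MP_0d06d9_al, Rae's theorem: the locally soluble case, `2 ∉ π`
-/

set_option autoImplicit false

namespace MP0d06d9I

open Subgroup commutatorElement MP0d06d9 MP0d06d9R

universe u

section

variable {G : Type*} [Group G]

theorem thmQ {π : Set ℕ} {H K : Subgroup G} (h : Cx π H K) (h2 : 2 ∉ π) : Finite K := by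
  by_contra hinf
  rw [not_finite_iff_infinite] at hinf
  have hbn : K ≤ normalizer (((⊥ : Subgroup G) : Subgroup G) : Set G) := by
    have h3 : normalizer (((⊥ : Subgroup G) : Subgroup G) : Set G) = ⊤ :=
      normalizer_eq_top_iff.2 inferInstance
    rw [h3]
    exact le_top
  obtain ⟨B, _, hBK, hBi, hBc⟩ := hk_rel h.lf ⊥ K bot_le hbn h.solK (by
    rw [relIndex_bot_left]
    exact Nat.card_eq_zero_of_infinite)
  have hBinf : Infinite B := by
    rw [relIndex_bot_left] at hBi
    rcases Nat.card_eq_zero.1 hBi with h3 | h3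
    · exact absurd h3 (not_isEmpty_of_nonempty _)
    · exact h3
  have hBc' : ∀ a ∈ B, ∀ b ∈ B, a * b = b * a := fun a ha b hb =>
    commutatorElement_eq_one_iff_mul_comm.1 (mem_bot.1 (hBc a ha b hb))
  rcases abelian_types B hBinf hBc' (fun a _ => orderOf_pos_lf h.lf a) with
    ⟨p, hp, E, hEB, hEi, hEp⟩ | ⟨p, hp, x, hx, h0, h1, hs⟩ | ⟨S, hS, a, ha⟩
  · have hpπ : p ∈ π := by
      obtain ⟨e, he⟩ := exists_ne (1 : E)
      have h3 : orderOf (e : G) = p := by
        have : Fact p.Prime := ⟨hp⟩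
        exact orderOf_eq_prime (hEp e e.2) (fun h4 => he (Subtype.ext h4))
      exact h.piK e (hBK (hEB e.2)) p hp (by rw [h3])
    refine typeI h.lf h.nor h.piH h.solH h.sp p hp hpπ E (hEB.trans hBK) hEi
      (fun a ha b hb => hBc' a (hEB ha) b (hEB hb)) hEp (fun a ha hfix => ?_)
    refine h.deep 0 a (hBK (hEB ha)) fun g hg => ?_
    rw [R_zero, mem_bot, commutatorElement_eq_one_iff_mul_comm]
    exact (hfix g hg).symm
  · exact typeII h h2 hp (fun n => hBK (hx n)) h0 h1 hs
  · exact typeIII h h2 (σ := S) (a := a) ⟨fun p hp => (ha p hp).1, fun p hp => hBK (ha p hp).2.1,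
      fun p hp => (ha p hp).2.2, fun p hp q hq => hBc' _ (ha p hp).2.1 _ (ha q hq).2.1⟩ hS

/-- a quotient of a group with all finite subgroups nilpotent modulo the kernel -/
theorem locNil_of {Γ Δ : Type*} [Group Γ] [Group Δ] (lf : LocFin Γ) (f : Γ →* Δ)
    (hf : Function.Surjective f)
    (h : ∀ E : Subgroup Γ, Finite E → ∃ n, D n E ≤ f.ker) : LocNil Δ := by
  classical
  intro S
  choose g hg using hf
  have h1 : Finite (closure ((S.image g : Finset Γ) : Set Γ)) := lf _
  obtain ⟨n, hn⟩ := h _ h1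
  have h2 : (closure ((S.image g : Finset Γ) : Set Γ)).map f = closure (S : Set Δ) := by
    rw [MonoidHom.map_closure, Finset.coe_image]
    congr 1
    ext x
    constructor
    · rintro ⟨_, ⟨z, hz, rfl⟩, rfl⟩
      rw [hg]
      exact hz
    · intro hx
      exact ⟨g x, ⟨x, hx, rfl⟩, hg x⟩
  rw [nilp_iff]
  refine ⟨n, ?_⟩
  rw [← h2, ← D_map, eq_bot_iff, map_le_iff_le_comap]
  exact hn

/-- the subgroups of the terms of the upper series have a series with locally nilpotent factors -/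
theorem lnSeries_of (lf : LocFin G) {H N : Subgroup G} {j : ℕ} (hN : N ≤ R H j) : LNSeries N := by
  have hNH : N ≤ H := hN.trans (R_le H j)
  have hnor : ∀ i, N ≤ normalizer ((R H i ⊓ N : Subgroup G) : Set G) := fun i =>
    norm_inf (hNH.trans (le_normalizer.trans (R_norm H i))) le_normalizer
  refine ⟨j, fun i => R H i ⊓ N, ?_, inf_eq_right.2 hN, fun i _ => ⟨?_, ?_, ?_⟩⟩
  · show R H 0 ⊓ N = ⊥
    rw [R_zero, bot_inf_eq]
  · exact inf_le_inf_right _ (R_mono_succ H i)
  · exact Subgroup.normal_subgroupOf_of_le_normalizer (inf_le_right.trans (hnor i))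
  · have hn : ((R H i ⊓ N).subgroupOf (R H (i + 1) ⊓ N)).Normal :=
      Subgroup.normal_subgroupOf_of_le_normalizer (inf_le_right.trans (hnor i))
    refine locNil_of (lf_sub lf _) (QuotientGroup.mk' ((R H i ⊓ N).subgroupOf (R H (i + 1) ⊓ N)))
      (QuotientGroup.mk'_surjective _) ?_
    intro E hE
    rw [QuotientGroup.ker_mk']
    have hEf : Finite (E.map (R H (i + 1) ⊓ N).subtype) := by
      have h2 : ((E.map (R H (i + 1) ⊓ N).subtype : Subgroup G) : Set G).Finite := by
        rw [coe_map]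
        exact (Set.toFinite (E : Set ↥(R H (i + 1) ⊓ N))).image _
      exact h2
    have hle : E.map (R H (i + 1) ⊓ N).subtype ≤ R H (i + 1) ⊓ N := by
      rintro _ ⟨y, _, rfl⟩
      exact y.2
    obtain ⟨n, h3⟩ := LN_inf (C := N) (LN_R lf H i) _ hEf hle
    refine ⟨n, ?_⟩
    rw [← D_map, map_le_iff_le_comap] at h3
    exact h3

/-- Rae's theorem for `2 ∉ π` and locally soluble `K` -/
theorem rae {G : Type u} [Group G] {π : Set ℕ} {H K : Subgroup G} (hst : Star π H K)
    (sp : Sparse H K) (h2 : 2 ∉ π) (solH : LocSol H) (solK : LocSol K) :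
    ∃ K₀ : Subgroup G, K₀ ≤ K ∧ K₀.relIndex K ≠ 0 ∧ LNSeries (⁅H, K₀⁆ : Subgroup G) := by
  obtain ⟨j, hj⟩ := a1 hst.lf hst.nor hst.piH hst.piK solK sp
  refine ⟨KK H K j, inf_le_left, ?_, ?_⟩
  · intro h0
    obtain ⟨Γ, hΓ, H', K', hC, hinf⟩ := quot hst.lf hst.nor hst.piH hst.piK solH solK sp hst.top
      hj h0
    have h3 := thmQ hC h2
    exact not_finite K'
  · exact lnSeries_of hst.lf (((commutator_mono le_rfl inf_le_right).trans (comm_TH H (R H j))))

end

end MP0d06d9I
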