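import Pool.Agent.Lib.MP_0d06d9_alR.InfB
import Pool.Agent.Lib.MP_0d06d9_alR.BZ

/-!
# MP_0d06d9_al, Rae's theorem: B3 and B4 for finite subgroups of a locally finite group
-/

set_option autoImplicit false

namespace MP0d06d9I

open Subgroup commutatorElement MP0d06d9 MP0d06d9R

variable {G : Type*} [Group G]

/-- the subgroup generated by the conjugates in `M` of the full subgroups of `M` -/
def DG (x : G) (b : ℕ) (M : Subgroup G) : Subgroup G :=
  closure {g | ∃ h ∈ M, ∃ T : Subgroup G, T ≤ M ∧ Full x b T ∧ ∃ t ∈ T, g = h * t * h⁻¹}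

private theorem inft_dat {x : G} {b : ℕ} {M A : Subgroup G} (hMs : Group.IsSolvable M)
    (hMA : M ≤ A) (hxA : x ∈ A) (hA : A = M ⊔ zpowers x) (hx : x ∈ normalizer (M : Set G))
    (hb : x ^ b = 1) (hco : b.Coprime (Nat.card M)) (hodd : Odd b) :
    Dat (M.subgroupOf A) (⟨x, hxA⟩ : A) b := by
  have hcard : Nat.card (M.subgroupOf A) = Nat.card M :=
    Nat.card_congr (subgroupOfEquivOfLe hMA).toEquiv
  have hpow : (⟨x, hxA⟩ : A) ^ b = 1 := Subtype.ext hb
  refine ⟨?_, ?_, ?_, ?_, ?_, ?_, hodd⟩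
  · refine (normal_subgroupOf_iff_le_normalizer hMA).2 ?_
    rw [hA]
    exact sup_le le_normalizer (zpowers_le.2 hx)
  · exact Group.isSolvable_of_isSolvable_injective (f := (subgroupOfEquivOfLe hMA).toMonoidHom)
      (subgroupOfEquivOfLe hMA).injective
  · apply map_injective A.subtype_injective
    rw [Subgroup.map_sup, map_subgroupOf_eq_of_le hMA, MonoidHom.map_zpowers,
      ← MonoidHom.range_eq_map, Subgroup.range_subtype]
    exact hA.symm
  · intro m _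
    rw [hpow, mul_one, one_mul]
  · rw [hcard]
    exact hco
  · rw [hcard]
    exact Nat.Coprime.coprime_dvd_left (orderOf_dvd_of_pow_eq_one hpow) hco

private theorem inft_full {x : G} {b : ℕ} {T A : Subgroup G} (hxA : x ∈ A) (hTA : T ≤ A)
    (h : Full x b T) : Full (⟨x, hxA⟩ : A) b (T.subgroupOf A) := by
  refine Full.of_map A.subtype A.subtype_injective ?_
  rw [map_subgroupOf_eq_of_le hTA]
  exact h

theorem b3g (lf : LocFin G) {x : G} {b d : ℕ} {M : Subgroup G} (hM : Finite M)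
    (hMs : Group.IsSolvable M) (hx : x ∈ normalizer (M : Set G)) (hb : x ^ b = 1)
    (hco : b.Coprime (Nat.card M)) (hodd : Odd b) (hd : d ∣ b) (hd1 : d ≠ 1)
    (hsp : ∀ m ∈ M, m * x ^ d = x ^ d * m → m * x = x * m) :
    ∃ F : Subgroup G, F ≤ M ∧ M ≤ normalizer (F : Set G) ∧ (∃ n, D n F = ⊥) ∧
      ∃ c, D c (DG x b M) ≤ F := by
  have hb0 : 0 < b := hodd.pos
  obtain ⟨A, hA⟩ : ∃ A : Subgroup G, A = M ⊔ zpowers x := ⟨_, rfl⟩
  have hMA : M ≤ A := hA ▸ le_sup_left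
  have hxA : x ∈ A := hA ▸ mem_sup_right (mem_zpowers x)
  have hzf : Finite (zpowers x) :=
    finite_zpowers.2 (isOfFinOrder_iff_pow_eq_one.2 ⟨b, hb0, hb⟩)
  have hAf : Finite A := hA ▸ fin_sup lf hM hzf
  have dat := inft_dat hMs hMA hxA hA hx hb hco hodd
  obtain ⟨F', hF'n, hF'M, hnil, c, hc⟩ := b3 dat hd hd1 (by
    intro m hm h
    exact Subtype.ext (hsp m hm (congrArg Subtype.val h)))
  refine ⟨F'.map A.subtype, ?_, ?_, ?_, c, ?_⟩
  · rw [← map_subgroupOf_eq_of_le hMA]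
    exact map_mono hF'M
  · rw [le_normalizer_iff]
    rintro m hm _ ⟨y, hy, rfl⟩
    exact ⟨⟨m, hMA hm⟩ * y * ⟨m, hMA hm⟩⁻¹, hF'n.conj_mem y hy _, rfl⟩
  · obtain ⟨n, hn⟩ := (nil_iff F').1 hnil
    refine ⟨n, ?_⟩
    rw [← MP0d06d9I.D_map, hn, Subgroup.map_bot]
  · have h1 : DG x b M ≤ (DF (⟨x, hxA⟩ : A) b (M.subgroupOf A)).map A.subtype := by
      unfold DG
      rw [closure_le]
      rintro _ ⟨h, hh, T, hT, hF, t, ht, rfl⟩
      have hTA : T ≤ A := hT.trans hMA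
      refine ⟨⟨h, hMA hh⟩ * ⟨t, hTA ht⟩ * ⟨h, hMA hh⟩⁻¹, ?_, rfl⟩
      refine (DF_normal _ _ _).conj_mem _ ?_ _
      refine le_DF (T := T.subgroupOf A) ?_ (inft_full hxA hTA hF) ?_
      · intro y hy
        exact hT hy
      · exact ht
    refine (D_mono h1 c).trans ?_
    rw [← MP0d06d9I.D_map]
    exact map_mono hc

theorem b4g (lf : LocFin G) {x : G} {b' p : ℕ} {M N : Subgroup G} (hM : Finite M)
    (hMs : Group.IsSolvable M) (hx : x ∈ normalizer (M : Set G)) (hN : N ≤ M)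
    (hMN : M ≤ normalizer (N : Set G)) (hxN : x ∈ normalizer (N : Set G))
    (hb : x ^ (b' * p) = 1) (hco : (b' * p).Coprime (Nat.card M)) (hodd : Odd (b' * p))
    (hp : p.Prime) (hpb : ¬ p ∣ b') (hF : Full (x ^ p) b' M)
    (hno : ∀ T : Subgroup G, T ≤ M → Full x (b' * p) T → T ≤ N) :
    ∀ m ∈ M, ⁅m, x ^ b'⁆ ∈ N := by
  have hb0 : 0 < b' * p := hodd.pos
  obtain ⟨A, hA⟩ : ∃ A : Subgroup G, A = M ⊔ zpowers x := ⟨_, rfl⟩
  have hMA : M ≤ A := hA ▸ le_sup_left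
  have hxA : x ∈ A := hA ▸ mem_sup_right (mem_zpowers x)
  have hzf : Finite (zpowers x) :=
    finite_zpowers.2 (isOfFinOrder_iff_pow_eq_one.2 ⟨_, hb0, hb⟩)
  have hAf : Finite A := hA ▸ fin_sup lf hM hzf
  have dat := inft_dat hMs hMA hxA hA hx hb hco hodd
  have hNn : (N.subgroupOf A).Normal := by
    refine (normal_subgroupOf_iff_le_normalizer (hN.trans hMA)).2 ?_
    rw [hA]
    exact sup_le hMN (zpowers_le.2 hxN)
  obtain ⟨f, hf⟩ : ∃ f : A →* A ⧸ (N.subgroupOf A), f = QuotientGroup.mk' (N.subgroupOf A) :=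
    ⟨_, rfl⟩
  have hfs : Function.Surjective f := by
    rw [hf]
    exact QuotientGroup.mk'_surjective _
  have hker : ∀ y : A, f y = 1 ↔ (y : G) ∈ N := by
    intro y
    rw [hf]
    exact (QuotientGroup.eq_one_iff y)
  have hpF : Full (f (⟨x, hxA⟩ : A) ^ p) b' ((M.subgroupOf A).map f) := by
    have h1 := (inft_full (pow_mem hxA p) hMA hF).map f
    have h2 : f (⟨x ^ p, pow_mem hxA p⟩ : A) = f (⟨x, hxA⟩ : A) ^ p := by
      rw [← map_pow]
      rfl
    rwa [h2] at h1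
  have h3 := b4 (dat.map f hfs) hp hpF (by
    intro T hT hFT
    obtain ⟨P, hP, hPF, hPT⟩ := lift f (S := M.subgroupOf A) (x := (⟨x, hxA⟩ : A))
      (by
        have := dat.nor
        exact le_normalizer_of_normal (mem_top _)) hFT hT
    have h4 : P.map A.subtype ≤ N := by
      refine hno _ ?_ (hPF.map A.subtype)
      rw [← map_subgroupOf_eq_of_le hMA]
      exact map_mono hP
    rw [← hPT, eq_bot_iff]
    rintro _ ⟨y, hy, rfl⟩
    rw [mem_bot, hker]
    exact h4 (mem_map_of_mem A.subtype hy))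
  intro m hm
  have h5 := h3 (f ⟨m, hMA hm⟩) (mem_map_of_mem f hm)
  have h6 : f ⁅(⟨m, hMA hm⟩ : A), (⟨x, hxA⟩ : A) ^ b'⁆ = 1 := by
    rw [map_commutatorElement, map_pow, commutatorElement_eq_one_iff_mul_comm]
    exact h5
  exact (hker _).1 h6

end MP0d06d9I
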