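import Pool.Agent.Lib.MP_0d06d9_alR.InfG
import Pool.Agent.Lib.MP_0d06d9_al.Main

/-!
# MP_0d06d9_al: the main theorem
-/

set_option autoImplicit false

namespace MP0d06d9I

open Subgroup MP0d06d9

universe u

/-! ## Transfer along injective homomorphisms -/

private theorem full_locnil {Γ Δ : Type*} [Group Γ] [Group Δ] (e : Γ ≃* Δ) (h : LocNil Γ) :
    LocNil Δ := by
  classical
  intro S
  have h1 := h (S.image e.symm)
  have h2 : (closure ((S.image e.symm : Finset Γ) : Set Γ)).map e.toMonoidHom =
      closure (S : Set Δ) := by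
    rw [MonoidHom.map_closure, Finset.coe_image]
    congr 1
    ext x
    constructor
    · rintro ⟨y, ⟨z, hz, rfl⟩, rfl⟩
      have : e.toMonoidHom (e.symm z) = z := e.apply_symm_apply z
      rw [this]
      exact hz
    · intro hx
      exact ⟨e.symm x, ⟨x, hx, rfl⟩, e.apply_symm_apply x⟩
  rw [← h2]
  exact Group.nilpotent_of_mulEquiv
    ((closure ((S.image e.symm : Finset Γ) : Set Γ)).equivMapOfInjective e.toMonoidHom e.injective)

private theorem full_ln_map {Γ G : Type*} [Group Γ] [Group G] (f : Γ →* G)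
    (hf : Function.Injective f) {N : Subgroup Γ} (h : LNSeries N) : LNSeries (N.map f) := by
  obtain ⟨m, M, h0, hm, hs⟩ := h
  refine ⟨m, fun i => (M i).map f, ?_, ?_, ?_⟩
  · show (M 0).map f = ⊥
    rw [h0, Subgroup.map_bot]
  · show (M m).map f = N.map f
    rw [hm]
  · intro i hi
    obtain ⟨hle, hn, hl⟩ := hs i hi
    refine ⟨Subgroup.map_mono hle, ?_⟩
    have hmap : ((M i).subgroupOf (M (i + 1))).map
        ((M (i + 1)).equivMapOfInjective f hf).toMonoidHom =
        ((M i).map f).subgroupOf ((M (i + 1)).map f) := by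
      ext y
      constructor
      · rintro ⟨x, hx, rfl⟩
        rw [mem_subgroupOf]
        have hx' : (x : Γ) ∈ M i := hx
        exact ⟨x, hx', rfl⟩
      · intro hy
        rw [mem_subgroupOf] at hy
        obtain ⟨x, hx, hxy⟩ := hy
        refine ⟨⟨x, hle hx⟩, hx, ?_⟩
        apply Subtype.ext
        exact hxy
    have hn' : (((M i).map f).subgroupOf ((M (i + 1)).map f)).Normal := by
      rw [← hmap]
      exact hn.map _ ((M (i + 1)).equivMapOfInjective f hf).surjective
    refine ⟨hn', ?_⟩
    exact full_locnil (QuotientGroup.congr _ _ ((M (i + 1)).equivMapOfInjective f hf) hmap) hl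

private theorem full_closure {G : Type*} [Group G] {A : Subgroup G} (S : Finset A) :
    (closure (S : Set A)).map A.subtype = closure (Subtype.val '' (S : Set A)) :=
  MonoidHom.map_closure A.subtype _

private theorem full_conj {G : Type*} [Group G] {H K₀ : Subgroup G} (hn : H.Normal) :
    K₀ ≤ normalizer ((⁅H, K₀⁆ : Subgroup G) : Set G) := by
  intro k hk
  rw [← cj_eq_iff]
  unfold cj
  rw [Subgroup.map_commutator]
  have h1 : H.map (MulAut.conj k).toMonoidHom = H := by
    have h2 : cj k H = H := cj_eq_iff.2 (by rw [Subgroup.normalizer_eq_top_iff.2 hn]; exact mem_top k)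
    exact h2
  have h3 : K₀.map (MulAut.conj k).toMonoidHom = K₀ := by
    have h2 : cj k K₀ = K₀ := cj_eq_iff.2 (le_normalizer hk)
    exact h2
  rw [h1, h3]

/-- the main theorem -/
theorem full {G : Type u} [Group G] (lf : LocFin G) {π : Set ℕ} {H K : Subgroup G}
    (hn : H.Normal) (hH : IsPi πᶜ H) (hK : IsPi π K) (h2 : 2 ∉ π) (solK : LocSol K)
    (hsp : Sparse H K) (hsec : SecGalois π H) :
    ∃ K₀ : Subgroup G, K₀ ≤ K ∧ K₀.relIndex K ≠ 0 ∧ LNSeries (⁅H, K₀⁆ : Subgroup G) := by
  classical
  obtain ⟨K₀, h0, hri, hls, hcm⟩ := main1 lf π H K hn hH hK (Or.inl solK) hsp hsec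
  have hNH : (⁅H, K₀⁆ : Subgroup G) ≤ H := commutator_le_left H K₀
  obtain ⟨N, hN⟩ : ∃ N : Subgroup G, N = ⁅H, K₀⁆ := ⟨_, rfl⟩
  rw [← hN] at hNH hls
  have hKN : K₀ ≤ normalizer (N : Set G) := by
    rw [hN]
    exact full_conj hn
  obtain ⟨Γ, hΓ⟩ : ∃ Γ : Subgroup G, Γ = N ⊔ K₀ := ⟨_, rfl⟩
  have hNΓ : N ≤ Γ := by rw [hΓ]; exact le_sup_left
  have hKΓ : K₀ ≤ Γ := by rw [hΓ]; exact le_sup_right
  have hmapN : (N.subgroupOf Γ).map Γ.subtype = N := by
    rw [Subgroup.map_subgroupOf_eq_of_le hNΓ]
  have hmapK : (K₀.subgroupOf Γ).map Γ.subtype = K₀ := by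
    rw [Subgroup.map_subgroupOf_eq_of_le hKΓ]
  have hst' : Star π (N.subgroupOf Γ) (K₀.subgroupOf Γ) := by
    refine ⟨?_, ?_, ?_, ?_, ?_⟩
    · intro S
      have h1 := lf (S.image Subtype.val)
      rw [Finset.coe_image, ← full_closure S] at h1
      exact Finite.of_injective
        ((closure (S : Set Γ)).equivMapOfInjective Γ.subtype (Subgroup.subtype_injective Γ))
        (MulEquiv.injective _)
    · rw [← Subgroup.subgroupOf_sup hNΓ hKΓ, ← hΓ, Subgroup.subgroupOf_self]
    · apply Subgroup.normal_subgroupOf_of_le_normalizer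
      rw [hΓ]
      exact sup_le le_normalizer hKN
    · intro x hx p hp hpx
      rw [mem_subgroupOf] at hx
      refine hH x (hNH hx) p hp ?_
      rwa [Subgroup.orderOf_coe]
    · intro x hx p hp hpx
      rw [mem_subgroupOf] at hx
      refine hK x (h0 hx) p hp ?_
      rwa [Subgroup.orderOf_coe]
  have hsp' : Sparse (N.subgroupOf Γ) (K₀.subgroupOf Γ) := by
    intro L hL
    have hLK : L.map Γ.subtype ≤ K₀ := by
      rw [← hmapK]
      exact Subgroup.map_mono hL
    obtain ⟨F, hF, hFf, hC'⟩ := hsp (L.map Γ.subtype) (hLK.trans h0)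
    have hFΓ : F ≤ Γ := hF.trans (hLK.trans hKΓ)
    refine ⟨F.subgroupOf Γ, ?_, ?_, ?_⟩
    · intro x hx
      rw [mem_subgroupOf] at hx
      obtain ⟨y, hy, hxy⟩ := hF hx
      have : y = x := Subtype.ext hxy
      rwa [← this]
    · exact Finite.of_injective (fun x : F.subgroupOf Γ => (⟨x.1.1, x.2⟩ : F))
        (fun x y hxy => Subtype.ext (Subtype.ext (congrArg (fun z : F => (z : G)) hxy)))
    · ext x
      rw [mem_inf, mem_inf, mem_centralizer_iff, mem_centralizer_iff]
      refine and_congr_right fun hx => ?_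
      rw [mem_subgroupOf] at hx
      have h1 : (x : G) ∈ centralizer ((L.map Γ.subtype : Subgroup G) : Set G) ↔
          (x : G) ∈ centralizer (F : Set G) := by
        have h2 : (x : G) ∈ H ⊓ centralizer ((L.map Γ.subtype : Subgroup G) : Set G) ↔
            (x : G) ∈ H ⊓ centralizer (F : Set G) := by rw [hC']
        rw [mem_inf, mem_inf] at h2
        exact ⟨fun h => (h2.1 ⟨hNH hx, h⟩).2, fun h => (h2.2 ⟨hNH hx, h⟩).2⟩
      rw [mem_centralizer_iff, mem_centralizer_iff] at h1
      constructor
      · intro h y hy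
        have hy' : (y : G) ∈ F := hy
        have h3 := h1.1 (by
          rintro z ⟨w, hw, rfl⟩
          exact congrArg Subtype.val (h w hw)) y hy'
        exact Subtype.ext h3
      · intro h y hy
        have h3 := h1.2 (by
          intro z hz
          exact congrArg Subtype.val (h ⟨z, hFΓ hz⟩ hz)) y ⟨y, hy, rfl⟩
        exact Subtype.ext h3
  have hls' : LocSol (N.subgroupOf Γ) := by
    intro S hS
    have h1 := hls (S.image Subtype.val) (by
      intro x hx
      rw [Finset.coe_image] at hx
      obtain ⟨y, hy, rfl⟩ := hx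
      exact hS hy)
    rw [Finset.coe_image, ← full_closure S] at h1
    exact Group.isSolvable_of_isSolvable_injective
      (f := ((closure (S : Set Γ)).equivMapOfInjective Γ.subtype
        (Subgroup.subtype_injective Γ)).toMonoidHom)
      ((closure (S : Set Γ)).equivMapOfInjective Γ.subtype
        (Subgroup.subtype_injective Γ)).injective
  have hks' : LocSol (K₀.subgroupOf Γ) := by
    intro S hS
    have h1 := solK (S.image Subtype.val) (by
      intro x hx
      rw [Finset.coe_image] at hx
      obtain ⟨y, hy, rfl⟩ := hx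
      exact h0 (hS hy))
    rw [Finset.coe_image, ← full_closure S] at h1
    exact Group.isSolvable_of_isSolvable_injective
      (f := ((closure (S : Set Γ)).equivMapOfInjective Γ.subtype
        (Subgroup.subtype_injective Γ)).toMonoidHom)
      ((closure (S : Set Γ)).equivMapOfInjective Γ.subtype
        (Subgroup.subtype_injective Γ)).injective
  obtain ⟨K₁, hK₁, hri₁, hser⟩ := rae hst' hsp' h2 hls' hks'
  have hK₁K : K₁.map Γ.subtype ≤ K₀ := by
    rw [← hmapK]
    exact Subgroup.map_mono hK₁
  refine ⟨K₁.map Γ.subtype, hK₁K.trans h0, ?_, ?_⟩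
  · refine Subgroup.relIndex_ne_zero_trans (K := K₀) ?_ hri
    rw [← hmapK, Subgroup.relIndex_map_map_of_injective _ _ (Subgroup.subtype_injective Γ)]
    exact hri₁
  · have h1 := full_ln_map Γ.subtype (Subgroup.subtype_injective Γ) hser
    rw [Subgroup.map_commutator, hmapN, hN, hcm _ hK₁K] at h1
    exact h1

end MP0d06d9I
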