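import Pool.Agent.Lib.MP_0d06d9_alR.Defs

/-!
# T0: definitions for the T-lemma

`Full x b T`: `x` normalises `T` and `[T, x^i] = T` for all `i` which are not divisible by `b`.
`Ev ρ t U l`: `l` is an eigenvalue of `ρ t` on `U`. `Cl s b E`: the conclusion of the T-lemma for
the set `E` of eigenvalues.
-/

set_option autoImplicit false

namespace MP0d06d9R

open Subgroup commutatorElement Module

/-- `x` normalises `T` and `[T, x^i] = T` for all `i` not divisible by `b` -/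
def Full {G : Type*} [Group G] (x : G) (b : ℕ) (T : Subgroup G) : Prop :=
  x ∈ normalizer (T : Set G) ∧ ∀ i : ℕ, ¬ b ∣ i → ⁅T, zpowers (x ^ i)⁆ = T

section

variable {G k V : Type*} [Group G] [Field k] [AddCommGroup V] [Module k V]
  (ρ : Representation k G V)

/-- `l` is an eigenvalue of `ρ t` on `U` -/
def Ev (t : G) (U : Submodule k V) (l : k) : Prop := ∃ u ∈ U, u ≠ 0 ∧ ρ t u = l • u

/-- the conclusion of the T-lemma -/
def Cl (s b : ℕ) (E : k → Prop) : Prop :=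
  (∀ l : k, l ^ b = 1 → E l) ∨ ∃ c m : ℕ, ∃ μ : k, 1 ≤ m ∧ c * (s ^ m + 1) = b ∧
    ∀ l : k, l ^ b = 1 → l ^ c ≠ μ → E l

/-- `U` is irreducible for `P` and `t`, and `P` is not trivial on it -/
structure Ir (P : Subgroup G) (t : G) (U : Submodule k V) : Prop where
  ne : U ≠ ⊥
  hP : P ≤ stb ρ U
  ht : t ∈ stb ρ U
  irr : ∀ U' : Submodule k V, U' ≤ U → P ≤ stb ρ U' → t ∈ stb ρ U' → U' = ⊥ ∨ U' = U
  nt : ∃ p ∈ P, ¬ Tri ρ U p

/-- the translates of `W` by the elements of `⟨P, t⟩` -/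
def Bl (P : Subgroup G) (t : G) (W : Submodule k V) : Set (Submodule k V) :=
  {W' | ∃ g ∈ P ⊔ zpowers t, tr ρ g W = W'}

/-- the T-lemma for all numbers less than `b` (induction hypothesis) -/
def IHb (s b : ℕ) (P : Subgroup G) : Prop :=
  ∀ b' : ℕ, b' < b → (b' : k) ≠ 0 → ∀ t : G, Full t b' P → ∀ U : Submodule k V,
    P ≤ stb ρ U → t ∈ stb ρ U → Tri ρ U (t ^ b') → (∃ p ∈ P, ¬ Tri ρ U p) →
    Cl s b' (Ev ρ t U)

end

end MP0d06d9R
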