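import Pool.Agent.Lib.MP_0d06d9_alR.T0

/-!
# T1: reduction to the irreducible case, blocks (steps C0, C1, C2 of the T-lemma)

Conventions: `tr ρ g U = g U`, `stb ρ U = {g | g U = U}`, `fx ρ P` = the fixed vectors of `P`,
`Tri ρ U g`: `g` is trivial on `U`, `Sca ρ U g`: `g` is a scalar on `U`, `Com ρ U A`: `A` commutes on `U`,
`Bl ρ P t W` = the set of the translates of `W` by the elements of `⟨P, t⟩`.

PROOFS.
* `exists_ir`: `U₁ = {u ∈ U | Σ_{p ∈ P} ρ p u = 0}` is invariant under `P` and `t` (`t` normalises `P`),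
  and nonzero: if `ρ p u ≠ u`, `u ∈ U`, then `ρ p u - u ∈ U₁`. Choose `U' ≤ U₁` minimal among the nonzero
  subspaces `U'` with `P ≤ stb U'`, `t ∈ stb U'` (finite dimension). `P` is not trivial on `U'`: otherwise
  for `0 ≠ u ∈ U'`: `0 = Σ_p ρ p u = |P| u`, and `|P|` is a power of `s`, nonzero in `k`.
* `no_fix`: `fx ρ P ⊓ U` is invariant under `P` and `t` (`t` normalises `P`), so it is `⊥` or `U`; it is not `U`.
* `ev_of`: `u = Σ_{i < c} l⁻¹ ^ i • ρ (t ^ i) w`; `u - w ∈ W'` (the terms `0 < i < c`), `w ∈ W`, `w ≠ 0`, so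
  `u ≠ 0` (`Disjoint W W'`). `ρ t u = l • u`: telescoping with `ρ (t ^ c) w = l ^ c • w`. (`0 < c`.)
* `c1_grp` (group theory): Let `t₁ = x₀⁻¹ t ∈ H₀`, `P₀ = H₀ ⊓ P < P`, `β` = conjugation by `t`. `t₁` normalises `P`
  and `H₀`, so it normalises `P₀`. `P` is nilpotent, so there is `P₂`: `P₂ = P₀ ⁅P, P⁆ ≠ P` (a maximal subgroup of `P`
  containing `P₀` is normal of prime index, so it contains `⁅P, P⁆`; `Group.isNilpotent_of_finite_tfae`).
  `P₂` is normalised by `P` and by `t₁`, so by `t = x₀ t₁`. For `i` not divisible by `b` the map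
  `y ↦ y⁻¹ β^i(y)` induces an endomorphism of the abelian group `P / P₂`, which is onto because
  `⁅P, zpowers (t ^ i)⁆ = P`, so it is injective (finite). (All this for `P / P₂` with `P.map` or as a statement
  on elements: onto: every `z ∈ P` is `y⁻¹ β^i(y) c` with `y ∈ P`, `c ∈ P₂`; injective: `y ∈ P`,
  `y⁻¹ β^i(y) ∈ P₂ → y ∈ P₂`.) Choose `y₁ ∈ P` with `y₁⁻¹ β(y₁) x₀ ∈ P₂` (`1 < b`, `i = 1`), so `t₂ := y₁⁻¹ t y₁ ∈ P₂ t₁`.
  Choose `y ∈ P`, `y ∉ P₂`. Claim: `y y₁` works. Suppose `(y y₁)⁻¹ t^i (y y₁) ∈ H₀`, `b ∤ i`. It is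
  `[y₁⁻¹ (y⁻¹ β^i(y)) y₁] t₂^i` and `t₂^i ∈ P₂ t₁^i` (`P₂` is normalised by `t₁`), `t₁^i ∈ H₀`. So
  `[y₁⁻¹ (y⁻¹ β^i(y)) y₁] p₂ ∈ H₀ ⊓ P = P₀ ≤ P₂` for a `p₂ ∈ P₂`, so `y⁻¹ β^i(y) ∈ P₂`, `y ∈ P₂`: contradiction.
* `c1_one`: (all translates of `W₀` by `P` generate a `t`-invariant subspace.) `W = ⨆_{p ∈ P} tr p W₀`. `t W₀ ≤ W`. If `t W₀`
  is not a member `x₀ W₀`, `x₀ ∈ P`, it is disjoint from `W` by independence (`sSupIndep`), so `⊥`: contradiction.
  `H₀ = stb ρ W₀`; `x₀⁻¹ t ∈ H₀`. If `P ≤ H₀` then `W = W₀`, `t W₀ = W₀`, so `W₀ = U` by `hI.irr`: contradiction with `hm`.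
  `c1_grp` gives `y`; `W₁ = y W₀`, `t^i W₁ ≠ W₁` for `b ∤ i`. `ev_of` for `c = b`, `W = W₁`, `W' = sSup (Bl \ {W₁})`,
  any `0 ≠ w ∈ W₁`; `ρ (t^b) w = w = l^b w`.
* `c1_many`: (`W` is not `t`-invariant.) let `c` be the least positive number with `t^c W = W` (it exists since
  `t^b W = W`: `t^b` is trivial on `U ≥ W`, `b ≠ 0`); `c > 1`, `c ∣ b`. Let `b' = b / c < b`. `P` is not trivial on `W` (`no_fix`). `Full (t^c) b' P`.
  `IHb` for `t^c, b', W`: `Cl s b' (Ev ρ (t^c) W)`. The `t^i W`, `0 < i < c`, are sums of members of `Bl` which are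
  different from the members occurring in `W` (if `t^i p W₀ = p' W₀`, `p, p' ∈ P`, then `t^i W = W` as `t` normalises `P`), so
  `W' = ⨆_{0<i<c} t^i W` is disjoint from `W`. If `λ ^ b = 1` then `(λ ^ c) ^ b' = 1`; if `λ ^ c` is an eigenvalue of `t^c` on
  `W` then `λ` is one of `t` on `U` (`ev_of`). Second alternative of `Cl`: `c' * (s^m + 1) = b'` gives `(c c') (s^m+1) = b`,
  `λ ^ (c c') ≠ μ`.
* `c1`: `c1_one` or `c1_many`.
* `c2`: `A` commutes on `U` and `U ≠ ⊥` is finite dimensional, `k` algebraically closed: there is a common eigenvector, with eigenvalues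
  `χ a`, `a ∈ A`. `W₀ = {u ∈ U | ∀ a ∈ A, ρ a u = χ a • u}`. For `g ∈ ⟨P, t⟩`: `g W₀ = {u ∈ U | ∀ a ∈ A, ρ a u = χ (g⁻¹ a g) • u}`:
  these simultaneous eigenspaces are independent for different functions (`Module.End.independent_iInf_maxGenEigenspace_of_forall_mapsTo`
  restricted to `U`, or by hand: a minimal nontrivial relation). So `sSupIndep (Bl ρ P t W₀)`; `hNB` gives `W₀ = U`.
-/

set_option autoImplicit false

namespace MP0d06d9R

open Subgroup commutatorElement Module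

variable {G k V : Type*} [Group G] [Field k] [AddCommGroup V] [Module k V]
  (ρ : Representation k G V)

private theorem t1a_act (g : G) (w : V) : ρ g (ρ g⁻¹ w) = w := by
  rw [← Module.End.mul_apply, ← map_mul, mul_inv_cancel, map_one, Module.End.one_apply]

private theorem t1a_mul (g h : G) (w : V) : ρ g (ρ h w) = ρ (g * h) w := by
  rw [← Module.End.mul_apply, ← map_mul]

private theorem t1a_eq {g : G} {U : Submodule k V} (h1 : tr ρ g U ≤ U) (h2 : tr ρ g⁻¹ U ≤ U) :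
    tr ρ g U = U := by
  apply le_antisymm h1
  intro v hv
  rw [mem_tr]
  apply h2
  rw [mem_tr, inv_inv, t1a_act]
  exact hv

private theorem t1a_inf {g : G} {U W : Submodule k V} (h1 : g ∈ stb ρ U) (h2 : g ∈ stb ρ W) :
    g ∈ stb ρ (U ⊓ W) := by
  rw [mem_stb] at h1 h2 ⊢
  apply t1a_eq
  · intro v hv
    rw [mem_tr] at hv
    refine ⟨?_, ?_⟩
    · rw [← h1]; exact (mem_tr ρ).2 hv.1
    · rw [← h2]; exact (mem_tr ρ).2 hv.2
  · intro v hv
    rw [mem_tr, inv_inv] at hv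
    have h3 : g⁻¹ ∈ stb ρ U := inv_mem (s := stb ρ U) h1
    have h4 : g⁻¹ ∈ stb ρ W := inv_mem (s := stb ρ W) h2
    rw [mem_stb] at h3 h4
    refine ⟨?_, ?_⟩
    · rw [← h3]; exact (mem_tr ρ).2 (by rw [inv_inv]; exact hv.1)
    · rw [← h4]; exact (mem_tr ρ).2 (by rw [inv_inv]; exact hv.2)

private theorem t1a_conj {P : Subgroup G} {g : G} (hg : g ∈ normalizer (P : Set G)) {l : G}
    (hl : l ∈ P) : g⁻¹ * l * g ∈ P := by
  have h1 := Subgroup.mem_normalizer_iff'.1 hg (g⁻¹ * l)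
  have h2 : g * (g⁻¹ * l) ∈ P := by rw [mul_inv_cancel_left]; exact hl
  exact h1.2 h2

private theorem t1a_fx {P : Subgroup G} {g : G} (hg : g ∈ normalizer (P : Set G)) :
    g ∈ stb ρ (fx ρ P) := by
  have key : ∀ g ∈ normalizer (P : Set G), tr ρ g (fx ρ P) ≤ fx ρ P := by
    intro g hg v hv
    rw [mem_tr] at hv
    intro l hl
    have h2 := hv _ (t1a_conj hg hl)
    rw [t1a_mul] at h2
    have h3 : g⁻¹ * l * g * g⁻¹ = g⁻¹ * l := by group
    rw [h3, ← t1a_mul] at h2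
    have h4 : ρ g (ρ g⁻¹ (ρ l v)) = ρ g (ρ g⁻¹ v) := by rw [h2]
    rw [t1a_act, t1a_act] at h4
    exact h4
  rw [mem_stb]
  exact t1a_eq ρ (key g hg) (key g⁻¹ (inv_mem hg))

private theorem t1a_stb_mem {g : G} {U : Submodule k V} (h : g ∈ stb ρ U) {u : V} (hu : u ∈ U) :
    ρ g u ∈ U := by
  rw [mem_stb] at h
  rw [← h]
  exact Submodule.mem_map_of_mem hu

theorem exists_ir [FiniteDimensional k V] {s : ℕ} [Fact s.Prime] (hs : (s : k) ≠ 0)
    (P : Subgroup G) [Finite P] (hP : IsPGroup s P) (t : G) (htP : t ∈ normalizer (P : Set G))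
    (U : Submodule k V) (hPU : P ≤ stb ρ U) (htU : t ∈ stb ρ U)
    (hnt : ∃ p ∈ P, ¬ Tri ρ U p) : ∃ U' : Submodule k V, U' ≤ U ∧ Ir ρ P t U' := by
  classical
  have : Fintype P := Fintype.ofFinite P
  set N : V →ₗ[k] V := ∑ p : P, ρ (p : G) with hN
  have hNa : ∀ v, N v = ∑ p : P, ρ (p : G) v := fun v => by
    rw [hN, LinearMap.sum_apply]
  set K : Submodule k V := LinearMap.ker N with hK
  have hNr : ∀ p ∈ P, ∀ v, N (ρ p v) = N v := by
    intro p hp v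
    rw [hNa, hNa]
    refine Fintype.sum_equiv (Equiv.mulRight (⟨p, hp⟩ : P)) _ _ ?_
    intro q
    rw [t1a_mul]
    rfl
  have hNt : ∀ g ∈ normalizer (P : Set G), ∀ v, N (ρ g v) = ρ g (N v) := by
    intro g hg v
    rw [hNa, hNa, map_sum]
    let e : P ≃ P :=
      { toFun := fun q => ⟨g⁻¹ * q * g, t1a_conj hg q.2⟩
        invFun := fun q => ⟨g * q * g⁻¹, by
          have := t1a_conj (inv_mem hg) q.2
          rwa [inv_inv] at this⟩
        left_inv := fun q => by ext; simp [mul_assoc]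
        right_inv := fun q => by ext; simp [mul_assoc] }
    refine Fintype.sum_equiv e _ _ ?_
    intro q
    rw [t1a_mul, t1a_mul]
    congr 2
    show (q : G) * g = g * (g⁻¹ * q * g)
    group
  have hKn : ∀ g ∈ normalizer (P : Set G), g ∈ stb ρ K := by
    have key : ∀ g ∈ normalizer (P : Set G), tr ρ g K ≤ K := by
      intro g hg v hv
      rw [mem_tr] at hv
      rw [hK, LinearMap.mem_ker] at hv ⊢
      rw [hNt _ (inv_mem hg)] at hv
      rw [← t1a_act ρ g (N v), hv, map_zero]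
    intro g hg
    rw [mem_stb]
    exact t1a_eq ρ (key g hg) (key g⁻¹ (inv_mem hg))
  have hPn : P ≤ normalizer (P : Set G) := le_normalizer
  -- the set of candidates
  let S : Set (Submodule k V) :=
    {U' | U' ≤ U ⊓ K ∧ U' ≠ ⊥ ∧ P ≤ stb ρ U' ∧ t ∈ stb ρ U'}
  have hS : S.Nonempty := by
    refine ⟨U ⊓ K, le_rfl, ?_, ?_, ?_⟩
    · obtain ⟨p, hp, hpt⟩ := hnt
      unfold Tri at hpt
      push Not at hpt
      obtain ⟨v, hv, hv'⟩ := hpt
      intro hbot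
      have h1 : ρ p v - v ∈ U ⊓ K := by
        refine ⟨sub_mem (t1a_stb_mem ρ (hPU hp) hv) hv, ?_⟩
        rw [SetLike.mem_coe, hK, LinearMap.mem_ker, map_sub, hNr p hp, sub_self]
      rw [hbot, Submodule.mem_bot, sub_eq_zero] at h1
      exact hv' h1
    · exact fun p hp => t1a_inf ρ (hPU hp) (hKn p (hPn hp))
    · exact t1a_inf ρ htU (hKn t htP)
  obtain ⟨U', ⟨hU1, hU2, hU3, hU4⟩, hmin⟩ :=
    (wellFounded_lt (α := Submodule k V)).has_min S hS
  refine ⟨U', hU1.trans inf_le_left, hU2, hU3, hU4, ?_, ?_⟩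
  · intro U'' h1 h2 h3
    by_cases h4 : U'' = ⊥
    · exact Or.inl h4
    · right
      by_contra h5
      exact hmin U'' ⟨h1.trans hU1, h4, h2, h3⟩ (lt_of_le_of_ne h1 h5)
  · by_contra hall
    push Not at hall
    obtain ⟨u, hu, hu0⟩ := Submodule.exists_mem_ne_zero_of_ne_bot hU2
    have h1 : N u = 0 := by
      have := (hU1 hu).2
      rwa [SetLike.mem_coe, hK, LinearMap.mem_ker] at this
    rw [hNa, Finset.sum_congr rfl (fun (p : P) _ => hall p p.2 u hu), Finset.sum_const,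
      Finset.card_univ, ← Nat.card_eq_fintype_card] at h1
    obtain ⟨n, hn⟩ := (IsPGroup.iff_card).1 hP
    rw [hn, ← Nat.cast_smul_eq_nsmul k, Nat.cast_pow] at h1
    rcases smul_eq_zero.1 h1 with h2 | h2
    · exact pow_ne_zero n hs h2
    · exact hu0 h2

theorem no_fix {P : Subgroup G} {t : G} (htP : t ∈ normalizer (P : Set G)) {U : Submodule k V}
    (hI : Ir ρ P t U) : fx ρ P ⊓ U = ⊥ := by
  have hPn : P ≤ normalizer (P : Set G) := le_normalizer
  rcases hI.irr (fx ρ P ⊓ U) inf_le_right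
    (fun p hp => t1a_inf ρ (t1a_fx ρ (hPn hp)) (hI.hP hp))
    (t1a_inf ρ (t1a_fx ρ htP) hI.ht) with h | h
  · exact h
  · exfalso
    obtain ⟨p, hp, hpt⟩ := hI.nt
    apply hpt
    intro v hv
    rw [← h] at hv
    exact hv.1 p hp

theorem ev_of {W W' U : Submodule k V} (t : G) (c : ℕ) (hc : 0 < c) (l : k) (hl : l ≠ 0)
    (hd : Disjoint W W') {w : V} (hw : w ∈ W) (h0 : w ≠ 0)
    (hw' : ∀ i, 0 < i → i < c → ρ (t ^ i) w ∈ W') (hcw : ρ (t ^ c) w = l ^ c • w)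
    (hwU : w ∈ U) (ht : t ∈ stb ρ U) : Ev ρ t U l := by
  set f : ℕ → V := fun i => (l⁻¹) ^ i • ρ (t ^ i) w with hf
  have hf0 : f 0 = w := by
    rw [hf]
    simp
  have hsplit : ∑ i ∈ Finset.range c, f i = w + ∑ i ∈ Finset.Ico 1 c, f i := by
    rw [Finset.range_eq_Ico, Finset.sum_eq_sum_Ico_succ_bot hc, hf0]
  refine ⟨∑ i ∈ Finset.range c, f i, ?_, ?_, ?_⟩
  · refine Submodule.sum_mem _ fun i _ => ?_
    exact Submodule.smul_mem _ _ (t1a_stb_mem ρ (pow_mem ht i) hwU)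
  · intro h
    rw [hsplit] at h
    have h1 : ∑ i ∈ Finset.Ico 1 c, f i ∈ W' := by
      refine Submodule.sum_mem _ fun i hi => ?_
      rw [Finset.mem_Ico] at hi
      exact Submodule.smul_mem _ _ (hw' i hi.1 hi.2)
    have h2 : w ∈ W' := by
      have h3 : w = -∑ i ∈ Finset.Ico 1 c, f i := eq_neg_of_add_eq_zero_left h
      rw [h3]
      exact neg_mem h1
    exact h0 (Submodule.disjoint_def.1 hd w hw h2)
  · have h1 : ∀ i, ρ t (f i) = l • f (i + 1) := by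
      intro i
      rw [hf]
      simp only
      rw [map_smul, t1a_mul, ← pow_succ', smul_smul, pow_succ' l⁻¹ i, ← mul_assoc,
        mul_inv_cancel₀ hl, one_mul]
    have h2 : f c = w := by
      rw [hf]
      simp only
      rw [hcw, smul_smul, inv_pow, inv_mul_cancel₀ (pow_ne_zero c hl), one_smul]
    rw [map_sum, Finset.sum_congr rfl (fun i _ => h1 i), ← Finset.smul_sum]
    congr 1
    have h3 : ∑ i ∈ Finset.range (c + 1), f i = ∑ i ∈ Finset.range c, f i + f c :=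
      Finset.sum_range_succ _ _
    have h4 : ∑ i ∈ Finset.range (c + 1), f i = ∑ i ∈ Finset.range c, f (i + 1) + f 0 :=
      Finset.sum_range_succ' _ _
    rw [h3, h2, hf0] at h4
    exact (add_right_cancel h4).symm

private theorem t1b_frat {N : Type*} [Group N] [Group.IsNilpotent N] :
    ∀ A : Subgroup N, A ⊔ commutator N = ⊤ → A = ⊤ := by
  apply @Group.nilpotent_center_quotient_ind (fun N _ _ => ∀ A : Subgroup N, A ⊔ commutator N = ⊤ → A = ⊤) N _ _ <;>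
    clear! N
  · intro N _ _ A _
    exact @Subsingleton.elim _ Unique.instSubsingleton _ _
  · intro N _ _ ih A hA
    have hsur : Function.Surjective (QuotientGroup.mk' (center N)) := Quot.mk_surjective
    have h1 : A.map (QuotientGroup.mk' (center N)) ⊔ commutator (N ⧸ center N) = ⊤ := by
      have h2 : (commutator N).map (QuotientGroup.mk' (center N)) = commutator (N ⧸ center N) := by
        rw [_root_.commutator_def, _root_.commutator_def, map_commutator,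
          Subgroup.map_top_of_surjective _ hsur]
      rw [← h2, ← Subgroup.map_sup, hA, Subgroup.map_top_of_surjective _ hsur]
    have h3 := ih _ h1
    have h4 : A ⊔ center N = ⊤ := by
      have h5 : (A.map (QuotientGroup.mk' (center N))).comap (QuotientGroup.mk' (center N)) = ⊤ := by
        rw [h3, Subgroup.comap_top]
      rw [Subgroup.comap_map_eq, QuotientGroup.ker_mk'] at h5
      exact h5
    have h6 : commutator N ≤ A := by
      rw [_root_.commutator_def, Subgroup.commutator_le]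
      intro g _ h _
      have hg : g ∈ A ⊔ center N := by rw [h4]; exact Subgroup.mem_top g
      have hh : h ∈ A ⊔ center N := by rw [h4]; exact Subgroup.mem_top h
      obtain ⟨a, ha, z, hz, rfl⟩ := Subgroup.mem_sup_of_normal_right.1 hg
      obtain ⟨c, hc, w, hw, rfl⟩ := Subgroup.mem_sup_of_normal_right.1 hh
      have hz' : ∀ x, z * x = x * z := fun x => (Subgroup.mem_center_iff.1 hz x).symm
      have hw' : ∀ x, w * x = x * w := fun x => (Subgroup.mem_center_iff.1 hw x).symm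
      have h7 : ⁅a * z, c * w⁆ = ⁅a, c⁆ := by
        rw [commutatorElement_def, commutatorElement_def]
        calc a * z * (c * w) * (a * z)⁻¹ * (c * w)⁻¹
            = a * (z * (c * w)) * z⁻¹ * a⁻¹ * (w⁻¹ * c⁻¹) := by group
          _ = a * c * (w * a⁻¹) * w⁻¹ * c⁻¹ := by rw [hz']; group
          _ = a * c * a⁻¹ * c⁻¹ := by rw [hw']; group
      rw [h7, commutatorElement_def]
      exact mul_mem (mul_mem (mul_mem ha hc) (inv_mem ha)) (inv_mem hc)
    rw [eq_top_iff, ← hA]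
    exact sup_le le_rfl h6

/-- the core: `P₂` normal in `P`, invariant under `t`, abelian quotient -/
private theorem t1b_core {G : Type*} [Group G] (P : Subgroup G) [Finite P]
    (x : G) (hx : x ∈ normalizer (P : Set G)) (hF : ⁅P, zpowers x⁆ = P)
    (Q : Subgroup P) (hQ : commutator P ≤ Q)
    (hQx : ∀ y : P, y ∈ Q → (⟨x * y * x⁻¹, (Subgroup.mem_normalizer_iff.1 hx y).1 y.2⟩ : P) ∈ Q) :
    (∀ z ∈ P, ∃ y ∈ P, z⁻¹ * (y⁻¹ * x * y * x⁻¹) ∈ Q.map P.subtype) ∧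
      ∀ y ∈ P, y⁻¹ * x * y * x⁻¹ ∈ Q.map P.subtype → y ∈ Q.map P.subtype := by
  have hQn : Q.Normal := by
    constructor
    intro n hn g
    have h1 : g * n * g⁻¹ = ⁅g, n⁆ * n := by rw [commutatorElement_def]; group
    rw [h1]
    exact mul_mem (hQ (Subgroup.commutator_mem_commutator (Subgroup.mem_top _)
      (Subgroup.mem_top _))) hn
  let β : P →* P :=
    { toFun := fun y => ⟨x * y * x⁻¹, (Subgroup.mem_normalizer_iff.1 hx y).1 y.2⟩
      map_one' := by ext; simp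
      map_mul' := fun a b => by ext; simp [mul_assoc] }
  have hβ : ∀ y : P, ((β y : P) : G) = x * y * x⁻¹ := fun y => rfl
  let π := QuotientGroup.mk' Q
  have hcomm : ∀ a b : P, π (a * b) = π (b * a) := by
    intro a b
    have h1 : (a * b) = ⁅a, b⁆ * (b * a) := by rw [commutatorElement_def]; group
    rw [h1, map_mul]
    have h2 : π ⁅a, b⁆ = 1 :=
      (QuotientGroup.eq_one_iff _).2 (hQ (Subgroup.commutator_mem_commutator (Subgroup.mem_top _)
        (Subgroup.mem_top _)))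
    rw [h2, one_mul]
  let φ : P →* (P ⧸ Q) :=
    { toFun := fun y => π (y⁻¹ * β y)
      map_one' := by simp
      map_mul' := fun a b => by
        have h1 : (a * b)⁻¹ * β (a * b) = (b⁻¹ * (a⁻¹ * β a)) * β b := by
          rw [map_mul]; group
        rw [h1, map_mul, hcomm b⁻¹, ← map_mul, ← map_mul]
        congr 1
        group }
  have hφ : ∀ y, φ y = π (y⁻¹ * β y) := fun y => rfl
  -- surjectivity
  have hsur : Function.Surjective φ := by
    let R : Subgroup G := (φ.range.comap π).map P.subtype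
    have hRm : ∀ z : P, (z : G) ∈ R ↔ π z ∈ φ.range := by
      intro z
      constructor
      · rintro ⟨w, hw, hwz⟩
        have : w = z := Subtype.ext hwz
        rw [← this]; exact hw
      · intro h
        exact ⟨z, h, rfl⟩
    let L : Subgroup G :=
      { carrier := {g | g ∈ normalizer (P : Set G) ∧ ∀ w ∈ P, w⁻¹ * (g * w * g⁻¹) ∈ R}
        one_mem' := by
          refine ⟨one_mem _, fun w hw => ?_⟩
          have h1 : w⁻¹ * (1 * w * 1⁻¹) = 1 := by group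
          rw [h1]; exact one_mem _
        mul_mem' := by
          rintro a b ⟨ha, ha'⟩ ⟨hb, hb'⟩
          refine ⟨mul_mem ha hb, fun w hw => ?_⟩
          have h1 : w⁻¹ * (a * b * w * (a * b)⁻¹) =
            (w⁻¹ * (b * w * b⁻¹)) * ((b * w * b⁻¹)⁻¹ * (a * (b * w * b⁻¹) * a⁻¹)) := by group
          rw [h1]
          exact mul_mem (hb' w hw) (ha' _ ((Subgroup.mem_normalizer_iff.1 hb w).1 hw))
        inv_mem' := by
          rintro a ⟨ha, ha'⟩
          refine ⟨inv_mem ha, fun w hw => ?_⟩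
          have h0 : a⁻¹ * w * a⁻¹⁻¹ ∈ P := (Subgroup.mem_normalizer_iff.1 (inv_mem ha) w).1 hw
          have h1 : w⁻¹ * (a⁻¹ * w * a⁻¹⁻¹) =
            ((a⁻¹ * w * a⁻¹⁻¹)⁻¹ * (a * (a⁻¹ * w * a⁻¹⁻¹) * a⁻¹))⁻¹ := by group
          rw [h1]
          exact inv_mem (ha' _ h0) }
    have hxL : x ∈ L := by
      refine ⟨hx, fun w hw => ?_⟩
      have h1 : (w⁻¹ * (x * w * x⁻¹)) = (((⟨w, hw⟩ : P)⁻¹ * β ⟨w, hw⟩ : P) : G) := rfl
      rw [h1, hRm]
      exact ⟨⟨w, hw⟩, rfl⟩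
    have hPR : P ≤ R := by
      conv_lhs => rw [← hF]
      rw [Subgroup.commutator_le]
      intro y hy g hg
      have hgL : g ∈ L := (Subgroup.zpowers_le.2 hxL) hg
      have h1 : ⁅y, g⁆ = (y⁻¹)⁻¹ * (g * y⁻¹ * g⁻¹) := by rw [commutatorElement_def]; group
      rw [h1]
      exact hgL.2 _ (inv_mem hy)
    intro q
    obtain ⟨z, rfl⟩ := QuotientGroup.mk'_surjective Q q
    exact (hRm z).1 (hPR z.2)
  constructor
  · intro z hz
    obtain ⟨y, hy⟩ := hsur (π ⟨z, hz⟩)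
    refine ⟨y, y.2, ?_⟩
    rw [hφ] at hy
    have h1 : (⟨z, hz⟩ : P)⁻¹ * (y⁻¹ * β y) ∈ Q := (QuotientGroup.eq.1 hy.symm)
    refine ⟨_, h1, ?_⟩
    show z⁻¹ * ((y : G)⁻¹ * (x * y * x⁻¹)) = _
    group
  · -- counting
    have hle : Q ≤ φ.ker := by
      intro y hy
      rw [MonoidHom.mem_ker, hφ]
      exact (QuotientGroup.eq_one_iff _).2 (mul_mem (inv_mem hy) (hQx y hy))
    have hcard : Nat.card φ.ker ≤ Nat.card Q := by
      have h1 : Nat.card P = Nat.card (P ⧸ Q) * Nat.card Q :=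
        Subgroup.card_eq_card_quotient_mul_card_subgroup Q
      have h2 : Nat.card P = Nat.card (P ⧸ φ.ker) * Nat.card φ.ker :=
        Subgroup.card_eq_card_quotient_mul_card_subgroup φ.ker
      have h3 : Nat.card (P ⧸ φ.ker) = Nat.card (P ⧸ Q) :=
        Nat.card_congr (QuotientGroup.quotientKerEquivOfSurjective φ hsur).toEquiv
      rw [h3, h1] at h2
      exact (Nat.eq_of_mul_eq_mul_left Nat.card_pos h2).symm.le
    have heq : Q = φ.ker := Subgroup.eq_of_le_of_card_ge hle hcard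
    intro y hy hyQ
    refine ⟨⟨y, hy⟩, ?_, rfl⟩
    rw [SetLike.mem_coe, heq, MonoidHom.mem_ker, hφ]
    obtain ⟨w, hw, hw'⟩ := hyQ
    have h1 : w = (⟨y, hy⟩ : P)⁻¹ * β ⟨y, hy⟩ := by
      apply Subtype.ext
      show (w : G) = y⁻¹ * (x * y * x⁻¹)
      have h2 : (w : G) = y⁻¹ * x * y * x⁻¹ := hw'
      rw [h2]; group
    rw [← h1]
    exact (QuotientGroup.eq_one_iff _).2 hw

theorem c1_grp {G : Type*} [Group G] (P : Subgroup G) [Finite P] (hn : Group.IsNilpotent P)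
    (t : G) (b : ℕ) (hb : 1 < b) (hF : Full t b P) (H₀ : Subgroup G) (hH : ¬ P ≤ H₀) (x₀ : G)
    (hx₀ : x₀ ∈ P) (hx : x₀⁻¹ * t ∈ H₀) :
    ∃ y ∈ P, ∀ i : ℕ, ¬ b ∣ i → y⁻¹ * t ^ i * y ∉ H₀ := by
  obtain ⟨htP, hFi⟩ := hF
  set Q : Subgroup P := H₀.subgroupOf P ⊔ commutator P with hQdef
  have hQc : commutator P ≤ Q := le_sup_right
  have hQne : Q ≠ ⊤ := by
    intro h
    have h1 := t1b_frat _ h
    rw [Subgroup.subgroupOf_eq_top] at h1
    exact hH h1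
  set P₂ : Subgroup G := Q.map P.subtype with hP₂
  have hP₂P : P₂ ≤ P := by
    rw [hP₂]
    exact Subgroup.map_subtype_le Q
  have hHP : ∀ z ∈ H₀, z ∈ P → z ∈ P₂ := by
    intro z hz hz'
    exact ⟨⟨z, hz'⟩, (le_sup_left : H₀.subgroupOf P ≤ Q) (Subgroup.mem_subgroupOf.2 hz), rfl⟩
  have hnorm : ∀ a ∈ P, ∀ z ∈ P₂, a * z * a⁻¹ ∈ P₂ := by
    rintro a ha z ⟨w, hw, rfl⟩
    refine ⟨⟨a, ha⟩ * w * ⟨a, ha⟩⁻¹, ?_, rfl⟩
    have h1 : (⟨a, ha⟩ : P) * w * ⟨a, ha⟩⁻¹ = ⁅(⟨a, ha⟩ : P), w⁆ * w := by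
      rw [commutatorElement_def]; group
    rw [h1]
    exact mul_mem (hQc (Subgroup.commutator_mem_commutator (Subgroup.mem_top _)
      (Subgroup.mem_top _))) hw
  set t₁ : G := x₀⁻¹ * t with ht₁
  have ht₁n : t₁ ∈ normalizer (P : Set G) := mul_mem (inv_mem (le_normalizer hx₀)) htP
  -- `g ∈ H₀ ∩ N(P)` normalises `P₂`
  have hgen : ∀ g, g ∈ H₀ → g ∈ normalizer (P : Set G) → ∀ z ∈ P₂, g * z * g⁻¹ ∈ P₂ := by
    intro g hg hgP
    let γ : P →* P :=
      { toFun := fun y => ⟨g * y * g⁻¹, (Subgroup.mem_normalizer_iff.1 hgP y).1 y.2⟩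
        map_one' := by ext; simp
        map_mul' := fun a b => by ext; simp [mul_assoc] }
    have h1 : Q ≤ Q.comap γ := by
      conv_lhs => rw [hQdef]
      refine sup_le ?_ ?_
      · intro y hy
        rw [Subgroup.mem_subgroupOf] at hy
        rw [Subgroup.mem_comap]
        refine (le_sup_left : H₀.subgroupOf P ≤ Q) ?_
        rw [Subgroup.mem_subgroupOf]
        exact mul_mem (mul_mem hg hy) (inv_mem hg)
      · rw [← Subgroup.map_le_iff_le_comap, _root_.commutator_def, map_commutator]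
        refine le_trans (Subgroup.commutator_mono le_top le_top) ?_
        rw [← _root_.commutator_def]
        exact hQc
    rintro z ⟨w, hw, rfl⟩
    exact ⟨γ w, h1 hw, rfl⟩
  have ht₁z := hgen t₁ hx ht₁n
  have htz : ∀ z ∈ P₂, t * z * t⁻¹ ∈ P₂ := by
    intro z hz
    have h1 : t * z * t⁻¹ = x₀ * (t₁ * z * t₁⁻¹) * x₀⁻¹ := by rw [ht₁]; group
    rw [h1]
    exact hnorm x₀ hx₀ _ (ht₁z z hz)
  have htiz : ∀ i : ℕ, ∀ z ∈ P₂, t ^ i * z * (t ^ i)⁻¹ ∈ P₂ := by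
    intro i
    induction i with
    | zero => intro z hz; simpa using hz
    | succ n ih =>
      intro z hz
      have h1 : t ^ (n + 1) * z * (t ^ (n + 1))⁻¹ = t * (t ^ n * z * (t ^ n)⁻¹) * t⁻¹ := by
        rw [pow_succ' t n]; group
      rw [h1]
      exact htz _ (ih z hz)
  have hcore : ∀ i : ℕ, ¬ b ∣ i →
      (∀ z ∈ P, ∃ y ∈ P, z⁻¹ * (y⁻¹ * t ^ i * y * (t ^ i)⁻¹) ∈ P₂) ∧
      ∀ y ∈ P, y⁻¹ * t ^ i * y * (t ^ i)⁻¹ ∈ P₂ → y ∈ P₂ := by
    intro i hi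
    refine t1b_core P (t ^ i) (pow_mem htP i) (hFi i hi) Q hQc ?_
    intro y hy
    obtain ⟨w, hw, hw'⟩ := htiz i y ⟨y, hy, rfl⟩
    have : w = ⟨t ^ i * y * (t ^ i)⁻¹,
      (Subgroup.mem_normalizer_iff.1 (pow_mem htP i) y).1 y.2⟩ := Subtype.ext hw'
    rw [← this]
    exact hw
  have hb1 : ¬ b ∣ 1 := by
    intro h
    have := Nat.le_of_dvd one_pos h
    omega
  obtain ⟨y₁, hy₁, hy₁'⟩ := (hcore 1 hb1).1 x₀⁻¹ (inv_mem hx₀)
  rw [pow_one, inv_inv] at hy₁'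
  -- `p = y₁⁻¹ t y₁ t⁻¹ x₀`
  have hp : y₁⁻¹ * t * y₁ * t⁻¹ * x₀ ∈ P₂ := by
    have h1 : y₁⁻¹ * t * y₁ * t⁻¹ * x₀ =
      x₀⁻¹ * (x₀ * (y₁⁻¹ * t * y₁ * t⁻¹)) * x₀⁻¹⁻¹ := by group
    rw [h1]
    exact hnorm _ (inv_mem hx₀) _ hy₁'
  have ht₂ : ∀ i : ℕ, ∃ q ∈ P₂, y₁⁻¹ * t ^ i * y₁ = q * t₁ ^ i := by
    intro i
    induction i with
    | zero => exact ⟨1, one_mem _, by simp⟩
    | succ n ih =>
      obtain ⟨q, hq, hq'⟩ := ih
      refine ⟨(y₁⁻¹ * t * y₁ * t⁻¹ * x₀) * (t₁ * q * t₁⁻¹), mul_mem hp (ht₁z q hq), ?_⟩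
      calc y₁⁻¹ * t ^ (n + 1) * y₁ = (y₁⁻¹ * t * y₁) * (y₁⁻¹ * t ^ n * y₁) := by
            rw [pow_succ' t n]; group
        _ = (y₁⁻¹ * t * y₁) * (q * t₁ ^ n) := by rw [hq']
        _ = (y₁⁻¹ * t * y₁ * t⁻¹ * x₀) * (x₀⁻¹ * t) * q * t₁ ^ n := by group
        _ = (y₁⁻¹ * t * y₁ * t⁻¹ * x₀) * (t₁ * q * t₁⁻¹) * t₁ ^ (n + 1) := by
            rw [← ht₁, pow_succ' t₁ n]; group
  have hne : ∃ y ∈ P, y ∉ P₂ := by
    by_contra hall
    push Not at hall
    apply hQne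
    rw [eq_top_iff]
    intro y _
    obtain ⟨w, hw, hw'⟩ := hall y y.2
    have : w = y := Subtype.ext hw'
    rw [← this]; exact hw
  obtain ⟨y, hy, hy'⟩ := hne
  refine ⟨y * y₁, mul_mem hy hy₁, ?_⟩
  intro i hi hmem
  apply hy'
  apply (hcore i hi).2 y hy
  set u : G := y⁻¹ * t ^ i * y * (t ^ i)⁻¹ with hu
  have huP : u ∈ P := by
    have h1 : u = y⁻¹ * (t ^ i * y * (t ^ i)⁻¹) := by rw [hu]; group
    rw [h1]
    exact mul_mem (inv_mem hy) ((Subgroup.mem_normalizer_iff.1 (pow_mem htP i) y).1 hy)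
  obtain ⟨q, hq, hq'⟩ := ht₂ i
  have h1 : (y * y₁)⁻¹ * t ^ i * (y * y₁) = (y₁⁻¹ * u * y₁) * q * t₁ ^ i := by
    have h2 : (y * y₁)⁻¹ * t ^ i * (y * y₁) = (y₁⁻¹ * u * y₁) * (y₁⁻¹ * t ^ i * y₁) := by
      rw [hu]; group
    rw [h2, hq']; group
  rw [h1] at hmem
  have h3 : (y₁⁻¹ * u * y₁) * q ∈ H₀ := by
    have h4 : (y₁⁻¹ * u * y₁) * q = (y₁⁻¹ * u * y₁) * q * t₁ ^ i * (t₁ ^ i)⁻¹ := by group
    rw [h4]
    exact mul_mem hmem (inv_mem (pow_mem hx i))
  have h5 : (y₁⁻¹ * u * y₁) * q ∈ P :=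
    mul_mem (mul_mem (mul_mem (inv_mem hy₁) huP) hy₁) (hP₂P hq)
  have h6 := hHP _ h3 h5
  have h7 : y₁⁻¹ * u * y₁ ∈ P₂ := by
    have h8 : y₁⁻¹ * u * y₁ = (y₁⁻¹ * u * y₁) * q * q⁻¹ := by group
    rw [h8]
    exact mul_mem h6 (inv_mem hq)
  have h9 : u = y₁ * (y₁⁻¹ * u * y₁) * y₁⁻¹ := by group
  rw [h9]
  exact hnorm y₁ hy₁ _ h7

private theorem t1c_mono (g : G) {U W : Submodule k V} (h : U ≤ W) : tr ρ g U ≤ tr ρ g W :=
  Submodule.map_mono h

private theorem t1c_bot {g : G} {U : Submodule k V} (h : tr ρ g U = ⊥) : U = ⊥ := by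
  have h1 : tr ρ g⁻¹ (tr ρ g U) = U := by rw [← tr_mul, inv_mul_cancel, tr_one]
  rw [← h1, h]
  exact Submodule.map_bot _

private theorem t1c_stab {g : G} {U : Submodule k V} : g ∈ stb ρ U ↔ tr ρ g U = U := Iff.rfl

private theorem t1c_mem {g : G} {U : Submodule k V} {v : V} (h : v ∈ U) : ρ g v ∈ tr ρ g U :=
  Submodule.mem_map_of_mem h

private theorem t1c_sup (P : Subgroup G) (t : G) (ht : t ∈ normalizer (P : Set G))
    (W₀ : Submodule k V) :
    tr ρ t (⨆ p : P, tr ρ (p : G) W₀) = ⨆ p : P, tr ρ ((p : G) * t) W₀ := by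
  have h1 : tr ρ t (⨆ p : P, tr ρ (p : G) W₀) = ⨆ p : P, tr ρ t (tr ρ (p : G) W₀) := by
    unfold tr
    exact Submodule.map_iSup _ _
  rw [h1]
  apply le_antisymm
  · refine iSup_le fun p => ?_
    have h2 : t * (p : G) * t⁻¹ ∈ P := (mem_normalizer_iff.1 ht p).1 p.2
    have h3 : tr ρ t (tr ρ (p : G) W₀) = tr ρ (t * (p : G) * t⁻¹ * t) W₀ := by
      rw [← tr_mul]
      congr 1
      group
    rw [h3]
    exact le_iSup (fun p : P => tr ρ ((p : G) * t) W₀) ⟨_, h2⟩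
  · refine iSup_le fun p => ?_
    have h2 : t⁻¹ * (p : G) * t ∈ P := (mem_normalizer_iff''.1 ht p).1 p.2
    have h3 : tr ρ ((p : G) * t) W₀ = tr ρ t (tr ρ (t⁻¹ * (p : G) * t) W₀) := by
      rw [← tr_mul]
      congr 1
      group
    rw [h3]
    exact le_iSup (fun p : P => tr ρ t (tr ρ (p : G) W₀)) ⟨_, h2⟩

private theorem t1c_inv (P : Subgroup G) (q : G) (hq : q ∈ P) (W₀ : Submodule k V) :
    tr ρ q (⨆ p : P, tr ρ (p : G) W₀) = ⨆ p : P, tr ρ (p : G) W₀ := by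
  have h1 : tr ρ q (⨆ p : P, tr ρ (p : G) W₀) = ⨆ p : P, tr ρ q (tr ρ (p : G) W₀) := by
    unfold tr
    exact Submodule.map_iSup _ _
  rw [h1]
  apply le_antisymm
  · refine iSup_le fun p => ?_
    rw [← tr_mul]
    exact le_iSup (fun p : P => tr ρ (p : G) W₀) ⟨q * p, P.mul_mem hq p.2⟩
  · refine iSup_le fun p => ?_
    have h3 : tr ρ (p : G) W₀ = tr ρ q (tr ρ (q⁻¹ * (p : G)) W₀) := by
      rw [← tr_mul, mul_inv_cancel_left]
    rw [h3]
    exact le_iSup (fun p : P => tr ρ q (tr ρ (p : G) W₀)) ⟨q⁻¹ * p, P.mul_mem (P.inv_mem hq) p.2⟩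

private theorem t1c_bl (P : Subgroup G) (t : G) (W₀ : Submodule k V) (p : G) (hp : p ∈ P) (i : ℕ) :
    tr ρ (p * t ^ i) W₀ ∈ Bl ρ P t W₀ := by
  refine ⟨p * t ^ i, ?_, rfl⟩
  exact mul_mem (mem_sup_left hp) (pow_mem (mem_sup_right (mem_zpowers t)) i)

theorem c1_one {s : ℕ} [Fact s.Prime] {P : Subgroup G} [Finite P] (hP : IsPGroup s P) {t : G}
    {b : ℕ} (hb : 1 < b) (hF : Full t b P) {U : Submodule k V} (hI : Ir ρ P t U)
    (htb : Tri ρ U (t ^ b)) (W₀ : Submodule k V) (hW : W₀ ≤ U) (h0 : W₀ ≠ ⊥)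
    (hind : sSupIndep (Bl ρ P t W₀)) (hm : W₀ ≠ U)
    (hone : tr ρ t (⨆ p : P, tr ρ (p : G) W₀) = ⨆ p : P, tr ρ (p : G) W₀) :
    ∀ l : k, l ^ b = 1 → Ev ρ t U l := by
  classical
  have htP := hF.1
  have hW0le : W₀ ≤ ⨆ p : P, tr ρ (p : G) W₀ := by
    have h1 := le_iSup (fun p : P => tr ρ (p : G) W₀) 1
    have h2 : tr ρ ((1 : P) : G) W₀ = W₀ := tr_one ρ W₀
    rwa [h2] at h1
  have h1 : tr ρ t W₀ ≤ ⨆ p : P, tr ρ (p : G) W₀ := by
    rw [← hone]
    exact t1c_mono ρ t hW0le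
  have htbl : tr ρ t W₀ ∈ Bl ρ P t W₀ :=
    ⟨t, mem_sup_right (mem_zpowers t), rfl⟩
  have hpbl : ∀ p : P, tr ρ (p : G) W₀ ∈ Bl ρ P t W₀ := fun p => ⟨p, mem_sup_left p.2, rfl⟩
  obtain ⟨x₀, hx₀, hx⟩ : ∃ x₀ ∈ P, tr ρ t W₀ = tr ρ x₀ W₀ := by
    by_contra hcon
    push Not at hcon
    have h2 : (⨆ p : P, tr ρ (p : G) W₀) ≤ sSup (Bl ρ P t W₀ \ {tr ρ t W₀}) := by
      refine iSup_le fun p => le_sSup ⟨hpbl p, ?_⟩
      intro h3
      exact hcon p p.2 (Set.mem_singleton_iff.1 h3).symm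
    have h3 := hind htbl
    have h4 : tr ρ t W₀ = ⊥ := by
      have h5 := h3.mono_right h2
      rw [disjoint_iff, inf_eq_left.2 h1] at h5
      exact h5
    exact h0 (t1c_bot ρ h4)
  have hxs : x₀⁻¹ * t ∈ stb ρ W₀ := by
    rw [t1c_stab, tr_mul, hx, ← tr_mul, inv_mul_cancel, tr_one]
  have hnP : ¬ P ≤ stb ρ W₀ := by
    intro hP0
    have ht0 : t ∈ stb ρ W₀ := by
      have h2 : tr ρ x₀ W₀ = W₀ := hP0 hx₀
      rw [t1c_stab, hx, h2]
    rcases hI.irr W₀ hW hP0 ht0 with h2 | h2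
    · exact h0 h2
    · exact hm h2
  obtain ⟨y, hy, hyi⟩ := c1_grp P (hP.isNilpotent) t b hb hF (stb ρ W₀) hnP x₀ hx₀ hxs
  intro l hl
  have hl0 : l ≠ 0 := by
    rintro rfl
    rw [zero_pow (by omega)] at hl
    exact zero_ne_one hl
  have hW1 : tr ρ y W₀ ≠ ⊥ := fun h => h0 (t1c_bot ρ h)
  obtain ⟨w, hw, hw0⟩ := Submodule.exists_mem_ne_zero_of_ne_bot hW1
  have hybl : tr ρ y W₀ ∈ Bl ρ P t W₀ := hpbl ⟨y, hy⟩
  have hyU : tr ρ y U = U := hI.hP hy
  have hwU : w ∈ U := by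
    rw [← hyU]
    exact t1c_mono ρ y hW hw
  refine ev_of ρ (W := tr ρ y W₀) (W' := sSup (Bl ρ P t W₀ \ {tr ρ y W₀})) t b (by omega) l hl0
    (hind hybl) hw hw0 ?_ ?_ hwU hI.ht
  · intro i hi0 hib
    have hni : ¬ b ∣ i := Nat.not_dvd_of_pos_of_lt hi0 hib
    have h2 : tr ρ (t ^ i) (tr ρ y W₀) ∈ Bl ρ P t W₀ \ {tr ρ y W₀} := by
      refine ⟨⟨t ^ i * y, mul_mem (pow_mem (mem_sup_right (mem_zpowers t)) i)
        (mem_sup_left hy), tr_mul ρ _ _ _⟩, ?_⟩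
      intro h3
      have h4 := Set.mem_singleton_iff.1 h3
      apply hyi i hni
      rw [t1c_stab, mul_assoc, tr_mul, tr_mul, h4, ← tr_mul, inv_mul_cancel, tr_one]
    exact (le_sSup h2) (t1c_mem ρ hw)
  · rw [hl, one_smul]
    exact htb w hwU


theorem c1_many {s : ℕ} [Fact s.Prime] {P : Subgroup G} [Finite P] (hP : IsPGroup s P) {t : G}
    {b : ℕ} (hb : 1 < b) (hbk : (b : k) ≠ 0) (hIH : IHb ρ s b P) (hF : Full t b P)
    {U : Submodule k V} (hI : Ir ρ P t U)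
    (htb : Tri ρ U (t ^ b)) (W₀ : Submodule k V) (hW : W₀ ≤ U) (h0 : W₀ ≠ ⊥)
    (hind : sSupIndep (Bl ρ P t W₀))
    (hmany : tr ρ t (⨆ p : P, tr ρ (p : G) W₀) ≠ ⨆ p : P, tr ρ (p : G) W₀) :
    Cl s b (Ev ρ t U) := by
  classical
  have htP := hF.1
  have htPi : ∀ i : ℕ, t ^ i ∈ normalizer (P : Set G) := fun i => pow_mem htP i
  obtain ⟨W, hWdef⟩ : ∃ W : Submodule k V, W = ⨆ p : P, tr ρ (p : G) W₀ := ⟨_, rfl⟩
  rw [← hWdef] at hmany
  have hWU : W ≤ U := by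
    rw [hWdef]
    refine iSup_le fun p => ?_
    have h1 : tr ρ (p : G) U = U := hI.hP p.2
    rw [← h1]
    exact t1c_mono ρ _ hW
  have hW0le : W₀ ≤ W := by
    have h1 := le_iSup (fun p : P => tr ρ (p : G) W₀) 1
    have h2 : tr ρ ((1 : P) : G) W₀ = W₀ := tr_one ρ W₀
    rw [hWdef]
    rwa [h2] at h1
  have hWne : W ≠ ⊥ := fun h => h0 (le_bot_iff.1 (h ▸ hW0le))
  have hPW : P ≤ stb ρ W := by
    intro q hq
    rw [t1c_stab, hWdef]
    exact t1c_inv ρ P q hq W₀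
  -- the least power
  have hbW : tr ρ (t ^ b) W = W := by
    apply le_antisymm
    · rintro _ ⟨w, hw, rfl⟩
      rw [htb w (hWU hw)]
      exact hw
    · intro w hw
      exact ⟨w, hw, htb w (hWU hw)⟩
  have hex : ∃ n : ℕ, 0 < n ∧ tr ρ (t ^ n) W = W := ⟨b, by omega, hbW⟩
  obtain ⟨c, hcdef⟩ : ∃ c, c = Nat.find hex := ⟨_, rfl⟩
  have hc0 : 0 < c := by rw [hcdef]; exact (Nat.find_spec hex).1
  have hcW : tr ρ (t ^ c) W = W := by rw [hcdef]; exact (Nat.find_spec hex).2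
  have hcmin : ∀ i, 0 < i → i < c → tr ρ (t ^ i) W ≠ W := by
    intro i hi0 hic h
    rw [hcdef] at hic
    exact Nat.find_min hex hic ⟨hi0, h⟩
  have hc1 : 1 < c := by
    by_contra hle
    have h1 : c = 1 := by omega
    rw [h1, pow_one] at hcW
    exact hmany hcW
  have hcq : ∀ q : ℕ, t ^ (c * q) ∈ stb ρ W := by
    intro q
    rw [pow_mul]
    exact pow_mem (show t ^ c ∈ stb ρ W from hcW) q
  have hcb : c ∣ b := by
    have h1 : t ^ (b % c) ∈ stb ρ W := by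
      have h2 : t ^ (b % c) = (t ^ (c * (b / c)))⁻¹ * t ^ b := by
        rw [eq_inv_mul_iff_mul_eq, ← pow_add, Nat.div_add_mod]
      rw [h2]
      exact (stb ρ W).mul_mem ((stb ρ W).inv_mem (hcq _)) hbW
    by_contra hnd
    have h2 : 0 < b % c := Nat.pos_of_ne_zero fun h => hnd (Nat.dvd_of_mod_eq_zero h)
    exact hcmin _ h2 (Nat.mod_lt _ hc0) h1
  obtain ⟨b', hb'⟩ := hcb
  have hb'0 : 0 < b' := by
    rcases Nat.eq_zero_or_pos b' with h | h
    · rw [h, mul_zero] at hb'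
      omega
    · exact h
  have hb'b : b' < b := by
    rw [hb']
    calc b' = 1 * b' := (one_mul _).symm
      _ < c * b' := Nat.mul_lt_mul_of_pos_right hc1 hb'0
  have hb'k : (b' : k) ≠ 0 := by
    intro h
    apply hbk
    rw [hb', Nat.cast_mul, h, mul_zero]
  have hF' : Full (t ^ c) b' P := by
    refine ⟨htPi c, ?_⟩
    intro i hi
    rw [← pow_mul]
    apply hF.2
    rw [hb']
    intro h
    exact hi (Nat.dvd_of_mul_dvd_mul_left hc0 h)
  have htri : Tri ρ W ((t ^ c) ^ b') := by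
    intro w hw
    rw [← pow_mul, ← hb']
    exact htb w (hWU hw)
  have hnt : ∃ p ∈ P, ¬ Tri ρ W p := by
    by_contra hcon
    push Not at hcon
    apply hWne
    rw [← le_bot_iff, ← no_fix ρ htP hI]
    exact le_inf (fun w hw p hp => hcon p hp w hw) hWU
  have hCl := hIH b' hb'b hb'k (t ^ c) hF' W hPW hcW htri hnt
  -- disjointness
  obtain ⟨W', hW'def⟩ : ∃ W' : Submodule k V,
      W' = ⨆ i : {i : ℕ // 0 < i ∧ i < c}, tr ρ (t ^ (i : ℕ)) W := ⟨_, rfl⟩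
  have hdis : Disjoint W W' := by
    have hi := (sSupIndep_iff (Bl ρ P t W₀)).1 hind
    have h1 : Disjoint {x : Bl ρ P t W₀ | ∃ p ∈ P, (x : Submodule k V) = tr ρ p W₀}
        {x : Bl ρ P t W₀ | ¬ ∃ p ∈ P, (x : Submodule k V) = tr ρ p W₀} := by
      rw [Set.disjoint_left]
      intro x hx hx'
      exact hx' hx
    refine (hi.disjoint_biSup_biSup h1).mono ?_ ?_
    · rw [hWdef]
      refine iSup_le fun p => ?_
      exact le_iSup₂_of_le (⟨tr ρ (p : G) W₀, ⟨p, mem_sup_left p.2, rfl⟩⟩ : Bl ρ P t W₀)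
        ⟨p, p.2, rfl⟩ le_rfl
    · rw [hW'def]
      refine iSup_le fun i => ?_
      rw [hWdef, t1c_sup ρ P _ (htPi _) W₀]
      refine iSup_le fun p => ?_
      refine le_iSup₂_of_le (⟨tr ρ ((p : G) * t ^ (i : ℕ)) W₀,
        t1c_bl ρ P t W₀ p p.2 i⟩ : Bl ρ P t W₀) ?_ le_rfl
      rintro ⟨q, hq, hqe⟩
      have hqe' : tr ρ ((p : G) * t ^ (i : ℕ)) W₀ = tr ρ q W₀ := hqe
      apply hcmin i i.2.1 i.2.2
      -- `t ^ i W = W`
      have h3 : tr ρ (t ^ (i : ℕ)) W₀ = tr ρ ((p : G)⁻¹ * q) W₀ := by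
        rw [tr_mul, ← hqe', ← tr_mul, inv_mul_cancel_left]
      rw [hWdef, t1c_sup ρ P _ (htPi _) W₀]
      have h4 : ∀ z : P, tr ρ ((z : G) * t ^ (i : ℕ)) W₀ =
          tr ρ ((z : G) * ((p : G)⁻¹ * q)) W₀ := by
        intro z
        rw [tr_mul, h3, ← tr_mul]
      have h5 : (p : G)⁻¹ * q ∈ P := P.mul_mem (P.inv_mem p.2) hq
      apply le_antisymm
      · refine iSup_le fun z => ?_
        rw [h4]
        exact le_iSup (fun p : P => tr ρ (p : G) W₀) ⟨_, P.mul_mem z.2 h5⟩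
      · refine iSup_le fun z => ?_
        have h6 := le_iSup (fun z : P => tr ρ ((z : G) * t ^ (i : ℕ)) W₀)
          ⟨_, P.mul_mem z.2 (P.inv_mem h5)⟩
        rw [h4] at h6
        simp only [inv_mul_cancel_right] at h6
        exact h6
  -- eigenvalues
  have hev : ∀ l : k, l ^ b = 1 → Ev ρ (t ^ c) W (l ^ c) → Ev ρ t U l := by
    rintro l hl ⟨w, hw, hw0, hwe⟩
    have hl0 : l ≠ 0 := by
      rintro rfl
      rw [zero_pow (by omega)] at hl
      exact zero_ne_one hl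
    refine ev_of ρ (W := W) (W' := W') t c hc0 l hl0 hdis hw hw0 ?_ hwe (hWU hw) hI.ht
    intro i hi0 hic
    rw [hW'def]
    exact (le_iSup (fun i : {i : ℕ // 0 < i ∧ i < c} => tr ρ (t ^ (i : ℕ)) W) ⟨i, hi0, hic⟩)
      (t1c_mem ρ hw)
  rcases hCl with h | ⟨c', m, μ, hm1, hcm, h⟩
  · refine Or.inl ?_
    intro l hl
    apply hev l hl
    apply h
    rw [← pow_mul, ← hb']
    exact hl
  · refine Or.inr ⟨c * c', m, μ, hm1, ?_, ?_⟩
    · rw [mul_assoc, hcm, ← hb']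
    · intro l hl hne
      apply hev l hl
      apply h
      · rw [← pow_mul, ← hb']
        exact hl
      · rwa [← pow_mul]


theorem c1 {s : ℕ} [Fact s.Prime] {P : Subgroup G} [Finite P] (hP : IsPGroup s P) {t : G}
    {b : ℕ} (hb : 1 < b) (hbk : (b : k) ≠ 0) (hIH : IHb ρ s b P) (hF : Full t b P)
    {U : Submodule k V} (hI : Ir ρ P t U)
    (htb : Tri ρ U (t ^ b)) (W₀ : Submodule k V) (hW : W₀ ≤ U) (h0 : W₀ ≠ ⊥)
    (hind : sSupIndep (Bl ρ P t W₀)) (hm : W₀ ≠ U) : Cl s b (Ev ρ t U) := by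
  by_cases h : tr ρ t (⨆ p : P, tr ρ (p : G) W₀) = ⨆ p : P, tr ρ (p : G) W₀
  · exact Or.inl (c1_one ρ hP hb hF hI htb W₀ hW h0 hind hm h)
  · exact c1_many ρ hP hb hbk hIH hF hI htb W₀ hW h0 hind h

/-- the simultaneous eigenspace of `A` on `U` -/
private def t1e_E (U : Submodule k V) (A : Subgroup G) (χ : A → k) : Submodule k V where
  carrier := {v | v ∈ U ∧ ∀ a : A, ρ (a : G) v = χ a • v}
  add_mem' := fun {x y} hx hy => ⟨U.add_mem hx.1 hy.1, fun a => by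
    rw [map_add, hx.2 a, hy.2 a, smul_add]⟩
  zero_mem' := ⟨U.zero_mem, fun a => by rw [map_zero, smul_zero]⟩
  smul_mem' := fun c x hx => ⟨U.smul_mem c hx.1, fun a => by
    rw [map_smul, hx.2 a, smul_comm]⟩

private theorem t1e_mem {U : Submodule k V} {A : Subgroup G} {χ : A → k} {v : V} :
    v ∈ t1e_E ρ U A χ ↔ v ∈ U ∧ ∀ a : A, ρ (a : G) v = χ a • v := Iff.rfl

private theorem t1e_stable {U : Submodule k V} {g : G} (hg : g ∈ stb ρ U) {v : V} (hv : v ∈ U) :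
    ρ g v ∈ U := by
  have h1 : tr ρ g U = U := hg
  have h2 : ρ g v ∈ tr ρ g U := Submodule.mem_map_of_mem hv
  rwa [h1] at h2

private theorem t1e_stb {U : Submodule k V} {A : Subgroup G}
    (h : ∀ a ∈ A, ∀ v ∈ U, ρ a v ∈ U) : A ≤ stb ρ U := by
  intro a ha
  rw [mem_stb]
  apply le_antisymm
  · intro v hv
    rw [mem_tr] at hv
    have h1 := h a ha _ hv
    rwa [← Module.End.mul_apply, ← map_mul, mul_inv_cancel, map_one, Module.End.one_apply] at h1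
  · intro v hv
    rw [mem_tr]
    exact h a⁻¹ (inv_mem ha) v hv

private theorem t1e_ev [IsAlgClosed k] [FiniteDimensional k V] (A : Subgroup G) (n : ℕ) :
    ∀ U : Submodule k V, finrank k U ≤ n → U ≠ ⊥ → A ≤ stb ρ U → Com ρ U A →
      ∃ χ : A → k, ∃ u ∈ U, u ≠ 0 ∧ ∀ a : A, ρ (a : G) u = χ a • u := by
  induction n with
  | zero =>
    intro U h1 h2 _ _
    exact absurd (Submodule.finrank_eq_zero.mp (Nat.le_zero.mp h1)) h2
  | succ n ih =>
    intro U h1 h2 h3 h4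
    by_cases hs : ∀ a ∈ A, Sca ρ U a
    · obtain ⟨u, hu, hu0⟩ := Submodule.exists_mem_ne_zero_of_ne_bot h2
      refine ⟨fun a => (hs (a : G) a.2).choose, u, hu, hu0, fun a => ?_⟩
      exact (hs (a : G) a.2).choose_spec u hu
    · push Not at hs
      obtain ⟨a, haA, hna⟩ := hs
      have hstab : ∀ v ∈ U, ρ a v ∈ U := fun v hv => t1e_stable ρ (h3 haA) hv
      have : Nontrivial U := Submodule.nontrivial_iff_ne_bot.mpr h2
      obtain ⟨c, hc⟩ := Module.End.exists_eigenvalue ((ρ a).restrict hstab)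
      obtain ⟨w, hw⟩ := hc.exists_hasEigenvector
      have hw1 : ρ a (w : V) = c • (w : V) := by
        have h5 := congrArg (fun z : U => (z : V)) hw.apply_eq_smul
        exact h5
      have hw0 : (w : V) ≠ 0 := fun h => hw.2 (Subtype.ext h)
      let U' : Submodule k V := U ⊓ Module.End.eigenspace (ρ a) c
      have hm : ∀ v, v ∈ U' ↔ v ∈ U ∧ ρ a v = c • v := by
        intro v
        rw [Submodule.mem_inf, Module.End.mem_eigenspace_iff]
      have hle : U' ≤ U := inf_le_left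
      have hne : U' ≠ U := by
        intro h
        apply hna
        refine ⟨c, fun v hv => ?_⟩
        rw [← h] at hv
        exact ((hm v).mp hv).2
      have hlt : finrank k U' < finrank k U := Submodule.finrank_lt_finrank_of_lt (lt_of_le_of_ne hle hne)
      have hb : U' ≠ ⊥ := by
        intro h
        have h6 : (w : V) ∈ U' := (hm _).mpr ⟨w.2, hw1⟩
        rw [h, Submodule.mem_bot] at h6
        exact hw0 h6
      have hA' : A ≤ stb ρ U' := by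
        apply t1e_stb ρ
        intro b hb v hv
        have h7 := (hm v).mp hv
        refine (hm _).mpr ⟨t1e_stable ρ (h3 hb) h7.1, ?_⟩
        rw [h4 a haA b hb v h7.1, h7.2, map_smul]
      obtain ⟨χ, u, hu, hu0, hu1⟩ := ih U' (by omega) hb hA'
        (fun x hx y hy v hv => h4 x hx y hy v (hle hv))
      exact ⟨χ, u, hle hu, hu0, hu1⟩

private theorem t1e_ind {U : Submodule k V} {A : Subgroup G} (hAU : A ≤ stb ρ U)
    (hc : Com ρ U A) : iSupIndep (t1e_E ρ U A) := by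
  have hst : ∀ a : A, ∀ v ∈ U, ρ (a : G) v ∈ U := fun a v hv => t1e_stable ρ (hAU a.2) hv
  let f : A → Module.End k U := fun a => (ρ (a : G)).restrict (hst a)
  have hcomm : ∀ a b : A, Commute (f a) (f b) := by
    intro a b
    apply LinearMap.ext
    intro v
    apply Subtype.ext
    exact hc (a : G) a.2 (b : G) b.2 (v : V) v.2
  have h1 := Module.End.independent_iInf_maxGenEigenspace_of_forall_mapsTo f
    (fun i j φ => Module.End.mapsTo_maxGenEigenspace_of_comm (hcomm j i) φ)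
  have h2 := LinearMap.iSupIndep_map U.subtype U.injective_subtype h1
  refine iSupIndep.mono h2 ?_
  intro χ v hv
  have hv' := (t1e_mem ρ).mp hv
  refine Submodule.mem_map.mpr ⟨⟨v, hv'.1⟩, ?_, rfl⟩
  rw [Submodule.mem_iInf]
  intro a
  have h3 : (⟨v, hv'.1⟩ : U) ∈ Module.End.eigenspace (f a) (χ a) := by
    rw [Module.End.mem_eigenspace_iff]
    apply Subtype.ext
    exact hv'.2 a
  exact (Module.End.genEigenspace (f a) (χ a)).mono le_top h3

private theorem t1e_tr {U : Submodule k V} {A : Subgroup G} (χ : A → k) {g : G}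
    (hgU : g ∈ stb ρ U) (hgA : ∀ a ∈ A, g * a * g⁻¹ ∈ A) (hgA' : ∀ a ∈ A, g⁻¹ * a * g ∈ A) :
    tr ρ g (t1e_E ρ U A χ) =
      t1e_E ρ U A (fun a => χ ⟨g⁻¹ * (a : G) * g, hgA' (a : G) a.2⟩) := by
  have hU : ∀ v : V, ρ g⁻¹ v ∈ U ↔ v ∈ U := by
    intro v
    rw [← mem_tr]
    have h1 : tr ρ g U = U := hgU
    rw [h1]
  have hinj : ∀ x y : V, ρ g⁻¹ x = ρ g⁻¹ y → x = y := by
    intro x y h
    have h1 := congrArg (ρ g) h
    rw [← Module.End.mul_apply, ← Module.End.mul_apply, ← map_mul, mul_inv_cancel, map_one,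
      Module.End.one_apply, Module.End.one_apply] at h1
    exact h1
  ext v
  rw [mem_tr, t1e_mem, t1e_mem, hU v]
  refine and_congr_right fun _ => ?_
  constructor
  · intro h a
    apply hinj
    have h1 := h ⟨g⁻¹ * (a : G) * g, hgA' (a : G) a.2⟩
    rw [map_smul, ← h1, ← Module.End.mul_apply, ← Module.End.mul_apply, ← map_mul, ← map_mul]
    simp only [mul_assoc, mul_inv_cancel, mul_one]
  · intro h a
    have h1 := h ⟨g * (a : G) * g⁻¹, hgA (a : G) a.2⟩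
    have h2 := congrArg (ρ g⁻¹) h1
    rw [map_smul, ← Module.End.mul_apply, ← map_mul] at h2
    have h3 : g⁻¹ * (g * (a : G) * g⁻¹) = (a : G) * g⁻¹ := by group
    have h4 : (⟨g⁻¹ * (g * (a : G) * g⁻¹) * g, hgA' _ (hgA (a : G) a.2)⟩ : A) = a := by
      apply Subtype.ext
      show g⁻¹ * (g * (a : G) * g⁻¹) * g = (a : G)
      group
    rw [h4, h3, map_mul, Module.End.mul_apply] at h2
    exact h2

theorem c2 [IsAlgClosed k] [FiniteDimensional k V] {P : Subgroup G} {t : G} {U : Submodule k V}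
    (hI : Ir ρ P t U)
    (hNB : ∀ W₀ : Submodule k V, W₀ ≤ U → W₀ ≠ ⊥ → sSupIndep (Bl ρ P t W₀) → W₀ = U)
    (A : Subgroup G) (hA : A ≤ P) (hPA : P ≤ normalizer (A : Set G))
    (htA : t ∈ normalizer (A : Set G)) (hc : Com ρ U A) : ∀ a ∈ A, Sca ρ U a := by
  have hAU : A ≤ stb ρ U := hA.trans hI.hP
  obtain ⟨χ, u, hu, hu0, hu1⟩ := t1e_ev ρ A (finrank k U) U le_rfl hI.ne hAU hc
  have hK : P ⊔ zpowers t ≤ normalizer (A : Set G) :=
    sup_le hPA ((zpowers_le).mpr htA)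
  have hS : P ⊔ zpowers t ≤ stb ρ U := sup_le hI.hP ((zpowers_le).mpr hI.ht)
  have hind : sSupIndep (Bl ρ P t (t1e_E ρ U A χ)) := by
    refine sSupIndep.mono (t1e_ind ρ hAU hc).sSupIndep_range ?_
    rintro W ⟨g, hg, rfl⟩
    have hg1 : ∀ a ∈ A, g * a * g⁻¹ ∈ A := fun a ha => (mem_normalizer_iff.mp (hK hg) a).mp ha
    have hg2 : ∀ a ∈ A, g⁻¹ * a * g ∈ A := fun a ha => by
      have h1 := (mem_normalizer_iff.mp (inv_mem (hK hg)) a).mp ha
      rwa [inv_inv] at h1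
    exact ⟨_, (t1e_tr ρ χ (hS hg) hg1 hg2).symm⟩
  have hle : t1e_E ρ U A χ ≤ U := fun v hv => ((t1e_mem ρ).mp hv).1
  have hne : t1e_E ρ U A χ ≠ ⊥ := by
    intro h
    have h1 : u ∈ t1e_E ρ U A χ := ⟨hu, hu1⟩
    rw [h, Submodule.mem_bot] at h1
    exact hu0 h1
  have hEq := hNB _ hle hne hind
  intro a ha
  refine ⟨χ ⟨a, ha⟩, fun v hv => ?_⟩
  rw [← hEq] at hv
  exact ((t1e_mem ρ).mp hv).2 ⟨a, ha⟩

end MP0d06d9R
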