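import Pool.Agent.Lib.MP_0d06d9_alR.T0

/-!
# T2: the form on `N / S` and the small invariant subspace (steps C3, C4 of the T-lemma)

PROOFS.
* `c3`: `S = {p ∈ P | Sca ρ U p}` is a subgroup, normalised by `P` and `t`. `S ≠ P`: otherwise for `p ∈ P` the operator `ρ p` is a
  scalar on `U`, commutes with `ρ t`, so `⁅p, t^j⁆` is trivial on `U`, so `P = ⁅P, zpowers (t^1)⁆` is trivial on `U`, against `hI.nt`.
  `Z₂ = {x ∈ P | ∀ g ∈ P, Sca ρ U ⁅x, g⁆}` (the preimage of the centre of the nontrivial `s`-group `P / S`) is a `t`-invariant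
  subgroup, `S < Z₂`. `N` = a minimal `t`-invariant subgroup with `S < N ≤ Z₂` (finite). `hP`: `⁅N, P⁆ ≤ S ≤ N`. `com`: `N ≤ Z₂`.
  `nd`: `R = {x ∈ N | ∀ y ∈ N, Tri ρ U ⁅x, y⁆}` is a subgroup normalised by `P` (`g x g⁻¹ = ⁅g, x⁆ x`, a scalar times `x` on `U`) and
  by `t`, it commutes on `U`: `hC2`. `ne`: `N ≠ S`. `fr`: for `b ∤ i` the set `R' = {x ∈ N | Sca ρ U ⁅x, t^i⁆}` is a `t`-invariant
  subgroup between `S` and `N` (`⁅x y, t^i⁆ = x ⁅y, t^i⁆ x⁻¹ ⁅x, t^i⁆`), so it is `S` (done) or `N`. If it is `N`: let `x ∈ N`, `g ∈ P`.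
  On `U`: `⁅x, g⁆` is a scalar so it equals its conjugate `⁅t^i x t⁻ⁱ, t^i g t⁻ⁱ⁆`, and `t^i x t⁻ⁱ` is a scalar times `x`, so
  `⁅x, g⁆ = ⁅x, t^i g t⁻ⁱ⁆` on `U`, so `x` commutes with `g⁻¹ t^i g t⁻ⁱ` on `U`. So `x` commutes on `U` with `⁅P, zpowers (t^i)⁆ = P ≥ N`, so all
  `x ∈ N` are scalars by `nd`, against `ne`.
* `c4a`: let `ω(h, y)` be the scalar of `⁅h, y⁆` on `U`, multiplicative in `h` and `y ∈ N`.
  `f_y = Σ_{h ∈ N} ω(h, y)⁻¹ ρ h f ρ h⁻¹`. `Σ_{y ∈ N} f_y = |N| Σ_{h scalar} ρ h f ρ h⁻¹ = |N| |S| f` on `X₁` (for `h` not scalar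
  `y ↦ ω(h, y)⁻¹` is a nontrivial character of `N` by `nd`, its sum is `0`; for `h` scalar it is `1`), and `|N| |S|` is not zero in `k` (powers of `s`).
  `ρ g f_y ρ g⁻¹ = ω(g, y) f_y` and `ρ g ρ y ρ g⁻¹ = ω(g, y) ρ y` on `U`, so `Φ y = (|N| |S|)⁻¹ ρ y⁻¹ f_y` commutes with `N` on `X₁`.
* `c4`: `X₁ ≤ U` minimal nonzero `N`-invariant, `X₂ = t X₁` (again irreducible for `N`); apply `c4a` to `f` = a linear map `X₁ → X₂`, not zero; some `φ = Φ y` is not zero on `X₁`, so injective on `X₁` (irreducible) and onto `X₂` (dimensions), `ψ = ρ t⁻¹ ∘ φ : X₁ → X₁`,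
  bijective. `Hm = {f : X₁ →ₗ V | range ≤ U, f commutes with N}`, finite dimensional, contains the inclusion. `Λ f = ρ t ∘ f ∘ ψ` maps
  `Hm` to `Hm` and is injective. Eigenvector `f`, `Λ f = c f`, `c ≠ 0`. `X = f X₁`: `ρ t X = ρ t f ψ X₁ = c f X₁ = X`; `f` is injective
  (irreducible), so `X` is irreducible for `N`.
-/

set_option autoImplicit false

namespace MP0d06d9R

open Subgroup commutatorElement Module

variable {G k V : Type*} [Group G] [Field k] [AddCommGroup V] [Module k V]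
  (ρ : Representation k G V)

/-- `N / S` is abelian and nondegenerate, the powers of `t` are fixed point free on it -/
structure Nd (t : G) (b : ℕ) (U : Submodule k V) (N : Subgroup G) : Prop where
  hN : N ≤ stb ρ U
  htU : t ∈ stb ρ U
  ht : t ∈ normalizer (N : Set G)
  com : ∀ x ∈ N, ∀ y ∈ N, Sca ρ U ⁅x, y⁆
  nd : ∀ x ∈ N, (∀ y ∈ N, Tri ρ U ⁅x, y⁆) → Sca ρ U x
  ne : ∃ x ∈ N, ¬ Sca ρ U x
  fr : ∀ i : ℕ, ¬ b ∣ i → ∀ x ∈ N, Sca ρ U ⁅x, t ^ i⁆ → Sca ρ U x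

private theorem t2a_mem {g : G} {U : Submodule k V} (hg : g ∈ stb ρ U) {v : V} (hv : v ∈ U) :
    ρ g v ∈ U := by
  have h1 : tr ρ g U = U := hg
  rw [← h1]
  exact Submodule.mem_map_of_mem hv

private theorem t2a_mul (a b : G) (v : V) : ρ (a * b) v = ρ a (ρ b v) := by
  rw [map_mul, Module.End.mul_apply]

private theorem t2a_inv (a : G) (v : V) : ρ a⁻¹ (ρ a v) = v := by
  rw [← t2a_mul, inv_mul_cancel, map_one, Module.End.one_apply]

private def t2aT (U : Submodule k V) : Subgroup G where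
  carrier := {g | Tri ρ U g}
  mul_mem' := fun {a b} ha hb v hv => by
    rw [t2a_mul, hb v hv, ha v hv]
  one_mem' := fun v _ => by rw [map_one, Module.End.one_apply]
  inv_mem' := fun {a} ha v hv => by
    conv_lhs => rw [← ha v hv]
    exact t2a_inv ρ a v

private def t2aZ (U : Submodule k V) : Subgroup G where
  carrier := {g | Sca ρ U g}
  mul_mem' := fun {a b} ha hb => by
    obtain ⟨c, hc⟩ := ha
    obtain ⟨d, hd⟩ := hb
    refine ⟨d * c, fun v hv => ?_⟩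
    rw [t2a_mul, hd v hv, map_smul, hc v hv, smul_smul]
  one_mem' := ⟨1, fun v _ => by rw [map_one, Module.End.one_apply, one_smul]⟩
  inv_mem' := fun {a} ha => by
    obtain ⟨c, hc⟩ := ha
    refine ⟨c⁻¹, fun v hv => ?_⟩
    by_cases h0 : c = 0
    · have h1 : v = 0 := by
        have h2 := t2a_inv ρ a v
        rw [hc v hv, h0, zero_smul, map_zero] at h2
        exact h2.symm
      rw [h1, map_zero, smul_zero]
    · have h2 := t2a_inv ρ a v
      rw [hc v hv, map_smul] at h2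
      conv_rhs => rw [← h2]
      rw [smul_smul, inv_mul_cancel₀ h0, one_smul]

private theorem t2a_memT {U : Submodule k V} {g : G} : g ∈ t2aT ρ U ↔ Tri ρ U g := Iff.rfl

private theorem t2a_memZ {U : Submodule k V} {g : G} : g ∈ t2aZ ρ U ↔ Sca ρ U g := Iff.rfl

private theorem t2a_TZ {U : Submodule k V} : (t2aT ρ U : Subgroup G) ≤ t2aZ ρ U := fun _ hg =>
  ⟨1, fun v hv => by rw [hg v hv, one_smul]⟩

private theorem t2a_conjT {U : Submodule k V} {g h : G} (hg : g ∈ stb ρ U) (hh : h ∈ t2aT ρ U) :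
    g * h * g⁻¹ ∈ t2aT ρ U := fun v hv => by
  have h1 : ρ g⁻¹ v ∈ U := t2a_mem ρ ((stb ρ U).inv_mem hg) hv
  rw [t2a_mul, t2a_mul, hh _ h1]
  have h2 := t2a_inv ρ g⁻¹ v
  rw [inv_inv] at h2
  exact h2

private theorem t2a_conjZ {U : Submodule k V} {g h : G} (hg : g ∈ stb ρ U) (hh : h ∈ t2aZ ρ U) :
    g * h * g⁻¹ ∈ t2aZ ρ U := by
  obtain ⟨c, hc⟩ := hh
  refine ⟨c, fun v hv => ?_⟩
  have h1 : ρ g⁻¹ v ∈ U := t2a_mem ρ ((stb ρ U).inv_mem hg) hv
  rw [t2a_mul, t2a_mul, hc _ h1, map_smul]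
  have h2 := t2a_inv ρ g⁻¹ v
  rw [inv_inv] at h2
  rw [h2]

/-- a scalar commutes modulo the kernel with the stabiliser -/
private theorem t2a_cen {U : Submodule k V} {g h : G} (hg : g ∈ stb ρ U) (hh : h ∈ t2aZ ρ U) :
    ⁅h, g⁆ ∈ t2aT ρ U := by
  intro v hv
  obtain ⟨c, hc⟩ := hh
  have hv1 : ρ g⁻¹ v ∈ U := t2a_mem ρ ((stb ρ U).inv_mem hg) hv
  have hi : ∀ w ∈ U, c • ρ h⁻¹ w = w := by
    intro w hw
    have h2 := t2a_inv ρ h w
    rw [hc w hw, map_smul] at h2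
    exact h2
  have hv2 : ρ h⁻¹ (ρ g⁻¹ v) ∈ U := by
    by_cases h0 : c = 0
    · have h3 := hi _ hv1
      rw [h0, zero_smul] at h3
      rw [← h3, map_zero]
      exact U.zero_mem
    · have h3 := hi _ hv1
      have h4 : ρ h⁻¹ (ρ g⁻¹ v) = c⁻¹ • ρ g⁻¹ v := by
        conv_rhs => rw [← h3]
        rw [smul_smul, inv_mul_cancel₀ h0, one_smul]
      rw [h4]
      exact U.smul_mem _ hv1
  rw [commutatorElement_def, t2a_mul, t2a_mul, t2a_mul, hc _ (t2a_mem ρ hg hv2), ← map_smul, hi _ hv1]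
  have h2 := t2a_inv ρ g⁻¹ v
  rw [inv_inv] at h2
  exact h2

private theorem t2a_nrm {A : Subgroup G} {g : G} (h1 : ∀ x ∈ A, g * x * g⁻¹ ∈ A)
    (h2 : ∀ x ∈ A, g⁻¹ * x * g ∈ A) : g ∈ normalizer (A : Set G) := by
  rw [mem_normalizer_iff]
  intro h
  constructor
  · exact h1 h
  · intro hh
    have h3 := h2 _ hh
    have h4 : g⁻¹ * (g * h * g⁻¹) * g = h := by group
    rw [h4] at h3
    exact h3

private theorem t2a_nm {A : Subgroup G} {g : G} (hg : g ∈ normalizer (A : Set G)) {x : G}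
    (hx : x ∈ A) : g * x * g⁻¹ ∈ A := (mem_normalizer_iff.mp hg x).mp hx

private theorem t2a_nm' {A : Subgroup G} {g : G} (hg : g ∈ normalizer (A : Set G)) {x : G}
    (hx : x ∈ A) : g⁻¹ * x * g ∈ A := by
  have h1 := t2a_nm (Subgroup.inv_mem _ hg) hx
  rw [inv_inv] at h1
  exact h1

/-- normal subgroup of a stabiliser with commutators in `K` : the elements `x ∈ A` with `⁅x, g⁆ ∈ K`
for all `g` in a set `B` -/
private def t2aC (A K : Subgroup G) (B : Set G) (hAK : ∀ a ∈ A, ∀ x ∈ K, a * x * a⁻¹ ∈ K) :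
    Subgroup G where
  carrier := {x | x ∈ A ∧ ∀ g ∈ B, ⁅x, g⁆ ∈ K}
  mul_mem' := fun {a b} ha hb => by
    refine ⟨A.mul_mem ha.1 hb.1, fun g hg => ?_⟩
    have h1 : ⁅a * b, g⁆ = (a * ⁅b, g⁆ * a⁻¹) * ⁅a, g⁆ := by
      rw [commutatorElement_def, commutatorElement_def, commutatorElement_def]
      group
    rw [h1]
    exact K.mul_mem (hAK a ha.1 _ (hb.2 g hg)) (ha.2 g hg)
  one_mem' := ⟨A.one_mem, fun g _ => by
    rw [commutatorElement_one_left]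
    exact K.one_mem⟩
  inv_mem' := fun {a} ha => by
    refine ⟨A.inv_mem ha.1, fun g hg => ?_⟩
    have h1 : ⁅a⁻¹, g⁆ = a⁻¹ * ⁅a, g⁆⁻¹ * (a⁻¹)⁻¹ := by
      rw [commutatorElement_def, commutatorElement_def]
      group
    rw [h1]
    exact hAK a⁻¹ (A.inv_mem ha.1) _ (K.inv_mem (ha.2 g hg))

private theorem t2a_memC {A K : Subgroup G} {B : Set G}
    {hAK : ∀ a ∈ A, ∀ x ∈ K, a * x * a⁻¹ ∈ K} {x : G} :
    x ∈ t2aC A K B hAK ↔ x ∈ A ∧ ∀ g ∈ B, ⁅x, g⁆ ∈ K := Iff.rfl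

/-- an element of `N` which is a scalar on `X` is a scalar on `U` -/
private theorem t2a_up {t : G} {b : ℕ} {U : Submodule k V} {N : Subgroup G} (h : Nd ρ t b U N)
    {X : Submodule k V} (hX : X ≤ U) (h0 : X ≠ ⊥) {x : G} (hx : x ∈ N)
    (hT : ∀ y ∈ N, Tri ρ X ⁅x, y⁆) : Sca ρ U x := by
  apply h.nd x hx
  intro y hy
  obtain ⟨c, hc⟩ := h.com x hx y hy
  obtain ⟨v, hv, hv0⟩ := (Submodule.ne_bot_iff _).mp h0
  have h1 : c = 1 := by
    have h2 := hc v (hX hv)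
    rw [hT y hy v hv] at h2
    have h3 : (c - 1) • v = 0 := by rw [sub_smul, one_smul, ← h2, sub_self]
    rcases smul_eq_zero.mp h3 with h4 | h4
    · exact sub_eq_zero.mp h4
    · exact absurd h4 hv0
  intro w hw
  rw [hc w hw, h1, one_smul]

/-- passing to a nonzero invariant subspace -/
theorem Nd.sub {t : G} {b : ℕ} {U : Submodule k V} {N : Subgroup G} (h : Nd ρ t b U N)
    {X : Submodule k V} (hX : X ≤ U) (h0 : X ≠ ⊥) (hN : N ≤ stb ρ X) (ht : t ∈ stb ρ X) :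
    Nd ρ t b X N := by
  have hres : ∀ g : G, Sca ρ U g → Sca ρ X g := fun g ⟨c, hc⟩ => ⟨c, fun v hv => hc v (hX hv)⟩
  have hup : ∀ x ∈ N, Sca ρ X x → Sca ρ U x := fun x hx hs =>
    t2a_up ρ h hX h0 hx fun y hy => t2a_cen ρ (hN hy) hs
  refine ⟨hN, ht, h.ht, fun x hx y hy => hres _ (h.com x hx y hy), fun x hx hT =>
    hres _ (t2a_up ρ h hX h0 hx hT), ?_, ?_⟩
  · obtain ⟨x, hx, hs⟩ := h.ne
    exact ⟨x, hx, fun h1 => hs (hup x hx h1)⟩
  · intro i hi x hx hs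
    have h1 : ⁅x, t ^ i⁆ ∈ N := by
      have h2 : t ^ i ∈ normalizer (N : Set G) := Subgroup.pow_mem _ h.ht i
      have h3 : ⁅x, t ^ i⁆ = x * (t ^ i * x⁻¹ * (t ^ i)⁻¹) := by
        rw [commutatorElement_def]
        group
      rw [h3]
      exact N.mul_mem hx (t2a_nm h2 (N.inv_mem hx))
    exact hres _ (h.fr i hi x hx (hup _ h1 hs))

/-- the nontrivial `s`-group `P / S` has a nontrivial centre -/
private theorem t2a_cent {s : ℕ} [Fact s.Prime] {P : Subgroup G} [Finite P] (hP : IsPGroup s P)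
    (K : Subgroup G) (hK : ∀ a ∈ P, ∀ x ∈ K, a * x * a⁻¹ ∈ K) (hne : ∃ p ∈ P, p ∉ K) :
    ∃ x ∈ P, x ∉ K ∧ ∀ g ∈ P, ⁅x, g⁆ ∈ K := by
  let S' : Subgroup P := K.subgroupOf P
  have hS' : ∀ p : P, p ∈ S' ↔ (p : G) ∈ K := fun p => mem_subgroupOf
  have hn : S'.Normal := ⟨fun x hx g => by
    rw [hS'] at hx ⊢
    exact hK g g.2 x hx⟩
  obtain ⟨p, hp, hpK⟩ := hne
  have hnt : Nontrivial (P ⧸ S') := by
    refine ⟨⟨QuotientGroup.mk (⟨p, hp⟩ : P), 1, fun h => hpK ?_⟩⟩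
    rw [QuotientGroup.eq_one_iff] at h
    exact (hS' _).mp h
  have hQ : IsPGroup s (P ⧸ S') := hP.to_quotient S'
  have hc := hQ.center_nontrivial
  obtain ⟨z, hz⟩ := exists_ne (1 : Subgroup.center (P ⧸ S'))
  obtain ⟨x, hx⟩ := QuotientGroup.mk_surjective (z : P ⧸ S')
  refine ⟨x, x.2, fun h => hz ?_, fun g hg => ?_⟩
  · apply Subtype.ext
    rw [← hx]
    exact (QuotientGroup.eq_one_iff x).mpr ((hS' x).mpr h)
  · have h1 := mem_center_iff.mp z.2 (QuotientGroup.mk (⟨g, hg⟩ : P))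
    rw [← hx] at h1
    have h2 : (QuotientGroup.mk (⁅x, (⟨g, hg⟩ : P)⁆) : P ⧸ S') = 1 := by
      rw [commutatorElement_def, QuotientGroup.mk_mul, QuotientGroup.mk_mul, QuotientGroup.mk_mul,
        ← h1, QuotientGroup.mk_inv, QuotientGroup.mk_inv]
      group
    rw [QuotientGroup.eq_one_iff, hS'] at h2
    exact h2

/-- group theory of `fr`: `X` commutes with `G⁻¹ θ G θ⁻¹` modulo `T` -/
private theorem t2a_key {U : Submodule k V} {x g θ : G} (hx : x ∈ stb ρ U) (hg : g ∈ stb ρ U)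
    (hθ : θ ∈ stb ρ U) (h1 : ⁅x, θ⁆ ∈ t2aZ ρ U) (h2 : ⁅x, g⁆ ∈ t2aZ ρ U) :
    ⁅x, g⁻¹ * (θ * g * θ⁻¹)⁆ ∈ t2aT ρ U := by
  -- work in the quotient of the stabiliser
  let K : Subgroup (stb ρ U) := (t2aT ρ U : Subgroup G).subgroupOf (stb ρ U)
  have hK : ∀ p : stb ρ U, p ∈ K ↔ (p : G) ∈ t2aT ρ U := fun p => mem_subgroupOf
  have hn : K.Normal := ⟨fun y hy q => by
    rw [hK] at hy ⊢
    exact t2a_conjT ρ q.2 hy⟩
  let π : stb ρ U →* (stb ρ U) ⧸ K := QuotientGroup.mk' K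
  have hπ : ∀ p : stb ρ U, π p = 1 ↔ (p : G) ∈ t2aT ρ U := fun p => by
    rw [← hK]
    exact QuotientGroup.eq_one_iff p
  have hcen : ∀ p : stb ρ U, (p : G) ∈ t2aZ ρ U → ∀ q : (stb ρ U) ⧸ K, π p * q = q * π p := by
    intro p hp q
    obtain ⟨r, rfl⟩ := QuotientGroup.mk'_surjective K q
    have h3 : π ⁅p, r⁆ = 1 := by
      rw [hπ]
      exact t2a_cen ρ r.2 hp
    rw [map_commutatorElement, commutatorElement_eq_one_iff_mul_comm] at h3
    exact h3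
  let x' : stb ρ U := ⟨x, hx⟩
  let g' : stb ρ U := ⟨g, hg⟩
  let θ' : stb ρ U := ⟨θ, hθ⟩
  have e1 := hcen ⁅x', θ'⁆ h1
  have e2 := hcen ⁅x', g'⁆ h2
  rw [map_commutatorElement] at e1 e2
  have goal : π ⁅x', g'⁻¹ * (θ' * g' * θ'⁻¹)⁆ = 1 := by
    rw [map_commutatorElement, map_mul, map_mul, map_mul, map_inv, map_inv]
    generalize π x' = X at e1 e2 ⊢
    generalize π g' = Y at e1 e2 ⊢
    generalize π θ' = Z at e1 e2 ⊢
    rw [commutatorElement_eq_one_iff_mul_comm]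
    -- D = ⁅X, Z⁆, C = ⁅X, Y⁆ central
    have f1 : X * Y = ⁅X, Y⁆ * Y * X := by rw [commutatorElement_def]; group
    have f2 : Z * X * Z⁻¹ = ⁅X, Z⁆⁻¹ * X := by rw [commutatorElement_def]; group
    have f3 : X * (Z * Y * Z⁻¹) = ⁅X, Y⁆ * (Z * Y * Z⁻¹) * X := by
      have f4 : (Z * X * Z⁻¹) * (Z * Y * Z⁻¹) = ⁅X, Y⁆ * (Z * Y * Z⁻¹) * (Z * X * Z⁻¹) := by
        have f5 : (Z * X * Z⁻¹) * (Z * Y * Z⁻¹) = Z * (X * Y) * Z⁻¹ := by group
        rw [f5, f1]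
        have f6 : Z * (⁅X, Y⁆ * Y * X) * Z⁻¹ = (Z * ⁅X, Y⁆) * (Y * X * Z⁻¹) := by group
        rw [f6, ← e2 Z]
        group
      rw [f2] at f4
      have e1' : ∀ q, ⁅X, Z⁆⁻¹ * q = q * ⁅X, Z⁆⁻¹ := fun q =>
        (Commute.inv_left (show Commute ⁅X, Z⁆ q from e1 q)).eq
      have f7 : ⁅X, Y⁆ * (Z * Y * Z⁻¹) * (⁅X, Z⁆⁻¹ * X) = ⁅X, Z⁆⁻¹ * (⁅X, Y⁆ * (Z * Y * Z⁻¹) * X) := by
        rw [← mul_assoc, ← e1' (⁅X, Y⁆ * (Z * Y * Z⁻¹)), mul_assoc]
      rw [f7, mul_assoc] at f4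
      exact mul_left_cancel f4
    have f9 : X * Y⁻¹ = ⁅X, Y⁆⁻¹ * Y⁻¹ * X := by
      have g1 : ⁅X, Y⁆⁻¹ * Y⁻¹ * X = ⁅X, Y⁆⁻¹ * Y⁻¹ * (X * Y) * Y⁻¹ := by
        rw [mul_assoc (⁅X, Y⁆⁻¹ * Y⁻¹) (X * Y) Y⁻¹, mul_assoc X Y Y⁻¹, mul_inv_cancel, mul_one]
      have g2 : ⁅X, Y⁆⁻¹ * Y⁻¹ * (⁅X, Y⁆ * Y * X) * Y⁻¹ =
          ⁅X, Y⁆⁻¹ * (Y⁻¹ * ⁅X, Y⁆) * (Y * X * Y⁻¹) := by
        simp only [mul_assoc]
      rw [g1, f1, g2, ← e2 Y⁻¹]
      simp only [mul_assoc, inv_mul_cancel_left]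
    have f11 : X * (Y⁻¹ * (Z * Y * Z⁻¹)) = (X * Y⁻¹) * (Z * Y * Z⁻¹) := by group
    rw [f11, f9]
    have f12 : ⁅X, Y⁆⁻¹ * Y⁻¹ * X * (Z * Y * Z⁻¹) = ⁅X, Y⁆⁻¹ * Y⁻¹ * (X * (Z * Y * Z⁻¹)) := by group
    rw [f12, f3]
    have f13 : Y⁻¹ * ⁅X, Y⁆ = ⁅X, Y⁆ * Y⁻¹ := (e2 Y⁻¹).symm
    have f14 : ⁅X, Y⁆⁻¹ * Y⁻¹ * (⁅X, Y⁆ * (Z * Y * Z⁻¹) * X) =
        ⁅X, Y⁆⁻¹ * (Y⁻¹ * ⁅X, Y⁆) * ((Z * Y * Z⁻¹) * X) := by group
    rw [f14, f13]
    group
  exact (hπ _).mp goal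

theorem c3 {s : ℕ} [Fact s.Prime] {P : Subgroup G} [Finite P] (hP : IsPGroup s P) {t : G}
    {b : ℕ} (hb : 1 < b) (hF : Full t b P) {U : Submodule k V} (hI : Ir ρ P t U)
    (hC2 : ∀ A : Subgroup G, A ≤ P → P ≤ normalizer (A : Set G) → t ∈ normalizer (A : Set G) →
      Com ρ U A → ∀ a ∈ A, Sca ρ U a) : ∃ N : Subgroup G, N ≤ P ∧ Nd ρ t b U N := by
  have htn : t ∈ normalizer (P : Set G) := hF.1
  have hPU := hI.hP
  have htU := hI.ht
  have hZP : ∀ a ∈ P, ∀ x ∈ (t2aZ ρ U : Subgroup G), a * x * a⁻¹ ∈ t2aZ ρ U := fun a ha x hx =>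
    t2a_conjZ ρ (hPU ha) hx
  have htZ : ∀ x ∈ (t2aZ ρ U : Subgroup G), t * x * t⁻¹ ∈ t2aZ ρ U := fun x hx =>
    t2a_conjZ ρ htU hx
  have htZ' : ∀ x ∈ (t2aZ ρ U : Subgroup G), t⁻¹ * x * t ∈ t2aZ ρ U := fun x hx => by
    have h1 := t2a_conjZ ρ ((stb ρ U).inv_mem htU) hx
    rw [inv_inv] at h1
    exact h1
  -- S ≠ P
  have hSP : ∃ p ∈ P, p ∉ (t2aZ ρ U : Subgroup G) := by
    by_contra hcon
    push Not at hcon
    obtain ⟨p, hp, hpt⟩ := hI.nt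
    apply hpt
    have h1 : ⁅P, zpowers (t ^ 1)⁆ ≤ t2aT ρ U := by
      rw [commutator_le]
      intro q hq τ hτ
      refine t2a_cen ρ ?_ (hcon q hq)
      exact (zpowers_le.mpr ((stb ρ U).pow_mem htU 1)) hτ
    rw [hF.2 1 (fun h => absurd (Nat.le_of_dvd one_pos h) (by omega))] at h1
    exact h1 hp
  -- Z₂
  let Z2 : Subgroup G := t2aC P (t2aZ ρ U) (P : Set G) hZP
  have hZ2P : Z2 ≤ P := fun x hx => hx.1
  let S : Subgroup G := P ⊓ t2aZ ρ U
  have hSZ : S ≤ Z2 := fun x hx => by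
    rw [mem_inf] at hx
    refine ⟨hx.1, fun g hg => ?_⟩
    exact t2a_TZ ρ (t2a_cen ρ (hPU hg) hx.2)
  have hZ2t : t ∈ normalizer (Z2 : Set G) := by
    apply t2a_nrm
    · intro x hx
      refine ⟨t2a_nm htn hx.1, fun g hg => ?_⟩
      have h1 : ⁅t * x * t⁻¹, g⁆ = t * ⁅x, t⁻¹ * g * t⁆ * t⁻¹ := by
        rw [commutatorElement_def, commutatorElement_def]
        group
      rw [h1]
      exact htZ _ (hx.2 _ (t2a_nm' htn hg))
    · intro x hx
      refine ⟨t2a_nm' htn hx.1, fun g hg => ?_⟩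
      have h1 : ⁅t⁻¹ * x * t, g⁆ = t⁻¹ * ⁅x, t * g * t⁻¹⁆ * t := by
        rw [commutatorElement_def, commutatorElement_def]
        group
      rw [h1]
      exact htZ' _ (hx.2 _ (t2a_nm htn hg))
  have hZ2S : Z2 ≠ S := by
    obtain ⟨x, hxP, hxZ, hx⟩ := t2a_cent hP (t2aZ ρ U) hZP hSP
    intro h
    have h1 : x ∈ Z2 := ⟨hxP, hx⟩
    rw [h] at h1
    exact hxZ (mem_inf.mp h1).2
  obtain ⟨N, ⟨hSN, hNS, hNZ, hNt⟩, hmin⟩ := (InvImage.wf (fun A : Subgroup G => Nat.card A)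
    wellFounded_lt).has_min {A : Subgroup G | S ≤ A ∧ A ≠ S ∧ A ≤ Z2 ∧ t ∈ normalizer (A : Set G)}
    ⟨Z2, hSZ, hZ2S, le_rfl, hZ2t⟩
  have hNP : N ≤ P := hNZ.trans hZ2P
  have hNf : Finite N := Finite.Set.subset (P : Set G) hNP
  have hmin' : ∀ A : Subgroup G, S ≤ A → A ≠ S → A ≤ N → t ∈ normalizer (A : Set G) → A = N := by
    intro A h1 h2 h3 h4
    have h5 := hmin A ⟨h1, h2, h3.trans hNZ, h4⟩
    exact Subgroup.eq_of_le_of_card_ge h3 (not_lt.mp h5)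
  have hcom : ∀ x ∈ N, ∀ g ∈ P, ⁅x, g⁆ ∈ (t2aZ ρ U : Subgroup G) := fun x hx g hg =>
    (hNZ hx).2 g hg
  have hTP : ∀ a ∈ N, ∀ x ∈ (t2aT ρ U : Subgroup G), a * x * a⁻¹ ∈ t2aT ρ U := fun a ha x hx =>
    t2a_conjT ρ (hPU (hNP ha)) hx
  have hZN : ∀ a ∈ N, ∀ x ∈ (t2aZ ρ U : Subgroup G), a * x * a⁻¹ ∈ t2aZ ρ U := fun a ha x hx =>
    t2a_conjZ ρ (hPU (hNP ha)) hx
  -- nd
  have hnd : ∀ x ∈ N, (∀ y ∈ N, Tri ρ U ⁅x, y⁆) → Sca ρ U x := by
    let R : Subgroup G := t2aC N (t2aT ρ U) (N : Set G) hTP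
    have hRN : R ≤ N := fun x hx => hx.1
    have hPR : P ≤ normalizer (R : Set G) := by
      have key : ∀ g ∈ P, ∀ x ∈ R, g * x * g⁻¹ ∈ R := by
        intro g hg x hx
        have hc : ⁅g, x⁆ ∈ (t2aZ ρ U : Subgroup G) := by
          rw [← commutatorElement_inv]
          exact (t2aZ ρ U).inv_mem (hcom x hx.1 g hg)
        have hcP : ⁅g, x⁆ ∈ P := by
          rw [commutatorElement_def]
          exact P.mul_mem (P.mul_mem (P.mul_mem hg (hNP hx.1)) (P.inv_mem hg))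
            (P.inv_mem (hNP hx.1))
        have hcN : ⁅g, x⁆ ∈ N := hSN (mem_inf.mpr ⟨hcP, hc⟩)
        have e1 : g * x * g⁻¹ = ⁅g, x⁆ * x := by
          rw [commutatorElement_def]
          group
        have hcR : ⁅g, x⁆ ∈ R := ⟨hcN, fun y hy => t2a_cen ρ (hPU (hNP hy)) hc⟩
        rw [e1]
        exact R.mul_mem hcR hx
      intro g hg
      apply t2a_nrm
      · exact key g hg
      · intro x hx
        have h1 := key g⁻¹ (P.inv_mem hg) x hx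
        rw [inv_inv] at h1
        exact h1
    have htR : t ∈ normalizer (R : Set G) := by
      apply t2a_nrm
      · intro x hx
        refine ⟨t2a_nm hNt hx.1, fun g hg => ?_⟩
        have h1 : ⁅t * x * t⁻¹, g⁆ = t * ⁅x, t⁻¹ * g * t⁆ * t⁻¹ := by
          rw [commutatorElement_def, commutatorElement_def]
          group
        rw [h1]
        exact t2a_conjT ρ htU (hx.2 _ (t2a_nm' hNt hg))
      · intro x hx
        refine ⟨t2a_nm' hNt hx.1, fun g hg => ?_⟩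
        have h1 : ⁅t⁻¹ * x * t, g⁆ = t⁻¹ * ⁅x, t * g * t⁻¹⁆ * (t⁻¹)⁻¹ := by
          rw [commutatorElement_def, commutatorElement_def]
          group
        rw [h1]
        exact t2a_conjT ρ ((stb ρ U).inv_mem htU) (hx.2 _ (t2a_nm hNt hg))
    have hcomR : Com ρ U R := by
      intro a ha b hb v hv
      have h1 : ⁅a, b⁆ ∈ (t2aT ρ U : Subgroup G) := ha.2 b hb.1
      have hv2 : ρ (b * a) v ∈ U := t2a_mem ρ (hPU (P.mul_mem (hNP hb.1) (hNP ha.1))) hv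
      have h2 := h1 _ hv2
      rw [← t2a_mul, commutatorElement_def] at h2
      have h3 : a * b * a⁻¹ * b⁻¹ * (b * a) = a * b := by group
      rw [h3, t2a_mul, t2a_mul] at h2
      exact h2
    intro x hx hT
    exact hC2 R (hRN.trans hNP) hPR htR hcomR x ⟨hx, hT⟩
  have hne : ∃ x ∈ N, ¬ Sca ρ U x := by
    by_contra hcon
    push Not at hcon
    apply hNS
    apply le_antisymm
    · intro x hx
      exact mem_inf.mpr ⟨hNP hx, hcon x hx⟩
    · exact hSN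
  refine ⟨N, hNP, hNP.trans hPU, htU, hNt, fun x hx y hy => hcom x hx y (hNP hy), hnd, hne, ?_⟩
  intro i hi x hx hs
  have hθU : t ^ i ∈ stb ρ U := (stb ρ U).pow_mem htU i
  have hθN : t ^ i ∈ normalizer (N : Set G) := Subgroup.pow_mem _ hNt i
  have hθP : t ^ i ∈ normalizer (P : Set G) := Subgroup.pow_mem _ htn i
  let R' : Subgroup G := t2aC N (t2aZ ρ U) {t ^ i} hZN
  have hmemR : ∀ y, y ∈ R' ↔ y ∈ N ∧ ⁅y, t ^ i⁆ ∈ (t2aZ ρ U : Subgroup G) := fun y => by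
    constructor
    · intro h
      exact ⟨h.1, h.2 _ rfl⟩
    · intro h
      refine ⟨h.1, fun g hg => ?_⟩
      rw [Set.mem_singleton_iff] at hg
      rw [hg]
      exact h.2
  by_cases hR : R' = S
  · have h1 : x ∈ R' := (hmemR x).mpr ⟨hx, hs⟩
    rw [hR] at h1
    exact (mem_inf.mp h1).2
  · exfalso
    have hSR : S ≤ R' := by
      intro y hy
      rw [hmemR]
      refine ⟨hSN hy, ?_⟩
      exact t2a_TZ ρ (t2a_cen ρ hθU (mem_inf.mp hy).2)
    have htR : t ∈ normalizer (R' : Set G) := by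
      apply t2a_nrm
      · intro y hy
        rw [hmemR] at hy ⊢
        refine ⟨t2a_nm hNt hy.1, ?_⟩
        have h1 : ⁅t * y * t⁻¹, t ^ i⁆ = t * ⁅y, t ^ i⁆ * t⁻¹ := by
          rw [commutatorElement_def, commutatorElement_def]
          group
        rw [h1]
        exact htZ _ hy.2
      · intro y hy
        rw [hmemR] at hy ⊢
        refine ⟨t2a_nm' hNt hy.1, ?_⟩
        have h1 : ⁅t⁻¹ * y * t, t ^ i⁆ = t⁻¹ * ⁅y, t ^ i⁆ * t := by
          rw [commutatorElement_def, commutatorElement_def]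
          group
        rw [h1]
        exact htZ' _ hy.2
    have hRN := hmin' R' hSR hR (fun y hy => hy.1) htR
    -- all elements of N are scalars
    obtain ⟨y, hy, hys⟩ := hne
    apply hys
    apply hnd y hy
    have hyθ : ⁅y, t ^ i⁆ ∈ (t2aZ ρ U : Subgroup G) := by
      rw [← hRN] at hy
      exact ((hmemR y).mp hy).2
    have hyU : y ∈ stb ρ U := hPU (hNP hy)
    -- the centraliser of y in P
    let C : Subgroup G :=
      { carrier := {g | g ∈ P ∧ ⁅y, g⁆ ∈ t2aT ρ U}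
        mul_mem' := fun {a b} ha hb => by
          refine ⟨P.mul_mem ha.1 hb.1, ?_⟩
          have h1 : ⁅y, a * b⁆ = ⁅y, a⁆ * (a * ⁅y, b⁆ * a⁻¹) := by
            rw [commutatorElement_def, commutatorElement_def, commutatorElement_def]
            group
          rw [h1]
          exact (t2aT ρ U).mul_mem ha.2 (t2a_conjT ρ (hPU ha.1) hb.2)
        one_mem' := ⟨P.one_mem, by
          rw [commutatorElement_one_right]
          exact (t2aT ρ U).one_mem⟩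
        inv_mem' := fun {a} ha => by
          refine ⟨P.inv_mem ha.1, ?_⟩
          have h1 : ⁅y, a⁻¹⁆ = a⁻¹ * ⁅y, a⁆⁻¹ * (a⁻¹)⁻¹ := by
            rw [commutatorElement_def, commutatorElement_def]
            group
          rw [h1]
          exact t2a_conjT ρ ((stb ρ U).inv_mem (hPU ha.1)) ((t2aT ρ U).inv_mem ha.2) }
    have hCm : ∀ g, g ∈ C ↔ g ∈ P ∧ ⁅y, g⁆ ∈ (t2aT ρ U : Subgroup G) := fun g => Iff.rfl
    have hstar : ∀ g ∈ P, g⁻¹ * (t ^ i * g * (t ^ i)⁻¹) ∈ C := by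
      intro g hg
      rw [hCm]
      refine ⟨P.mul_mem (P.inv_mem hg) (t2a_nm hθP hg), ?_⟩
      exact t2a_key ρ hyU (hPU hg) hθU hyθ (hcom y hy g hg)
    let E : Subgroup G :=
      { carrier := {τ | τ ∈ normalizer (P : Set G) ∧ ∀ g ∈ P, g⁻¹ * (τ * g * τ⁻¹) ∈ C}
        mul_mem' := fun {a b} ha hb => by
          refine ⟨Subgroup.mul_mem _ ha.1 hb.1, fun g hg => ?_⟩
          have h1 := hb.2 g hg
          have h2 := ha.2 _ (t2a_nm hb.1 hg)
          have h3 := C.mul_mem h1 h2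
          have h4 : g⁻¹ * (b * g * b⁻¹) * ((b * g * b⁻¹)⁻¹ * (a * (b * g * b⁻¹) * a⁻¹)) =
              g⁻¹ * (a * b * g * (a * b)⁻¹) := by group
          rw [h4] at h3
          exact h3
        one_mem' := ⟨Subgroup.one_mem _, fun g hg => by
          have h1 : g⁻¹ * (1 * g * 1⁻¹) = 1 := by group
          rw [h1]
          exact C.one_mem⟩
        inv_mem' := fun {a} ha => by
          refine ⟨Subgroup.inv_mem _ ha.1, fun g hg => ?_⟩
          have h1 := ha.2 _ (t2a_nm' ha.1 hg)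
          have h2 := C.inv_mem h1
          have h3 : ((a⁻¹ * g * a)⁻¹ * (a * (a⁻¹ * g * a) * a⁻¹))⁻¹ = g⁻¹ * (a⁻¹ * g * (a⁻¹)⁻¹) := by
            group
          rw [h3] at h2
          exact h2 }
    have hEθ : zpowers (t ^ i) ≤ E := zpowers_le.mpr ⟨hθP, hstar⟩
    have hPC : ⁅P, zpowers (t ^ i)⁆ ≤ C := by
      rw [commutator_le]
      intro g hg τ hτ
      have h1 := (hEθ hτ).2 g⁻¹ (P.inv_mem hg)
      have h2 : (g⁻¹)⁻¹ * (τ * g⁻¹ * τ⁻¹) = ⁅g, τ⁆ := by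
        rw [commutatorElement_def]
        group
      rw [h2] at h1
      exact h1
    rw [hF.2 i hi] at hPC
    intro z hz
    exact (hPC (hNP hz)).2

private theorem t2b_mul (a b : G) (v : V) : ρ (a * b) v = ρ a (ρ b v) := by
  rw [map_mul, Module.End.mul_apply]

private theorem t2b_inv (a : G) (v : V) : ρ a (ρ a⁻¹ v) = v := by
  rw [← t2b_mul, mul_inv_cancel, map_one, Module.End.one_apply]

private theorem t2b_inv' (a : G) (v : V) : ρ a⁻¹ (ρ a v) = v := by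
  rw [← t2b_mul, inv_mul_cancel, map_one, Module.End.one_apply]

private theorem t2b_mem {X : Submodule k V} {g : G} (hg : g ∈ stb ρ X) {v : V} (hv : v ∈ X) :
    ρ g v ∈ X := by
  have h1 : tr ρ g X = X := hg
  have h2 : ρ g v ∈ tr ρ g X := Submodule.mem_map_of_mem hv
  rw [h1] at h2
  exact h2

private theorem t2b_stb {N : Subgroup G} {X : Submodule k V}
    (h : ∀ g ∈ N, ∀ v ∈ X, ρ g v ∈ X) : N ≤ stb ρ X := by
  intro g hg
  rw [mem_stb]
  apply le_antisymm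
  · intro v hv
    rw [mem_tr] at hv
    have h1 := h g hg _ hv
    rw [t2b_inv] at h1
    exact h1
  · intro v hv
    rw [mem_tr]
    exact h g⁻¹ (N.inv_mem hg) v hv

private theorem t2b_ne {t : G} {b : ℕ} {X : Submodule k V} {N : Subgroup G}
    (h : Nd ρ t b X N) : X ≠ ⊥ := by
  rintro rfl
  obtain ⟨x, hx, hx'⟩ := h.ne
  apply hx'
  refine ⟨0, fun v hv => ?_⟩
  rw [Submodule.mem_bot] at hv
  rw [hv, map_zero, smul_zero]

/-- the form on `N` -/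
private theorem t2b_omega {t : G} {b : ℕ} {X : Submodule k V} {N : Subgroup G}
    (h : Nd ρ t b X N) : ∃ ω : N → (N →* k), (∀ y g : N, ∀ v ∈ X,
      ρ (g : G) (ρ (y : G) v) = ω y g • ρ (y : G) (ρ (g : G) v)) ∧
      (∀ y g, ω y g * ω g y = 1) := by
  have h0 := t2b_ne ρ h
  obtain ⟨v0, hv0, hv00⟩ := X.ne_bot_iff.1 h0
  have h1 : ∀ y g : N, ∃ c : k, ∀ v ∈ X, ρ ⁅(g : G), (y : G)⁆ v = c • v :=
    fun y g => h.com g g.2 y y.2
  choose ω hω' using h1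
  have hω : ∀ y g : N, ∀ v ∈ X,
      ρ (g : G) (ρ (y : G) v) = ω y g • ρ (y : G) (ρ (g : G) v) := by
    intro y g v hv
    have hg : (g : G) ∈ stb ρ X := h.hN g.2
    have hy : (y : G) ∈ stb ρ X := h.hN y.2
    have h2 : ρ (y : G) (ρ (g : G) v) ∈ X := t2b_mem ρ hy (t2b_mem ρ hg hv)
    rw [← hω' y g _ h2, ← t2b_mul, ← t2b_mul, ← t2b_mul]
    congr 2
    rw [commutatorElement_def]
    group
  have key : ∀ y g : N, ρ (y : G) (ρ (g : G) v0) ≠ 0 := by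
    intro y g hz
    apply hv00
    have h1 : ρ (g : G)⁻¹ (ρ (y : G)⁻¹ (ρ (y : G) (ρ (g : G) v0))) = v0 := by
      rw [t2b_inv', t2b_inv']
    rw [hz, map_zero, map_zero] at h1
    exact h1.symm
  have hone : ∀ y, ω y 1 = 1 := by
    intro y
    have h1 := hω y 1 v0 hv0
    have h2 : ρ ((1 : N) : G) = 1 := by rw [OneMemClass.coe_one, map_one]
    have h3 := key y 1
    rw [h2, Module.End.one_apply, Module.End.one_apply] at h1
    rw [h2, Module.End.one_apply] at h3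
    have h4 : (1 - ω y 1) • ρ (y : G) v0 = 0 := by
      rw [sub_smul, one_smul, ← h1, sub_self]
    rcases smul_eq_zero.1 h4 with h5 | h5
    · exact (sub_eq_zero.1 h5).symm
    · exact absurd h5 h3
  have hmul : ∀ y g g', ω y (g * g') = ω y g * ω y g' := by
    intro y g g'
    have h1 := hω y (g * g') v0 hv0
    have hg' : (g' : G) ∈ stb ρ X := h.hN g'.2
    have h2 : ρ ((g * g' : N) : G) (ρ (y : G) v0) =
        (ω y g * ω y g') • ρ (y : G) (ρ ((g * g' : N) : G) v0) := by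
      rw [MulMemClass.coe_mul, t2b_mul, hω y g' v0 hv0, map_smul,
        hω y g _ (t2b_mem ρ hg' hv0), smul_smul, t2b_mul, mul_comm]
    have h3 : (ω y (g * g') - ω y g * ω y g') • ρ (y : G) (ρ ((g * g' : N) : G) v0) = 0 := by
      rw [sub_smul, ← h1, ← h2, sub_self]
    rcases smul_eq_zero.1 h3 with h5 | h5
    · exact sub_eq_zero.1 h5
    · exact absurd h5 (key y _)
  refine ⟨fun y => { toFun := ω y, map_one' := hone y, map_mul' := hmul y }, hω, ?_⟩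
  intro y g
  show ω y g * ω g y = 1
  have h1 := hω y g v0 hv0
  rw [hω g y v0 hv0, smul_smul] at h1
  have h2 : (1 - ω y g * ω g y) • ρ (g : G) (ρ (y : G) v0) = 0 := by
    rw [sub_smul, one_smul, ← h1, sub_self]
  rcases smul_eq_zero.1 h2 with h5 | h5
  · exact (sub_eq_zero.1 h5).symm
  · exact absurd h5 (key g y)

/-- the scalars in `N` -/
private def t2b_scS (X : Submodule k V) (N : Subgroup G) (hN : N ≤ stb ρ X) : Subgroup N where
  carrier := {n | Sca ρ X (n : G)}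
  mul_mem' := by
    rintro a b ⟨c, hc⟩ ⟨d, hd⟩
    refine ⟨d * c, fun v hv => ?_⟩
    rw [MulMemClass.coe_mul, t2b_mul, hd v hv, map_smul, hc v hv, smul_smul]
  one_mem' := ⟨1, fun v _ => by
    rw [OneMemClass.coe_one, map_one, Module.End.one_apply, one_smul]⟩
  inv_mem' := by
    rintro a ⟨c, hc⟩
    refine ⟨c⁻¹, fun v hv => ?_⟩
    have h1 : ρ ((a : G)⁻¹) v ∈ X := t2b_mem ρ ((stb ρ X).inv_mem (hN a.2)) hv
    have h2 := hc _ h1
    rw [t2b_inv] at h2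
    rw [InvMemClass.coe_inv]
    by_cases hc0 : c = 0
    · rw [hc0, zero_smul] at h2
      rw [h2, map_zero, smul_zero]
    · exact ((inv_smul_eq_iff₀ hc0).2 h2).symm

/-- decomposition of a linear map `X₁ → X₂` by the form -/
theorem c4a [FiniteDimensional k V] {s : ℕ} [Fact s.Prime] (hs : (s : k) ≠ 0) {t : G} {b : ℕ}
    {U : Submodule k V} {N : Subgroup G} [Fintype N] (hNs : IsPGroup s N) (h : Nd ρ t b U N)
    (X₁ X₂ : Submodule k V) (h1 : X₁ ≤ U) (h2 : X₂ ≤ U) (hN1 : N ≤ stb ρ X₁)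
    (hN2 : N ≤ stb ρ X₂) (f : Module.End k V) (hf : ∀ v ∈ X₁, f v ∈ X₂) :
    ∃ Φ : N → Module.End k V, (∀ y, ∀ v ∈ X₁, Φ y v ∈ X₂) ∧
      (∀ y, ∀ n ∈ N, ∀ v ∈ X₁, Φ y (ρ n v) = ρ n (Φ y v)) ∧
      ∀ v ∈ X₁, f v = ∑ y : N, ρ (y : G) (Φ y v) := by
  classical
  obtain ⟨ω, hω, hωi⟩ := t2b_omega ρ h
  have hω0 : ∀ y g, ω y g ≠ 0 := by
    intro y g h0
    have h1 := hωi y g
    rw [h0, zero_mul] at h1
    exact zero_ne_one h1
  have hω2 : ∀ y g, ω y g = (ω g y)⁻¹ := fun y g => eq_inv_of_mul_eq_one_left (hωi y g)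
  let S := t2b_scS ρ U N h.hN
  have hmemS : ∀ n : N, n ∈ S ↔ Sca ρ U (n : G) := fun n => Iff.rfl
  have hcard : ((Fintype.card N : k) * (Nat.card S : k)) ≠ 0 := by
    obtain ⟨a, ha⟩ := IsPGroup.iff_card.1 hNs
    obtain ⟨a', ha'⟩ := IsPGroup.iff_card.1 (hNs.to_subgroup S)
    rw [← Nat.card_eq_fintype_card, ha, ha', Nat.cast_pow, Nat.cast_pow]
    exact mul_ne_zero (pow_ne_zero _ hs) (pow_ne_zero _ hs)
  let F : N → Module.End k V := fun y =>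
    ∑ g : N, (ω y g)⁻¹ • (ρ (g : G) * f * ρ (g : G)⁻¹)
  have hF : ∀ y v, F y v = ∑ g : N, (ω y g)⁻¹ • ρ (g : G) (f (ρ (g : G)⁻¹ v)) := by
    intro y v
    rw [LinearMap.sum_apply]
    rfl
  let c : k := ((Fintype.card N : k) * (Nat.card S : k))⁻¹
  have hmem1 : ∀ (g : N), ∀ v ∈ X₁, f (ρ (g : G)⁻¹ v) ∈ X₂ := fun g v hv =>
    hf _ (t2b_mem ρ ((stb ρ X₁).inv_mem (hN1 g.2)) hv)
  have hmemF : ∀ y, ∀ v ∈ X₁, F y v ∈ X₂ := by
    intro y v hv
    rw [hF]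
    exact X₂.sum_mem fun g _ => X₂.smul_mem _ (t2b_mem ρ (hN2 g.2) (hmem1 g v hv))
  have hFn : ∀ y n : N, ∀ v, F y (ρ (n : G) v) = (ω y n)⁻¹ • ρ (n : G) (F y v) := by
    intro y n v
    rw [hF, hF, map_sum, Finset.smul_sum]
    refine (Fintype.sum_equiv (Equiv.mulLeft n) _ _ fun g => ?_).symm
    show (ω y n)⁻¹ • ρ (n : G) ((ω y g)⁻¹ • ρ (g : G) (f (ρ (g : G)⁻¹ v))) =
      (ω y (n * g))⁻¹ • ρ ((n * g : N) : G) (f (ρ ((n * g : N) : G)⁻¹ (ρ (n : G) v)))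
    rw [map_smul, smul_smul, map_mul (ω y), mul_inv, MulMemClass.coe_mul, mul_inv_rev,
      ← t2b_mul ρ ((g : G)⁻¹ * (n : G)⁻¹) (n : G), inv_mul_cancel_right, t2b_mul]
  refine ⟨fun y => c • (ρ (y : G)⁻¹ * F y), ?_, ?_, ?_⟩
  · intro y v hv
    show c • ρ (y : G)⁻¹ (F y v) ∈ X₂
    exact X₂.smul_mem _ (t2b_mem ρ ((stb ρ X₂).inv_mem (hN2 y.2)) (hmemF y v hv))
  · intro y n hn v hv
    show c • ρ (y : G)⁻¹ (F y (ρ n v)) = ρ n (c • ρ (y : G)⁻¹ (F y v))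
    have e1 : F y (ρ n v) = (ω y ⟨n, hn⟩)⁻¹ • ρ n (F y v) := hFn y ⟨n, hn⟩ v
    have e2 : ρ n (ρ (y : G) (ρ (y : G)⁻¹ (F y v))) =
        ω y ⟨n, hn⟩ • ρ (y : G) (ρ n (ρ (y : G)⁻¹ (F y v))) :=
      hω y ⟨n, hn⟩ _ (t2b_mem ρ ((stb ρ U).inv_mem (h.hN y.2)) (h2 (hmemF y v hv)))
    rw [t2b_inv] at e2
    rw [e1, map_smul, e2, map_smul, t2b_inv', inv_smul_smul₀ (hω0 _ _), map_smul]
  · intro v hv
    have e1 : ∀ y : N, ρ (y : G) ((c • (ρ (y : G)⁻¹ * F y) : Module.End k V) v) = c • F y v := by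
      intro y
      show ρ (y : G) (c • ρ (y : G)⁻¹ (F y v)) = c • F y v
      rw [map_smul, t2b_inv]
    rw [Finset.sum_congr rfl fun y _ => e1 y, ← Finset.smul_sum]
    have e2 : ∑ y : N, F y v =
        ∑ g : N, (∑ y : N, (ω y g)⁻¹) • ρ (g : G) (f (ρ (g : G)⁻¹ v)) := by
      rw [Finset.sum_congr rfl fun y _ => hF y v, Finset.sum_comm]
      exact Finset.sum_congr rfl fun g _ => (Finset.sum_smul).symm
    have e3 : ∀ g : N, (∑ y : N, (ω y g)⁻¹) • ρ (g : G) (f (ρ (g : G)⁻¹ v)) =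
        if g ∈ S then (Fintype.card N : k) • f v else 0 := by
      intro g
      have e4 : ∑ y : N, (ω y g)⁻¹ = ∑ y : N, ω g y :=
        Finset.sum_congr rfl fun y _ => (hω2 g y).symm
      rw [e4]
      split_ifs with hg
      · obtain ⟨d, hd⟩ := (hmemS g).1 hg
        have hd0 : d ≠ 0 := by
          intro hd0
          obtain ⟨v0, hv0, hv00⟩ := U.ne_bot_iff.1 (t2b_ne ρ h)
          apply hv00
          rw [← t2b_inv' ρ (g : G) v0, hd v0 hv0, hd0, zero_smul, map_zero]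
        have e5 : ∀ y : N, ω g y = 1 := by
          intro y
          obtain ⟨v0, hv0, hv00⟩ := U.ne_bot_iff.1 (t2b_ne ρ h)
          have e6 := hω g y v0 hv0
          rw [hd v0 hv0, hd _ (t2b_mem ρ (h.hN y.2) hv0), map_smul, smul_smul] at e6
          have e7 : (d - ω g y * d) • ρ (y : G) v0 = 0 := by
            rw [sub_smul, ← e6, sub_self]
          rcases smul_eq_zero.1 e7 with e8 | e8
          · have e9 : (1 - ω g y) * d = 0 := by
              rw [sub_mul, one_mul]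
              exact e8
            rcases mul_eq_zero.1 e9 with e10 | e10
            · exact (sub_eq_zero.1 e10).symm
            · exact absurd e10 hd0
          · exfalso
            apply hv00
            rw [← t2b_inv' ρ (y : G) v0, e8, map_zero]
        rw [Finset.sum_congr rfl fun y _ => e5 y, Finset.sum_const, Finset.card_univ,
          nsmul_eq_mul, mul_one]
        congr 1
        have e6 : ρ (g : G)⁻¹ v = d⁻¹ • v := by
          have e7 := hd (ρ (g : G)⁻¹ v) (t2b_mem ρ ((stb ρ U).inv_mem (h.hN g.2)) (h1 hv))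
          rw [t2b_inv] at e7
          exact ((inv_smul_eq_iff₀ hd0).2 e7).symm
        rw [e6, map_smul, map_smul, hd _ (h2 (hf v hv)), smul_smul, inv_mul_cancel₀ hd0, one_smul]
      · have e5 : ω g ≠ 1 := by
          intro e5
          apply hg
          rw [hmemS]
          apply h.nd g g.2
          intro y hy w hw
          have hgs : (g : G) ∈ stb ρ U := h.hN g.2
          have hys : y ∈ stb ρ U := h.hN hy
          have hw' : ρ ((g : G)⁻¹) (ρ y⁻¹ w) ∈ U :=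
            t2b_mem ρ ((stb ρ U).inv_mem hgs) (t2b_mem ρ ((stb ρ U).inv_mem hys) hw)
          have e6 : ρ y (ρ (g : G) (ρ ((g : G)⁻¹) (ρ y⁻¹ w))) =
              ω g ⟨y, hy⟩ • ρ (g : G) (ρ y (ρ ((g : G)⁻¹) (ρ y⁻¹ w))) := hω g ⟨y, hy⟩ _ hw'
          rw [e5, MonoidHom.one_apply, one_smul, t2b_inv, t2b_inv] at e6
          rw [commutatorElement_def, t2b_mul, t2b_mul, t2b_mul]
          exact e6.symm
        rw [sum_hom_units_eq_zero (ω g) e5, zero_smul]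
    rw [e2, Finset.sum_congr rfl fun g _ => e3 g, ← Finset.sum_filter, Finset.sum_const,
      ← Nat.cast_smul_eq_nsmul k, smul_smul, smul_smul]
    have e4 : (Finset.univ.filter fun g => g ∈ S).card = Nat.card S := by
      rw [Nat.card_eq_fintype_card, Fintype.card_subtype]
    rw [e4]
    have e5 : c * ((Nat.card S : k) * (Fintype.card N : k)) = 1 := by
      rw [mul_comm (Nat.card S : k)]
      exact inv_mul_cancel₀ hcard
    rw [mul_assoc c, e5, one_smul]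

/-- the action on an invariant subspace -/
private def t2b_res {X : Submodule k V} {g : G} (hg : g ∈ stb ρ X) : X →ₗ[k] X :=
  (ρ g).restrict (p := X) (q := X) fun _ hv => t2b_mem ρ hg hv

theorem c4 [IsAlgClosed k] [FiniteDimensional k V] {s : ℕ} [Fact s.Prime] (hs : (s : k) ≠ 0)
    {t : G} {b : ℕ} {U : Submodule k V} (hU : U ≠ ⊥) {N : Subgroup G} [Finite N]
    (hNs : IsPGroup s N) (h : Nd ρ t b U N) :
    ∃ X : Submodule k V, X ≤ U ∧ X ≠ ⊥ ∧ N ≤ stb ρ X ∧ t ∈ stb ρ X ∧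
      ∀ X' : Submodule k V, X' ≤ X → N ≤ stb ρ X' → X' = ⊥ ∨ X' = X := by
  classical
  have := Fintype.ofFinite N
  -- a minimal `N`-invariant subspace
  obtain ⟨X₁, ⟨hX1U, hX10, hX1N⟩, hmin⟩ := wellFounded_lt.has_min
    {X : Submodule k V | X ≤ U ∧ X ≠ ⊥ ∧ N ≤ stb ρ X} ⟨U, le_rfl, hU, h.hN⟩
  have hirr : ∀ X' : Submodule k V, X' ≤ X₁ → N ≤ stb ρ X' → X' = ⊥ ∨ X' = X₁ := by
    intro X' hX' hN'
    by_cases h0 : X' = ⊥
    · exact Or.inl h0
    · right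
      by_contra hne
      exact hmin X' ⟨hX'.trans hX1U, h0, hN'⟩ (lt_of_le_of_ne hX' hne)
  have htn : ∀ n ∈ N, t⁻¹ * n * t ∈ N := by
    intro n hn
    have h1 := (mem_normalizer_iff'.1 h.ht) (t⁻¹ * n)
    exact h1.2 (by rw [mul_inv_cancel_left]; exact hn)
  -- `X₂ = t X₁`
  have hX2U : tr ρ t X₁ ≤ U := by
    have h1 : tr ρ t U = U := h.htU
    calc tr ρ t X₁ ≤ tr ρ t U := Submodule.map_mono hX1U
      _ = U := h1
  have hX2N : N ≤ stb ρ (tr ρ t X₁) := by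
    apply t2b_stb
    intro n hn v hv
    rw [mem_tr] at hv ⊢
    have h1 := t2b_mem ρ (hX1N (htn n hn)) hv
    rw [← t2b_mul, mul_inv_cancel_right, t2b_mul] at h1
    exact h1
  obtain ⟨Φ, hΦ1, hΦ2, hΦ3⟩ := c4a ρ hs hNs h X₁ (tr ρ t X₁) hX1U hX2U hX1N hX2N (ρ t)
    (fun v hv => Submodule.mem_map_of_mem hv)
  obtain ⟨v1, hv1, hv10⟩ := X₁.ne_bot_iff.1 hX10
  have hex : ∃ y : N, Φ y v1 ≠ 0 := by
    by_contra hno
    push Not at hno
    have h1 := hΦ3 v1 hv1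
    rw [Finset.sum_eq_zero fun y _ => by rw [hno y, map_zero]] at h1
    apply hv10
    rw [← t2b_inv' ρ t v1, h1, map_zero]
  obtain ⟨y, hy⟩ := hex
  -- `ψ`
  have hψmem : ∀ v ∈ X₁, (ρ t⁻¹ * Φ y) v ∈ X₁ := by
    intro v hv
    exact (mem_tr ρ).1 (hΦ1 y v hv)
  let ψ : X₁ →ₗ[k] X₁ := (ρ t⁻¹ * Φ y).restrict hψmem
  have hψ : ∀ v : X₁, ((ψ v : X₁) : V) = ρ t⁻¹ (Φ y (v : V)) := fun v => rfl
  have hψN : ∀ n (hn : n ∈ N) (v : X₁), ψ (t2b_res ρ (hX1N hn) v) =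
      t2b_res ρ (hX1N (htn n hn)) (ψ v) := by
    intro n hn v
    apply Subtype.ext
    show ρ t⁻¹ (Φ y (ρ n (v : V))) = ρ (t⁻¹ * n * t) (ρ t⁻¹ (Φ y (v : V)))
    rw [hΦ2 y n hn v v.2, ← t2b_mul ρ (t⁻¹ * n * t) t⁻¹, mul_inv_cancel_right, t2b_mul]
  have hψinj : Function.Injective ψ := by
    rw [injective_iff_map_eq_zero]
    intro v hv
    have hker : N ≤ stb ρ (X₁ ⊓ LinearMap.ker (Φ y)) := by
      apply t2b_stb
      intro n hn w hw
      rw [Submodule.mem_inf, LinearMap.mem_ker] at hw ⊢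
      exact ⟨t2b_mem ρ (hX1N hn) hw.1, by rw [hΦ2 y n hn w hw.1, hw.2, map_zero]⟩
    rcases hirr _ inf_le_left hker with h1 | h1
    · have h2 : (v : V) ∈ X₁ ⊓ LinearMap.ker (Φ y) := by
        rw [Submodule.mem_inf, LinearMap.mem_ker]
        refine ⟨v.2, ?_⟩
        have h3 := congrArg (fun z : X₁ => (z : V)) hv
        have h4 : ρ t⁻¹ (Φ y (v : V)) = 0 := h3
        rw [← t2b_inv ρ t (Φ y (v : V)), h4, map_zero]
      rw [h1, Submodule.mem_bot] at h2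
      exact Subtype.ext h2
    · exfalso
      apply hy
      have h2 : v1 ∈ X₁ ⊓ LinearMap.ker (Φ y) := by rw [h1]; exact hv1
      exact (Submodule.mem_inf.1 h2).2
  have hψsur : Function.Surjective ψ := LinearMap.injective_iff_surjective.1 hψinj
  -- the space of `N`-homomorphisms
  let Hm : Submodule k (X₁ →ₗ[k] V) :=
    { carrier := {f | (∀ v, f v ∈ U) ∧ ∀ n (hn : n ∈ N) v, f (t2b_res ρ (hX1N hn) v) = ρ n (f v)}
      add_mem' := fun {a b} ha hb => ⟨fun v => U.add_mem (ha.1 v) (hb.1 v), fun n hn v => by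
        rw [LinearMap.add_apply, LinearMap.add_apply, map_add, ha.2 n hn, hb.2 n hn]⟩
      zero_mem' := ⟨fun v => U.zero_mem, fun n hn v => by
        rw [LinearMap.zero_apply, LinearMap.zero_apply, map_zero]⟩
      smul_mem' := fun c f hf => ⟨fun v => U.smul_mem c (hf.1 v), fun n hn v => by
        rw [LinearMap.smul_apply, LinearMap.smul_apply, map_smul, hf.2 n hn]⟩ }
  let Λ : (X₁ →ₗ[k] V) →ₗ[k] (X₁ →ₗ[k] V) :=
    { toFun := fun f => (ρ t) ∘ₗ f ∘ₗ ψ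
      map_add' := fun f g => by
        apply LinearMap.ext
        intro v
        show ρ t ((f + g) (ψ v)) = ρ t (f (ψ v)) + ρ t (g (ψ v))
        rw [LinearMap.add_apply, map_add]
      map_smul' := fun c f => by
        apply LinearMap.ext
        intro v
        show ρ t ((c • f) (ψ v)) = c • ρ t (f (ψ v))
        rw [LinearMap.smul_apply, map_smul] }
  have hΛ : ∀ f v, Λ f v = ρ t (f (ψ v)) := fun f v => rfl
  have hΛH : ∀ f ∈ Hm, Λ f ∈ Hm := by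
    intro f hf
    refine ⟨fun v => ?_, fun n hn v => ?_⟩
    · rw [hΛ]
      exact t2b_mem ρ h.htU (hf.1 _)
    · rw [hΛ, hΛ, hψN n hn v, hf.2 _ (htn n hn), ← t2b_mul ρ t, ← t2b_mul ρ n]
      congr 2
      group
  have hHne : Nontrivial Hm := by
    refine ⟨⟨⟨X₁.subtype, fun v => hX1U v.2, fun n hn v => rfl⟩, 0, ?_⟩⟩
    intro h0
    have h1 := congrArg (fun z : Hm => (z : X₁ →ₗ[k] V) ⟨v1, hv1⟩) h0
    exact hv10 h1
  obtain ⟨c, hc⟩ := Module.End.exists_eigenvalue (Λ.restrict hΛH)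
  obtain ⟨f, hf⟩ := hc.exists_hasEigenvector
  have hf1 : ∀ v, ρ t ((f : X₁ →ₗ[k] V) (ψ v)) = c • (f : X₁ →ₗ[k] V) v := by
    intro v
    have h1 := congrArg (fun z : Hm => (z : X₁ →ₗ[k] V) v) hf.apply_eq_smul
    exact h1
  have hf0 : (f : X₁ →ₗ[k] V) ≠ 0 := fun h0 => hf.2 (Subtype.ext h0)
  have hc0 : c ≠ 0 := by
    intro hc0
    apply hf0
    apply LinearMap.ext
    intro w
    obtain ⟨v, rfl⟩ := hψsur w
    have h1 := hf1 v
    rw [hc0, zero_smul] at h1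
    rw [LinearMap.zero_apply, ← t2b_inv' ρ t ((f : X₁ →ₗ[k] V) (ψ v)), h1, map_zero]
  have hfN := f.2
  refine ⟨LinearMap.range (f : X₁ →ₗ[k] V), ?_, ?_, ?_, ?_, ?_⟩
  · rintro _ ⟨v, rfl⟩
    exact hfN.1 v
  · intro h0
    exact hf0 (LinearMap.range_eq_bot.1 h0)
  · apply t2b_stb
    rintro n hn _ ⟨v, rfl⟩
    exact ⟨_, hfN.2 n hn v⟩
  · rw [mem_stb]
    apply le_antisymm
    · rintro _ ⟨_, ⟨w, rfl⟩, rfl⟩
      obtain ⟨v, rfl⟩ := hψsur w
      refine ⟨c • v, ?_⟩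
      rw [map_smul]
      exact (hf1 v).symm
    · rintro _ ⟨v, rfl⟩
      refine ⟨c⁻¹ • (f : X₁ →ₗ[k] V) (ψ v), Submodule.smul_mem _ _ ⟨_, rfl⟩, ?_⟩
      rw [map_smul, hf1, smul_smul, inv_mul_cancel₀ hc0, one_smul]
  · intro X' hX' hN'
    have hYN : N ≤ stb ρ ((X'.comap (f : X₁ →ₗ[k] V)).map X₁.subtype) := by
      apply t2b_stb
      rintro n hn _ ⟨v, hv, rfl⟩
      refine ⟨t2b_res ρ (hX1N hn) v, ?_, rfl⟩
      have hv' : (f : X₁ →ₗ[k] V) v ∈ X' := hv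
      show (f : X₁ →ₗ[k] V) (t2b_res ρ (hX1N hn) v) ∈ X'
      rw [hfN.2 n hn v]
      exact t2b_mem ρ (hN' hn) hv'
    have hYle : (X'.comap (f : X₁ →ₗ[k] V)).map X₁.subtype ≤ X₁ := by
      rintro _ ⟨v, _, rfl⟩
      exact v.2
    rcases hirr _ hYle hYN with h1 | h1
    · left
      rw [eq_bot_iff]
      intro x hx
      obtain ⟨v, rfl⟩ := hX' hx
      have h2 : (v : V) ∈ (X'.comap (f : X₁ →ₗ[k] V)).map X₁.subtype := ⟨v, hx, rfl⟩
      rw [h1, Submodule.mem_bot] at h2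
      have h3 : v = 0 := Subtype.ext h2
      rw [h3, map_zero]
      exact Submodule.zero_mem _
    · right
      apply le_antisymm hX'
      rintro _ ⟨v, rfl⟩
      have h2 : (v : V) ∈ (X'.comap (f : X₁ →ₗ[k] V)).map X₁.subtype := by
        rw [h1]
        exact v.2
      obtain ⟨w, hw, hwv⟩ := h2
      have h3 : w = v := Subtype.ext hwv
      rw [← h3]
      exact hw

end MP0d06d9R
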