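import Pool.Agent.Lib.MP_0d06d9_alR.T0

/-!
# T3: the count (step C5 of the T-lemma)

`X` of dimension `n ≥ 2` over the algebraically closed field `k`, `T ^ b = 1`, `b ≠ 0` in `k`,
`A` a basis of `End X` whose lines are permuted by the conjugation by `T` (`T A_i = c A_{σ i} T`),
the `σ`-orbits other than `{o}` are free for `ℤ / b`.

PROOFS.
* `c5_comm`: let `f` commute with `T`, `x = A.repr f`. `T f = Σ x_i T A_i = Σ x_i c_i A_{σ i} T` and
  `f T = Σ x_{σ i} A_{σ i} T`; `T` is invertible (`T ^ b = 1`, `b ≠ 0`), so `x_{σ i} = c_i x_i`. So if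
  `x r = 0` for one representative `r` of each `σ`-orbit (`Equiv.Perm.SameCycle.setoid σ`,
  `Quotient.out`) then `f = 0` (`c_i ≠ 0` is not needed: `x_{σ i} = c_i x_i`, and `σ` has finite
  order so every element of the orbit is `(σ ^ j) r`, `j : ℕ`). So `finrank (Cm T) ≤` number of orbits.
  The number `q` of orbits satisfies `b * (q - 1) ≤ card ι - 1`: the map `(orbit ≠ [o], j) ↦
  (σ ^ j) (out)` from `{q // q ≠ ⟦o⟧} × Fin b` to `{i // i ≠ o}` is injective (`hfree`; `σ o = o`).
* `c5_diag`: `T` is annihilated by `X ^ b - 1`, which is separable as `b ≠ 0` in `k`, so `T` is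
  semisimple (`Module.End.isSemisimple_of_squarefree_aeval_eq_zero`), the eigenspaces generate
  (`Module.End.iSup_maxGenEigenspace_eq_top`,
  `Module.End.IsFinitelySemisimple.maxGenEigenspace_eq_eigenspace`); `collectedBasis` and a
  reindexing to `Fin n`. `l i ^ b = 1` because `T ^ b = 1` and `e i ≠ 0`.
* `c5_sq`: the maps `E i j : e j' ↦ if j' = j then e i else 0` with `l i = l j` commute with `T` and
  are linearly independent (part of the basis of the matrix units, `Matrix.stdBasis`, `LinearMap.toMatrix`);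
  their number is `Σ_μ (number of i with l i = μ) ^ 2`.
* `c5_num`: `Σ m ^ 2 ≥ Σ m = n`, so `b (n - 1) ≤ n ^ 2 - 1`, `b ≤ n + 1`. If `m μ₀ = 0`, Cauchy-Schwarz
  (`sq_sum_le_card_mul_sum_sq`) on `R.erase μ₀`: `n ^ 2 ≤ (b - 1) Σ m ^ 2`, so
  `b n ^ 2 ≤ (b - 1) (b + n ^ 2 - 1)`, `n ^ 2 ≤ (b - 1) ^ 2`, `n + 1 ≤ b`. So `b = n + 1` and
  `Σ m ^ 2 ≤ n = Σ m`, all `m μ ≤ 1`, and `Σ_{μ ≠ μ₀} m μ = n` = the number of these `μ`: all are `1`.
* `c5`: combine; `R = Polynomial.nthRootsFinset b 1` has `b` elements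
  (`IsPrimitiveRoot.card_nthRootsFinset`, a primitive root exists: `HasEnoughRootsOfUnity`);
  `m μ > 0` gives an eigenvector `e i`.
-/

set_option autoImplicit false

namespace MP0d06d9R

open Module

variable {k X : Type*} [Field k] [AddCommGroup X] [Module k X]

/-- the endomorphisms commuting with `T` -/
def Cm (T : Module.End k X) : Submodule k (Module.End k X) where
  carrier := {f | T * f = f * T}
  add_mem' := fun {a b} ha hb => by
    show T * (a + b) = (a + b) * T
    rw [mul_add, add_mul, ha, hb]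
  zero_mem' := by
    show T * 0 = 0 * T
    rw [mul_zero, zero_mul]
  smul_mem' := fun c f hf => by
    show T * (c • f) = (c • f) * T
    rw [mul_smul_comm, smul_mul_assoc, hf]

/-- the values of a permutation relation along an orbit -/
theorem c5_orb {ι : Type*} [Finite ι] (σ : Equiv.Perm ι) (x : ι → k)
    (h : ∀ i, x i = 0 → x (σ i) = 0) {r i : ι} (hr : x r = 0) (hi : σ.SameCycle r i) :
    x i = 0 := by
  obtain ⟨j, -, hj⟩ := hi.exists_pow_eq'
  rw [← hj]
  clear hj hi
  induction j with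
  | zero =>
    rw [pow_zero]
    exact hr
  | succ j ih =>
    rw [pow_succ', Equiv.Perm.mul_apply]
    exact h _ ih

/-- the number of the orbits -/
theorem c5_card {ι : Type*} [Fintype ι] (b : ℕ) (σ : Equiv.Perm ι) (o : ι)
    (hfree : ∀ i, i ≠ o → ∀ j : ℕ, ¬ b ∣ j → (σ ^ j) i ≠ i) :
    b * Nat.card (Quotient (Equiv.Perm.SameCycle.setoid σ)) + 1 ≤ Fintype.card ι + b := by
  classical
  have hfin : Finite (Quotient (Equiv.Perm.SameCycle.setoid σ)) := Quotient.finite _
  have := Fintype.ofFinite (Quotient (Equiv.Perm.SameCycle.setoid σ))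
  rw [Nat.card_eq_fintype_card]
  obtain ⟨Q, hQ⟩ : ∃ Q : Finset (Quotient (Equiv.Perm.SameCycle.setoid σ)),
      Q = Finset.univ.erase (Quotient.mk _ o) := ⟨_, rfl⟩
  have hsame : ∀ (q : Quotient (Equiv.Perm.SameCycle.setoid σ)) (j : ℕ),
      Quotient.mk (Equiv.Perm.SameCycle.setoid σ) ((σ ^ j) q.out) = q := by
    intro q j
    conv_rhs => rw [← Quotient.out_eq q]
    refine Quotient.sound ?_
    show σ.SameCycle ((σ ^ j) q.out) q.out
    refine Equiv.Perm.SameCycle.symm ⟨(j : ℤ), ?_⟩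
    rw [zpow_natCast]
  have h1 : (Q ×ˢ Finset.range b).card ≤ (Finset.univ.erase o).card := by
    refine Finset.card_le_card_of_injOn (fun p => (σ ^ p.2) p.1.out) ?_ ?_
    · intro p hp
      rw [Finset.mem_coe, Finset.mem_product, hQ] at hp
      rw [Finset.mem_coe, Finset.mem_erase]
      refine ⟨fun h => ?_, Finset.mem_univ _⟩
      have h2 := hsame p.1 p.2
      rw [show (σ ^ p.2) p.1.out = o from h] at h2
      exact (Finset.mem_erase.1 hp.1).1 h2.symm
    · rintro ⟨q, j⟩ hp ⟨q', j'⟩ hp' h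
      rw [Finset.mem_coe, Finset.mem_product] at hp hp'
      have h' : (σ ^ j) q.out = (σ ^ j') q'.out := h
      have hq : q = q' := by
        rw [← hsame q j, h', hsame q' j']
      subst hq
      have hqo : q.out ≠ o := by
        intro h2
        have h3 := hsame q 0
        rw [pow_zero, Equiv.Perm.one_apply, h2] at h3
        have h4 := hp.1
        rw [hQ] at h4
        exact (Finset.mem_erase.1 h4).1 h3.symm
      have key : ∀ a c : ℕ, a ≤ c → c < b → (σ ^ a) q.out = (σ ^ c) q.out → a = c := by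
        intro a c hac hcb hh
        have h5 : (σ ^ (c - a)) q.out = q.out := by
          have h6 : (σ ^ a) ((σ ^ (c - a)) q.out) = (σ ^ a) q.out := by
            rw [← Equiv.Perm.mul_apply, ← pow_add, Nat.add_sub_cancel' hac]
            exact hh.symm
          exact (σ ^ a).injective h6
        by_contra hne
        refine hfree _ hqo (c - a) ?_ h5
        intro hd
        have h7 := Nat.le_of_dvd (by omega) hd
        omega
      have hj : j < b := Finset.mem_range.1 hp.2
      have hj' : j' < b := Finset.mem_range.1 hp'.2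
      have hjj : j = j' := by
        rcases le_total j j' with h8 | h8
        · exact key j j' h8 hj' h'
        · exact (key j' j h8 hj h'.symm).symm
      rw [hjj]
  rw [Finset.card_product, Finset.card_range, hQ, Finset.card_erase_of_mem (Finset.mem_univ _),
    Finset.card_erase_of_mem (Finset.mem_univ _), Finset.card_univ, Finset.card_univ] at h1
  have h2 : 0 < Fintype.card (Quotient (Equiv.Perm.SameCycle.setoid σ)) :=
    Fintype.card_pos_iff.2 ⟨Quotient.mk _ o⟩
  have h3 : 0 < Fintype.card ι := Fintype.card_pos_iff.2 ⟨o⟩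
  obtain ⟨c, hc⟩ : ∃ c, Fintype.card (Quotient (Equiv.Perm.SameCycle.setoid σ)) = c + 1 :=
    ⟨_, (Nat.succ_pred_eq_of_pos h2).symm⟩
  rw [hc] at h1 ⊢
  rw [Nat.add_sub_cancel] at h1
  have h4 : b * (c + 1) = c * b + b := by ring
  omega

theorem c5_comm [FiniteDimensional k X] (b : ℕ) (hb : b ≠ 0) (T : Module.End k X) (hT : T ^ b = 1)
    {ι : Type*} [Fintype ι] (A : Basis ι k (Module.End k X)) (σ : Equiv.Perm ι) (o : ι)
    (ho : σ o = o) (hTA : ∀ i, ∃ c : k, T * A i = c • (A (σ i) * T))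
    (hfree : ∀ i, i ≠ o → ∀ j : ℕ, ¬ b ∣ j → (σ ^ j) i ≠ i) :
    b * finrank k (Cm T) + 1 ≤ Fintype.card ι + b := by
  classical
  have hfin : Finite (Quotient (Equiv.Perm.SameCycle.setoid σ)) := Quotient.finite _
  have := Fintype.ofFinite (Quotient (Equiv.Perm.SameCycle.setoid σ))
  choose c hc using hTA
  have hTb : T * T ^ (b - 1) = 1 := by
    rw [← pow_succ', Nat.sub_add_cancel (Nat.one_le_iff_ne_zero.2 hb), hT]
  have key : ∀ f ∈ Cm T, ∀ i, A.repr f (σ i) = c i * A.repr f i := by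
    intro f hf i
    have hf' : T * f = f * T := hf
    have h1 : T * f = (∑ i, (A.repr f i * c i) • A (σ i)) * T := by
      conv_lhs => rw [← A.sum_repr f]
      rw [Finset.mul_sum, Finset.sum_mul]
      refine Finset.sum_congr rfl fun i _ => ?_
      rw [mul_smul_comm, hc i, smul_smul, smul_mul_assoc]
    have h2 : f = ∑ i, (A.repr f i * c i) • A (σ i) := by
      have h3 : f * T = (∑ i, (A.repr f i * c i) • A (σ i)) * T := hf' ▸ h1
      have h4 := congrArg (fun g => g * T ^ (b - 1)) h3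
      simp only [mul_assoc, hTb, mul_one] at h4
      exact h4
    have h5 : ∑ i, (A.repr f i * c i) • A (σ i) =
        ∑ i, (A.repr f (σ.symm i) * c (σ.symm i)) • A i := by
      rw [← Equiv.sum_comp σ (fun i => (A.repr f (σ.symm i) * c (σ.symm i)) • A i)]
      refine Finset.sum_congr rfl fun i _ => ?_
      rw [Equiv.symm_apply_apply]
    rw [h5] at h2
    have h6 := congrArg (fun g => A.repr g (σ i)) h2
    simp only [A.repr_sum_self, Equiv.symm_apply_apply] at h6
    rw [h6, mul_comm]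
  obtain ⟨Φ, hΦ⟩ : ∃ Φ : Cm T →ₗ[k] (Quotient (Equiv.Perm.SameCycle.setoid σ) → k),
      ∀ f q, Φ f q = A.repr (f : Module.End k X) (q.out) :=
    ⟨{ toFun := fun f q => A.repr (f : Module.End k X) (q.out)
       map_add' := fun f g => by
        funext q
        rw [Submodule.coe_add, map_add]
        rfl
       map_smul' := fun a f => by
        funext q
        rw [Submodule.coe_smul, map_smul]
        rfl }, fun _ _ => rfl⟩
  have hinj : Function.Injective Φ := by
    rw [injective_iff_map_eq_zero]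
    intro f hf
    have h1 : ∀ i, A.repr (f : Module.End k X) i = 0 := by
      intro i
      have h2 : A.repr (f : Module.End k X)
          (Quotient.mk (Equiv.Perm.SameCycle.setoid σ) i).out = 0 := by
        rw [← hΦ, hf]
        rfl
      refine c5_orb σ (fun i => A.repr (f : Module.End k X) i) (fun j hj => ?_) h2
        (Quotient.mk_out (s := Equiv.Perm.SameCycle.setoid σ) i)
      show A.repr (f : Module.End k X) (σ j) = 0
      rw [key _ f.2 j, show A.repr (f : Module.End k X) j = 0 from hj, mul_zero]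
    have h3 : (f : Module.End k X) = 0 := by
      rw [← A.sum_repr (f : Module.End k X)]
      exact Finset.sum_eq_zero fun i _ => by rw [h1 i, zero_smul]
    exact Subtype.ext h3
  have h4 := LinearMap.finrank_le_finrank_of_injective hinj
  rw [Module.finrank_fintype_fun_eq_card] at h4
  have h5 := c5_card b σ o hfree
  rw [Nat.card_eq_fintype_card] at h5
  have h6 := Nat.mul_le_mul_left b h4
  omega

theorem c5_diag [IsAlgClosed k] [FiniteDimensional k X] (b : ℕ) (hb : (b : k) ≠ 0)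
    (T : Module.End k X) (hT : T ^ b = 1) :
    ∃ (e : Basis (Fin (finrank k X)) k X) (l : Fin (finrank k X) → k),
      ∀ i, T (e i) = l i • e i ∧ l i ^ b = 1 := by
  classical
  have hss : T.IsSemisimple := by
    refine Module.End.isSemisimple_of_squarefree_aeval_eq_zero
      (p := Polynomial.X ^ b - Polynomial.C 1)
      (Polynomial.separable_X_pow_sub_C (1 : k) hb one_ne_zero).squarefree ?_
    rw [map_sub, map_pow, Polynomial.aeval_X, hT, Polynomial.C_1, map_one, sub_self]
  have htop : (⨆ μ : k, T.eigenspace μ) = ⊤ :=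
    hss.iSup_maxGenEigenspace_eq_top_iff.1 (Module.End.iSup_maxGenEigenspace_eq_top T)
  obtain ⟨s, hs⟩ : ∃ s : Set X, s = {x | ∃ μ : k, T x = μ • x} := ⟨_, rfl⟩
  have hspan : ⊤ ≤ Submodule.span k s := by
    rw [← htop]
    refine iSup_le fun μ x hx => Submodule.subset_span ?_
    rw [hs]
    exact ⟨μ, Module.End.mem_eigenspace_iff.1 hx⟩
  have hs' : ∀ x ∈ s, ∃ μ : k, T x = μ • x := by
    intro x hx
    rw [hs] at hx
    exact hx
  have he0 : ∀ i, (Basis.ofSpan hspan) i ∈ s := fun i => Basis.ofSpan_subset hspan ⟨i, rfl⟩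
  obtain ⟨φ⟩ : Nonempty (((linearIndepOn_empty k id).extend (Set.empty_subset s)) ≃
      Fin (finrank k X)) := ⟨(Basis.ofSpan hspan).indexEquiv (finBasis k X)⟩
  obtain ⟨e, he⟩ : ∃ e : Basis (Fin (finrank k X)) k X, e = (Basis.ofSpan hspan).reindex φ :=
    ⟨_, rfl⟩
  have he1 : ∀ i, ∃ μ : k, T (e i) = μ • e i := by
    intro i
    rw [he, Basis.reindex_apply]
    exact hs' _ (he0 (φ.symm i))
  choose l hl using he1
  refine ⟨e, l, fun i => ⟨hl i, ?_⟩⟩
  have h2 : ∀ j : ℕ, (T ^ j) (e i) = l i ^ j • e i := by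
    intro j
    induction j with
    | zero => rw [pow_zero, pow_zero, one_smul, Module.End.one_apply]
    | succ j ih =>
      rw [pow_succ, Module.End.mul_apply, hl i, map_smul, ih, smul_smul, pow_succ, mul_comm]
  have h3 := h2 b
  rw [hT, Module.End.one_apply] at h3
  have h4 : (l i ^ b - 1) • e i = 0 := by
    rw [sub_smul, ← h3, one_smul, sub_self]
  rcases smul_eq_zero.1 h4 with h5 | h5
  · exact sub_eq_zero.1 h5
  · exact absurd h5 (e.ne_zero i)

theorem c5_sq [DecidableEq k] [FiniteDimensional k X] (T : Module.End k X) (R : Finset k)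
    {n : ℕ} (e : Basis (Fin n) k X) (l : Fin n → k)
    (h : ∀ i, T (e i) = l i • e i) :
    ∑ μ ∈ R, (Finset.univ.filter fun i => l i = μ).card ^ 2 ≤ finrank k (Cm T) := by
  obtain ⟨S, hS⟩ : ∃ S : Finset (Fin n × Fin n),
      S = Finset.univ.filter fun p => l p.1 = l p.2 ∧ l p.1 ∈ R := ⟨_, rfl⟩
  have hcard : ∑ μ ∈ R, (Finset.univ.filter fun i => l i = μ).card ^ 2 = S.card := by
    rw [Finset.card_eq_sum_card_fiberwise (f := fun p : Fin n × Fin n => l p.1) (t := R)]
    · refine Finset.sum_congr rfl fun μ hμ => ?_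
      rw [sq, ← Finset.card_product]
      congr 1
      ext p
      rw [hS, Finset.mem_product, Finset.mem_filter, Finset.mem_filter, Finset.mem_filter,
        Finset.mem_filter]
      constructor
      · rintro ⟨⟨-, h1⟩, -, h2⟩
        exact ⟨⟨Finset.mem_univ _, h1.trans h2.symm, h1.symm ▸ hμ⟩, h1⟩
      · rintro ⟨⟨-, h1, -⟩, h2⟩
        have h2' : l p.1 = μ := h2
        exact ⟨⟨Finset.mem_univ _, h2'⟩, Finset.mem_univ _, h1.symm.trans h2'⟩
    · intro p hp
      rw [hS, Finset.mem_coe, Finset.mem_filter] at hp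
      exact hp.2.2
  rw [hcard]
  have hmem : ∀ p : S, e.end (p : Fin n × Fin n) ∈ Cm T := by
    rintro ⟨p, hp⟩
    show T * e.end p = e.end p * T
    rw [hS, Finset.mem_filter] at hp
    refine e.ext fun j => ?_
    rw [Module.End.mul_apply, Module.End.mul_apply, h j, map_smul, Basis.end_apply_apply]
    split_ifs with h1
    · rw [h, hp.2.1, h1]
    · rw [map_zero, smul_zero]
  have hli : LinearIndependent k fun p : S => (⟨e.end (p : Fin n × Fin n), hmem p⟩ : Cm T) := by
    refine LinearIndependent.of_comp (Cm T).subtype ?_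
    exact e.end.linearIndependent.comp (fun p : S => (p : Fin n × Fin n))
      Subtype.val_injective
  have h2 := hli.fintype_card_le_finrank
  rwa [Fintype.card_coe] at h2

theorem c5_num {K : Type*} [DecidableEq K] (R : Finset K) (m : K → ℕ) (n b : ℕ) (hn : 2 ≤ n)
    (hR : R.card = b) (h1 : ∑ μ ∈ R, m μ = n) (h2 : b * (∑ μ ∈ R, m μ ^ 2) + 1 ≤ n ^ 2 + b) :
    (∀ μ ∈ R, 0 < m μ) ∨ (b = n + 1 ∧ ∃ μ₀ ∈ R, ∀ μ ∈ R, μ ≠ μ₀ → 0 < m μ) := by
  by_cases hall : ∀ μ ∈ R, 0 < m μ
  · exact Or.inl hall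
  push Not at hall
  obtain ⟨μ₀, hμ₀, hm0⟩ := hall
  have hm : m μ₀ = 0 := by omega
  right
  obtain ⟨q, hq⟩ : ∃ q, q = ∑ μ ∈ R, m μ ^ 2 := ⟨_, rfl⟩
  rw [← hq] at h2
  have hqn : n ≤ q := by
    rw [hq, ← h1]
    exact Finset.sum_le_sum fun μ _ => Nat.le_self_pow two_ne_zero _
  have hbn : b ≤ n + 1 := by
    by_contra hcon
    have h3 : b * n ≤ b * q := Nat.mul_le_mul_left b hqn
    obtain ⟨c, hc⟩ : ∃ c, b = n + 2 + c := ⟨b - (n + 2), by omega⟩
    subst hc
    nlinarith
  have herase : ∑ μ ∈ R.erase μ₀, m μ = n := by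
    rw [← h1, ← Finset.sum_erase_add _ _ hμ₀, hm, add_zero]
  have herase2 : ∑ μ ∈ R.erase μ₀, m μ ^ 2 = q := by
    rw [hq, ← Finset.sum_erase_add R _ hμ₀, hm]
    rfl
  have hcs := sq_sum_le_card_mul_sum_sq (s := R.erase μ₀) (f := m)
  rw [herase, herase2, Finset.card_erase_of_mem hμ₀, hR] at hcs
  have hb0 : 0 < b := by
    rw [← hR]
    exact Finset.card_pos.2 ⟨μ₀, hμ₀⟩
  obtain ⟨c, hc⟩ : ∃ c, b = c + 1 := ⟨b - 1, by omega⟩
  subst hc
  rw [Nat.add_sub_cancel] at hcs
  have hbn2 : n ≤ c := by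
    have h4 : (c + 1) * n ^ 2 ≤ c * (n ^ 2 + c) := by
      calc (c + 1) * n ^ 2 ≤ (c + 1) * (c * q) := Nat.mul_le_mul_left _ hcs
        _ = c * ((c + 1) * q) := by ring
        _ ≤ c * (n ^ 2 + c) := Nat.mul_le_mul_left _ (by omega)
    have h5 : n ^ 2 ≤ c ^ 2 := by nlinarith
    exact (Nat.pow_le_pow_iff_left two_ne_zero).1 h5
  have hcn : c = n := by omega
  subst hcn
  have hq2 : q = c := by
    have h6 : (c + 1) * q ≤ (c + 1) * c := by nlinarith
    exact le_antisymm (Nat.le_of_mul_le_mul_left h6 (Nat.succ_pos c)) hqn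
  refine ⟨rfl, μ₀, hμ₀, ?_⟩
  have h7 : ∀ μ ∈ R.erase μ₀, m μ = m μ ^ 2 := by
    rw [← Finset.sum_eq_sum_iff_of_le (fun μ _ => Nat.le_self_pow two_ne_zero (m μ)),
      herase, herase2, hq2]
  have h8 : ∀ μ ∈ R.erase μ₀, m μ ≤ 1 := by
    intro μ hμ
    have := h7 μ hμ
    by_contra hcon
    push Not at hcon
    nlinarith
  have h9 : ∀ μ ∈ R.erase μ₀, m μ = 1 := by
    rw [← Finset.sum_eq_sum_iff_of_le h8, herase, Finset.sum_const,
      Finset.card_erase_of_mem hμ₀, hR, smul_eq_mul, mul_one, Nat.add_sub_cancel]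
  intro μ hμ hne
  rw [h9 μ (Finset.mem_erase.2 ⟨hne, hμ⟩)]
  exact Nat.one_pos

/-- the count: at most one root of unity is not an eigenvalue -/
theorem c5 [IsAlgClosed k] [FiniteDimensional k X] (b : ℕ) (hb : (b : k) ≠ 0)
    (T : Module.End k X) (hT : T ^ b = 1) {ι : Type*} [Fintype ι]
    (A : Basis ι k (Module.End k X)) (σ : Equiv.Perm ι) (o : ι) (ho : σ o = o)
    (hTA : ∀ i, ∃ c : k, T * A i = c • (A (σ i) * T))
    (hfree : ∀ i, i ≠ o → ∀ j : ℕ, ¬ b ∣ j → (σ ^ j) i ≠ i) (h2 : 2 ≤ finrank k X) :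
    (∀ l : k, l ^ b = 1 → T.HasEigenvalue l) ∨
      (b = finrank k X + 1 ∧ ∃ μ : k, ∀ l : k, l ^ b = 1 → l ≠ μ → T.HasEigenvalue l) := by
  classical
  have hb0 : b ≠ 0 := by
    rintro rfl
    exact hb Nat.cast_zero
  have hbN : NeZero (b : k) := ⟨hb⟩
  obtain ⟨ζ, hζ⟩ := HasEnoughRootsOfUnity.exists_primitiveRoot k b
  obtain ⟨e, l, hl⟩ := c5_diag b hb T hT
  obtain ⟨R, hR⟩ : ∃ R : Finset k, R = Polynomial.nthRootsFinset b 1 := ⟨_, rfl⟩
  have hRc : R.card = b := by
    rw [hR]
    exact hζ.card_nthRootsFinset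
  have hRm : ∀ x : k, x ^ b = 1 → x ∈ R := by
    intro x hx
    rw [hR]
    exact (Polynomial.mem_nthRootsFinset (Nat.pos_of_ne_zero hb0) 1).2 hx
  have h3 := c5_comm b hb0 T hT A σ o ho hTA hfree
  have h4 := c5_sq T R e l fun i => (hl i).1
  have h5 : Fintype.card ι = finrank k X ^ 2 := by
    rw [← Module.finrank_eq_card_basis A, Module.finrank_linearMap, sq]
  have h6 : ∑ μ ∈ R, (Finset.univ.filter fun i => l i = μ).card = finrank k X := by
    rw [← Finset.card_eq_sum_card_fiberwise (fun i _ => hRm _ (hl i).2), Finset.card_univ,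
      Fintype.card_fin]
  rw [h5] at h3
  have h7 : b * (∑ μ ∈ R, (Finset.univ.filter fun i => l i = μ).card ^ 2) + 1 ≤
      finrank k X ^ 2 + b := by
    have := Nat.mul_le_mul_left b h4
    omega
  have hev : ∀ μ, 0 < (Finset.univ.filter fun i => l i = μ).card → T.HasEigenvalue μ := by
    intro μ hμ
    obtain ⟨i, hi⟩ := Finset.card_pos.1 hμ
    rw [Finset.mem_filter] at hi
    refine Module.End.hasEigenvalue_of_hasEigenvector (x := e i) ⟨?_, e.ne_zero i⟩
    rw [Module.End.mem_eigenspace_iff, (hl i).1, hi.2]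
  rcases c5_num R (fun μ => (Finset.univ.filter fun i => l i = μ).card) (finrank k X) b h2 hRc
    h6 h7 with h8 | ⟨h8, μ₀, -, h9⟩
  · exact Or.inl fun x hx => hev x (h8 x (hRm x hx))
  · exact Or.inr ⟨h8, μ₀, fun x hx hne => hev x (h9 x (hRm x hx) hne)⟩

end MP0d06d9R
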