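import Pool.Agent.Lib.MP_0d06d9_alR.T1
import Pool.Agent.Lib.MP_0d06d9_alR.T2
import Pool.Agent.Lib.MP_0d06d9_alR.T3

/-!
# T4: the basis of `End X`, and the T-lemma

PROOFS. (`h : Nd ρ t b X N`, `X` irreducible for `N`; `resS ρ X` = the representation of the stabiliser of `X` on `X`.)
* `c4e`: let `χ_i : N →* k`, `χ_i g` = the scalar of `⁅g, h i⁆` on `X` (a homomorphism since the commutators are scalars). They are
  pairwise different: if `χ_i = χ_j` then `⁅g, (h i)⁻¹ * h j⁆` is trivial on `X` for all `g ∈ N`, so (inverse, `Nd.nd`) `(h i)⁻¹ * h j`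
  is a scalar. If `Σ a_i ρ (h i) = 0` on `X`, conjugate by `g`: `Σ a_i χ_i(g) ρ (h i) v = 0` for all `g ∈ N`, `v ∈ X`. Apply a linear
  form and `linearIndependent_monoidHom`: `a_i ρ (h i) v = 0` for all `v`, so `a_i = 0` (`X ≠ ⊥`).
* `c4f`: extend `f` to `V` (a complement, `Submodule.exists_isCompl`, or `LinearMap.exists_extend`); `c4a` with `U = X₁ = X₂ = X`: `f v = Σ_y ρ y (Φ y v)`; `Φ y` restricted to `X`
  commutes with `N`, has an eigenvalue, the eigenspace is `N`-invariant and nonzero so it is `X`: `Φ y` is a scalar on `X`.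
* `c4g`: `ι = N ⧸ (Zs ρ X N).subgroupOf N` (`Zs ρ X N` = the elements of `N` which are scalars on `X`, the closure of a set which is already a subgroup),
  `h i = i.out`, `A i = resS ρ X (h i)`: `c4e`, `c4f` (every `ρ y`, `y ∈ N`, is a scalar times `ρ (h ⟦y⟧)`). `σ` = induced by the
  conjugation by `t` (`QuotientGroup.congr` or directly), `o = 1`. `ρ t ρ (h i) = ρ (t (h i) t⁻¹) ρ t` and `t (h i) t⁻¹` is a scalar times `h (σ i)`.
  `σ ^ j i = i` means `(t^j (h i) t⁻ʲ)⁻¹ (h i)` scalar, so `⁅h i, t^j⁆` scalar, `Nd.fr`: `h i` scalar, `i = o`. `2 ≤ card`: `Nd.ne`. `card ι = s ^ m`: quotient of an `s`-group.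
* `c4d`: `c4g`, `n = finrank k X`, `n ^ 2 = finrank (End X) = card ι = s ^ m`, so `n = s ^ m'`, `1 ≤ m'`, `2 ≤ n`; `c5`; `HasEigenvalue` of `resS ρ X t` gives `Ev ρ t X`.
* `tl`: strong induction on `b`. `b = 0` is excluded, `b = 1`: `t = t ^ 1` is trivial on `U ≠ ⊥` so `1` is an eigenvalue. `1 < b`: `exists_ir` gives `U' ≤ U`, enough to prove `Cl` for `U'` (`Cl.mono`).
  If there is `W₀ ≤ U'`, `W₀ ≠ ⊥`, `sSupIndep (Bl ρ P t W₀)`, `W₀ ≠ U'`: `c1`. Otherwise `c2` holds for all `A`, `c3` gives `N`, `c4` gives `X`, `Nd.sub`, `c4d` for `X`, `Cl` with `c = 1`.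
-/

set_option autoImplicit false

namespace MP0d06d9R

open Subgroup commutatorElement Module

universe u

variable {G : Type u} {k V : Type*} [Group G] [Field k] [AddCommGroup V] [Module k V]
  (ρ : Representation k G V)

theorem ap_mem {X : Submodule k V} {g : G} (hg : g ∈ stb ρ X) {v : V} (hv : v ∈ X) :
    ρ g v ∈ X := by
  have h1 : tr ρ g X = X := hg
  have h2 : ρ g v ∈ tr ρ g X := Submodule.mem_map_of_mem hv
  rw [h1] at h2
  exact h2

/-- the representation of the stabiliser of `X` on `X` -/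
def resS (X : Submodule k V) : Representation k (stb ρ X) X where
  toFun g := (ρ (g : G)).restrict (p := X) (q := X) fun _ hv => ap_mem ρ g.2 hv
  map_one' := by
    apply LinearMap.ext
    intro v
    apply Subtype.ext
    show ρ ((1 : stb ρ X) : G) (v : V) = v
    rw [OneMemClass.coe_one, map_one, Module.End.one_apply]
  map_mul' g h := by
    apply LinearMap.ext
    intro v
    apply Subtype.ext
    show ρ ((g * h : stb ρ X) : G) (v : V) = ρ (g : G) (ρ (h : G) v)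
    rw [MulMemClass.coe_mul, map_mul, Module.End.mul_apply]

theorem resS_apply (X : Submodule k V) (g : stb ρ X) (v : X) :
    ((resS ρ X g v : X) : V) = ρ (g : G) (v : V) := rfl

theorem Cl.mono {s b : ℕ} {E E' : k → Prop} (h : Cl s b E) (hE : ∀ l, E l → E' l) :
    Cl s b E' := by
  rcases h with h | ⟨c, m, μ, h1, h2, h3⟩
  · exact Or.inl fun l hl => hE l (h l hl)
  · exact Or.inr ⟨c, m, μ, h1, h2, fun l hl hm => hE l (h3 l hl hm)⟩

private theorem t4_mul (a b : G) (v : V) : ρ (a * b) v = ρ a (ρ b v) := by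
  rw [map_mul, Module.End.mul_apply]

private theorem t4_inv (a : G) (v : V) : ρ a (ρ a⁻¹ v) = v := by
  rw [← t4_mul, mul_inv_cancel, map_one, Module.End.one_apply]

private theorem t4_inv' (a : G) (v : V) : ρ a⁻¹ (ρ a v) = v := by
  rw [← t4_mul, inv_mul_cancel, map_one, Module.End.one_apply]

/-- the form on `N` -/
private theorem t4_omega {t : G} {b : ℕ} {X : Submodule k V} {N : Subgroup G}
    (h : Nd ρ t b X N) : ∃ ω : N → N → k, ∀ g y : N, ∀ v ∈ X,
      ρ (g : G) (ρ (y : G) v) = ω g y • ρ (y : G) (ρ (g : G) v) := by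
  have h1 : ∀ g y : N, ∃ c : k, ∀ v ∈ X, ρ ⁅(g : G), (y : G)⁆ v = c • v :=
    fun g y => h.com g g.2 y y.2
  choose ω hω using h1
  refine ⟨ω, fun g y v hv => ?_⟩
  have hg : (g : G) ∈ stb ρ X := h.hN g.2
  have hy : (y : G) ∈ stb ρ X := h.hN y.2
  have h2 : ρ (y : G) (ρ (g : G) v) ∈ X := ap_mem ρ hy (ap_mem ρ hg hv)
  rw [← hω g y _ h2, ← t4_mul, ← t4_mul, ← t4_mul]
  congr 2
  rw [commutatorElement_def]
  group

private theorem t4_omega_mul {t : G} {b : ℕ} {X : Submodule k V} (h0 : X ≠ ⊥) {N : Subgroup G}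
    (h : Nd ρ t b X N) (ω : N → N → k) (hω : ∀ g y : N, ∀ v ∈ X,
      ρ (g : G) (ρ (y : G) v) = ω g y • ρ (y : G) (ρ (g : G) v)) (y : N) :
    ω 1 y = 1 ∧ ∀ g g', ω (g * g') y = ω g y * ω g' y := by
  obtain ⟨v, hv, hv0⟩ := X.ne_bot_iff.1 h0
  have hy : (y : G) ∈ stb ρ X := h.hN y.2
  have key : ∀ g : N, ρ (y : G) (ρ (g : G) v) ≠ 0 := by
    intro g hz
    apply hv0
    have h1 : ρ (g : G)⁻¹ (ρ (y : G)⁻¹ (ρ (y : G) (ρ (g : G) v))) = v := by
      rw [t4_inv', t4_inv']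
    rw [hz, map_zero, map_zero] at h1
    exact h1.symm
  constructor
  · have h1 := hω 1 y v hv
    have h2 : ρ ((1 : N) : G) = 1 := by rw [OneMemClass.coe_one, map_one]
    have h3 := key 1
    rw [h2, Module.End.one_apply, Module.End.one_apply] at h1
    rw [h2, Module.End.one_apply] at h3
    have h4 : (1 - ω 1 y) • ρ (y : G) v = 0 := by
      rw [sub_smul, one_smul, ← h1, sub_self]
    rcases smul_eq_zero.1 h4 with h5 | h5
    · exact (sub_eq_zero.1 h5).symm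
    · exact absurd h5 h3
  · intro g g'
    have h1 := hω (g * g') y v hv
    have hg' : (g' : G) ∈ stb ρ X := h.hN g'.2
    have h2 : ρ ((g * g' : N) : G) (ρ (y : G) v) =
        (ω g y * ω g' y) • ρ (y : G) (ρ ((g * g' : N) : G) v) := by
      rw [MulMemClass.coe_mul, t4_mul, hω g' y v hv, map_smul, hω g y _ (ap_mem ρ hg' hv),
        smul_smul, t4_mul, mul_comm]
    have h3 : (ω (g * g') y - ω g y * ω g' y) • ρ (y : G) (ρ ((g * g' : N) : G) v) = 0 := by
      rw [sub_smul, ← h1, ← h2, sub_self]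
    rcases smul_eq_zero.1 h3 with h5 | h5
    · exact sub_eq_zero.1 h5
    · exact absurd h5 (key _)

theorem c4e {t : G} {b : ℕ} {X : Submodule k V} (h0 : X ≠ ⊥) {N : Subgroup G}
    (h : Nd ρ t b X N) {ι : Type*} [Finite ι] (y : ι → stb ρ X) (hy : ∀ i, (y i : G) ∈ N)
    (hd : ∀ i j, i ≠ j → ¬ Sca ρ X ((y i : G)⁻¹ * y j)) :
    LinearIndependent k fun i => (resS ρ X (y i) : Module.End k X) := by
  classical
  have := Fintype.ofFinite ι
  obtain ⟨ω, hω⟩ := t4_omega ρ h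
  let χ : ι → (N →* k) := fun i =>
    { toFun := fun g => ω g ⟨y i, hy i⟩
      map_one' := (t4_omega_mul ρ h0 h ω hω _).1
      map_mul' := (t4_omega_mul ρ h0 h ω hω _).2 }
  have hχ : ∀ i g, χ i g = ω g ⟨y i, hy i⟩ := fun i g => rfl
  have hinj : Function.Injective χ := by
    intro i j hij
    by_contra hne
    apply hd i j hne
    apply h.nd _ (N.mul_mem (N.inv_mem (hy i)) (hy j))
    intro g hg v hv
    have hgs : g ∈ stb ρ X := h.hN hg
    have hyi : (y i : G) ∈ stb ρ X := (y i).2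
    have hyj : (y j : G) ∈ stb ρ X := (y j).2
    have hw : ω ⟨g, hg⟩ ⟨y i, hy i⟩ = ω ⟨g, hg⟩ ⟨y j, hy j⟩ := by
      rw [← hχ, ← hχ, hij]
    -- `x g w = g x w`
    have hcomm : ∀ w ∈ X, ρ ((y i : G)⁻¹ * y j * g) w = ρ (g * ((y i : G)⁻¹ * y j)) w := by
      intro w hw'
      have e1 : ρ g (ρ (y i : G) (ρ (y i : G)⁻¹ (ρ (y j : G) w))) =
          ω ⟨g, hg⟩ ⟨y i, hy i⟩ • ρ (y i : G) (ρ g (ρ (y i : G)⁻¹ (ρ (y j : G) w))) :=
        hω ⟨g, hg⟩ ⟨y i, hy i⟩ _
          (ap_mem ρ ((stb ρ X).inv_mem hyi) (ap_mem ρ hyj hw'))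
      have e2 : ρ g (ρ (y j : G) w) = ω ⟨g, hg⟩ ⟨y j, hy j⟩ • ρ (y j : G) (ρ g w) :=
        hω ⟨g, hg⟩ ⟨y j, hy j⟩ w hw'
      rw [t4_inv, e2, ← hw] at e1
      have hne0 : ω ⟨g, hg⟩ ⟨y i, hy i⟩ ≠ 0 := by
        intro hz
        have h3 := (t4_omega_mul ρ h0 h ω hω ⟨y i, hy i⟩).2 ⟨g, hg⟩⁻¹ ⟨g, hg⟩
        rw [inv_mul_cancel, (t4_omega_mul ρ h0 h ω hω ⟨y i, hy i⟩).1, hz, mul_zero] at h3
        exact one_ne_zero h3
      have e3 : ρ (y j : G) (ρ g w) = ρ (y i : G) (ρ g (ρ (y i : G)⁻¹ (ρ (y j : G) w))) :=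
        smul_right_injective V hne0 e1
      rw [t4_mul, t4_mul, e3, t4_inv', t4_mul, t4_mul]
    have e4 := hcomm (ρ ((y i : G)⁻¹ * y j)⁻¹ (ρ g⁻¹ v))
      (ap_mem ρ ((stb ρ X).inv_mem ((stb ρ X).mul_mem ((stb ρ X).inv_mem hyi) hyj))
        (ap_mem ρ ((stb ρ X).inv_mem hgs) hv))
    have e5 : ρ (g * ((y i : G)⁻¹ * y j)) (ρ ((y i : G)⁻¹ * y j)⁻¹ (ρ g⁻¹ v)) = v := by
      rw [t4_mul, t4_inv, t4_inv]
    rw [e5] at e4
    have e6 : ρ ⁅(y i : G)⁻¹ * y j, g⁆ v =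
        ρ ((y i : G)⁻¹ * y j * g) (ρ ((y i : G)⁻¹ * y j)⁻¹ (ρ g⁻¹ v)) := by
      rw [← t4_mul, ← t4_mul, commutatorElement_def]
    rw [e6, e4]
  have hli : LinearIndependent k fun i => (χ i : N → k) :=
    (linearIndependent_monoidHom N k).comp χ hinj
  rw [Fintype.linearIndependent_iff]
  intro a ha i
  have h1 : ∀ v ∈ X, ∑ j, a j • ρ (y j : G) v = 0 := by
    intro v hv
    have h2 := congrArg (fun f : Module.End k X => ((f ⟨v, hv⟩ : X) : V)) ha
    simp only [LinearMap.sum_apply, LinearMap.smul_apply, LinearMap.zero_apply] at h2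
    rw [AddSubmonoidClass.coe_finsetSum] at h2
    exact h2
  have h2 : ∀ v ∈ X, ∀ g : N, ∑ j, (a j * χ j g) • ρ (y j : G) v = 0 := by
    intro v hv g
    have hgs : (g : G) ∈ stb ρ X := h.hN g.2
    have hv' : ρ (g : G)⁻¹ v ∈ X := ap_mem ρ ((stb ρ X).inv_mem hgs) hv
    have h3 := congrArg (ρ (g : G)) (h1 _ hv')
    rw [map_sum, map_zero] at h3
    rw [← h3]
    apply Finset.sum_congr rfl
    intro j _
    have h4 : ρ (g : G) (ρ (y j : G) (ρ (g : G)⁻¹ v)) =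
        ω g ⟨y j, hy j⟩ • ρ (y j : G) (ρ (g : G) (ρ (g : G)⁻¹ v)) :=
      hω g ⟨y j, hy j⟩ _ hv'
    rw [map_smul, h4, t4_inv, smul_smul, hχ]
  obtain ⟨v, hv, hv0⟩ := X.ne_bot_iff.1 h0
  have h3 : ∀ φ : Module.Dual k V, a i * φ (ρ (y i : G) v) = 0 := by
    intro φ
    have h4 : ∑ j, (a j * φ (ρ (y j : G) v)) • (χ j : N → k) = 0 := by
      funext g
      rw [Finset.sum_apply, Pi.zero_apply]
      have h5 := congrArg φ (h2 v hv g)
      rw [map_sum, map_zero] at h5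
      rw [← h5]
      apply Finset.sum_congr rfl
      intro j _
      rw [Pi.smul_apply, smul_eq_mul, map_smul, smul_eq_mul]
      ring
    exact (Fintype.linearIndependent_iff.1 hli) _ h4 i
  have h4 : a i • ρ (y i : G) v = 0 := by
    rw [← Module.forall_dual_apply_eq_zero_iff k]
    intro φ
    rw [map_smul, smul_eq_mul]
    exact h3 φ
  rcases smul_eq_zero.1 h4 with h5 | h5
  · exact h5
  · exfalso
    apply hv0
    rw [← t4_inv' ρ (y i : G) v, h5, map_zero]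

private theorem t4_stb {N : Subgroup G} {X : Submodule k V}
    (h : ∀ g ∈ N, ∀ v ∈ X, ρ g v ∈ X) : N ≤ stb ρ X := by
  intro g hg
  rw [mem_stb]
  apply le_antisymm
  · intro v hv
    rw [mem_tr] at hv
    have h1 := h g hg _ hv
    rw [t4_inv] at h1
    exact h1
  · intro v hv
    rw [mem_tr]
    exact h g⁻¹ (N.inv_mem hg) v hv

private theorem t4_schur [IsAlgClosed k] [FiniteDimensional k V] {N : Subgroup G}
    {X : Submodule k V} (h0 : X ≠ ⊥) (hN : N ≤ stb ρ X)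
    (hirr : ∀ X' : Submodule k V, X' ≤ X → N ≤ stb ρ X' → X' = ⊥ ∨ X' = X)
    (φ : Module.End k V) (hφ : ∀ v ∈ X, φ v ∈ X)
    (hc : ∀ n ∈ N, ∀ v ∈ X, φ (ρ n v) = ρ n (φ v)) : ∃ c : k, ∀ v ∈ X, φ v = c • v := by
  haveI : Nontrivial X := Submodule.nontrivial_iff_ne_bot.2 h0
  obtain ⟨c, hc1⟩ := Module.End.exists_eigenvalue (φ.restrict hφ)
  obtain ⟨w, hw⟩ := hc1.exists_hasEigenvector
  refine ⟨c, ?_⟩
  let X' : Submodule k V := X ⊓ LinearMap.ker (φ - c • (1 : Module.End k V))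
  have hmem : ∀ v, v ∈ X' ↔ v ∈ X ∧ φ v = c • v := by
    intro v
    rw [Submodule.mem_inf, LinearMap.mem_ker, LinearMap.sub_apply, sub_eq_zero,
      LinearMap.smul_apply, Module.End.one_apply]
  have h1 : N ≤ stb ρ X' := by
    apply t4_stb ρ
    intro g hg v hv
    rw [hmem] at hv ⊢
    refine ⟨ap_mem ρ (hN hg) hv.1, ?_⟩
    rw [hc g hg v hv.1, hv.2, map_smul]
  have h2 : X' ≠ ⊥ := by
    intro hbot
    have h3 : (w : V) ∈ X' := by
      rw [hmem]
      refine ⟨w.2, ?_⟩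
      have h4 := congrArg (fun z : X => (z : V)) hw.apply_eq_smul
      exact h4
    rw [hbot, Submodule.mem_bot] at h3
    apply hw.2
    exact Subtype.ext h3
  rcases hirr X' inf_le_left h1 with h3 | h3
  · exact absurd h3 h2
  · intro v hv
    rw [← h3] at hv
    exact ((hmem v).1 hv).2

theorem c4f [IsAlgClosed k] [FiniteDimensional k V] {s : ℕ} [Fact s.Prime] (hs : (s : k) ≠ 0)
    {t : G} {b : ℕ} {X : Submodule k V} {N : Subgroup G} [Fintype N] (hNs : IsPGroup s N)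
    (h : Nd ρ t b X N) (hirr : ∀ X' : Submodule k V, X' ≤ X → N ≤ stb ρ X' → X' = ⊥ ∨ X' = X)
    (f : Module.End k X) :
    ∃ a : N → k, f = ∑ y : N, a y • (resS ρ X ⟨y, h.hN y.2⟩ : Module.End k X) := by
  have h0 : X ≠ ⊥ := by
    rintro rfl
    obtain ⟨x, hx, hx'⟩ := h.ne
    apply hx'
    refine ⟨0, fun v hv => ?_⟩
    rw [Submodule.mem_bot] at hv
    rw [hv, map_zero, smul_zero]
  obtain ⟨f', hf'⟩ := LinearMap.exists_extend (p := X) (X.subtype ∘ₗ f)
  have hf1 : ∀ v : X, f' (v : V) = ((f v : X) : V) := by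
    intro v
    exact congrArg (fun g : X →ₗ[k] V => g v) hf'
  obtain ⟨Φ, hΦ1, hΦ2, hΦ3⟩ := c4a ρ hs hNs h X X le_rfl le_rfl h.hN h.hN f'
    (fun v hv => by rw [hf1 ⟨v, hv⟩]; exact (f ⟨v, hv⟩).2)
  have h1 : ∀ y : N, ∃ c : k, ∀ v ∈ X, Φ y v = c • v :=
    fun y => t4_schur ρ h0 h.hN hirr (Φ y) (hΦ1 y) (hΦ2 y)
  choose a ha using h1
  refine ⟨a, ?_⟩
  apply LinearMap.ext
  intro v
  apply Subtype.ext
  rw [LinearMap.sum_apply, AddSubmonoidClass.coe_finsetSum, ← hf1 v, hΦ3 v v.2]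
  apply Finset.sum_congr rfl
  intro y _
  rw [ha y v v.2, map_smul, LinearMap.smul_apply]
  rfl

/-- the scalars in `N` -/
private def scS (X : Submodule k V) (N : Subgroup G) (hN : N ≤ stb ρ X) : Subgroup N where
  carrier := {n | Sca ρ X (n : G)}
  mul_mem' := by
    rintro a b ⟨c, hc⟩ ⟨d, hd⟩
    refine ⟨d * c, fun v hv => ?_⟩
    rw [MulMemClass.coe_mul, t4_mul, hd v hv, map_smul, hc v hv, smul_smul]
  one_mem' := ⟨1, fun v _ => by
    rw [OneMemClass.coe_one, map_one, Module.End.one_apply, one_smul]⟩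
  inv_mem' := by
    rintro a ⟨c, hc⟩
    refine ⟨c⁻¹, fun v hv => ?_⟩
    have h1 : ρ ((a : G)⁻¹) v ∈ X := ap_mem ρ ((stb ρ X).inv_mem (hN a.2)) hv
    have h2 := hc _ h1
    rw [t4_inv] at h2
    rw [InvMemClass.coe_inv]
    by_cases hc0 : c = 0
    · rw [hc0, zero_smul] at h2
      rw [h2, map_zero, smul_zero]
    · exact ((inv_smul_eq_iff₀ hc0).2 h2).symm

private theorem scS_normal (X : Submodule k V) (N : Subgroup G) (hN : N ≤ stb ρ X) :
    (scS ρ X N hN).Normal := by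
  constructor
  rintro n ⟨c, hc⟩ g
  refine ⟨c, fun v hv => ?_⟩
  have h1 : ρ ((g : G)⁻¹) v ∈ X := ap_mem ρ ((stb ρ X).inv_mem (hN g.2)) hv
  rw [MulMemClass.coe_mul, MulMemClass.coe_mul, InvMemClass.coe_inv, t4_mul, t4_mul, hc _ h1,
    map_smul, t4_inv]

theorem c4g [IsAlgClosed k] [FiniteDimensional k V] {s : ℕ} [Fact s.Prime] (hs : (s : k) ≠ 0)
    {t : G} {b : ℕ} {X : Submodule k V} (h0 : X ≠ ⊥) {N : Subgroup G} [Finite N]
    (hNs : IsPGroup s N) (h : Nd ρ t b X N)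
    (hirr : ∀ X' : Submodule k V, X' ≤ X → N ≤ stb ρ X' → X' = ⊥ ∨ X' = X) :
    ∃ (ι : Type u) (_ : Fintype ι) (A : Basis ι k (Module.End k X)) (σ : Equiv.Perm ι) (o : ι),
      σ o = o ∧ (∀ i, ∃ c : k, (resS ρ X ⟨t, h.htU⟩ : Module.End k X) * A i =
        c • (A (σ i) * (resS ρ X ⟨t, h.htU⟩ : Module.End k X))) ∧
      (∀ i, i ≠ o → ∀ j : ℕ, ¬ b ∣ j → (σ ^ j) i ≠ i) ∧ 2 ≤ Fintype.card ι ∧
      ∃ m : ℕ, Fintype.card ι = s ^ m := by
  classical
  have := Fintype.ofFinite N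
  let S := scS ρ X N h.hN
  haveI hSn : S.Normal := scS_normal ρ X N h.hN
  have hmemS : ∀ n : N, n ∈ S ↔ Sca ρ X (n : G) := fun n => Iff.rfl
  haveI : Fintype (N ⧸ S) := Fintype.ofFinite _
  -- representatives
  let r : N ⧸ S → N := fun q => q.out
  have hr : ∀ q : N ⧸ S, (QuotientGroup.mk (r q) : N ⧸ S) = q := fun q => q.out_eq'
  have hrr : ∀ n : N, Sca ρ X ((n : G)⁻¹ * r (QuotientGroup.mk n)) := by
    intro n
    have h1 : (QuotientGroup.mk n : N ⧸ S) = QuotientGroup.mk (r (QuotientGroup.mk n)) :=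
      (hr _).symm
    have h2 := QuotientGroup.eq.1 h1
    exact (hmemS _).1 h2
  let y : N ⧸ S → stb ρ X := fun q => ⟨r q, h.hN (r q).2⟩
  have hli : LinearIndependent k fun i : N ⧸ S => (resS ρ X (y i) : Module.End k X) := by
    apply c4e ρ h0 h y (fun i => (r i).2)
    intro i j hij hs'
    apply hij
    have h1 : (r i)⁻¹ * r j ∈ S := (hmemS _).2 hs'
    rw [← hr i, ← hr j]
    exact QuotientGroup.eq.2 h1
  have hsp : ⊤ ≤ Submodule.span k (Set.range fun i : N ⧸ S => (resS ρ X (y i) : Module.End k X)) := by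
    intro f _
    obtain ⟨a, ha⟩ := c4f ρ hs hNs h hirr f
    rw [ha]
    apply Submodule.sum_mem
    intro n _
    apply Submodule.smul_mem
    obtain ⟨c, hc⟩ := hrr n
    have h1 : (resS ρ X (y (QuotientGroup.mk n)) : Module.End k X) =
        c • (resS ρ X ⟨n, h.hN n.2⟩ : Module.End k X) := by
      apply LinearMap.ext
      intro v
      apply Subtype.ext
      have h2 := hc v v.2
      rw [t4_mul] at h2
      have h3 := congrArg (ρ (n : G)) h2
      rw [t4_inv, map_smul] at h3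
      exact h3
    have hc0 : c ≠ 0 := by
      intro hc0
      obtain ⟨v, hv, hv0⟩ := X.ne_bot_iff.1 h0
      have h2 := hc v hv
      rw [hc0, zero_smul] at h2
      apply hv0
      have h3 : ρ ((n : G)⁻¹ * r (QuotientGroup.mk n))⁻¹
        (ρ ((n : G)⁻¹ * r (QuotientGroup.mk n)) v) = v := t4_inv' ρ _ v
      rw [h2, map_zero] at h3
      exact h3.symm
    have h2 : (resS ρ X ⟨n, h.hN n.2⟩ : Module.End k X) =
        c⁻¹ • (resS ρ X (y (QuotientGroup.mk n)) : Module.End k X) := by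
      rw [h1, smul_smul, inv_mul_cancel₀ hc0, one_smul]
    rw [h2]
    apply Submodule.smul_mem
    exact Submodule.subset_span ⟨_, rfl⟩
  -- the permutation
  let cj : MulAut N := N.normalizerMonoidHom ⟨t, h.ht⟩
  have hcj : ∀ n : N, ((cj n : N) : G) = t * n * t⁻¹ := fun n => rfl
  have hcjS : ∀ n : N, cj n ∈ S ↔ n ∈ S := by
    intro n
    rw [hmemS, hmemS, hcj]
    constructor
    · rintro ⟨c, hc⟩
      refine ⟨c, fun v hv => ?_⟩
      have h1 := hc (ρ t v) (ap_mem ρ h.htU hv)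
      rw [← t4_mul, inv_mul_cancel_right, t4_mul, ← map_smul] at h1
      have h2 := congrArg (ρ t⁻¹) h1
      rw [t4_inv', t4_inv'] at h2
      exact h2
    · rintro ⟨c, hc⟩
      refine ⟨c, fun v hv => ?_⟩
      rw [t4_mul, t4_mul, hc _ (ap_mem ρ ((stb ρ X).inv_mem h.htU) hv), map_smul, t4_inv]
  let σf : N ⧸ S →* N ⧸ S := QuotientGroup.map S S cj.toMonoidHom (fun n hn => (hcjS n).2 hn)
  have hσf : ∀ n : N, σf (QuotientGroup.mk n) = QuotientGroup.mk (cj n) := fun n => rfl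
  have hinj : Function.Injective σf := by
    rw [injective_iff_map_eq_one]
    intro q hq
    obtain ⟨n, rfl⟩ := QuotientGroup.mk_surjective q
    rw [hσf] at hq
    rw [QuotientGroup.eq_one_iff] at hq ⊢
    exact (hcjS n).1 hq
  let σ : Equiv.Perm (N ⧸ S) := Equiv.ofBijective σf (Finite.injective_iff_bijective.1 hinj)
  have hσ : ∀ n : N, σ (QuotientGroup.mk n) = QuotientGroup.mk (cj n) := fun n => rfl
  have hσj : ∀ (j : ℕ) (n : N), (σ ^ j) (QuotientGroup.mk n) = QuotientGroup.mk ((cj ^ j) n) := by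
    intro j
    induction j with
    | zero => intro n; rfl
    | succ j ih =>
      intro n
      rw [pow_succ, Equiv.Perm.mul_apply, hσ, ih, pow_succ, MulAut.mul_apply]
  have hcjj : ∀ (j : ℕ) (n : N), (((cj ^ j) n : N) : G) = t ^ j * n * (t ^ j)⁻¹ := by
    intro j
    induction j with
    | zero => intro n; simp
    | succ j ih =>
      intro n
      rw [pow_succ, MulAut.mul_apply, ih, hcj, pow_succ, mul_inv_rev]
      group
  refine ⟨N ⧸ S, inferInstance, Basis.mk hli hsp, σ, 1, ?_, ?_, ?_, ?_, ?_⟩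
  · exact map_one σf
  · intro i
    rw [Basis.mk_apply, Basis.mk_apply]
    have h1 : (QuotientGroup.mk (cj (r i)) : N ⧸ S) = σ i := by
      rw [← hσ, hr]
    obtain ⟨c, hc⟩ := hrr (cj (r i))
    rw [h1] at hc
    -- `r (σ i) = c * t (r i) t⁻¹`
    have hc0 : c ≠ 0 := by
      intro hc0
      obtain ⟨v, hv, hv0⟩ := X.ne_bot_iff.1 h0
      have h2 := hc v hv
      rw [hc0, zero_smul] at h2
      apply hv0
      have h3 : ρ (((cj (r i) : N) : G)⁻¹ * r (σ i))⁻¹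
        (ρ (((cj (r i) : N) : G)⁻¹ * r (σ i)) v) = v := t4_inv' ρ _ v
      rw [h2, map_zero] at h3
      exact h3.symm
    refine ⟨c⁻¹, ?_⟩
    apply LinearMap.ext
    intro v
    apply Subtype.ext
    have htv : ρ t (v : V) ∈ X := ap_mem ρ h.htU v.2
    have h2 := hc _ htv
    rw [t4_mul] at h2
    have h3 := congrArg (ρ ((cj (r i) : N) : G)) h2
    rw [t4_inv, map_smul, hcj, ← t4_mul ρ (t * (r i : G) * t⁻¹), inv_mul_cancel_right] at h3
    show ρ t (ρ (r i : G) (v : V)) = c⁻¹ • ρ (r (σ i) : G) (ρ t (v : V))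
    rw [h3, smul_smul, inv_mul_cancel₀ hc0, one_smul, t4_mul]
  · intro i hi j hj hij
    apply hi
    rw [← hr i, hσj] at hij
    have h1 := QuotientGroup.eq.1 hij
    rw [hmemS, MulMemClass.coe_mul, InvMemClass.coe_inv, hcjj] at h1
    -- `(t^j r t^-j)⁻¹ r` scalar, so `⁅r, t^j⁆` scalar
    obtain ⟨c, hc⟩ := h1
    have hrs : (r i : G) ∈ stb ρ X := h.hN (r i).2
    have h2 : Sca ρ X ⁅(r i : G), t ^ j⁆ := by
      refine ⟨c, fun v hv => ?_⟩
      have h3 := hc (ρ (r i : G)⁻¹ v) (ap_mem ρ ((stb ρ X).inv_mem hrs) hv)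
      have h4 := congrArg (ρ (r i : G)) h3
      rw [map_smul, t4_inv, ← t4_mul, ← t4_mul] at h4
      have h5 : (r i : G) * ((t ^ j * (r i : G) * (t ^ j)⁻¹)⁻¹ * (r i : G)) * (r i : G)⁻¹ =
          ⁅(r i : G), t ^ j⁆ := by
        rw [commutatorElement_def]
        group
      rw [← h5]
      exact h4
    have h3 := h.fr j hj (r i) (r i).2 h2
    rw [← hr i, QuotientGroup.eq_one_iff]
    exact (hmemS _).2 h3
  · obtain ⟨x, hx, hx'⟩ := h.ne
    have h1 : (QuotientGroup.mk (⟨x, hx⟩ : N) : N ⧸ S) ≠ 1 := by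
      intro h2
      rw [QuotientGroup.eq_one_iff] at h2
      exact hx' h2
    exact Fintype.one_lt_card_iff.2 ⟨_, _, h1⟩
  · have h1 : IsPGroup s (N ⧸ S) := hNs.to_quotient S
    obtain ⟨m, hm⟩ := IsPGroup.iff_card.1 h1
    exact ⟨m, by rw [← Nat.card_eq_fintype_card, hm]⟩

private theorem t4_ev {t : G} {X : Submodule k V} (ht : t ∈ stb ρ X) {l : k}
    (h : Module.End.HasEigenvalue (resS ρ X ⟨t, ht⟩ : Module.End k X) l) : Ev ρ t X l := by
  obtain ⟨w, hw⟩ := h.exists_hasEigenvector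
  refine ⟨w, w.2, fun h0 => hw.2 (Subtype.ext h0), ?_⟩
  exact congrArg (fun z : X => (z : V)) hw.apply_eq_smul

theorem c4d [IsAlgClosed k] [FiniteDimensional k V] {s : ℕ} [Fact s.Prime] (hs : (s : k) ≠ 0)
    {t : G} {b : ℕ} (hb : (b : k) ≠ 0) {X : Submodule k V} (h0 : X ≠ ⊥) {N : Subgroup G}
    [Finite N] (hNs : IsPGroup s N) (h : Nd ρ t b X N) (htb : Tri ρ X (t ^ b))
    (hirr : ∀ X' : Submodule k V, X' ≤ X → N ≤ stb ρ X' → X' = ⊥ ∨ X' = X) :
    (∀ l : k, l ^ b = 1 → Ev ρ t X l) ∨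
      ∃ m : ℕ, 1 ≤ m ∧ s ^ m + 1 = b ∧ ∃ μ : k, ∀ l : k, l ^ b = 1 → l ≠ μ → Ev ρ t X l := by
  obtain ⟨ι, _, A, σ, o, h1, h2, h3, h4, m, h5⟩ := c4g ρ hs h0 hNs h hirr
  have hT : (resS ρ X ⟨t, h.htU⟩ : Module.End k X) ^ b = 1 := by
    rw [← map_pow]
    apply LinearMap.ext
    intro v
    apply Subtype.ext
    exact htb v v.2
  have hsp : s.Prime := Fact.out
  have hn : finrank k X * finrank k X = s ^ m := by
    rw [← h5, ← finrank_eq_card_basis A, finrank_linearMap]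
  obtain ⟨m', -, hm'⟩ := (Nat.dvd_prime_pow hsp).1 ⟨finrank k X, hn.symm⟩
  have hm1 : 1 ≤ m' := by
    by_contra hlt
    have : m' = 0 := by omega
    rw [this, pow_zero] at hm'
    rw [h5, ← hn, hm'] at h4
    omega
  have h6 : 2 ≤ finrank k X := by
    rw [hm']
    calc 2 ≤ s := hsp.two_le
      _ = s ^ 1 := (pow_one s).symm
      _ ≤ s ^ m' := Nat.pow_le_pow_right hsp.pos hm1
  rcases c5 b hb _ hT A σ o h1 h2 h3 h6 with h7 | ⟨h7, μ, h8⟩
  · exact Or.inl fun l hl => t4_ev ρ h.htU (h7 l hl)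
  · exact Or.inr ⟨m', hm1, by rw [h7, hm'], μ, fun l hl hlm => t4_ev ρ h.htU (h8 l hl hlm)⟩

/-- the T-lemma -/
theorem tl [IsAlgClosed k] [FiniteDimensional k V] {s : ℕ} [Fact s.Prime] (hs : (s : k) ≠ 0)
    (P : Subgroup G) [Finite P] (hP : IsPGroup s P) (b : ℕ) (hb : (b : k) ≠ 0) (t : G)
    (hF : Full t b P) (U : Submodule k V) (hPU : P ≤ stb ρ U) (htU : t ∈ stb ρ U)
    (htb : Tri ρ U (t ^ b)) (hnt : ∃ p ∈ P, ¬ Tri ρ U p) : Cl s b (Ev ρ t U) := by
  induction b using Nat.strong_induction_on generalizing t U with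
  | _ b ih =>
    have hb0 : b ≠ 0 := by
      rintro rfl
      apply hb
      rw [Nat.cast_zero]
    rcases Nat.lt_or_ge 1 b with hb1 | hb1
    · have hIH : IHb ρ s b P := fun b' hb' hbk t' hF' U' h1 h2 h3 h4 =>
        ih b' hb' hbk t' hF' U' h1 h2 h3 h4
      obtain ⟨U', hU', hI⟩ := exists_ir ρ hs P hP t hF.1 U hPU htU hnt
      have htb' : Tri ρ U' (t ^ b) := fun v hv => htb v (hU' hv)
      have key : Cl s b (Ev ρ t U') := by
        by_cases hNB : ∀ W₀ : Submodule k V, W₀ ≤ U' → W₀ ≠ ⊥ → sSupIndep (Bl ρ P t W₀) → W₀ = U'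
        · obtain ⟨N, hNP, hN⟩ := c3 ρ hP hb1 hF hI
            (fun A h1 h2 h3 h4 => c2 ρ hI hNB A h1 h2 h3 h4)
          haveI : Finite N := Finite.of_injective (Subgroup.inclusion hNP)
            (Subgroup.inclusion_injective hNP)
          have hNs : IsPGroup s N := hP.to_le hNP
          obtain ⟨X, hX1, hX2, hX3, hX4, hX5⟩ := c4 ρ hs hI.ne hNs hN
          have h1 := c4d ρ hs hb hX2 hNs (hN.sub ρ hX1 hX2 hX3 hX4)
            (fun v hv => htb' v (hX1 hv)) hX5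
          have hmono : ∀ l, Ev ρ t X l → Ev ρ t U' l := fun l ⟨u, hu, h⟩ => ⟨u, hX1 hu, h⟩
          rcases h1 with h1 | ⟨m, hm, hm2, μ, h2⟩
          · exact Or.inl fun l hl => hmono l (h1 l hl)
          · exact Or.inr ⟨1, m, μ, hm, by rw [one_mul, hm2], fun l hl hlm =>
              hmono l (h2 l hl (by rw [pow_one] at hlm; exact hlm))⟩
        · push Not at hNB
          obtain ⟨W₀, h1, h2, h3, h4⟩ := hNB
          exact c1 ρ hP hb1 hb hIH hF hI htb' W₀ h1 h2 h3 h4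
      exact key.mono fun l ⟨u, hu, h⟩ => ⟨u, hU' hu, h⟩
    · have hb' : b = 1 := by omega
      subst hb'
      left
      intro l hl
      rw [pow_one] at hl
      obtain ⟨p, hp, hnp⟩ := hnt
      unfold Tri at hnp
      push Not at hnp
      obtain ⟨v, hv, hv'⟩ := hnp
      refine ⟨v, hv, ?_, ?_⟩
      · rintro rfl
        exact hv' (map_zero _)
      · have h1 := htb v hv
        rw [pow_one] at h1
        rw [h1, hl, one_smul]

end MP0d06d9R
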